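import Pool.Agent.W868.Defs

/-!
# The stability predicate and the stable core: the definitions
-/

set_option autoImplicit false

namespace Pool.Agent.Y588

open Pool.Agent.W868
open ZFSet (pair)

/-- The formulas with bounded quantifiers. -/
inductive IsSigma0 : {n : ℕ} → Fml Empty n → Prop
  | mem {n : ℕ} (s t : Fin n ⊕ Empty) : IsSigma0 (.mem s t)
  | eq {n : ℕ} (s t : Fin n ⊕ Empty) : IsSigma0 (.eq s t)
  | neg {n : ℕ} {φ : Fml Empty n} : IsSigma0 φ → IsSigma0 (.neg φ)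
  | and {n : ℕ} {φ ψ : Fml Empty n} : IsSigma0 φ → IsSigma0 ψ → IsSigma0 (.and φ ψ)
  | bex {n : ℕ} (i : Fin n) {φ : Fml Empty (n + 1)} : IsSigma0 φ →
      IsSigma0 (.ex (.and (.mem (Sum.inl 0) (Sum.inl i.succ)) φ))

/-- The Levy hierarchy: `IsSigma k φ` says that `φ` is a `Σ_k` formula. The `Σ_(k+1)` formulas
are obtained from the negations of `Σ_k` formulas by existential quantification. -/
inductive IsSigma : ℕ → {n : ℕ} → Fml Empty n → Prop
  | zero {n : ℕ} {φ : Fml Empty n} : IsSigma0 φ → IsSigma 0 φ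
  | neg {k n : ℕ} {φ : Fml Empty n} : IsSigma k φ → IsSigma (k + 1) (.neg φ)
  | ex {k n : ℕ} {φ : Fml Empty (n + 1)} : IsSigma (k + 1) φ → IsSigma (k + 1) (.ex φ)

/-- The ordinal `α` is a strong limit cardinal of `M`: an infinite ordinal that has in `M` no
injection into a smaller ordinal, such that the power set in `M` of each smaller ordinal has in
`M` an injection into a smaller ordinal. -/
def IsStrongLimit (M : Set ZFSet.{0}) (α : ZFSet.{0}) : Prop :=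
  α ∈ M ∧ α.IsOrdinal ∧ ZFSet.omega ⊆ α ∧ (∀ β ∈ α, ¬ ∃ f ∈ M, IsInj α β f) ∧
    ∀ β ∈ α, ∃ P ∈ M, (∀ z, z ∈ P ↔ z ∈ M ∧ z ⊆ β) ∧ ∃ γ ∈ α, ∃ f ∈ M, IsInj P γ f

/-- The set `H_α` of `M`: the sets in `M` whose transitive closure has in `M` size less than
`α`. -/
def HM (M : Set ZFSet.{0}) (α : ZFSet.{0}) : Set ZFSet.{0} :=
  {x | x ∈ M ∧ ∃ T ∈ M, (∀ y ∈ T, ∀ z ∈ y, z ∈ T) ∧ x ⊆ T ∧ ∃ β ∈ α, ∃ f ∈ M, IsInj T β f}

/-- The structure `(H, ∈)` satisfies `Σ_k`-collection. -/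
def Collection (k : ℕ) (H : Set ZFSet.{0}) : Prop :=
  ∀ (m : ℕ) (φ : Fml Empty (m + 2)), IsSigma k φ → ∀ p : Fin m → ZFSet.{0}, (∀ i, p i ∈ H) →
    ∀ a ∈ H, (∀ x ∈ a, ∃ y ∈ H, Sat H Empty.elim φ (Fin.cons y (Fin.cons x p))) →
      ∃ b ∈ H, ∀ x ∈ a, ∃ y ∈ b, Sat H Empty.elim φ (Fin.cons y (Fin.cons x p))

/-- In `M`, the ordinal `α` is `k`-good. -/
def Good (M : Set ZFSet.{0}) (k : ℕ) (α : ZFSet.{0}) : Prop :=
  IsStrongLimit M α ∧ Collection k (HM M α)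

/-- The structure `(H, ∈)` is a `Σ_k`-elementary substructure of `(K, ∈)`. -/
def Elem (k : ℕ) (H K : Set ZFSet.{0}) : Prop :=
  H ⊆ K ∧ ∀ (m : ℕ) (φ : Fml Empty m), IsSigma k φ → ∀ v : Fin m → ZFSet.{0}, (∀ i, v i ∈ H) →
    (Sat H Empty.elim φ v ↔ Sat K Empty.elim φ v)

/-- The stability predicate of `M`, a class of triples `(k, α, β)`, coded as `(k, (α, β))`. -/
def Stab (M : Set ZFSet.{0}) : Set ZFSet.{0} :=
  {x | ∃ (k : ℕ) (α β : ZFSet.{0}), 1 ≤ k ∧ x = pair (nat k) (pair α β) ∧ Good M k α ∧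
    Good M k β ∧ Elem k (HM M α) (HM M β)}

/-- Formulas of the language with the membership relation and a unary predicate, with free
variables `0, ..., n - 1`. In `ex φ` the variable `0` of `φ` is bound, and the variable `i + 1`
of `φ` is the variable `i` of `ex φ`. -/
inductive PFml : ℕ → Type
  | mem {n : ℕ} (i j : Fin n) : PFml n
  | eq {n : ℕ} (i j : Fin n) : PFml n
  | prd {n : ℕ} (i : Fin n) : PFml n
  | neg {n : ℕ} (φ : PFml n) : PFml n
  | and {n : ℕ} (φ ψ : PFml n) : PFml n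
  | ex {n : ℕ} (φ : PFml (n + 1)) : PFml n

/-- Truth in the structure `(X, ∈, A ∩ X)`. -/
def PSat (A : Set ZFSet.{0}) (X : ZFSet.{0}) : {n : ℕ} → PFml n → (Fin n → ZFSet.{0}) → Prop
  | _, .mem i j, v => v i ∈ v j
  | _, .eq i j, v => v i = v j
  | _, .prd i, v => v i ∈ A
  | _, .neg φ, v => ¬ PSat A X φ v
  | _, .and φ ψ, v => PSat A X φ v ∧ PSat A X ψ v
  | _, .ex φ, v => ∃ a ∈ X, PSat A X φ (Fin.cons a v)

/-- The set of all subsets of `X` that are definable with parameters in `(X, ∈, A ∩ X)`. -/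
noncomputable def Defs (A : Set ZFSet.{0}) (X : ZFSet.{0}) : ZFSet.{0} :=
  ZFSet.sep (fun y => ∃ (n : ℕ) (φ : PFml (n + 1)) (v : Fin n → ZFSet.{0}), (∀ i, v i ∈ X) ∧
    ∀ z ∈ X, z ∈ y ↔ PSat A X φ (Fin.cons z v)) (ZFSet.powerset X)

/-- The levels of the constructible hierarchy relative to the class `A`: `LA A α` is the union
of the sets `Defs A (LA A β)` for `β < α`. -/
noncomputable def LA (A : Set ZFSet.{0}) (α : Ordinal.{0}) : ZFSet.{0} :=
  ZFSet.sUnion (ZFSet.range fun β : Set.Iio α => Defs A (LA A β.1))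
termination_by α
decreasing_by exact β.2

/-- The class `L[S]` of `M`, where `S` is the stability predicate of `M`. -/
def StableCore (M : Set ZFSet.{0}) : Set ZFSet.{0} :=
  {x | ∃ α : Ordinal.{0}, α.toZFSet ∈ M ∧ x ∈ LA (Stab M) α}

end Pool.Agent.Y588
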