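import Pool.Agent.Y588.Pf
import Pool.Agent.Y588.SDefs

/-!
# Assignments: functions from the natural numbers to a set
-/

set_option autoImplicit false
set_option linter.unreachableTactic false
set_option linter.unusedTactic false
set_option linter.unusedSectionVars false

namespace Pool.Agent.Y588

open Pool.Agent.W868 Pool.Agent.W868.GM
open ZFSet (pair)

/-- The set of the functions from the natural numbers to `X` in `M`. -/
noncomputable def fnX (M : Set ZFSet.{0}) (X : ZFSet.{0}) : ZFSet.{0} :=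
  ZFSet.sep (fun s => ZFSet.IsFunc ZFSet.omega X s) (pwM M (ZFSet.prod ZFSet.omega X))

theorem mem_fnX {M : Set ZFSet.{0}} {X s : ZFSet.{0}} :
    s ∈ fnX M X ↔ s ∈ M ∧ ZFSet.IsFunc ZFSet.omega X s := by
  rw [fnX, ZFSet.mem_sep, mem_pwM]
  exact ⟨fun h => ⟨h.1.1, h.2⟩, fun h => ⟨⟨h.1, h.2.1⟩, h.2⟩⟩

theorem fnX' {M : Set ZFSet.{0}} (hM : IsZF M) {n : ℕ}
    {F : (Fin n → ZFSet.{0}) → ZFSet.{0}} (hF : DfnF M M F) :
    DfnF M M fun v => fnX M (F v) := by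
  have hB := hM.base
  have hω := hM.infinity
  refine hM.sep' (Q := fun s v => ZFSet.IsFunc ZFSet.omega (F v) s)
    (pwM' hM (hM.prod' (DfnF.const hω) hF)) ?_
  exact hB.isFunc' (DfnF.const hω) hF.tail (DfnF.proj 0)

theorem fnX_mem {M : Set ZFSet.{0}} (hM : IsZF M) {X : ZFSet.{0}} (hX : X ∈ M) :
    fnX M X ∈ M := (fnX' hM (DfnF.const hX)).1 Fin.elim0 fun i => i.elim0

theorem sc_nat (k : ℕ) : sc (nat k) = nat (k + 1) := rfl

theorem func_pair {X s : ZFSet.{0}} (hs : ZFSet.IsFunc ZFSet.omega X s) (i : ℕ) :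
    pair (nat i) (ap s (nat i)) ∈ s ∧ ap s (nat i) ∈ X := by
  obtain ⟨b, hb, h⟩ := fun_exists hs (nat_mem_omega i)
  rw [ap_func hs h]
  exact ⟨h, hb⟩

theorem func_pair_iff {X s u : ZFSet.{0}} (hs : ZFSet.IsFunc ZFSet.omega X s) (i : ℕ) :
    pair (nat i) u ∈ s ↔ u = ap s (nat i) := by
  constructor
  · exact fun h => (ap_func hs h).symm
  · rintro rfl
    exact (func_pair hs i).1

/-- Two functions with the same values are equal. -/
theorem func_ext {X s t : ZFSet.{0}} (hs : ZFSet.IsFunc ZFSet.omega X s)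
    (ht : ZFSet.IsFunc ZFSet.omega X t) (h : ∀ i : ℕ, ap s (nat i) = ap t (nat i)) : s = t := by
  have key : ∀ {s t : ZFSet.{0}}, ZFSet.IsFunc ZFSet.omega X s →
      ZFSet.IsFunc ZFSet.omega X t → (∀ i : ℕ, ap s (nat i) = ap t (nat i)) → s ⊆ t := by
    intro s t hs ht h p hp
    obtain ⟨a, ha, b, -, rfl⟩ := ZFSet.mem_prod.1 (hs.1 hp)
    obtain ⟨i, rfl⟩ := mem_omega_iff.1 ha
    rw [func_pair_iff hs] at hp
    rw [func_pair_iff ht, hp, h]
  exact ZFSet.ext fun z => ⟨fun hz => key hs ht h hz, fun hz => key ht hs (fun i => (h i).symm) hz⟩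

/-- The sequence `x, s 0, s 1, ...`. -/
noncomputable def cns (x s : ZFSet.{0}) : ZFSet.{0} :=
  insert (pair ∅ x) (im (fun u => pair (sc (fs u)) (sn u)) s)

theorem cns' {M : Set ZFSet.{0}} (hM : IsZF M) {n : ℕ}
    {F G : (Fin n → ZFSet.{0}) → ZFSet.{0}} (hF : DfnF M M F) (hG : DfnF M M G) :
    DfnF M M fun v => cns (F v) (G v) := by
  have hB := hM.base
  have h0 := hM.empty_mem
  refine hB.insert' (hB.pair' (DfnF.const h0) hF) (hM.im' (h := fun u _ => pair (sc (fs u)) (sn u))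
    hG ?_)
  exact hB.pair' (hB.insert' (hM.fs' (DfnF.proj 0)) (hM.fs' (DfnF.proj 0))) (hM.sn' (DfnF.proj 0))

section

variable {X x s : ZFSet.{0}} (hs : ZFSet.IsFunc ZFSet.omega X s) (hx : x ∈ X)

include hs

theorem pair_zero_cns {u : ZFSet.{0}} : pair (nat 0) u ∈ cns x s ↔ u = x := by
  rw [cns, ZFSet.mem_insert_iff, mem_im]
  constructor
  · rintro (h | ⟨p, -, h⟩)
    · exact (ZFSet.pair_inj.1 h).2
    · obtain ⟨h1, -⟩ := ZFSet.pair_inj.1 h
      exact absurd (h1 ▸ ZFSet.mem_insert _ _ : fs p ∈ nat 0) (ZFSet.notMem_empty _)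
  · rintro rfl
    exact Or.inl rfl

theorem pair_succ_cns {i : ℕ} {u : ZFSet.{0}} :
    pair (nat (i + 1)) u ∈ cns x s ↔ pair (nat i) u ∈ s := by
  rw [cns, ZFSet.mem_insert_iff, mem_im]
  constructor
  · rintro (h | ⟨p, hp, h⟩)
    · obtain ⟨h1, -⟩ := ZFSet.pair_inj.1 h
      exact absurd (h1 ▸ ZFSet.mem_insert _ _ : nat i ∈ (∅ : ZFSet.{0})) (ZFSet.notMem_empty _)
    · obtain ⟨a, ha, b, -, rfl⟩ := ZFSet.mem_prod.1 (hs.1 hp)
      obtain ⟨j, rfl⟩ := mem_omega_iff.1 ha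
      rw [fs_pair, sn_pair] at h
      obtain ⟨h1, rfl⟩ := ZFSet.pair_inj.1 h
      have h2 : nat (i + 1) = nat (j + 1) := h1
      have h3 := nat_injective h2
      have h4 : i = j := by omega
      exact h4 ▸ hp
  · intro h
    refine Or.inr ⟨_, h, ?_⟩
    rw [fs_pair, sn_pair]
    rfl

include hx

theorem cns_func : ZFSet.IsFunc ZFSet.omega X (cns x s) := by
  constructor
  · intro p hp
    rcases ZFSet.mem_insert_iff.1 hp with rfl | hp
    · exact ZFSet.pair_mem_prod.2 ⟨ZFSet.omega_zero, hx⟩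
    · obtain ⟨u, hu, rfl⟩ := mem_im.1 hp
      obtain ⟨a, ha, b, hb, rfl⟩ := ZFSet.mem_prod.1 (hs.1 hu)
      rw [fs_pair, sn_pair]
      exact ZFSet.pair_mem_prod.2 ⟨ZFSet.omega_succ ha, hb⟩
  · intro z hz
    obtain ⟨i, rfl⟩ := mem_omega_iff.1 hz
    cases i with
    | zero => exact ⟨x, (pair_zero_cns hs).2 rfl, fun y hy => (pair_zero_cns hs).1 hy⟩
    | succ i =>
      refine ⟨ap s (nat i), (pair_succ_cns hs).2 (func_pair hs i).1, fun y hy => ?_⟩
      exact (func_pair_iff hs i).1 ((pair_succ_cns hs).1 hy)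

theorem ap_cns_zero : ap (cns x s) (nat 0) = x :=
  ap_func (cns_func hs hx) ((pair_zero_cns hs).2 rfl)

theorem ap_cns_succ (i : ℕ) : ap (cns x s) (nat (i + 1)) = ap s (nat i) :=
  ap_func (cns_func hs hx) ((pair_succ_cns hs).2 (func_pair hs i).1)

end

theorem cns_mem {M : Set ZFSet.{0}} (hM : IsZF M) {X x s : ZFSet.{0}} (hx : x ∈ X)
    (hs : s ∈ fnX M X) (hX : X ∈ M) : cns x s ∈ fnX M X := by
  obtain ⟨h1, h2⟩ := mem_fnX.1 hs
  refine mem_fnX.2 ⟨?_, cns_func h2 hx⟩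
  exact (cns' hM (DfnF.const (hM.trans _ hX _ hx)) (DfnF.const h1)).1 Fin.elim0 fun i => i.elim0

/-- The values of an assignment. -/
noncomputable def vl (s : ZFSet.{0}) (n : ℕ) : Fin n → ZFSet.{0} := fun i => ap s (nat i)

theorem vl_cns {X x s : ZFSet.{0}} (hs : ZFSet.IsFunc ZFSet.omega X s) (hx : x ∈ X) (n : ℕ) :
    vl (cns x s) (n + 1) = Fin.cons x (vl s n) := by
  funext i
  refine Fin.cases ?_ (fun i => ?_) i
  · exact ap_cns_zero hs hx
  · exact ap_cns_succ hs hx i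

theorem vl_mem {X s : ZFSet.{0}} (hs : ZFSet.IsFunc ZFSet.omega X s) (n : ℕ) :
    ∀ i, vl s n i ∈ X := fun i => (func_pair hs i).2

/-- All finite assignments are initial segments of assignments. -/
theorem exists_asg {M : Set ZFSet.{0}} (hM : IsZF M) {X x₀ : ZFSet.{0}} (hX : X ∈ M)
    (h₀ : x₀ ∈ X) : ∀ {n : ℕ} (v : Fin n → ZFSet.{0}), (∀ i, v i ∈ X) →
      ∃ s ∈ fnX M X, vl s n = v := by
  intro n
  induction n with
  | zero =>
    intro v _
    refine ⟨ZFSet.prod ZFSet.omega {x₀}, mem_fnX.2 ⟨hM.prod_mem hM.infinity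
      (hM.single_mem (hM.trans _ hX _ h₀)), ?_, ?_⟩, funext fun i => i.elim0⟩
    · intro p hp
      obtain ⟨a, ha, b, hb, rfl⟩ := ZFSet.mem_prod.1 hp
      rw [ZFSet.mem_singleton] at hb
      subst hb
      exact ZFSet.pair_mem_prod.2 ⟨ha, h₀⟩
    · intro z hz
      refine ⟨x₀, ZFSet.pair_mem_prod.2 ⟨hz, by simp⟩, fun y hy => ?_⟩
      simpa using (ZFSet.pair_mem_prod.1 hy).2
  | succ n ih =>
    intro v hv
    obtain ⟨s, hs, h⟩ := ih (Fin.tail v) fun i => hv _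
    refine ⟨cns (v 0) s, cns_mem hM (hv 0) hs hX, ?_⟩
    rw [vl_cns (mem_fnX.1 hs).2 (hv 0), h, Fin.cons_self_tail]

/-- `t` is the sequence `x, s 0, s 1, ...`; a version for bounded formulas. -/
def IsCns (o e X t x s : ZFSet.{0}) : Prop :=
  pair e x ∈ t ∧ ∀ i ∈ o, ∀ j ∈ o, (i ∈ j ∧ (∀ z ∈ j, z ∈ i ∨ z = i) ∧ ∀ z ∈ i, z ∈ j) →
    ∀ u ∈ X, pair i u ∈ s → pair j u ∈ t

theorem isSc_iff {i j : ZFSet.{0}} : (i ∈ j ∧ (∀ z ∈ j, z ∈ i ∨ z = i) ∧ ∀ z ∈ i, z ∈ j) ↔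
    j = sc i := by
  constructor
  · rintro ⟨h1, h2, h3⟩
    ext z
    rw [sc, ZFSet.mem_insert_iff]
    constructor
    · exact fun hz => (h2 z hz).symm
    · rintro (rfl | hz)
      · exact h1
      · exact h3 z hz
  · rintro rfl
    refine ⟨ZFSet.mem_insert _ _, fun z hz => (ZFSet.mem_insert_iff.1 hz).symm, fun z hz =>
      ZFSet.mem_insert_of_mem _ hz⟩

theorem isCns_iff {X t x s : ZFSet.{0}} (hs : ZFSet.IsFunc ZFSet.omega X s) (hx : x ∈ X)
    (ht : ZFSet.IsFunc ZFSet.omega X t) : IsCns ZFSet.omega ∅ X t x s ↔ t = cns x s := by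
  constructor
  · rintro ⟨h1, h2⟩
    apply func_ext ht (cns_func hs hx)
    intro i
    cases i with
    | zero =>
      rw [ap_cns_zero hs hx]
      exact ap_func ht h1
    | succ i =>
      rw [ap_cns_succ hs hx]
      exact ap_func ht (h2 _ (nat_mem_omega i) _ (nat_mem_omega (i + 1)) (isSc_iff.2 rfl) _
        (func_pair hs i).2 (func_pair hs i).1)
  · rintro rfl
    refine ⟨(pair_zero_cns hs).2 rfl, ?_⟩
    intro i hi j hj h u hu hiu
    obtain ⟨k, rfl⟩ := mem_omega_iff.1 hi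
    rw [isSc_iff.1 h]
    exact (pair_succ_cns hs).2 hiu

end Pool.Agent.Y588
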