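import Pool.Agent.Y588.Prv

/-!
# Collection in the sets `H_κ`
-/

set_option autoImplicit false
set_option linter.unreachableTactic false
set_option linter.unusedTactic false
set_option linter.unusedSectionVars false

namespace Pool.Agent.Y588

open Pool.Agent.W868 Pool.Agent.W868.GM
open ZFSet (pair)

/-! ### Absoluteness -/

theorem sigma0_abs {A B : Set ZFSet.{0}} (hA : ∀ x ∈ A, ∀ y ∈ x, y ∈ A)
    (hB : ∀ x ∈ B, ∀ y ∈ x, y ∈ B) (hAB : A ⊆ B) {n : ℕ} {φ : Fml Empty n} (h : IsSigma0 φ) :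
    ∀ v : Fin n → ZFSet.{0}, (∀ i, v i ∈ A) →
      (Sat A Empty.elim φ v ↔ Sat B Empty.elim φ v) := by
  induction h with
  | mem s t => exact fun v _ => Iff.rfl
  | eq s t => exact fun v _ => Iff.rfl
  | neg _ ih => exact fun v hv => not_congr (ih v hv)
  | and _ _ ih ih' => exact fun v hv => and_congr (ih v hv) (ih' v hv)
  | bex i _ ih =>
    intro v hv
    simp only [Sat, Sum.elim_inl, Fin.cons_zero, Fin.cons_succ]
    constructor
    · rintro ⟨a, ha, h1, h2⟩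
      exact ⟨a, hAB ha, h1, (ih _ (cons_mem ha hv)).1 h2⟩
    · rintro ⟨a, ha, h1, h2⟩
      have haA := hA _ (hv i) a h1
      exact ⟨a, haA, h1, (ih _ (cons_mem haA hv)).2 h2⟩

theorem sigma1_up {A B : Set ZFSet.{0}} (hA : ∀ x ∈ A, ∀ y ∈ x, y ∈ A)
    (hB : ∀ x ∈ B, ∀ y ∈ x, y ∈ B) (hAB : A ⊆ B) {k n : ℕ} {φ : Fml Empty n} (h : IsSigma k φ)
    (hk : k = 1) : ∀ v : Fin n → ZFSet.{0}, (∀ i, v i ∈ A) →
      Sat A Empty.elim φ v → Sat B Empty.elim φ v := by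
  induction h with
  | zero _ => omega
  | neg h _ =>
    have hk' := Nat.succ_injective hk
    subst hk'
    intro v hv
    simp only [Sat]
    rw [sigma0_abs hA hB hAB h.sigma0 v hv]
    exact fun h => h
  | ex _ ih =>
    intro v hv
    rintro ⟨a, ha, h⟩
    exact ⟨a, hAB ha, ih hk _ (cons_mem ha hv) h⟩

/-! ### Hulls and collapses -/

/-- The formula that says that the variables `0` and `1` have different elements. -/
def thn (n : ℕ) : Fml Empty (n + 2) :=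
  .ex (.neg (.and (.neg (.and (.mem (Sum.inl 0) (Sum.inl (Fin.succ 0)))
    (.neg (.mem (Sum.inl 0) (Sum.inl (Fin.succ (Fin.succ 0)))))))
    (.neg (.and (.mem (Sum.inl 0) (Sum.inl (Fin.succ (Fin.succ 0))))
    (.neg (.mem (Sum.inl 0) (Sum.inl (Fin.succ 0))))))))

section

variable {C : Set ZFSet.{0}} (hM : IsZF C) {e : ZFSet.{0} → ZFSet.{0}} (hg : GC C e)

include hM hg

theorem hull_collapse {κ a : ZFSet.{0}} (hκ : κ ∈ C) (hκo : κ.IsOrdinal)
    (hω : ZFSet.omega ⊆ κ) (ha : a ∈ C) (hat : ∀ x ∈ a, ∀ y ∈ x, y ∈ a)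
    (h1 : Inj C a κ) {n : ℕ} (φ : Fml Empty (n + 1)) {v : Fin n → ZFSet.{0}}
    (hv : ∀ i, v i ∈ a) (h : ∃ y ∈ C, Sat C Empty.elim φ (Fin.cons y v)) :
    ∃ N ∈ C, (∀ x ∈ N, ∀ y ∈ x, y ∈ N) ∧ a ⊆ N ∧ Inj C N κ ∧
      ∃ y ∈ N, Sat {x | x ∈ N} Empty.elim φ (Fin.cons y v) := by
  let Φ : Fml Empty n := .and (.ex (.ex (thn n))) (.ex φ)
  obtain ⟨H, hH, haH, hHκ, hcl⟩ := exists_small_hull hM hg hκ hκo hω ha h1
    (Φ.map Empty.elim) (over_empty Φ)
  have hHC : {x | x ∈ H} ⊆ C := fun x hx => hM.trans _ hH _ hx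
  have hvH : ∀ i, v i ∈ {x | x ∈ H} := fun i => haH (hv i)
  -- extensionality
  have hXt : Xt H := by
    intro x hx y hy h
    by_contra hne
    obtain ⟨z, hz⟩ : ∃ z, ¬ (z ∈ x ↔ z ∈ y) := by
      by_contra h2
      push Not at h2
      exact hne (ZFSet.ext h2)
    have hzC : z ∈ C := by
      by_cases h3 : z ∈ x
      · exact hM.trans _ (hHC hx) _ h3
      · by_cases h4 : z ∈ y
        · exact hM.trans _ (hHC hy) _ h4
        · exact absurd (iff_of_false h3 h4) hz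
    obtain ⟨a, ha', h3⟩ := hcl.1.1.1.2 (Fin.cons x (Fin.cons y v)) (by
      intro i
      refine Fin.cases ?_ (fun i => ?_) i
      · exact hx
      · refine Fin.cases ?_ (fun i => ?_) i
        · exact hy
        · exact hvH i) (by
      refine ⟨z, hzC, ?_⟩
      intro h3
      apply hz
      have h4 : ¬ (z ∈ x ∧ ¬ z ∈ y) := h3.1
      have h5 : ¬ (z ∈ y ∧ ¬ z ∈ x) := h3.2
      tauto)
    apply h3
    have h4 := h a ha'
    exact ⟨fun h5 => h5.2 (h4.1 h5.1), fun h5 => h5.2 (h4.2 h5.1)⟩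
  refine ⟨im (col H) H, col_im_mem hM hH, col_trans, ?_, ?_, ?_⟩
  · intro x hx
    exact mem_im.2 ⟨x, haH hx, (col_fix hat haH x hx).symm⟩
  · exact Inj.image hM hH hκ hκo hHκ (dfn_col hM hH)
  · obtain ⟨y, hy, h2⟩ := h
    obtain ⟨y', hy', h3⟩ := hcl.2.2 v hvH ⟨y, hy, (sat_empty C id φ _).2 h2⟩
    have hv' : ∀ i, (Fin.cons y' v : Fin (n + 1) → ZFSet.{0}) i ∈ {x | x ∈ H} :=
      cons_mem hy' hvH
    rw [← CL_sat hHC _ hcl.2.1 _ hv', sat_empty] at h3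
    rw [← sat_col hXt φ _ hv'] at h3
    refine ⟨col H y', mem_im.2 ⟨y', hy', rfl⟩, ?_⟩
    have h4 : (fun i => col H ((Fin.cons y' v : Fin (n + 1) → ZFSet.{0}) i)) =
        Fin.cons (col H y') v := by
      funext i
      refine Fin.cases ?_ (fun i => ?_) i
      · rfl
      · exact col_fix hat haH _ (hv i)
    rwa [h4] at h3

/-- Small transitive sets that contain given elements of `H_κ`. -/
theorem exists_tr {κ : ZFSet.{0}} (hκ : κ ∈ C) (hκo : κ.IsOrdinal) (hω : ZFSet.omega ∈ κ) :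
    ∀ {n : ℕ} (v : Fin n → ZFSet.{0}), (∀ i, v i ∈ HM C κ) →
      ∃ T ∈ C, (∀ x ∈ T, ∀ y ∈ x, y ∈ T) ∧ (∀ i, v i ∈ T) ∧ ∃ lam ∈ κ, ZFSet.omega ⊆ lam ∧
        Inj C T lam := by
  intro n
  induction n with
  | zero =>
    intro v _
    exact ⟨∅, hM.empty_mem, fun x hx => absurd hx (ZFSet.notMem_empty _), fun i => i.elim0,
      ZFSet.omega, hω, fun _ h => h,
      Inj.of_subset hM hM.empty_mem hM.infinity (ZFSet.empty_subset _)⟩
  | succ n ih =>
    intro v hv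
    obtain ⟨T, hT, hTt, hvT, lam, hlam, hωl, h1⟩ := ih (Fin.tail v) fun i => hv _
    obtain ⟨hxC, T', hT', hTt', hxT, β, hβ, f, hf, h2⟩ := hv 0
    have hmax : ∀ {x y : ZFSet.{0}}, x ∈ κ → y ∈ κ → ∃ z ∈ κ, x ⊆ z ∧ y ⊆ z := by
      intro x y hx hy
      rcases (hκo.mem hx).subset_total (hκo.mem hy) with h | h
      · exact ⟨y, hy, h, fun _ h => h⟩
      · exact ⟨x, hx, fun _ h => h, h⟩
    obtain ⟨μ, hμ, hlμ, hβμ⟩ := hmax hlam hβ
    have hμC := hM.trans _ hκ _ hμ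
    have hμo := hκo.mem hμ
    have hlC := hM.trans _ hκ _ hlam
    have hβC := hM.trans _ hκ _ hβ
    have hωμ : ZFSet.omega ⊆ μ := fun x hx => hlμ (hωl hx)
    have h3 : Inj C T μ := Inj.trans hM hT hμC h1 (Inj.of_subset hM hlC hμC hlμ)
    have h4 : Inj C T' μ := Inj.trans hM hT' hμC ⟨f, hf, h2⟩ (Inj.of_subset hM hβC hμC hβμ)
    have hins := hM.insert_mem hxC hT'
    have h5 : Inj C (insert (v 0) T') μ := Inj.insert hM hg hμC hμo hωμ hxC hT' h4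
    refine ⟨insert (v 0) T' ∪ T, hM.union_mem hins hT, ?_, ?_, μ, hμ, hωμ,
      Inj.union hM hg hμC hμo hωμ hins hT h5 h3⟩
    · intro x hx y hy
      rw [ZFSet.mem_union, ZFSet.mem_insert_iff] at hx
      rw [ZFSet.mem_union, ZFSet.mem_insert_iff]
      rcases hx with (rfl | hx) | hx
      · exact Or.inl (Or.inr (hxT hy))
      · exact Or.inl (Or.inr (hTt' x hx y hy))
      · exact Or.inr (hTt x hx y hy)
    · intro i
      rw [ZFSet.mem_union, ZFSet.mem_insert_iff]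
      refine Fin.cases ?_ (fun i => ?_) i
      · exact Or.inl (Or.inl rfl)
      · exact Or.inr (hvT i)

omit hg in
theorem mem_HM_of {κ : ZFSet.{0}} {T lam x : ZFSet.{0}} (hT : T ∈ C)
    (hTt : ∀ x ∈ T, ∀ y ∈ x, y ∈ T) (hl : lam ∈ κ) (h : Inj C T lam) (hx : x ∈ T) :
    x ∈ HM C κ := by
  obtain ⟨f, hf, hi⟩ := h
  exact ⟨hM.trans _ hT _ hx, T, hT, hTt, fun y hy => hTt x hx y hy, lam, hl, f, hf, hi⟩

/-- `Σ₁`-collection in `H_κ`. -/
theorem collection_one {κ : ZFSet.{0}} (hκ : κ ∈ C) (hκo : κ.IsOrdinal)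
    (hω : ZFSet.omega ∈ κ) : Collection 1 (HM C κ) := by
  intro m φ hφ p hp a ha h
  have hB := hM.base
  have hHt := HM_trans hM (α := κ)
  obtain ⟨T, hT, hTt, hvT, lam, hlam, hωl, h1⟩ := exists_tr hM hg hκ hκo hω
    (Fin.cons a p) (cons_mem ha hp)
  have haT : a ∈ T := hvT 0
  have hpT : ∀ i, p i ∈ T := fun i => hvT i.succ
  have hlC := hM.trans _ hκ _ hlam
  have hlo := hκo.mem hlam
  have haC := ha.1
  -- small witnesses
  have hw : ∀ x ∈ a, ∃ u ∈ C, fs u ∈ sn u ∧ (∀ z ∈ sn u, ∀ y ∈ z, y ∈ sn u) ∧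
      Inj C (sn u) lam ∧ Sat (HM C κ) Empty.elim φ (Fin.cons (fs u) (Fin.cons x p)) := by
    intro x hx
    have hxT := hTt a haT x hx
    have hxH : x ∈ HM C κ := hHt a ha x hx
    obtain ⟨y, hy, h2⟩ := h x hx
    have h3 := sigma1_up hHt hM.trans (fun z hz => hz.1) hφ rfl _
      (cons_mem hy (cons_mem hxH hp)) h2
    obtain ⟨N, hN, hNt, hTN, h4, y', hy', h5⟩ := hull_collapse hM hg hlC hlo hωl hT hTt h1 φ
      (v := Fin.cons x p) (by
        intro i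
        refine Fin.cases ?_ (fun i => ?_) i
        · exact hxT
        · exact hpT i) ⟨y, hy.1, h3⟩
    have hNH : {x | x ∈ N} ⊆ HM C κ := fun z hz => mem_HM_of hM hN hNt hlam h4 hz
    have h6 := sigma1_up hNt hHt hNH hφ rfl _ (cons_mem hy' (cons_mem (hTN hxT)
      fun i => hTN (hpT i))) h5
    refine ⟨pair y' N, hM.pair_mem (hM.trans _ hN _ hy') hN, ?_⟩
    rw [fs_pair, sn_pair]
    exact ⟨hy', hNt, h4, h6⟩
  set c : ZFSet.{0} → ZFSet.{0} := fun x => chs C e fun u => fs u ∈ sn u ∧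
    (∀ z ∈ sn u, ∀ y ∈ z, y ∈ sn u) ∧ Inj C (sn u) lam ∧
      Sat (HM C κ) Empty.elim φ (Fin.cons (fs u) (Fin.cons x p)) with hc
  have hcd : DfnF C C fun w : Fin 1 → ZFSet.{0} => c (w 0) := by
    refine hM.chs' hg (Q := fun u w => fs u ∈ sn u ∧
      (∀ z ∈ sn u, ∀ y ∈ z, y ∈ sn u) ∧ Inj C (sn u) lam ∧
        Sat (HM C κ) Empty.elim φ (Fin.cons (fs u) (Fin.cons (w 0) p))) ?_
    apply Dfn.and
    · exact Dfn.mem (hM.fs' (DfnF.proj 0)) (hM.sn' (DfnF.proj 0))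
    apply Dfn.and
    · apply hB.ball (hM.sn' (DfnF.proj 0))
      apply hB.ball (DfnF.proj 0)
      exact Dfn.mem (DfnF.proj 0) (hM.sn' (DfnF.proj 2))
    apply Dfn.and
    · exact dfn_inj hM (hM.sn' (DfnF.proj 0)) (DfnF.const hlC)
    · have h2 := dfn_sat (dfn_HM hM hκ) (HM_sub (M := C)) (φ.map Empty.elim) (over_empty φ)
        (m := 2) (Fin.cons (fun w => fs (w 0)) (Fin.cons (fun w => w 1) fun i _ => p i)) (by
          intro i
          refine Fin.cases ?_ (fun i => ?_) i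
          · exact hM.fs' (DfnF.proj 0)
          · refine Fin.cases ?_ (fun i => ?_) i
            · exact DfnF.proj 1
            · exact DfnF.const (hp i).1)
      refine h2.congr fun w _ => ?_
      rw [sat_empty]
      have h3 : (fun i => (Fin.cons (fun w => fs (w 0)) (Fin.cons (fun w => w 1)
          fun i _ => p i) : Fin (m + 2) → (Fin 2 → ZFSet.{0}) → ZFSet.{0}) i w) =
          Fin.cons (fs (w 0)) (Fin.cons (w 1) p) := by
        funext i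
        refine Fin.cases ?_ (fun i => ?_) i
        · rfl
        · refine Fin.cases ?_ (fun i => ?_) i
          · rfl
          · rfl
      rw [h3]
      rfl
  have hcs : ∀ x ∈ a, c x ∈ C ∧ fs (c x) ∈ sn (c x) ∧
      (∀ z ∈ sn (c x), ∀ y ∈ z, y ∈ sn (c x)) ∧ Inj C (sn (c x)) lam ∧
        Sat (HM C κ) Empty.elim φ (Fin.cons (fs (c x)) (Fin.cons x p)) := fun x hx =>
    chs_spec (C := C) (e := e) (P := fun u => fs u ∈ sn u ∧
      (∀ z ∈ sn u, ∀ y ∈ z, y ∈ sn u) ∧ Inj C (sn u) lam ∧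
        Sat (HM C κ) Empty.elim φ (Fin.cons (fs u) (Fin.cons x p))) (hw x hx)
  have hsd : DfnF C C fun w : Fin 1 → ZFSet.{0} => sn (c (w 0)) := hM.sn' hcd
  have hfd : DfnF C C fun w : Fin 1 → ZFSet.{0} => fs (c (w 0)) := hM.fs' hcd
  have haT' : a ⊆ T := fun x hx => hTt a haT x hx
  have hal : Inj C a lam := inj_mono hM haC hT hlC haT' h1
  have hU : Inj C (ZFSet.sUnion (im (fun x => sn (c x)) a)) lam :=
    Inj.iUnion hM hg hlC hlo hωl haC hal (F := fun x => sn (c x)) hsd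
      fun x hx => (hcs x hx).2.2.2.1
  have hUC : ZFSet.sUnion (im (fun x => sn (c x)) a) ∈ C :=
    hM.union _ (hM.im_mem (h := fun x => sn (c x)) haC hsd)
  have hUt : ∀ x ∈ (ZFSet.sUnion (im (fun x => sn (c x)) a) : ZFSet.{0}), ∀ y ∈ x,
      y ∈ (ZFSet.sUnion (im (fun x => sn (c x)) a) : ZFSet.{0}) := by
    intro x hx y hy
    obtain ⟨w, hw', hxw⟩ := ZFSet.mem_sUnion.1 hx
    obtain ⟨u, hu, rfl⟩ := mem_im.1 hw'
    exact ZFSet.mem_sUnion.2 ⟨_, mem_im.2 ⟨u, hu, rfl⟩, (hcs u hu).2.2.1 x hxw y hy⟩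
  obtain ⟨f, hf, hfi⟩ := hU
  refine ⟨im (fun x => fs (c x)) a, ⟨hM.im_mem (h := fun x => fs (c x)) haC hfd, _, hUC, hUt,
    ?_, lam, hlam, f, hf, hfi⟩, ?_⟩
  · intro y hy
    obtain ⟨x, hx, rfl⟩ := mem_im.1 hy
    exact ZFSet.mem_sUnion.2 ⟨_, mem_im.2 ⟨x, hx, rfl⟩, (hcs x hx).2.1⟩
  · intro x hx
    exact ⟨_, mem_im.2 ⟨x, hx, rfl⟩, (hcs x hx).2.2.2.2⟩

end

/-- The strong limit cardinals above `ω` are `1`-good. -/
theorem good_one {C : Set ZFSet.{0}} (hM : IsZF C) {e : ZFSet.{0} → ZFSet.{0}} (hg : GC C e)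
    {κ : ZFSet.{0}} (hκ : IsStrongLimit C κ) (hω : ZFSet.omega ∈ κ) : Good C 1 κ :=
  ⟨hκ, collection_one hM hg hκ.1 hκ.2.1 hω⟩

theorem mem_stab_iff {C : Set ZFSet.{0}} (hM : IsZF C) {e : ZFSet.{0} → ZFSet.{0}}
    (hg : GC C e) {κ : ZFSet.{0}} (hω : ZFSet.omega ∈ κ) :
    pair (nat 1) (pair κ κ) ∈ Stab C ↔ IsStrongLimit C κ := by
  constructor
  · rintro ⟨k, α, β, -, h, h1, -⟩
    obtain ⟨h2, h3⟩ := ZFSet.pair_inj.1 h
    obtain ⟨rfl, -⟩ := ZFSet.pair_inj.1 h3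
    exact h1.1
  · intro h
    have h1 := good_one hM hg h hω
    exact ⟨1, κ, κ, le_rfl, rfl, h1, h1, fun _ h => h, fun m φ _ v _ => Iff.rfl⟩

end Pool.Agent.Y588
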