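import Pool.Agent.Y588.Slim

/-!
# The coding forcing
-/

set_option autoImplicit false
set_option linter.unreachableTactic false
set_option linter.unusedTactic false
set_option linter.unusedSectionVars false

namespace Pool.Agent.Y588

open Pool.Agent.W868 Pool.Agent.W868.GM
open ZFSet (pair)

/-- The part of `a` that consists of pairs with first component `n`. -/
noncomputable def sl (n a : ZFSet.{0}) : ZFSet.{0} := ZFSet.sep (fun x => fs x = n) a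

theorem mem_sl {n a x : ZFSet.{0}} : x ∈ sl n a ↔ x ∈ a ∧ fs x = n := ZFSet.mem_sep

/-- The elements of the conditions. -/
noncomputable def cB (M : Set ZFSet.{0}) (kk b : ZFSet.{0}) : ZFSet.{0} :=
  ZFSet.sep (fun u => ∃ n ∈ b, ∃ ν ∈ nx M (ap kk n), ∃ ξ ∈ ap kk (sc n), u = pair (pair n ν) ξ)
    (ZFSet.prod (ZFSet.prod ZFSet.omega (ZFSet.sUnion (im (ap kk) ZFSet.omega)))
      (ZFSet.sUnion (im (ap kk) ZFSet.omega)))

/-- The smallness condition. -/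
def cI (M : Set ZFSet.{0}) (kk : ZFSet.{0}) (a : ZFSet.{0}) : Prop :=
  ∀ n ∈ ZFSet.omega, Inj M (sl n a) (ap kk n)

/-- The coding forcing. -/
noncomputable def cQ (M : Set ZFSet.{0}) (kk b : ZFSet.{0}) : ZFSet.{0} :=
  Pf M (cB M kk b) (cI M kk)

/-- The assumptions on the sequence of strong limit cardinals. -/
structure Seq (M : Set ZFSet.{0}) (kk b : ZFSet.{0}) : Prop where
  zf : IsZF M
  mem : kk ∈ M
  bmem : b ∈ M
  bsub : b ⊆ ZFSet.omega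
  lim : ∀ n : ℕ, IsStrongLimit M (ap kk (nat n))
  lt : ∀ n : ℕ, ap kk (nat n) ∈ ap kk (nat (n + 1))

namespace Seq

variable {M : Set ZFSet.{0}} {kk b : ZFSet.{0}} (hS : Seq M kk b)

include hS

theorem kmem (n : ℕ) : ap kk (nat n) ∈ M := (hS.lim n).1

theorem kord (n : ℕ) : (ap kk (nat n)).IsOrdinal := (hS.lim n).2.1

theorem komega (n : ℕ) : ZFSet.omega ⊆ ap kk (nat n) := (hS.lim n).2.2.1

theorem lt' {m n : ℕ} (h : m < n) : ap kk (nat m) ∈ ap kk (nat n) := by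
  induction n, h using Nat.le_induction with
  | base => exact hS.lt m
  | succ n _ ih => exact (hS.kord (n + 1)).mem_trans ih (hS.lt n)

theorem le' {m n : ℕ} (h : m ≤ n) : ap kk (nat m) ⊆ ap kk (nat n) := by
  rcases Nat.lt_or_ge m n with h1 | h1
  · exact (hS.kord n).subset_of_mem (hS.lt' h1)
  · have h2 : m = n := le_antisymm h h1
    subst h2
    exact fun _ h => h

theorem nxmem (n : ℕ) : nx M (ap kk (nat n)) ∈ ap kk (nat (n + 1)) :=
  nx_mem_sl hS.zf (hS.lim (n + 1)) (hS.lt n)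

theorem dfn_ap : DfnF M M fun w : Fin 1 → ZFSet.{0} => ap kk (w 0) :=
  hS.zf.ap' (DfnF.const hS.mem) (DfnF.proj 0)

theorem sup_mem : ZFSet.sUnion (im (ap kk) ZFSet.omega) ∈ M :=
  hS.zf.union _ (hS.zf.im_mem hS.zf.infinity hS.dfn_ap)

theorem mem_sup {n : ℕ} {x : ZFSet.{0}} (h : x ∈ ap kk (nat n)) :
    x ∈ ZFSet.sUnion (im (ap kk) ZFSet.omega) :=
  ZFSet.mem_sUnion.2 ⟨_, mem_im.2 ⟨_, nat_mem_omega n, rfl⟩, h⟩

theorem mem_cB {u : ZFSet.{0}} : u ∈ cB M kk b ↔ ∃ n : ℕ, nat n ∈ b ∧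
    ∃ ν ∈ nx M (ap kk (nat n)), ∃ ξ ∈ ap kk (nat (n + 1)), u = pair (pair (nat n) ν) ξ := by
  rw [cB, ZFSet.mem_sep]
  constructor
  · rintro ⟨-, n, hn, h⟩
    obtain ⟨k, rfl⟩ := mem_omega_iff.1 (hS.bsub hn)
    exact ⟨k, hn, h⟩
  · rintro ⟨n, hn, ν, hν, ξ, hξ, rfl⟩
    refine ⟨ZFSet.pair_mem_prod.2 ⟨ZFSet.pair_mem_prod.2 ⟨nat_mem_omega n, ?_⟩,
      hS.mem_sup hξ⟩, nat n, hn, ν, hν, ξ, hξ, rfl⟩
    exact hS.mem_sup ((hS.kord (n + 1)).mem_trans hν (hS.nxmem n))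

theorem cB_mem : cB M kk b ∈ M := by
  have hM := hS.zf
  have hB := hM.base
  have hb := hS.bmem
  refine hM.sep_mem (Q := fun u => ∃ n ∈ b, ∃ ν ∈ nx M (ap kk n), ∃ ξ ∈ ap kk (sc n),
    u = pair (pair n ν) ξ) ?_ (hM.prod_mem (hM.prod_mem hM.infinity hS.sup_mem) hS.sup_mem)
  apply hB.bex (DfnF.const hb)
  apply hB.bex (nx' hM (DfnF.comp1 (f := ap kk) hS.dfn_ap (DfnF.proj 0)))
  apply hB.bex (DfnF.comp1 (f := ap kk) hS.dfn_ap (hB.insert' (DfnF.proj 1) (DfnF.proj 1)))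
  exact Dfn.eq (DfnF.proj 3) (hB.pair' (hB.pair' (DfnF.proj 2) (DfnF.proj 1)) (DfnF.proj 0))

omit hS in
theorem sl' (hM : IsZF M) {m : ℕ} {F G : (Fin m → ZFSet.{0}) → ZFSet.{0}} (hF : DfnF M M F)
    (hG : DfnF M M G) : DfnF M M fun v => sl (F v) (G v) :=
  hM.sep' (Q := fun x v => fs x = F v) hG (Dfn.eq (hM.fs' (DfnF.proj 0)) hF.tail)

omit hS in
theorem sl_mem (hM : IsZF M) {n a : ZFSet.{0}} (hn : n ∈ M) (ha : a ∈ M) : sl n a ∈ M :=
  (sl' hM (DfnF.const hn) (DfnF.const ha)).1 Fin.elim0 fun i => i.elim0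

theorem dfn_cI : Dfn M M fun w : Fin 1 → ZFSet.{0} => cI M kk (w 0) := by
  have hM := hS.zf
  have hB := hM.base
  apply hB.ball (DfnF.const hM.infinity)
  exact dfn_inj hM (sl' hM (DfnF.proj 0) (DfnF.proj 1))
    (DfnF.comp1 (f := ap kk) hS.dfn_ap (DfnF.proj 0))

theorem cI_iff {a : ZFSet.{0}} : cI M kk a ↔ ∀ n : ℕ, Inj M (sl (nat n) a) (ap kk (nat n)) := by
  constructor
  · exact fun h n => h _ (nat_mem_omega n)
  · intro h x hx
    obtain ⟨n, rfl⟩ := mem_omega_iff.1 hx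
    exact h n

theorem cI_sub {a a' : ZFSet.{0}} (ha : a ∈ M) (ha' : a' ∈ M) (h : a' ⊆ a)
    (h1 : cI M kk a) : cI M kk a' := by
  have hM := hS.zf
  rw [hS.cI_iff] at h1 ⊢
  intro n
  refine inj_mono hM (sl_mem hM (hM.nat_mem n) ha') (sl_mem hM (hM.nat_mem n) ha) (hS.kmem n)
    ?_ (h1 n)
  intro x hx
  rw [mem_sl] at hx ⊢
  exact ⟨h hx.1, hx.2⟩

theorem cI_empty : cI M kk ∅ := by
  have hM := hS.zf
  rw [hS.cI_iff]
  intro n
  refine Inj.of_subset hM (sl_mem hM (hM.nat_mem n) hM.empty_mem) (hS.kmem n) ?_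
  intro x hx
  exact absurd (mem_sl.1 hx).1 (ZFSet.notMem_empty _)

variable {e : ZFSet.{0} → ZFSet.{0}} (hg : GC M e)

include hg

theorem cI_union : ∀ a ∈ M, ∀ a' ∈ M, cI M kk a → cI M kk a' → cI M kk (a ∪ a') := by
  intro a ha a' ha' h h'
  have hM := hS.zf
  rw [hS.cI_iff] at h h' ⊢
  intro n
  have h1 : sl (nat n) (a ∪ a') = sl (nat n) a ∪ sl (nat n) a' := by
    ext x
    simp only [mem_sl, ZFSet.mem_union]
    tauto
  rw [h1]
  exact Inj.union hM hg (hS.kmem n) (hS.kord n) (hS.komega n) (sl_mem hM (hM.nat_mem n) ha)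
    (sl_mem hM (hM.nat_mem n) ha') (h n) (h' n)

theorem cI_single {x : ZFSet.{0}} (hx : x ∈ M) : cI M kk {x} := by
  have hM := hS.zf
  rw [hS.cI_iff]
  intro n
  refine inj_mono hM (sl_mem hM (hM.nat_mem n) (hM.single_mem hx)) (hM.single_mem hx)
    (hS.kmem n) (fun z hz => (mem_sl.1 hz).1)
    (Inj.single hM hg (hS.kmem n) (hS.kord n) (hS.komega n) hx)

omit hg in
theorem cB_sub : cB M kk b ⊆ ZFSet.prod (ZFSet.prod ZFSet.omega
    (ZFSet.sUnion (im (ap kk) ZFSet.omega))) (ZFSet.sUnion (im (ap kk) ZFSet.omega)) :=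
  fun _ h => (ZFSet.mem_sep.1 h).1

omit hg in
theorem forcing : IsForcing M (cQ M kk b) (Lf (cQ M kk b)) :=
  isForcing_Pf hS.zf hS.cB_mem hS.dfn_cI hS.cI_empty

theorem hom : IsHom M (cQ M kk b) (Lf (cQ M kk b)) :=
  isHom_Pf hS.zf hS.cB_mem hS.cB_sub hS.dfn_cI (hS.cI_union hg)

omit hg in
theorem cQ_mem : cQ M kk b ∈ M := Pf_mem hS.zf hS.cB_mem hS.dfn_cI

/-! ### Cardinals that are destroyed -/

theorem insert_mem_cQ {p x y : ZFSet.{0}} (hp : p ∈ cQ M kk b) (hx : x ∉ dm p)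
    (h : pair x y ∈ cB M kk b) : insert (pair x y) p ∈ cQ M kk b := by
  have hM := hS.zf
  obtain ⟨h1, h2, h3, h4⟩ := mem_Pf.1 hp
  have hu := hM.trans _ hS.cB_mem _ h
  have hxM := (hM.of_pair_mem hu).1
  refine mem_Pf.2 ⟨hM.insert_mem hu h1, ?_, ?_, ?_⟩
  · intro z hz
    rcases ZFSet.mem_insert_iff.1 hz with rfl | hz
    · exact h
    · exact h2 hz
  · intro a c d hc hd
    rcases ZFSet.mem_insert_iff.1 hc with hc' | hc'
    · obtain ⟨h5, h6⟩ := ZFSet.pair_inj.1 hc'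
      rcases ZFSet.mem_insert_iff.1 hd with hd' | hd'
      · rw [h6, (ZFSet.pair_inj.1 hd').2]
      · exact absurd (h5 ▸ mem_dm hd') hx
    · rcases ZFSet.mem_insert_iff.1 hd with hd' | hd'
      · obtain ⟨h5, h6⟩ := ZFSet.pair_inj.1 hd'
        exact absurd (h5 ▸ mem_dm hc') hx
      · exact h3 a c d hc' hd'
  · have h5 : dm (insert (pair x y) p) = {x} ∪ dm p := by
      ext z
      rw [dm, mem_im, ZFSet.mem_union, ZFSet.mem_singleton]
      constructor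
      · rintro ⟨u, hu, rfl⟩
        rcases ZFSet.mem_insert_iff.1 hu with rfl | hu
        · exact Or.inl (fs_pair _ _)
        · exact Or.inr (mem_im.2 ⟨u, hu, rfl⟩)
      · rintro (rfl | hz)
        · exact ⟨_, ZFSet.mem_insert _ _, (fs_pair _ _).symm⟩
        · obtain ⟨u, hu, rfl⟩ := mem_im.1 hz
          exact ⟨u, ZFSet.mem_insert_of_mem _ hu, rfl⟩
    rw [h5]
    exact hS.cI_union hg _ (hM.single_mem hxM) _ (dm_mem hM h1) (hS.cI_single hg hxM) h4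

/-- There is always a new element in the domain of the block number `n`. -/
theorem exists_new {p : ZFSet.{0}} (hp : p ∈ cQ M kk b) (n : ℕ) :
    ∃ ν ∈ nx M (ap kk (nat n)), pair (nat n) ν ∉ dm p := by
  have hM := hS.zf
  have hB := hM.base
  obtain ⟨h1, h2, h3, h4⟩ := mem_Pf.1 hp
  obtain ⟨h5, h6, h7, h8⟩ := nx_spec hM (hS.kmem n)
  by_contra hcon
  push Not at hcon
  apply h7
  have h9 := sl_mem hM (hM.nat_mem n) (dm_mem hM h1)
  refine Inj.trans hM h5 (hS.kmem n) ?_ (hS.cI_iff.1 h4 n)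
  refine Inj.of_fun hM h5 h9 (h := fun ν => pair (nat n) ν)
    (hB.pair' (DfnF.const (hM.nat_mem n)) (DfnF.proj 0)) ?_ ?_
  · intro ν hν
    exact mem_sl.2 ⟨hcon ν hν, fs_pair _ _⟩
  · intro ν _ ν' _ h
    exact (ZFSet.pair_inj.1 h).2

theorem kill {H : ZFSet.{0}} (hH : IsGeneric M (cQ M kk b) (Lf (cQ M kk b)) H) {n : ℕ}
    (hn : nat n ∈ b) (hV : IsZF (ext M H)) :
    ¬ IsStrongLimit (ext M H) (ap kk (nat (n + 1))) := by
  intro hlim
  have hM := hS.zf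
  have hB := hM.base
  have hP := hS.forcing
  have hHV := gen_mem_ext hM hP hH
  have hsub := sub_ext hM hP hH
  set Γ : ZFSet.{0} := ZFSet.sUnion H with hΓ
  have hΓV : Γ ∈ ext M H := hV.union _ hHV
  obtain ⟨h5, h6, h7, h8⟩ := nx_spec hM (hS.kmem n)
  -- Γ is a function
  have hfu : ∀ a c d, pair a c ∈ Γ → pair a d ∈ Γ → c = d := by
    intro a c d hc hd
    obtain ⟨p, hp, h9⟩ := ZFSet.mem_sUnion.1 hc
    obtain ⟨q, hq, h10⟩ := ZFSet.mem_sUnion.1 hd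
    obtain ⟨r, hr, h11, h12⟩ := hH.dir p hp q hq
    exact (mem_Pf.1 (hH.sub hr)).2.2.1 a c d ((mem_Lf.1 h11).2.2 h9) ((mem_Lf.1 h12).2.2 h10)
  -- all values are attained
  have hval : ∀ ξ ∈ ap kk (nat (n + 1)), ∃ ν ∈ nx M (ap kk (nat n)),
      pair (pair (nat n) ν) ξ ∈ Γ := by
    intro ξ hξ
    have hξM := hM.trans _ (hS.kmem (n + 1)) _ hξ
    have hnM := hM.nat_mem n
    have hd : Dfn M M fun w : Fin 1 → ZFSet.{0} => ∃ ν ∈ nx M (ap kk (nat n)),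
        pair (pair (nat n) ν) ξ ∈ w 0 := by
      apply hB.bex (DfnF.const h5)
      exact Dfn.mem (hB.pair' (hB.pair' (DfnF.const hnM) (DfnF.proj 0)) (DfnF.const hξM))
        (DfnF.proj 1)
    obtain ⟨r, hr, ν, hν, h9⟩ := gen_dense hM hP hH (Q := fun p => ∃ ν ∈ nx M (ap kk (nat n)),
        pair (pair (nat n) ν) ξ ∈ p) hd (by
      intro p hp
      obtain ⟨ν, hν, h9⟩ := hS.exists_new hg hp n
      have h10 := hS.insert_mem_cQ hg hp h9 (hS.mem_cB.2 ⟨n, hn, ν, hν, ξ, hξ, rfl⟩)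
      exact ⟨_, h10, mem_Lf.2 ⟨h10, hp, fun z hz => ZFSet.mem_insert_of_mem _ hz⟩, ν, hν,
        ZFSet.mem_insert _ _⟩)
    exact ⟨ν, hν, ZFSet.mem_sUnion.2 ⟨r, hr, h9⟩⟩
  -- the injection
  have hBV := hV.base
  have hnV := hV.nat_mem n
  have hd : DfnF (ext M H) (ext M H) fun w : Fin 1 → ZFSet.{0} =>
      lo (ext M H) fun ν => ν ∈ nx M (ap kk (nat n)) ∧ pair (pair (nat n) ν) (w 0) ∈ Γ := by
    refine hV.lo' (Q := fun ν w => ν ∈ nx M (ap kk (nat n)) ∧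
      pair (pair (nat n) ν) (w 0) ∈ Γ) ?_
    apply Dfn.and
    · exact Dfn.mem (DfnF.proj 0) (DfnF.const (hsub h5))
    · exact Dfn.mem (hBV.pair' (hBV.pair' (DfnF.const hnV) (DfnF.proj 0)) (DfnF.proj 1))
        (DfnF.const hΓV)
  have hs : ∀ ξ ∈ ap kk (nat (n + 1)),
      (lo (ext M H) fun ν => ν ∈ nx M (ap kk (nat n)) ∧ pair (pair (nat n) ν) ξ ∈ Γ) ∈
        nx M (ap kk (nat n)) ∧
      pair (pair (nat n) (lo (ext M H) fun ν => ν ∈ nx M (ap kk (nat n)) ∧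
        pair (pair (nat n) ν) ξ ∈ Γ)) ξ ∈ Γ := by
    intro ξ hξ
    obtain ⟨ν, hν, h9⟩ := hval ξ hξ
    exact (lo_spec (M := ext M H) (P := fun ν => ν ∈ nx M (ap kk (nat n)) ∧
      pair (pair (nat n) ν) ξ ∈ Γ) ⟨ν, hsub (hM.trans _ h5 _ hν), h6.mem hν, hν, h9⟩).2.2
  refine hlim.2.2.2.1 _ (hS.nxmem n) (Inj.of_fun hV hlim.1 (hsub h5)
    (h := fun ξ => lo (ext M H) fun ν => ν ∈ nx M (ap kk (nat n)) ∧
      pair (pair (nat n) ν) ξ ∈ Γ) hd (fun ξ hξ => (hs ξ hξ).1) ?_)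
  intro ξ hξ ξ' hξ' h
  have h9 := (hs ξ hξ).2
  have h10 := (hs ξ' hξ').2
  rw [← h] at h10
  exact hfu _ _ _ h9 h10

end Seq

end Pool.Agent.Y588
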