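import Pool.Agent.Y588.Hlz

/-!
# Adding a subset of the natural numbers
-/

set_option autoImplicit false
set_option linter.unreachableTactic false
set_option linter.unusedTactic false
set_option linter.unusedSectionVars false

namespace Pool.Agent.Y588

open Pool.Agent.W868 Pool.Agent.W868.GM
open ZFSet (pair)

/-- The bounded sets of natural numbers. -/
def bI (a : ZFSet.{0}) : Prop := ∃ n ∈ ZFSet.omega, a ⊆ n

/-- The forcing that adds a subset of the natural numbers: the functions from bounded sets of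
natural numbers to `{0, 1}`. -/
noncomputable def aP (N : Set ZFSet.{0}) : ZFSet.{0} :=
  Pf N (ZFSet.prod ZFSet.omega (nat 2)) bI

theorem mem_nat_two {i : ZFSet.{0}} : i ∈ nat 2 ↔ i = nat 0 ∨ i = nat 1 := by
  change i ∈ insert (nat 1) (insert (nat 0) ∅) ↔ _
  rw [ZFSet.mem_insert_iff, ZFSet.mem_insert_iff]
  constructor
  · rintro (h | h | h)
    · exact Or.inr h
    · exact Or.inl h
    · exact absurd h (ZFSet.notMem_empty _)
  · rintro (h | h)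
    · exact Or.inr (Or.inl h)
    · exact Or.inl h

theorem nat_zero_ne_one : nat 0 ≠ nat 1 := fun h => by
  have := nat_injective h
  omega

section

variable {N : Set ZFSet.{0}} (hN : IsZF N)

include hN

theorem bB_mem : ZFSet.prod ZFSet.omega (nat 2) ∈ N := hN.prod_mem hN.infinity (hN.nat_mem 2)

theorem dfn_bI : Dfn N N fun w : Fin 1 → ZFSet.{0} => bI (w 0) := by
  have hB := hN.base
  refine hB.bex (Q := fun n w => w 0 ⊆ n) (DfnF.const hN.infinity) ?_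
  exact hB.subset' (DfnF.proj 1) (DfnF.proj 0)

omit hN in
theorem bI_empty : bI ∅ := ⟨nat 0, nat_mem_omega 0, fun _ hz => hz⟩

omit hN in
theorem bI_union {a b : ZFSet.{0}} (ha : bI a) (hb : bI b) : bI (a ∪ b) := by
  obtain ⟨n, hn, h1⟩ := ha
  obtain ⟨m, hm, h2⟩ := hb
  obtain ⟨n, rfl⟩ := mem_omega_iff.1 hn
  obtain ⟨m, rfl⟩ := mem_omega_iff.1 hm
  refine ⟨nat (max n m), nat_mem_omega _, fun z hz => ?_⟩
  rcases ZFSet.mem_union.1 hz with h | h
  · exact nat_subset (le_max_left n m) (h1 h)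
  · exact nat_subset (le_max_right n m) (h2 h)

theorem aP_mem : aP N ∈ N := Pf_mem hN (bB_mem hN) (dfn_bI hN)

theorem aP_forcing : IsForcing N (aP N) (Lf (aP N)) :=
  isForcing_Pf hN (bB_mem hN) (dfn_bI hN) bI_empty

theorem aP_hom : IsHom N (aP N) (Lf (aP N)) :=
  isHom_Pf hN (bB_mem hN) (D := ZFSet.omega) (E := nat 2) (fun _ h => h) (dfn_bI hN)
    fun _ _ _ _ h h' => bI_union h h'

omit hN in
theorem aP_sub {p : ZFSet.{0}} (hp : p ∈ aP N) : p ⊆ ZFSet.prod ZFSet.omega (nat 2) :=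
  (mem_Pf.1 hp).2.1

omit hN in
/-- Conditions consist of pairs `(m, i)` with `i = 0` or `i = 1`. -/
theorem aP_cases {p u : ZFSet.{0}} (hp : p ∈ aP N) (hu : u ∈ p) :
    ∃ m : ℕ, u = pair (nat m) (nat 0) ∨ u = pair (nat m) (nat 1) := by
  obtain ⟨a, ha, b, hb, rfl⟩ := ZFSet.mem_prod.1 (aP_sub hp hu)
  obtain ⟨m, rfl⟩ := mem_omega_iff.1 ha
  rcases mem_nat_two.1 hb with rfl | rfl
  · exact ⟨m, Or.inl rfl⟩
  · exact ⟨m, Or.inr rfl⟩

/-- Extension of a condition by a value. -/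
theorem aP_insert {p : ZFSet.{0}} (hp : p ∈ aP N) {m : ℕ} (hm : nat m ∉ dm p) {i : ZFSet.{0}}
    (hi : i ∈ nat 2) : insert (pair (nat m) i) p ∈ aP N := by
  obtain ⟨h1, h2, h3, n, hn, h4⟩ := mem_Pf.1 hp
  have hiM := hN.trans _ (hN.nat_mem 2) _ hi
  have hmi : pair (nat m) i ∈ ZFSet.prod ZFSet.omega (nat 2) :=
    ZFSet.pair_mem_prod.2 ⟨nat_mem_omega m, hi⟩
  refine mem_Pf.2 ⟨hN.insert_mem (hN.pair_mem (hN.nat_mem m) hiM) h1, ?_, ?_, ?_⟩
  · intro z hz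
    rcases ZFSet.mem_insert_iff.1 hz with rfl | hz
    · exact hmi
    · exact h2 hz
  · intro a b c hb hc
    have key : ∀ {y : ZFSet.{0}}, pair (nat m) y ∈ p → False := fun h =>
      hm ((mem_dm_iff h2).2 ⟨_, h⟩)
    rcases ZFSet.mem_insert_iff.1 hb with hb' | hb'
    · obtain ⟨h5, h6⟩ := ZFSet.pair_inj.1 hb'
      rcases ZFSet.mem_insert_iff.1 hc with hc' | hc'
      · exact h6.trans (ZFSet.pair_inj.1 hc').2.symm
      · rw [h5] at hc'
        exact (key hc').elim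
    · rcases ZFSet.mem_insert_iff.1 hc with hc' | hc'
      · rw [(ZFSet.pair_inj.1 hc').1] at hb'
        exact (key hb').elim
      · exact h3 a b c hb' hc'
  · obtain ⟨n, rfl⟩ := mem_omega_iff.1 hn
    refine ⟨nat (max n (m + 1)), nat_mem_omega _, fun z hz => ?_⟩
    have hsub : insert (pair (nat m) i) p ⊆ ZFSet.prod ZFSet.omega (nat 2) := by
      intro z hz
      rcases ZFSet.mem_insert_iff.1 hz with rfl | hz
      · exact hmi
      · exact h2 hz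
    obtain ⟨y, hy⟩ := (mem_dm_iff hsub).1 hz
    rcases ZFSet.mem_insert_iff.1 hy with hy | hy
    · obtain ⟨rfl, -⟩ := ZFSet.pair_inj.1 hy
      exact nat_subset (le_max_right n (m + 1)) (ZFSet.mem_insert _ _)
    · exact nat_subset (le_max_left n (m + 1)) (h4 ((mem_dm_iff h2).2 ⟨y, hy⟩))

/-- Every condition has incompatible extensions. -/
theorem aP_atomless : ∀ p ∈ aP N, ∃ q ∈ aP N, ∃ r ∈ aP N, pair q p ∈ Lf (aP N) ∧
    pair r p ∈ Lf (aP N) ∧ ∀ s ∈ aP N, pair s q ∈ Lf (aP N) → ¬ pair s r ∈ Lf (aP N) := by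
  intro p hp
  obtain ⟨h1, h2, h3, n, hn, h4⟩ := mem_Pf.1 hp
  obtain ⟨n, rfl⟩ := mem_omega_iff.1 hn
  have h5 : nat n ∉ dm p := fun h => ZFSet.mem_irrefl _ (h4 h)
  have h6 := aP_insert hN hp h5 (mem_nat_two.2 (Or.inl rfl))
  have h7 := aP_insert hN hp h5 (mem_nat_two.2 (Or.inr rfl))
  refine ⟨_, h6, _, h7, mem_Lf.2 ⟨h6, hp, fun z hz => ZFSet.mem_insert_of_mem _ hz⟩,
    mem_Lf.2 ⟨h7, hp, fun z hz => ZFSet.mem_insert_of_mem _ hz⟩, ?_⟩
  intro s hs hsq hsr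
  have h8 := (mem_Lf.1 hsq).2.2 (ZFSet.mem_insert _ _)
  have h9 := (mem_Lf.1 hsr).2.2 (ZFSet.mem_insert _ _)
  exact nat_zero_ne_one ((mem_Pf.1 hs).2.2.1 _ _ _ h8 h9)

/-- Every condition has an extension that is defined on `n`. -/
theorem aP_fill {p : ZFSet.{0}} (hp : p ∈ aP N) (n : ℕ) :
    ∃ q ∈ aP N, p ⊆ q ∧ nat n ⊆ dm q := by
  induction n with
  | zero => exact ⟨p, hp, fun z hz => hz, fun z hz => absurd hz (ZFSet.notMem_empty _)⟩
  | succ n ih =>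
    obtain ⟨q, hq, h1, h2⟩ := ih
    by_cases h3 : nat n ∈ dm q
    · refine ⟨q, hq, h1, fun z hz => ?_⟩
      rcases ZFSet.mem_insert_iff.1 hz with rfl | hz
      · exact h3
      · exact h2 hz
    · have h4 := aP_insert hN hq h3 (mem_nat_two.2 (Or.inl rfl))
      refine ⟨_, h4, fun z hz => ZFSet.mem_insert_of_mem _ (h1 hz), fun z hz => ?_⟩
      rcases ZFSet.mem_insert_iff.1 hz with rfl | hz
      · exact (mem_dm_iff (aP_sub h4)).2 ⟨_, ZFSet.mem_insert _ _⟩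
      · obtain ⟨y, hy⟩ := (mem_dm_iff (aP_sub hq)).1 (h2 hz)
        exact (mem_dm_iff (aP_sub h4)).2 ⟨y, ZFSet.mem_insert_of_mem _ hy⟩

variable {G : ZFSet.{0}} (hG : IsGeneric N (aP N) (Lf (aP N)) G)

/-- The set of natural numbers given by the generic filter. -/
noncomputable def bG (G : ZFSet.{0}) : ZFSet.{0} :=
  ZFSet.sep (fun m => pair m (nat 1) ∈ (ZFSet.sUnion G : ZFSet.{0})) ZFSet.omega

omit hN in
theorem mem_bG {m : ZFSet.{0}} : m ∈ bG G ↔ m ∈ ZFSet.omega ∧ ∃ p ∈ G, pair m (nat 1) ∈ p := by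
  rw [bG, ZFSet.mem_sep, ZFSet.mem_sUnion]

include hG

/-- The generic filter can be computed from the set of natural numbers. -/
theorem mem_gen_iff {p : ZFSet.{0}} : p ∈ G ↔
    p ∈ aP N ∧ ∀ u ∈ p, (sn u = nat 1 ↔ fs u ∈ bG G) := by
  have key : ∀ {p : ZFSet.{0}}, p ∈ G → ∀ u ∈ p, (sn u = nat 1 ↔ fs u ∈ bG G) := by
    intro p hp u hu
    obtain ⟨m, hm⟩ := aP_cases (hG.sub hp) hu
    rcases hm with rfl | rfl
    · rw [fs_pair, sn_pair]
      refine ⟨fun h => absurd h nat_zero_ne_one, fun h => ?_⟩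
      obtain ⟨-, q, hq, h1⟩ := mem_bG.1 h
      obtain ⟨r, hr, h2, h3⟩ := hG.dir p hp q hq
      exact (mem_Pf.1 (hG.sub hr)).2.2.1 _ _ _ ((mem_Lf.1 h2).2.2 hu) ((mem_Lf.1 h3).2.2 h1)
    · rw [fs_pair, sn_pair]
      exact ⟨fun _ => mem_bG.2 ⟨nat_mem_omega m, p, hp, hu⟩, fun _ => rfl⟩
  refine ⟨fun hp => ⟨hG.sub hp, key hp⟩, ?_⟩
  rintro ⟨hp, h⟩
  obtain ⟨h1, h2, h3, n, hn, h4⟩ := mem_Pf.1 hp
  obtain ⟨n, rfl⟩ := mem_omega_iff.1 hn
  have hD : ZFSet.sep (fun q => nat n ⊆ dm q) (aP N) ∈ N := by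
    refine hN.sep_mem (Q := fun q => nat n ⊆ dm q) ?_ (aP_mem hN)
    exact hN.base.subset' (DfnF.const (hN.nat_mem n)) (dm' hN (DfnF.proj 0))
  obtain ⟨q, hq, hqG⟩ := hG.meet _ hD (fun z hz => (ZFSet.mem_sep.1 hz).1) (by
    intro r hr
    obtain ⟨q, hq, h5, h6⟩ := aP_fill hN hr n
    exact ⟨q, ZFSet.mem_sep.2 ⟨hq, h6⟩, mem_Lf.2 ⟨hq, hr, h5⟩⟩)
  obtain ⟨hqP, h5⟩ := ZFSet.mem_sep.1 hq
  refine hG.up q hqG p hp (mem_Lf.2 ⟨hqP, hp, fun u hu => ?_⟩)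
  have h6 := h u hu
  obtain ⟨m, hm⟩ := aP_cases hp hu
  have h7 : nat m ∈ dm p := by
    rcases hm with rfl | rfl
    · exact (mem_dm_iff h2).2 ⟨_, hu⟩
    · exact (mem_dm_iff h2).2 ⟨_, hu⟩
  obtain ⟨y, hy⟩ := (mem_dm_iff (aP_sub hqP)).1 (h5 (h4 h7))
  have h8 := key hqG _ hy
  obtain ⟨m', hm'⟩ := aP_cases hqP hy
  rw [fs_pair, sn_pair] at h8
  have h9 : y = nat 0 ∨ y = nat 1 := by
    rcases hm' with h | h
    · exact Or.inl (ZFSet.pair_inj.1 h).2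
    · exact Or.inr (ZFSet.pair_inj.1 h).2
  rcases hm with rfl | rfl
  · rw [fs_pair, sn_pair] at h6
    rcases h9 with rfl | rfl
    · exact hy
    · exact absurd (h6.2 (h8.1 rfl)) nat_zero_ne_one
  · rw [fs_pair, sn_pair] at h6
    rcases h9 with rfl | rfl
    · exact absurd (h8.2 (h6.1 rfl)) nat_zero_ne_one
    · exact hy

end

end Pool.Agent.Y588
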