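import Pool.Agent.Y588.Coh

/-!
# The stable core of the stable core: assembly
-/

set_option autoImplicit false
set_option linter.unreachableTactic false
set_option linter.unusedTactic false
set_option linter.unusedSectionVars false

namespace Pool.Agent.Y588

open Pool.Agent.W868 Pool.Agent.W868.GM
open ZFSet (pair)

/-! ### A sequence of strong limit cardinals -/

/-- The least ordinal with the property `S` above the previous ones. -/
noncomputable def kap (N : Set ZFSet.{0}) (S : ZFSet.{0} → Prop) : ZFSet.{0} → ZFSet.{0} :=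
  wfF (fun z => z) ZFSet.mem_wf fun _ g => lo N fun ζ => S ζ ∧ ∀ q ∈ g, sn q ∈ ζ

theorem kap_eq (N : Set ZFSet.{0}) (S : ZFSet.{0} → Prop) (z : ZFSet.{0}) :
    kap N S z = lo N fun ζ => S ζ ∧ ∀ q ∈ gr (kap N S) z, sn q ∈ ζ := wfF_eq _ _ _ _

section kap

variable {N : Set ZFSet.{0}} (hN : IsZF N) {S : ZFSet.{0} → Prop}
  (hS : Dfn N N fun w : Fin 1 → ZFSet.{0} => S (w 0))

include hN hS

theorem dfn_kap : DfnF N N fun w : Fin 1 → ZFSet.{0} => kap N S (w 0) := by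
  have hB := hN.base
  refine hN.memrec (G := fun _ g => lo N fun ζ => S ζ ∧ ∀ q ∈ g, sn q ∈ ζ) ?_ (kap_eq N S)
  refine hN.lo' (Q := fun ζ w => S ζ ∧ ∀ q ∈ w 1, sn q ∈ ζ) ?_
  apply Dfn.and
  · exact Dfn.comp1 (Q := S) hS (DfnF.proj 0)
  · apply hB.ball (DfnF.proj 2)
    exact Dfn.mem (hN.sn' (DfnF.proj 0)) (DfnF.proj 1)

theorem kap_spec (h : ∀ ξ ∈ N, ξ.IsOrdinal → ∃ ζ ∈ N, ζ.IsOrdinal ∧ S ζ ∧ ξ ∈ ζ)
    {z : ZFSet.{0}} (hz : z ∈ N) :
    kap N S z ∈ N ∧ S (kap N S z) ∧ ∀ u ∈ z, kap N S u ∈ kap N S z := by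
  have ho : ∀ u, (kap N S u).IsOrdinal := fun u => by
    rw [kap_eq]
    exact lo_isOrdinal
  have h1 : im (kap N S) z ∈ N := hN.im_mem hz (dfn_kap hN hS)
  have h2 : (ZFSet.sUnion (im (kap N S) z) : ZFSet.{0}) ∈ N := hN.union _ h1
  obtain ⟨ζ, h3, h4, h5, h6⟩ := h _ h2 (isOrdinal_sUnion fun y hy => by
    obtain ⟨u, -, rfl⟩ := mem_im.1 hy
    exact ho u)
  have h7 := lo_spec (M := N) (P := fun ζ => S ζ ∧ ∀ q ∈ gr (kap N S) z, sn q ∈ ζ)
    ⟨ζ, h3, h4, h5, fun q hq => by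
      obtain ⟨u, hu, rfl⟩ := mem_gr.1 hq
      rw [sn_pair]
      refine (ho u).mem_of_subset_of_mem h4 (fun x hx => ?_) h6
      exact ZFSet.mem_sUnion.2 ⟨_, mem_im.2 ⟨u, hu, rfl⟩, hx⟩⟩
  rw [← kap_eq] at h7
  refine ⟨h7.1, h7.2.2.1, fun u hu => ?_⟩
  have h8 := h7.2.2.2 _ (mem_gr.2 ⟨u, hu, rfl⟩)
  rwa [sn_pair] at h8

end kap

/-! ### Decoding -/

theorem decode_b {K A : Set ZFSet.{0}} (hK : IsZF K)
    (ham : ∀ x ∈ K, ZFSet.sep (fun z => z ∈ A) x ∈ K) {kk b : ZFSet.{0}} (hk : kk ∈ K)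
    (hb : b ⊆ ZFSet.omega) (h : ∀ n : ℕ, nat n ∈ b ↔
      pair (nat 1) (pair (ap kk (nat (n + 1))) (ap kk (nat (n + 1)))) ∉ A) : b ∈ K := by
  have hB := hK.base
  set F : ZFSet.{0} → ZFSet.{0} := fun n => pair (nat 1) (pair (ap kk (sc n)) (ap kk (sc n)))
    with hF
  have hFd : DfnF K K fun w : Fin 1 → ZFSet.{0} => F (w 0) := by
    have h1 : DfnF K K fun w : Fin 1 → ZFSet.{0} => ap kk (sc (w 0)) :=
      hK.ap' (DfnF.const hk) (hB.insert' (DfnF.proj 0) (DfnF.proj 0))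
    exact hB.pair' (DfnF.const (hK.nat_mem 1)) (hB.pair' h1 h1)
  have hT := ham _ (hK.im_mem hK.infinity hFd)
  have h2 := hK.sep_mem (Q := fun n => ¬ F n ∈ ZFSet.sep (fun z => z ∈ A) (im F ZFSet.omega))
    (Dfn.mem hFd (DfnF.const hT)).not hK.infinity
  have h3 : ZFSet.sep (fun n => ¬ F n ∈ ZFSet.sep (fun z => z ∈ A) (im F ZFSet.omega))
      ZFSet.omega = b := by
    ext n
    rw [ZFSet.mem_sep, ZFSet.mem_sep]
    constructor
    · rintro ⟨h4, h5⟩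
      obtain ⟨k, rfl⟩ := mem_omega_iff.1 h4
      exact (h k).2 fun h6 => h5 ⟨mem_im.2 ⟨_, h4, rfl⟩, h6⟩
    · intro h4
      obtain ⟨k, rfl⟩ := mem_omega_iff.1 (hb h4)
      exact ⟨hb h4, fun h5 => (h k).1 h4 h5.2⟩
  exact h3 ▸ h2

theorem decode_gen {N K : Set ZFSet.{0}} (hN : IsZF N) (hK : IsZF K) (hNK : N ⊆ K)
    {G : ZFSet.{0}} (hG : IsGeneric N (aP N) (Lf (aP N)) G) (hb : bG G ∈ K) : G ∈ K := by
  have hB := hK.base
  have h1 : Dfn K K fun w : Fin 1 → ZFSet.{0} => ∀ u ∈ w 0, (sn u = nat 1 ↔ fs u ∈ bG G) := by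
    apply hB.ball (DfnF.proj 0)
    apply Dfn.iff
    · exact Dfn.eq (hK.sn' (DfnF.proj 0)) (DfnF.const (hK.nat_mem 1))
    · exact Dfn.mem (hK.fs' (DfnF.proj 0)) (DfnF.const hb)
  have h2 := hK.sep_mem (Q := fun p => ∀ u ∈ p, (sn u = nat 1 ↔ fs u ∈ bG G)) h1
    (hNK (aP_mem hN))
  have h3 : ZFSet.sep (fun p => ∀ u ∈ p, (sn u = nat 1 ↔ fs u ∈ bG G)) (aP N) = G := by
    ext p
    rw [ZFSet.mem_sep, mem_gen_iff hN hG]
  exact h3 ▸ h2

/-! ### The stable core of a model -/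

theorem stableCore_eq (M : Set ZFSet.{0}) : StableCore M = HC M (Stab M) := by
  ext x
  constructor
  · rintro ⟨α, h1, h2⟩
    rw [LA_eq] at h2
    exact ⟨_, h1, ZFSet.isOrdinal_toZFSet _, h2⟩
  · rintro ⟨ξ, h1, h2, h3⟩
    refine ⟨ξ.rank, ?_, ?_⟩
    · rw [h2.toZFSet_rank_eq]
      exact h1
    · rw [LA_eq, h2.toZFSet_rank_eq]
      exact h3

theorem HC_ord {M W A : Set ZFSet.{0}} (h : ∀ x : ZFSet.{0}, x.IsOrdinal → (x ∈ M ↔ x ∈ W)) :
    HC W A = HC M A := by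
  ext x
  constructor
  · rintro ⟨ξ, h1, h2, h3⟩
    exact ⟨ξ, (h ξ h2).2 h1, h2, h3⟩
  · rintro ⟨ξ, h1, h2, h3⟩
    exact ⟨ξ, (h ξ h2).1 h1, h2, h3⟩

/-- A model of ZF inside `M` with the same ordinals contains the constructible sets. -/
theorem sub_of_ord {N K : Set ZFSet.{0}} (hL : IsLA ∅ N) (hK : IsZF K)
    (h : ∀ x : ZFSet.{0}, x.IsOrdinal → (x ∈ N ↔ x ∈ K)) : N ⊆ K := by
  rw [← LC_eq hL h]
  exact LC_subset hK hK.empty_mem

/-- There is a countable transitive model of ZFC in which every set is constructible. -/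
theorem exists_countable_L : ∃ N : Set ZFSet.{0}, N.Countable ∧ IsLA ∅ N := by
  obtain ⟨π, -, -⟩ := exists_pkg' (P := Unit) ∅ Set.countable_empty ()
  have h1 := π.isZFC_W.toIsZF
  refine ⟨LC π.W ∅, π.countable_W.mono (LC_subset h1 h1.empty_mem), ?_⟩
  exact isLA_LC h1 h1.empty_mem h1.empty_mem ZFSet.isOrdinal_empty (ZFSet.empty_subset _)

/-- The stable core of a homogeneous extension is contained in the ground model. -/
theorem stableCore_ext {M : Set ZFSet.{0}} {A : ZFSet.{0}} (hL : IsLA A M) (hc : M.Countable)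
    {P Le : ZFSet.{0}} (hP : IsForcing M P Le) (hh : IsHom M P Le) {G : ZFSet.{0}}
    (hG : IsGeneric M P Le G) : IsZF (StableCore (ext M G)) ∧ StableCore (ext M G) ⊆ M ∧
      (∀ x : ZFSet.{0}, x.IsOrdinal → (x ∈ M ↔ x ∈ StableCore (ext M G))) ∧
      ∀ x ∈ StableCore (ext M G), ZFSet.sep (fun z => z ∈ Stab (ext M G)) x ∈
        StableCore (ext M G) := by
  have hd : Dfn M M fun w : Fin 1 → ZFSet.{0} => w 0 ∈ Stab (ext M G) :=
    hom_dfn hL hP hc hh ur_stab hG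
  have h1 : StableCore (ext M G) = HC M (Stab (ext M G)) := by
    rw [stableCore_eq]
    exact HC_ord (ord_ext hL hP hG)
  rw [h1]
  refine ⟨isZF_HC hL.zf hd, HC_subset hL.zf hd, fun x hx => ⟨fun h => ord_HC hL.zf hd h hx,
    fun h => HC_subset hL.zf hd h⟩, fun x hx => HC_amen hL.zf hx⟩

theorem main_theorem {N : Set ZFSet.{0}} (hc : N.Countable) (hL : IsLA ∅ N) :
    ∃ V : Set ZFSet.{0}, N ⊆ V ∧ V.Countable ∧ IsZFC V ∧
      (∀ x : ZFSet.{0}, x.IsOrdinal → (x ∈ N ↔ x ∈ V)) ∧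
      StableCore (StableCore V) = N ∧ N ⊂ StableCore V ∧ IsZFC (StableCore V) ∧
      StableCore V ⊆ V := by
  have hN := hL.zf
  -- the model `M = N[G]`
  obtain ⟨t, htP, -⟩ := (aP_forcing hN).top
  obtain ⟨G, hG, -⟩ := exists_gen hc (aP_forcing hN) htP
  have hGN : G ∉ N := gen_notMem hN (aP_forcing hN) hG (aP_atomless hN)
  set M := ext N G with hMdef
  have hcM : M.Countable := hc.image _
  have hLM : IsLA G M := isLA_ext hL (aP_forcing hN) hG
  have hM := hLM.zf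
  have hNM : N ⊆ M := sub_ext hN (aP_forcing hN) hG
  have hordNM := ord_ext hL (aP_forcing hN) hG
  have hGM : G ∈ M := gen_mem_ext hN (aP_forcing hN) hG
  obtain ⟨c1, c2, c3, -⟩ := stableCore_ext hL hc (aP_forcing hN) (aP_hom hN) hG
  have hcoreM : StableCore M = N := Set.Subset.antisymm c2 (sub_of_ord hL c1 c3)
  -- the sequence of cardinals
  have hSd : Dfn N N fun w : Fin 1 → ZFSet.{0} => IsStrongLimit M (w 0) :=
    hom_dfn hL (aP_forcing hN) hc (aP_hom hN) ur_strongLimit hG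
  have hSe : ∀ ξ ∈ N, ξ.IsOrdinal → ∃ ζ ∈ N, ζ.IsOrdinal ∧ IsStrongLimit M ζ ∧ ξ ∈ ζ := by
    intro ξ h1 h2
    obtain ⟨σ, h3, h4⟩ := exists_sl hM hLM.gc (hNM h1) h2
    exact ⟨σ, (hordNM σ h3.2.1).2 h3.1, h3.2.1, h3, h4⟩
  set kk := gr (kap N (IsStrongLimit M)) ZFSet.omega with hkk
  have hkN : kk ∈ N := by
    refine hN.im_mem (h := fun u => pair u (kap N (IsStrongLimit M) u)) hN.infinity ?_
    exact hN.base.pair' (DfnF.proj 0) (dfn_kap hN hSd)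
  have hap : ∀ n : ℕ, ap kk (nat n) = kap N (IsStrongLimit M) (nat n) := fun n =>
    ap_gr (nat_mem_omega n)
  have hbM : bG G ∈ M := by
    refine hM.sep_mem (Q := fun m => pair m (nat 1) ∈ (ZFSet.sUnion G : ZFSet.{0})) ?_
      hM.infinity
    exact Dfn.mem (hM.base.pair' (DfnF.proj 0) (DfnF.const (hM.nat_mem 1)))
      (DfnF.const (hM.union _ hGM))
  have hS : Seq M kk (bG G) := by
    refine ⟨hM, hNM hkN, hbM, fun z hz => (mem_bG.1 hz).1, fun n => ?_, fun n => ?_⟩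
    · rw [hap]
      exact (kap_spec hN hSd hSe (hN.nat_mem n)).2.1
    · rw [hap, hap]
      exact (kap_spec hN hSd hSe (hN.nat_mem (n + 1))).2.2 _ (ZFSet.mem_insert _ _)
  -- the model `V = M[H]`
  obtain ⟨t', htP', -⟩ := hS.forcing.top
  obtain ⟨H, hH, -⟩ := exists_gen hcM hS.forcing htP'
  set V := ext M H with hVdef
  have hZV : IsZF V := zf_ext hLM hS.forcing hH
  have hgV := gc_ext hLM hS.forcing hH hLM.gc
  have hMV : M ⊆ V := sub_ext hM hS.forcing hH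
  have hordMV := ord_ext hLM hS.forcing hH
  obtain ⟨d1, d2, d3, d4⟩ := stableCore_ext hLM hcM hS.forcing (hS.hom hLM.gc) hH
  have hNK : N ⊆ StableCore V := sub_of_ord hL d1 fun x hx => (hordNM x hx).trans (d3 x hx)
  have hbK : bG G ∈ StableCore V := by
    refine decode_b d1 d4 (hNK hkN) hS.bsub fun n => ?_
    have hω : ZFSet.omega ∈ ap kk (nat (n + 1)) :=
      isOrdinal_omega.mem_of_subset_of_mem (hS.kord (n + 1)) (hS.komega n) (hS.lt n)
    rw [mem_stab_iff hZV hgV hω]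
    constructor
    · intro h
      exact hS.kill hLM.gc hH h hZV
    · intro h
      by_contra h1
      exact h (hS.preserve hLM.gc hH h1 hZV hgV)
  have hGK : G ∈ StableCore V := decode_gen hN d1 hNK hG hbK
  have hMK : M ⊆ StableCore V := ext_sub d1 hNK hGK
  have hcoreV : StableCore V = M := Set.Subset.antisymm d2 hMK
  refine ⟨V, hNM.trans hMV, hcM.image _, zfc_ext hLM hS.forcing hH,
    fun x hx => (hordNM x hx).trans (hordMV x hx), ?_, ?_, ?_, ?_⟩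
  · rw [hcoreV, hcoreM]
  · rw [hcoreV]
    exact ⟨hNM, fun h => hGN (h hGM)⟩
  · rw [hcoreV]
    exact zfc_ext hL (aP_forcing hN) hG
  · rw [hcoreV]
    exact hMV

/-- The constructible hierarchy given by definable subsets. -/
theorem L_eq {N V : Set ZFSet.{0}} (hL : IsLA ∅ N)
    (h : ∀ x : ZFSet.{0}, x.IsOrdinal → (x ∈ N ↔ x ∈ V)) :
    N = {x | ∃ α : Ordinal.{0}, α.toZFSet ∈ V ∧ x ∈ LA ∅ α} := by
  have hd : Dfn N N fun w : Fin 1 → ZFSet.{0} => w 0 ∈ (∅ : Set ZFSet.{0}) :=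
    (Dfn.prop False).congr fun w _ => ⟨fun h => h.elim, fun h => h.elim⟩
  have h1 : HC N ∅ = N := Set.Subset.antisymm (HC_subset hL.zf hd)
    (sub_of_ord hL (isZF_HC hL.zf hd) fun x hx => ⟨fun h => ord_HC hL.zf hd h hx,
      fun h => HC_subset hL.zf hd h⟩)
  have h2 : HC V ∅ = N := (HC_ord h).trans h1
  rw [← h2]
  ext x
  constructor
  · rintro ⟨ξ, h1, h2, h3⟩
    refine ⟨ξ.rank, ?_, ?_⟩
    · rw [h2.toZFSet_rank_eq]
      exact h1
    · rw [LA_eq, h2.toZFSet_rank_eq]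
      exact h3
  · rintro ⟨α, h1, h2⟩
    rw [LA_eq] at h2
    exact ⟨_, h1, ZFSet.isOrdinal_toZFSet _, h2⟩

end Pool.Agent.Y588
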