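import Pool.Agent.W868.Small
import Pool.Agent.W868.Eo
import Pool.Agent.W868.GM.Dfs

/-!
# The forcing relation over a transitive model, for names that are elements of the model
-/

set_option autoImplicit false
set_option linter.unreachableTactic false
set_option linter.unusedTactic false
set_option linter.unusedSectionVars false

namespace Pool.Agent.Y588

open Pool.Agent.W868 Pool.Agent.W868.GM
open ZFSet (pair)

/-- The domain of a name. -/
noncomputable def dm (x : ZFSet.{0}) : ZFSet.{0} := im fs x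

theorem mem_dm {x y c : ZFSet.{0}} (h : pair y c ∈ x) : y ∈ dm x :=
  mem_im.2 ⟨_, h, (fs_pair _ _).symm⟩

theorem rank_fst_lt {a b : ZFSet.{0}} : a.rank < (pair a b).rank := by
  have h1 : a.rank < ({a} : ZFSet.{0}).rank := ZFSet.rank_lt_of_mem (by simp)
  exact h1.trans (ZFSet.rank_lt_of_mem (by simp [pair]))

theorem rank_dm_lt {x y : ZFSet.{0}} (h : y ∈ dm x) : y.rank < x.rank := by
  obtain ⟨u, hu, rfl⟩ := mem_im.1 h
  by_cases h1 : ∃ a b, u = pair a b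
  · obtain ⟨a, b, rfl⟩ := h1
    rw [fs_pair]
    exact rank_fst_lt.trans (ZFSet.rank_lt_of_mem hu)
  · have h2 : fs u = ∅ := by rw [fs, dif_neg h1]
    rw [h2, ZFSet.rank_empty]
    exact pos_of_gt (ZFSet.rank_lt_of_mem hu)

/-- Induction on names. -/
theorem dm_ind {p : ZFSet.{0} → Prop} (h : ∀ x, (∀ y ∈ dm x, p y) → p x) (x : ZFSet.{0}) :
    p x := by
  have h1 : WellFounded fun y x : ZFSet.{0} => y ∈ dm x :=
    Subrelation.wf (fun h => rank_dm_lt h) (InvImage.wf ZFSet.rank Ordinal.lt_wf)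
  induction x using h1.induction with
  | _ x ih => exact h x ih

/-- The predecessors of a pair of names. -/
noncomputable def npr (z : ZFSet.{0}) : ZFSet.{0} := ZFSet.prod (dm (fs z)) (dm (sn z))

theorem npr_wf : WellFounded fun u z : ZFSet.{0} => u ∈ npr z := by
  refine Subrelation.wf (r := fun u z : ZFSet.{0} => (fs u).rank < (fs z).rank) ?_
    (InvImage.wf (fun z : ZFSet.{0} => (fs z).rank) Ordinal.lt_wf)
  intro u z h
  obtain ⟨a, ha, b, hb, rfl⟩ := ZFSet.mem_prod.1 h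
  rw [fs_pair]
  exact rank_dm_lt ha

section defs

variable (P Le : ZFSet.{0})

/-- The step of the recursion that defines forced equality. -/
noncomputable def est (z g : ZFSet.{0}) : ZFSet.{0} := ZFSet.sep (fun p =>
    (∀ y ∈ dm (fs z), ∀ c ∈ P, pair y c ∈ fs z → ∀ q ∈ P, pair q p ∈ Le → pair q c ∈ Le →
      ∃ r ∈ P, pair r q ∈ Le ∧ ∃ w ∈ dm (sn z), ∃ d ∈ P, pair w d ∈ sn z ∧ pair r d ∈ Le ∧
        r ∈ ap g (pair y w)) ∧
    (∀ w ∈ dm (sn z), ∀ d ∈ P, pair w d ∈ sn z → ∀ q ∈ P, pair q p ∈ Le → pair q d ∈ Le →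
      ∃ r ∈ P, pair r q ∈ Le ∧ ∃ y ∈ dm (fs z), ∃ c ∈ P, pair y c ∈ fs z ∧ pair r c ∈ Le ∧
        r ∈ ap g (pair y w))) P

/-- The set of conditions that force the equality of the two components. -/
noncomputable def eqs : ZFSet.{0} → ZFSet.{0} := wfF npr npr_wf (est P Le)

/-- The condition `p` forces that the names `x` and `y` have the same value. -/
def Qeq (x y p : ZFSet.{0}) : Prop := p ∈ eqs P Le (pair x y)

/-- The condition `p` forces that the value of `x` is an element of the value of `y`. -/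
def Qmem (x y p : ZFSet.{0}) : Prop := ∀ q ∈ P, pair q p ∈ Le →
  ∃ r ∈ P, pair r q ∈ Le ∧ ∃ w ∈ dm y, ∃ d ∈ P, pair w d ∈ y ∧ pair r d ∈ Le ∧ Qeq P Le x w r

/-- The forcing relation. The quantifiers range over the names in `M`. -/
def Frc (M : Set ZFSet.{0}) : {n : ℕ} → Fml ZFSet.{0} n → (Fin n → ZFSet.{0}) → ZFSet.{0} → Prop
  | _, .mem s t, v, p => Qmem P Le (Sum.elim v id s) (Sum.elim v id t) p
  | _, .eq s t, v, p => Qeq P Le (Sum.elim v id s) (Sum.elim v id t) p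
  | _, .neg φ, v, p => ∀ q ∈ P, pair q p ∈ Le → ¬ Frc M φ v q
  | _, .and φ ψ, v, p => Frc M φ v p ∧ Frc M ψ v p
  | _, .ex φ, v, p => ∀ q ∈ P, pair q p ∈ Le → ∃ r ∈ P, pair r q ∈ Le ∧
      ∃ x ∈ M, Frc M φ (Fin.cons x v) r

end defs

section basic

variable {P Le : ZFSet.{0}}

theorem qeq_iff {x y p : ZFSet.{0}} : Qeq P Le x y p ↔ p ∈ P ∧
    (∀ a c, pair a c ∈ x → c ∈ P → ∀ q ∈ P, pair q p ∈ Le → pair q c ∈ Le →
      ∃ r ∈ P, pair r q ∈ Le ∧ ∃ b d, pair b d ∈ y ∧ d ∈ P ∧ pair r d ∈ Le ∧ Qeq P Le a b r) ∧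
    (∀ b d, pair b d ∈ y → d ∈ P → ∀ q ∈ P, pair q p ∈ Le → pair q d ∈ Le →
      ∃ r ∈ P, pair r q ∈ Le ∧ ∃ a c, pair a c ∈ x ∧ c ∈ P ∧ pair r c ∈ Le ∧ Qeq P Le a b r) := by
  have h1 : ∀ a ∈ dm x, ∀ b ∈ dm y, ap (gr (eqs P Le) (npr (pair x y))) (pair a b) =
      eqs P Le (pair a b) := by
    intro a ha b hb
    refine ap_gr ?_
    rw [npr, fs_pair, sn_pair]
    exact ZFSet.pair_mem_prod.2 ⟨ha, hb⟩
  have h2 : eqs P Le (pair x y) = est P Le (pair x y) (gr (eqs P Le) (npr (pair x y))) :=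
    wfF_eq _ _ _ _
  unfold Qeq
  rw [h2, est, ZFSet.mem_sep, fs_pair, sn_pair]
  refine and_congr_right fun _ => and_congr ?_ ?_
  · constructor
    · intro h a c hac hc q hq hqp hqc
      obtain ⟨r, hr, hrq, w, hw, d, hd, h3, h4, h5⟩ := h a (mem_dm hac) c hc hac q hq hqp hqc
      rw [h1 a (mem_dm hac) w hw] at h5
      exact ⟨r, hr, hrq, w, d, h3, hd, h4, h5⟩
    · intro h a ha c hc hac q hq hqp hqc
      obtain ⟨r, hr, hrq, w, d, h3, hd, h4, h5⟩ := h a c hac hc q hq hqp hqc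
      refine ⟨r, hr, hrq, w, mem_dm h3, d, hd, h3, h4, ?_⟩
      rw [h1 a ha w (mem_dm h3)]
      exact h5
  · constructor
    · intro h b d hbd hd q hq hqp hqd
      obtain ⟨r, hr, hrq, a, ha, c, hc, h3, h4, h5⟩ := h b (mem_dm hbd) d hd hbd q hq hqp hqd
      rw [h1 a ha b (mem_dm hbd)] at h5
      exact ⟨r, hr, hrq, a, c, h3, hc, h4, h5⟩
    · intro h b hb d hd hbd q hq hqp hqd
      obtain ⟨r, hr, hrq, a, c, h3, hc, h4, h5⟩ := h b d hbd hd q hq hqp hqd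
      refine ⟨r, hr, hrq, a, mem_dm h3, c, hc, h3, h4, ?_⟩
      rw [h1 a (mem_dm h3) b hb]
      exact h5

theorem Qeq.mem {x y p : ZFSet.{0}} (h : Qeq P Le x y p) : p ∈ P := (qeq_iff.1 h).1

theorem qmem_iff {x y p : ZFSet.{0}} : Qmem P Le x y p ↔ ∀ q ∈ P, pair q p ∈ Le →
    ∃ r ∈ P, pair r q ∈ Le ∧ ∃ b d, pair b d ∈ y ∧ d ∈ P ∧ pair r d ∈ Le ∧ Qeq P Le x b r := by
  constructor
  · intro h q hq hqp
    obtain ⟨r, hr, hrq, w, -, d, hd, h1, h2, h3⟩ := h q hq hqp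
    exact ⟨r, hr, hrq, w, d, h1, hd, h2, h3⟩
  · intro h q hq hqp
    obtain ⟨r, hr, hrq, w, d, h1, hd, h2, h3⟩ := h q hq hqp
    exact ⟨r, hr, hrq, w, mem_dm h1, d, hd, h1, h2, h3⟩

variable {M : Set ZFSet.{0}} (hP : IsForcing M P Le)

include hP

theorem Qeq.mono {x y p q : ZFSet.{0}} (h : Qeq P Le x y p) (hq : q ∈ P)
    (hqp : pair q p ∈ Le) : Qeq P Le x y q := by
  have hp := h.mem
  rw [qeq_iff] at h ⊢
  refine ⟨hq, fun a c hac hc r hr hrq hrc => ?_, fun b d hbd hd r hr hrq hrd => ?_⟩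
  · exact h.2.1 a c hac hc r hr (hP.trans p hp q hq r hr hrq hqp) hrc
  · exact h.2.2 b d hbd hd r hr (hP.trans p hp q hq r hr hrq hqp) hrd

theorem Qeq.refl (x : ZFSet.{0}) : ∀ p ∈ P, Qeq P Le x x p := by
  induction x using dm_ind with
  | _ x ih =>
    intro p hp
    rw [qeq_iff]
    refine ⟨hp, fun a c hac hc q hq _ hqc => ?_, fun a c hac hc q hq _ hqc => ?_⟩
    · exact ⟨q, hq, hP.refl q hq, a, c, hac, hc, hqc, ih a (mem_dm hac) q hq⟩
    · exact ⟨q, hq, hP.refl q hq, a, c, hac, hc, hqc, ih a (mem_dm hac) q hq⟩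

omit hP in
theorem Qeq.symm {x y p : ZFSet.{0}} (h : Qeq P Le x y p) : Qeq P Le y x p := by
  induction x using dm_ind generalizing y p with
  | _ x ih =>
    rw [qeq_iff] at h ⊢
    refine ⟨h.1, fun b d hbd hd q hq hqp hqd => ?_, fun a c hac hc q hq hqp hqc => ?_⟩
    · obtain ⟨r, hr, hrq, a, c, h1, hc, h2, h3⟩ := h.2.2 b d hbd hd q hq hqp hqd
      exact ⟨r, hr, hrq, a, c, h1, hc, h2, ih a (mem_dm h1) h3⟩
    · obtain ⟨r, hr, hrq, b, d, h1, hd, h2, h3⟩ := h.2.1 a c hac hc q hq hqp hqc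
      exact ⟨r, hr, hrq, b, d, h1, hd, h2, ih a (mem_dm hac) h3⟩

theorem Qmem.mono {x y p q : ZFSet.{0}} (hp : p ∈ P) (h : Qmem P Le x y p) (hq : q ∈ P)
    (hqp : pair q p ∈ Le) : Qmem P Le x y q :=
  fun r hr hrq => h r hr (hP.trans p hp q hq r hr hrq hqp)

theorem Frc.mono : {n : ℕ} → {φ : Fml ZFSet.{0} n} → {v : Fin n → ZFSet.{0}} →
    {p q : ZFSet.{0}} → p ∈ P → Frc P Le M φ v p → q ∈ P → pair q p ∈ Le → Frc P Le M φ v q
  | _, .mem _ _, _, _, _, hp, h, hq, hqp => Qmem.mono hP hp h hq hqp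
  | _, .eq _ _, _, _, _, _, h, hq, hqp => Qeq.mono hP h hq hqp
  | _, .neg _, _, p, q, hp, h, hq, hqp =>
    fun r hr hrq => h r hr (hP.trans p hp q hq r hr hrq hqp)
  | _, .and φ ψ, _, _, _, hp, h, hq, hqp =>
    ⟨Frc.mono (φ := φ) hp h.1 hq hqp, Frc.mono (φ := ψ) hp h.2 hq hqp⟩
  | _, .ex _, _, p, q, hp, h, hq, hqp =>
    fun r hr hrq => h r hr (hP.trans p hp q hq r hr hrq hqp)

/-- A witness for a failure of equality. -/
theorem exists_wit {x y p : ZFSet.{0}} (hp : p ∈ P) (h : ¬ Qeq P Le x y p) :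
    ∃ q ∈ P, pair q p ∈ Le ∧
      ((∃ a c, pair a c ∈ x ∧ c ∈ P ∧ pair q c ∈ Le ∧ ∀ r ∈ P, pair r q ∈ Le → ∀ b d,
        pair b d ∈ y → d ∈ P → pair r d ∈ Le → ¬ Qeq P Le a b r) ∨
      (∃ b d, pair b d ∈ y ∧ d ∈ P ∧ pair q d ∈ Le ∧ ∀ r ∈ P, pair r q ∈ Le → ∀ a c,
        pair a c ∈ x → c ∈ P → pair r c ∈ Le → ¬ Qeq P Le a b r)) := by
  by_contra hcon
  refine h (qeq_iff.2 ⟨hp, ?_, ?_⟩)
  · intro a c hac hc q hq hqp hqc
    by_contra h1
    exact hcon ⟨q, hq, hqp, Or.inl ⟨a, c, hac, hc, hqc, fun r hr hrq b d h2 hd h3 h4 =>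
      h1 ⟨r, hr, hrq, b, d, h2, hd, h3, h4⟩⟩⟩
  · intro b d hbd hd q hq hqp hqd
    by_contra h1
    exact hcon ⟨q, hq, hqp, Or.inr ⟨b, d, hbd, hd, hqd, fun r hr hrq a c h2 hc h3 h4 =>
      h1 ⟨r, hr, hrq, a, c, h2, hc, h3, h4⟩⟩⟩

end basic

/-! ### Definability -/

section dfn

variable {M : Set ZFSet.{0}} (hM : IsZF M) {P Le : ZFSet.{0}} (hP : P ∈ M) (hL : Le ∈ M)

include hM

theorem dm' {n : ℕ} {F : (Fin n → ZFSet.{0}) → ZFSet.{0}} (hF : DfnF M M F) :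
    DfnF M M fun v => dm (F v) :=
  hM.im' (h := fun p _ => fs p) hF (hM.fs' (DfnF.proj 0))

theorem dm_mem {x : ZFSet.{0}} (hx : x ∈ M) : dm x ∈ M :=
  (dm' hM (DfnF.const hx)).1 Fin.elim0 fun i => i.elim0

include hP hL

theorem dfn_est : DfnF M M fun w : Fin 2 → ZFSet.{0} => est P Le (w 0) (w 1) := by
  have hB := hM.base
  unfold est
  refine hM.sep' (Q := fun p w =>
    (∀ y ∈ dm (fs (w 0)), ∀ c ∈ P, pair y c ∈ fs (w 0) → ∀ q ∈ P, pair q p ∈ Le →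
      pair q c ∈ Le → ∃ r ∈ P, pair r q ∈ Le ∧ ∃ w' ∈ dm (sn (w 0)), ∃ d ∈ P,
        pair w' d ∈ sn (w 0) ∧ pair r d ∈ Le ∧ r ∈ ap (w 1) (pair y w')) ∧
    (∀ w' ∈ dm (sn (w 0)), ∀ d ∈ P, pair w' d ∈ sn (w 0) → ∀ q ∈ P, pair q p ∈ Le →
      pair q d ∈ Le → ∃ r ∈ P, pair r q ∈ Le ∧ ∃ y ∈ dm (fs (w 0)), ∃ c ∈ P,
        pair y c ∈ fs (w 0) ∧ pair r c ∈ Le ∧ r ∈ ap (w 1) (pair y w'))) (DfnF.const hP) ?_
  (repeat' first
      | assumption
      | exact DfnF.proj _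
      | exact DfnF.const (by assumption)
      | exact Dfn.prop _
      | apply Dfn.not | apply Dfn.and | apply Dfn.or | apply Dfn.imp | apply Dfn.iff
      | apply hB.bex | apply hB.ball | apply Dfn.ex | apply Dfn.all
      | apply Dfn.eq | apply Dfn.mem | apply hB.pair' | apply hM.fs' | apply hM.sn'
      | apply dm' hM | apply hM.ap')

theorem dfn_eqs : DfnF M M fun w : Fin 1 → ZFSet.{0} => eqs P Le (w 0) := by
  refine hM.wfrec npr_wf ?_ (G := est P Le) (dfn_est hM hP hL) fun z => wfF_eq _ _ _ _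
  exact hM.prod' (dm' hM (hM.fs' (DfnF.proj 0))) (dm' hM (hM.sn' (DfnF.proj 0)))

variable {n : ℕ} {F G H : (Fin n → ZFSet.{0}) → ZFSet.{0}}

theorem dfn_qeq (hF : DfnF M M F) (hG : DfnF M M G) (hH : DfnF M M H) :
    Dfn M M fun v => Qeq P Le (F v) (G v) (H v) :=
  Dfn.mem hH (DfnF.comp1 (f := eqs P Le) (dfn_eqs hM hP hL) (hM.base.pair' hF hG))

theorem dfn_qmem (hF : DfnF M M F) (hG : DfnF M M G) (hH : DfnF M M H) :
    Dfn M M fun v => Qmem P Le (F v) (G v) (H v) := by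
  have hB := hM.base
  have h : Dfn M M fun w : Fin 3 → ZFSet.{0} => Qmem P Le (w 0) (w 1) (w 2) := by
    unfold Qmem
    (repeat' first
      | assumption
      | exact DfnF.proj _
      | exact DfnF.const (by assumption)
      | exact Dfn.prop _
      | apply Dfn.not | apply Dfn.and | apply Dfn.or | apply Dfn.imp | apply Dfn.iff
      | apply hB.bex | apply hB.ball | apply Dfn.ex | apply Dfn.all
      | apply dfn_qeq hM hP hL
      | apply Dfn.eq | apply Dfn.mem | apply hB.pair' | apply hM.fs' | apply hM.sn'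
      | apply dm' hM | apply hM.ap')
  exact Dfn.comp3 (Q := fun a b c => Qmem P Le a b c) h hF hG hH

omit hP hL hM in
theorem dfn_tm {k m : ℕ} {G : Fin k → (Fin m → ZFSet.{0}) → ZFSet.{0}}
    (hG : ∀ i, DfnF M M (G i)) (s : Fin k ⊕ ZFSet.{0}) (hs : TOver M s) :
    DfnF M M fun w : Fin m → ZFSet.{0} => Sum.elim (fun i => G i w) id s := by
  cases s with
  | inl i => exact hG i
  | inr a => exact DfnF.const (hs a rfl)

/-- The forcing relation is definable. -/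
theorem dfn_frc : {k : ℕ} → (φ : Fml ZFSet.{0} k) → φ.Over M → {m : ℕ} →
    (G : Fin k → (Fin m → ZFSet.{0}) → ZFSet.{0}) → (∀ i, DfnF M M (G i)) →
    {H : (Fin m → ZFSet.{0}) → ZFSet.{0}} → DfnF M M H →
    Dfn M M fun w : Fin m → ZFSet.{0} => Frc P Le M φ (fun i => G i w) (H w)
  | _, .mem s t, h, _, G, hG, _, hH =>
    dfn_qmem hM hP hL (dfn_tm hG s h.1) (dfn_tm hG t h.2) hH
  | _, .eq s t, h, _, G, hG, _, hH =>
    dfn_qeq hM hP hL (dfn_tm hG s h.1) (dfn_tm hG t h.2) hH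
  | k, .neg φ, h, m, G, hG, H, hH => by
    have hB := hM.base
    have h1 := dfn_frc φ h (m := m + 1) (fun i w => G i (Fin.tail w)) (fun i => (hG i).tail)
      (H := fun w => w 0) (DfnF.proj 0)
    refine hB.ball (Q := fun q w => pair q (H w) ∈ Le → ¬ Frc P Le M φ (fun i => G i w) q)
      (DfnF.const hP) ?_
    exact (Dfn.mem (hB.pair' (DfnF.proj 0) hH.tail) (DfnF.const hL)).imp h1.not
  | _, .and φ ψ, h, _, G, hG, _, hH => (dfn_frc φ h.1 G hG hH).and (dfn_frc ψ h.2 G hG hH)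
  | k, .ex φ, h, m, G, hG, H, hH => by
    have hB := hM.base
    refine hB.ball (Q := fun q w => pair q (H w) ∈ Le → ∃ r ∈ P, pair r q ∈ Le ∧
      ∃ x ∈ M, Frc P Le M φ (Fin.cons x fun i => G i w) r) (DfnF.const hP) ?_
    refine (Dfn.mem (hB.pair' (DfnF.proj 0) hH.tail) (DfnF.const hL)).imp ?_
    refine hB.bex (Q := fun r w => pair r (w 0) ∈ Le ∧
      ∃ x ∈ M, Frc P Le M φ (Fin.cons x fun i => G i (Fin.tail w)) r) (DfnF.const hP) ?_
    refine (Dfn.mem (hB.pair' (DfnF.proj 0) (DfnF.proj 1)) (DfnF.const hL)).and ?_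
    refine Dfn.ex (Q := fun x w => Frc P Le M φ
      (Fin.cons x fun i => G i (Fin.tail (Fin.tail w))) (w 0)) ?_
    have h2 := dfn_frc φ h (m := m + 3)
      (Fin.cons (fun w => w 0) fun i w => G i (Fin.tail (Fin.tail (Fin.tail w)))) (by
        intro i
        refine Fin.cases ?_ (fun i => ?_) i
        · exact DfnF.proj 0
        · exact (hG i).tail.tail.tail) (H := fun w => w 1) (DfnF.proj 1)
    refine h2.congr fun w _ => ?_
    have h3 : (fun i => (Fin.cons (fun w => w 0)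
        (fun i w => G i (Fin.tail (Fin.tail (Fin.tail w)))) :
        Fin (k + 1) → (Fin (m + 3) → ZFSet.{0}) → ZFSet.{0}) i w) =
        Fin.cons (w 0) fun i => G i (Fin.tail (Fin.tail (Fin.tail w))) := by
      funext i
      refine Fin.cases ?_ (fun i => ?_) i
      · rfl
      · rfl
    rw [h3]
    rfl

/-- For fixed names, the set of conditions that force a formula is definable. -/
theorem dfn_frc1 {k : ℕ} (φ : Fml ZFSet.{0} k) (h : φ.Over M) {v : Fin k → ZFSet.{0}}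
    (hv : ∀ i, v i ∈ M) : Dfn M M fun w : Fin 1 → ZFSet.{0} => Frc P Le M φ v (w 0) :=
  dfn_frc hM hP hL φ h (fun i _ => v i) (fun i => DfnF.const (hv i)) (DfnF.proj 0)

end dfn

end Pool.Agent.Y588
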