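import Pool.Agent.Y588.Gex

/-!
# Existence of generic filters, new filters, and global choice in the extension
-/

set_option autoImplicit false
set_option linter.unreachableTactic false
set_option linter.unusedTactic false
set_option linter.unusedSectionVars false

namespace Pool.Agent.Y588

open Pool.Agent.W868 Pool.Agent.W868.GM
open ZFSet (pair)

/-- Generic filters exist for countable models. -/
theorem exists_gen {M : Set ZFSet.{0}} (hc : M.Countable) {P Le : ZFSet.{0}}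
    (hP : IsForcing M P Le) {p₀ : ZFSet.{0}} (hp₀ : p₀ ∈ P) :
    ∃ G, IsGeneric M P Le G ∧ p₀ ∈ G := by
  classical
  have hne : M.Nonempty := ⟨P, hP.mem⟩
  obtain ⟨f, hf⟩ := hc.exists_eq_range hne
  -- the sequence
  let E : ZFSet.{0} → ZFSet.{0} → Prop := fun D q => q ∈ P ∧
    ((∀ p ∈ P, ∃ q ∈ P, q ∈ D ∧ pair q p ∈ Le) → q ∈ D)
  have hstep : ∀ (D : ZFSet.{0}) (p : {p // p ∈ P}), ∃ q : {p // p ∈ P},
      pair q.1 p.1 ∈ Le ∧ E D q.1 := by
    intro D p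
    by_cases h : ∀ p ∈ P, ∃ q ∈ P, q ∈ D ∧ pair q p ∈ Le
    · obtain ⟨q, hq, hqD, hqp⟩ := h p.1 p.2
      exact ⟨⟨q, hq⟩, hqp, hq, fun _ => hqD⟩
    · exact ⟨p, hP.refl _ p.2, p.2, fun h' => absurd h' h⟩
  choose g hg1 hg2 using hstep
  let s : ℕ → {p // p ∈ P} := fun n => Nat.rec ⟨p₀, hp₀⟩ (fun n p => g (f n) p) n
  have hs : ∀ n, pair (s (n + 1)).1 (s n).1 ∈ Le := fun n => hg1 _ _
  have hs' : ∀ m n, m ≤ n → pair (s n).1 (s m).1 ∈ Le := by
    intro m n h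
    induction n, h using Nat.le_induction with
    | base => exact hP.refl _ (s m).2
    | succ n _ ih => exact hP.trans _ (s m).2 _ (s n).2 _ (s (n + 1)).2 (hs n) ih
  let G := ZFSet.sep (fun p => ∃ n, pair (s n).1 p ∈ Le) P
  have hmem : ∀ p, p ∈ G ↔ p ∈ P ∧ ∃ n, pair (s n).1 p ∈ Le := fun p => ZFSet.mem_sep
  refine ⟨G, ⟨fun p hp => ((hmem p).1 hp).1, ⟨p₀, ?_⟩, ?_, ?_, ?_⟩, ?_⟩
  · exact (hmem _).2 ⟨hp₀, 0, hP.refl _ hp₀⟩
  · intro q hq p hp hqp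
    obtain ⟨h1, n, h2⟩ := (hmem _).1 hq
    exact (hmem _).2 ⟨hp, n, hP.trans _ hp _ h1 _ (s n).2 h2 hqp⟩
  · intro p hp q hq
    obtain ⟨h1, n, h2⟩ := (hmem _).1 hp
    obtain ⟨h3, m, h4⟩ := (hmem _).1 hq
    refine ⟨(s (max n m)).1, (hmem _).2 ⟨(s _).2, max n m, hP.refl _ (s _).2⟩, ?_, ?_⟩
    · exact hP.trans _ h1 _ (s n).2 _ (s _).2 (hs' _ _ (le_max_left _ _)) h2
    · exact hP.trans _ h3 _ (s m).2 _ (s _).2 (hs' _ _ (le_max_right _ _)) h4
  · intro D hD hDP hd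
    have h1 : D ∈ Set.range f := hf ▸ hD
    obtain ⟨n, rfl⟩ := h1
    have h2 : (s (n + 1)).1 ∈ f n := by
      refine (hg2 (f n) (s n)).2 fun p hp => ?_
      obtain ⟨q, hq, hqp⟩ := hd p hp
      exact ⟨q, hDP hq, hq, hqp⟩
    exact ⟨_, h2, (hmem _).2 ⟨(s (n + 1)).2, n + 1, hP.refl _ (s (n + 1)).2⟩⟩
  · exact (hmem _).2 ⟨hp₀, 0, hP.refl _ hp₀⟩

/-- A generic filter is not in the ground model, if no condition is an atom. -/
theorem gen_notMem {M : Set ZFSet.{0}} (hM : IsZF M) {P Le : ZFSet.{0}}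
    (hP : IsForcing M P Le) {G : ZFSet.{0}} (hG : IsGeneric M P Le G)
    (h : ∀ p ∈ P, ∃ q ∈ P, ∃ r ∈ P, pair q p ∈ Le ∧ pair r p ∈ Le ∧
      ∀ s ∈ P, pair s q ∈ Le → ¬ pair s r ∈ Le) : G ∉ M := by
  intro hGM
  have hB := hM.base
  have hPM := hP.mem
  have hd : Dfn M M fun w : Fin 1 → ZFSet.{0} => ¬ w 0 ∈ G :=
    (Dfn.mem (DfnF.proj 0) (DfnF.const hGM)).not
  obtain ⟨q, hq, hqG⟩ := hG.meet _ (hM.sep_mem (Q := fun w => ¬ w ∈ G) hd hPM)
    (fun z hz => (ZFSet.mem_sep.1 hz).1) (by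
      intro p hp
      obtain ⟨q, hq, r, hr, hqp, hrp, h1⟩ := h p hp
      by_cases hqG : q ∈ G
      · refine ⟨r, ZFSet.mem_sep.2 ⟨hr, fun hrG => ?_⟩, hrp⟩
        obtain ⟨s, hs, h2, h3⟩ := hG.dir q hqG r hrG
        exact h1 s (hG.sub hs) h2 h3
      · exact ⟨q, ZFSet.mem_sep.2 ⟨hq, hqG⟩, hqp⟩)
  exact (ZFSet.mem_sep.1 hq).2 hqG

/-! ### The ground model is definable in the extension, if it is of the form `L[A]` -/

theorem LC_eq {M W : Set ZFSet.{0}} {A : ZFSet.{0}} (hL : IsLA A M)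
    (hord : ∀ x : ZFSet.{0}, x.IsOrdinal → (x ∈ M ↔ x ∈ W)) : LC W A = M := by
  ext x
  constructor
  · rintro ⟨ξ, h1, h2, h3⟩
    have h4 := (hord ξ h2).2 h1
    exact hL.zf.trans _ (Lv_mem_M hL.zf hL.mem h4) _ h3
  · intro hx
    obtain ⟨ξ, h1, h2, h3⟩ := hL.lev x hx
    exact ⟨ξ, (hord ξ h2).1 h1, h2, h3⟩

/-- Definable relations over a definable class are definable. -/
theorem Dfn.relativize {C W : Set ZFSet.{0}} (hCW : C ⊆ W)
    (hC : Dfn W W fun w : Fin 1 → ZFSet.{0} => w 0 ∈ C) {n : ℕ}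
    {R : (Fin n → ZFSet.{0}) → Prop} (h : Dfn C C R) :
    Dfn W W fun w => (∀ i, w i ∈ C) ∧ R w := by
  obtain ⟨φ, h1, h2⟩ := h
  have h3 : Dfn W W fun w : Fin n → ZFSet.{0} => Sat C id φ fun i => w i :=
    dfn_sat hC hCW φ (h1.mono hCW) (fun i w => w i) fun i => DfnF.proj i
  have h4 : ∀ (k : ℕ) (hk : k ≤ n), Dfn W W fun w : Fin n → ZFSet.{0} =>
      ∀ i : Fin n, (i : ℕ) < k → w i ∈ C := by
    intro k
    induction k with
    | zero =>
      intro _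
      exact Dfn.tt.congr fun w _ => ⟨fun _ i hi => absurd hi (Nat.not_lt_zero _), fun _ => trivial⟩
    | succ k ih =>
      intro hk
      refine ((ih (by omega)).and (Dfn.comp1 (Q := fun x => x ∈ C) hC
        (DfnF.proj (⟨k, hk⟩ : Fin n)))).congr fun w _ => ?_
      constructor
      · rintro ⟨h5, h6⟩ i hi
        rcases Nat.lt_succ_iff_lt_or_eq.1 hi with h7 | h7
        · exact h5 i h7
        · have h8 : i = ⟨k, hk⟩ := Fin.ext h7
          rwa [h8]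
      · exact fun h5 => ⟨fun i hi => h5 i (by omega), h5 _ (Nat.lt_succ_self k)⟩
  refine ((h4 n le_rfl).and h3).congr fun w _ => ?_
  constructor
  · rintro ⟨h5, h6⟩
    have h7 : ∀ i, w i ∈ C := fun i => h5 i i.isLt
    exact ⟨h7, (h2 w h7).1 h6⟩
  · rintro ⟨h5, h6⟩
    exact ⟨fun i _ => h5 i, (h2 w h5).2 h6⟩

section

variable {M : Set ZFSet.{0}} {A : ZFSet.{0}} (hL : IsLA A M) {P Le : ZFSet.{0}}
  (hP : IsForcing M P Le) {G : ZFSet.{0}} (hG : IsGeneric M P Le G)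

include hL hP hG

theorem ord_ext (x : ZFSet.{0}) (hx : x.IsOrdinal) : x ∈ M ↔ x ∈ ext M G :=
  ⟨fun h => sub_ext hL.zf hP hG h, fun h => ord_of_ext hL.zf h hx⟩

theorem zf_ext : IsZF (ext M G) := isZF_ext hL.zf hP hG hL.gc

theorem dfn_ground : Dfn (ext M G) (ext M G) fun w : Fin 1 → ZFSet.{0} => w 0 ∈ M := by
  have h := dfn_LC (zf_ext hL hP hG) (A := A) (sub_ext hL.zf hP hG hL.mem)
  rwa [LC_eq hL (ord_ext hL hP hG)] at h

/-- The order of the extension: the least order of a name. -/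
noncomputable def ee (M : Set ZFSet.{0}) (G : ZFSet.{0}) (e : ZFSet.{0} → ZFSet.{0})
    (x : ZFSet.{0}) : ZFSet.{0} := lo (ext M G) fun ξ => ∃ τ ∈ M, e τ = ξ ∧ ev G τ = x

/-- Global choice in the extension. -/
theorem gc_ext {e : ZFSet.{0} → ZFSet.{0}} (hg : GC M e) : GC (ext M G) (ee M G e) := by
  have hZ := zf_ext hL hP hG
  have hB := hZ.base
  have hGe := gen_mem_ext hL.zf hP hG
  have hsub := sub_ext hL.zf hP hG
  have hgr : Dfn (ext M G) (ext M G) fun w : Fin 2 → ZFSet.{0} =>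
      (∀ i, w i ∈ M) ∧ w 0 = e (w 1) :=
    Dfn.relativize hsub (dfn_ground hL hP hG) hg.dfn.2
  refine ⟨?_, fun x => lo_isOrdinal, ?_⟩
  · refine hZ.lo' (Q := fun ξ w => ∃ τ ∈ M, e τ = ξ ∧ ev G τ = w 0) ?_
    have h1 : Dfn (ext M G) (ext M G) fun w : Fin 2 → ZFSet.{0} => ∃ τ ∈ ext M G,
        ((τ ∈ M) ∧ ((∀ i, (![w 0, τ] : Fin 2 → ZFSet.{0}) i ∈ M) ∧ w 0 = e τ)) ∧
          ev G τ = w 1 := by
      apply Dfn.ex
      refine ((Dfn.comp1 (Q := fun x => x ∈ M) (dfn_ground hL hP hG) (DfnF.proj 0)).and ?_).and ?_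
      · refine (hgr.comp ![1, 0]).congr fun w _ => ?_
        have h2 : (fun i => w ((![1, 0] : Fin 2 → Fin 3) i)) =
            (![Fin.tail w 0, w 0] : Fin 2 → ZFSet.{0}) := by
          funext i
          fin_cases i <;> rfl
        constructor
        · rintro ⟨h3, h4⟩
          refine ⟨?_, h4⟩
          intro i
          have := h3 i
          fin_cases i <;> exact this
        · rintro ⟨h3, h4⟩
          refine ⟨?_, h4⟩
          intro i
          have := h3 i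
          fin_cases i <;> exact this
      · exact Dfn.eq (DfnF.comp1 (f := ev G) (dfn_ev hZ hGe) (DfnF.proj 0)) (DfnF.proj 2)
    refine h1.congr fun w hw => ?_
    constructor
    · rintro ⟨τ, h2, ⟨h3, h4, h5⟩, h6⟩
      exact ⟨τ, h3, h5.symm, h6⟩
    · rintro ⟨τ, h3, h5, h6⟩
      refine ⟨τ, hsub h3, ⟨h3, ?_, h5.symm⟩, h6⟩
      have h7 : w 0 ∈ M := h5 ▸ (hg.dfn.1 (fun _ => τ) fun _ => h3)
      intro i
      fin_cases i
      · exact h7
      · exact h3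
  · intro x hx y hy h
    have key : ∀ x ∈ ext M G, ∃ τ ∈ M, e τ = ee M G e x ∧ ev G τ = x := by
      rintro _ ⟨τ, hτ, rfl⟩
      refine (lo_spec (M := ext M G) (P := fun ξ => ∃ τ' ∈ M, e τ' = ξ ∧ ev G τ' = ev G τ)
        ⟨e τ, hsub (hg.dfn.1 (fun _ => τ) fun _ => hτ), hg.ord τ, τ, hτ, rfl, rfl⟩).2.2
    obtain ⟨τ, h1, h2, h3⟩ := key x hx
    obtain ⟨σ, h4, h5, h6⟩ := key y hy
    have h7 : τ = σ := hg.inj τ h1 σ h4 (by rw [h2, h5, h])
    rw [← h3, ← h6, h7]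

/-- The extension is a model of ZFC. -/
theorem zfc_ext : IsZFC (ext M G) :=
  isZFC_of_gc (zf_ext hL hP hG) (gc_ext hL hP hG hL.gc)

end

/-- The extension by a filter on a set in `L[A]` is `L[A, G]`. -/
theorem isLA_ext {N : Set ZFSet.{0}} (hL : IsLA ∅ N) {P Le : ZFSet.{0}}
    (hP : IsForcing N P Le) {G : ZFSet.{0}} (hG : IsGeneric N P Le G) :
    IsLA G (ext N G) := by
  have hZ := zf_ext hL hP hG
  have hGe := gen_mem_ext hL.zf hP hG
  have hZ' := isZF_LC hZ hGe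
  -- the ground model is contained in LC
  have hN : N ⊆ LC (ext N G) G := by
    intro x hx
    obtain ⟨ξ, h1, h2, h3⟩ := hL.lev x hx
    have h4 : ξ ∈ LC (ext N G) G := ord_LC hZ hGe (sub_ext hL.zf hP hG h1) h2
    exact hZ'.trans _ (Lv_mem_M hZ' hZ'.empty_mem h4) _ h3
  have hPL : P ∈ LC (ext N G) G := hN hP.mem
  obtain ⟨δ, hδ, hδo, h1⟩ := hPL
  have h2 : G ⊆ Lv G δ := fun x hx => Lv_trans _ _ h1 _ (hG.sub hx)
  have h3 := isLA_LC hZ hGe hδ hδo h2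
  have h4 : LC (ext N G) G = ext N G := by
    apply Set.Subset.antisymm (LC_subset hZ hGe)
    exact ext_sub h3.zf hN h3.mem
  rwa [h4] at h3

end Pool.Agent.Y588
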