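import Pool.Agent.Y588.Tru

/-!
# The generic extension of a transitive model of ZF with a definable well-ordering
-/

set_option autoImplicit false
set_option linter.unreachableTactic false
set_option linter.unusedTactic false
set_option linter.unusedSectionVars false

namespace Pool.Agent.Y588

open Pool.Agent.W868 Pool.Agent.W868.GM
open ZFSet (pair)

/-! ### The rank in a model -/

/-- The rank of a set, as a set. -/
noncomputable def rk (x : ZFSet.{0}) : ZFSet.{0} := x.rank.toZFSet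

theorem isOrdinal_rk (x : ZFSet.{0}) : (rk x).IsOrdinal := ZFSet.isOrdinal_toZFSet _

theorem mem_rk {x y : ZFSet.{0}} : y ∈ rk x ↔ ∃ u ∈ x, y ∈ sc (rk u) := by
  unfold rk sc
  rw [Ordinal.mem_toZFSet_iff]
  constructor
  · rintro ⟨a, ha, rfl⟩
    obtain ⟨u, hu, h⟩ := ZFSet.lt_rank_iff.1 ha
    refine ⟨u, hu, ?_⟩
    rw [← Ordinal.toZFSet_succ]
    exact Ordinal.toZFSet_mem_toZFSet_iff.2 (Order.lt_succ_of_le h)
  · rintro ⟨u, hu, h⟩
    rw [← Ordinal.toZFSet_succ, Ordinal.mem_toZFSet_iff] at h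
    obtain ⟨a, ha, rfl⟩ := h
    exact ⟨a, ZFSet.lt_rank_iff.2 ⟨u, hu, Order.lt_succ_iff.1 ha⟩, rfl⟩

theorem rk_ord {x : ZFSet.{0}} (hx : x.IsOrdinal) : rk x = x := hx.toZFSet_rank_eq

theorem rk_mem_rk {x y : ZFSet.{0}} (h : y ∈ x) : rk y ∈ rk x :=
  Ordinal.toZFSet_mem_toZFSet_iff.2 (ZFSet.rank_lt_of_mem h)

theorem rk_eq (x : ZFSet.{0}) : rk x = ZFSet.sUnion (im (fun p => sc (sn p)) (gr rk x)) := by
  ext y
  rw [mem_rk, ZFSet.mem_sUnion]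
  constructor
  · rintro ⟨u, hu, h⟩
    exact ⟨_, mem_im.2 ⟨_, mem_gr.2 ⟨u, hu, rfl⟩, rfl⟩, by rwa [sn_pair]⟩
  · rintro ⟨w, hw, h⟩
    obtain ⟨p, hp, rfl⟩ := mem_im.1 hw
    obtain ⟨u, hu, rfl⟩ := mem_gr.1 hp
    rw [sn_pair] at h
    exact ⟨u, hu, h⟩

theorem dfn_rk {M : Set ZFSet.{0}} (hM : IsZF M) :
    DfnF M M fun w : Fin 1 → ZFSet.{0} => rk (w 0) := by
  refine hM.memrec (G := fun _ g => ZFSet.sUnion (im (fun p => sc (sn p)) g)) ?_ rk_eq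
  have hB := hM.base
  refine hB.sUnion' (hM.im' (h := fun p _ => sc (sn p)) (DfnF.proj 1) ?_)
  exact hB.insert' (hM.sn' (DfnF.proj 0)) (hM.sn' (DfnF.proj 0))

theorem rk_mem {M : Set ZFSet.{0}} (hM : IsZF M) {x : ZFSet.{0}} (hx : x ∈ M) : rk x ∈ M :=
  (dfn_rk hM).1 (fun _ => x) fun _ => hx

/-! ### Check names -/

/-- The canonical name of a set. -/
noncomputable def chk (t : ZFSet.{0}) : ZFSet.{0} → ZFSet.{0} :=
  wfF (fun z => z) ZFSet.mem_wf fun _ g => im (fun p => pair (sn p) t) g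

theorem chk_eq (t x : ZFSet.{0}) : chk t x = im (fun p => pair (sn p) t) (gr (chk t) x) :=
  wfF_eq _ _ _ _

theorem mem_chk {t x u : ZFSet.{0}} : u ∈ chk t x ↔ ∃ y ∈ x, u = pair (chk t y) t := by
  rw [chk_eq, mem_im]
  constructor
  · rintro ⟨p, hp, rfl⟩
    obtain ⟨y, hy, rfl⟩ := mem_gr.1 hp
    exact ⟨y, hy, by rw [sn_pair]⟩
  · rintro ⟨y, hy, rfl⟩
    exact ⟨_, mem_gr.2 ⟨y, hy, rfl⟩, by rw [sn_pair]⟩

theorem ev_chk {G t : ZFSet.{0}} (ht : t ∈ G) (x : ZFSet.{0}) : ev G (chk t x) = x := by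
  induction x using ZFSet.inductionOn with
  | _ x ih =>
    ext z
    rw [mem_ev]
    constructor
    · rintro ⟨y, p, h1, -, rfl⟩
      obtain ⟨u, hu, h2⟩ := mem_chk.1 h1
      obtain ⟨rfl, rfl⟩ := ZFSet.pair_inj.1 h2
      rwa [ih u hu]
    · intro hz
      exact ⟨chk t z, t, mem_chk.2 ⟨z, hz, rfl⟩, ht, ih z hz⟩

theorem dfn_chk {M : Set ZFSet.{0}} (hM : IsZF M) {t : ZFSet.{0}} (ht : t ∈ M) :
    DfnF M M fun w : Fin 1 → ZFSet.{0} => chk t (w 0) := by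
  refine hM.memrec (G := fun _ g => im (fun p => pair (sn p) t) g) ?_ (chk_eq t)
  have hB := hM.base
  refine hM.im' (h := fun p _ => pair (sn p) t) (DfnF.proj 1) ?_
  exact hB.pair' (hM.sn' (DfnF.proj 0)) (DfnF.const ht)

theorem chk_mem {M : Set ZFSet.{0}} (hM : IsZF M) {t x : ZFSet.{0}} (ht : t ∈ M) (hx : x ∈ M) :
    chk t x ∈ M := (dfn_chk hM ht).1 (fun _ => x) fun _ => hx

/-! ### Evaluation in a model that contains the filter -/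

theorem dm_wf : WellFounded fun u z : ZFSet.{0} => u ∈ dm z :=
  Subrelation.wf (fun h => rank_dm_lt h) (InvImage.wf ZFSet.rank Ordinal.lt_wf)

theorem ev_eq_im (G x : ZFSet.{0}) : ev G x = im (ap (gr (ev G) (dm x)))
    (ZFSet.sep (fun y => ∃ p ∈ G, pair y p ∈ x) (dm x)) := by
  ext z
  rw [mem_ev, mem_im]
  constructor
  · rintro ⟨y, p, h1, h2, rfl⟩
    exact ⟨y, ZFSet.mem_sep.2 ⟨mem_dm h1, p, h2, h1⟩, (ap_gr (mem_dm h1)).symm⟩
  · rintro ⟨y, hy, rfl⟩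
    obtain ⟨h1, p, h2, h3⟩ := ZFSet.mem_sep.1 hy
    exact ⟨y, p, h3, h2, (ap_gr h1).symm⟩

theorem dfn_ev {W : Set ZFSet.{0}} (hW : IsZF W) {G : ZFSet.{0}} (hG : G ∈ W) :
    DfnF W W fun w : Fin 1 → ZFSet.{0} => ev G (w 0) := by
  have hB := hW.base
  refine hW.wfrec dm_wf (dm' hW (DfnF.proj 0)) (G := fun x g => im (ap g)
    (ZFSet.sep (fun y => ∃ p ∈ G, pair y p ∈ x) (dm x))) ?_ (ev_eq_im G)
  refine hW.im' (h := fun y w => ap (w 1) y) (hW.sep' (Q := fun y w => ∃ p ∈ G, pair y p ∈ w 0)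
    (dm' hW (DfnF.proj 0)) ?_) (hW.ap' (DfnF.proj 2) (DfnF.proj 0))
  (repeat' first
      | assumption
      | exact DfnF.proj _
      | exact DfnF.const (by assumption)
      | exact Dfn.prop _
      | apply Dfn.not | apply Dfn.and | apply Dfn.or | apply Dfn.imp | apply Dfn.iff
      | apply hB.bex | apply hB.ball | apply Dfn.ex | apply Dfn.all
      | apply Dfn.eq | apply Dfn.mem | apply hB.pair')

theorem ev_mem {W : Set ZFSet.{0}} (hW : IsZF W) {G x : ZFSet.{0}} (hG : G ∈ W) (hx : x ∈ W) :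
    ev G x ∈ W := (dfn_ev hW hG).1 (fun _ => x) fun _ => hx

/-- Minimality of the generic extension. -/
theorem ext_sub {M W : Set ZFSet.{0}} (hW : IsZF W) (h : M ⊆ W) {G : ZFSet.{0}} (hG : G ∈ W) :
    ext M G ⊆ W := by
  rintro _ ⟨x, hx, rfl⟩
  exact ev_mem hW hG (h hx)

theorem rank_ev_le (G x : ZFSet.{0}) : (ev G x).rank ≤ x.rank := by
  induction x using dm_ind with
  | _ x ih =>
    rw [ZFSet.rank_le_iff]
    intro z hz
    obtain ⟨y, p, h1, -, rfl⟩ := mem_ev.1 hz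
    exact (ih y (mem_dm h1)).trans_lt (rank_dm_lt (mem_dm h1))

theorem ord_of_ext {M : Set ZFSet.{0}} (hM : IsZF M) {G α : ZFSet.{0}} (h : α ∈ ext M G)
    (hα : α.IsOrdinal) : α ∈ M := by
  obtain ⟨x, hx, rfl⟩ := h
  have h1 := rank_ev_le G x
  have h2 : ev G x ∈ sc (rk x) := by
    rw [← hα.toZFSet_rank_eq, sc, rk, ← Ordinal.toZFSet_succ]
    exact Ordinal.toZFSet_mem_toZFSet_iff.2 (Order.lt_succ_of_le h1)
  exact hM.trans _ (hM.sc_mem (rk_mem hM hx)) _ h2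

/-! ### The axioms in the generic extension -/

section

variable {M : Set ZFSet.{0}} (hM : IsZF M) {P Le : ZFSet.{0}} (hP : IsForcing M P Le)
  {G : ZFSet.{0}} (hG : IsGeneric M P Le G)

include hM hP hG

theorem top_mem : ∃ t ∈ G, t ∈ P ∧ t ∈ M ∧ ∀ p ∈ P, pair p t ∈ Le := by
  obtain ⟨t, ht, h⟩ := hP.top
  obtain ⟨p, hp⟩ := hG.nonempty
  exact ⟨t, hG.up p hp t ht (h p (hG.sub hp)), ht, hM.trans _ hP.mem _ ht, h⟩

theorem sub_ext : M ⊆ ext M G := by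
  intro x hx
  obtain ⟨t, ht, -, htM, -⟩ := top_mem hM hP hG
  exact ⟨chk t x, chk_mem hM htM hx, ev_chk ht x⟩

theorem gen_mem_ext : G ∈ ext M G := by
  obtain ⟨t, ht, -, htM, -⟩ := top_mem hM hP hG
  have hB := hM.base
  have h1 : DfnF M M fun w : Fin 1 → ZFSet.{0} => pair (chk t (w 0)) (w 0) :=
    hB.pair' (dfn_chk hM htM) (DfnF.proj 0)
  refine ⟨im (fun p => pair (chk t p) p) P, hM.im_mem hP.mem h1, ?_⟩
  ext z
  rw [mem_ev]
  constructor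
  · rintro ⟨y, p, h1, h2, rfl⟩
    obtain ⟨q, hq, h3⟩ := mem_im.1 h1
    obtain ⟨rfl, rfl⟩ := ZFSet.pair_inj.1 h3
    rwa [ev_chk ht]
  · intro hz
    exact ⟨chk t z, z, mem_im.2 ⟨z, hG.sub hz, rfl⟩, hz, ev_chk ht z⟩

omit hM hP hG in
theorem ext_trans (hM : IsZF M) : ∀ x ∈ ext M G, ∀ y ∈ x, y ∈ ext M G := by
  rintro _ ⟨x, hx, rfl⟩ y hy
  obtain ⟨z, p, h1, -, rfl⟩ := mem_ev.1 hy
  exact ⟨z, (hM.of_pair_mem (hM.trans _ hx _ h1)).1, rfl⟩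

/-- Separation, for names. -/
theorem sep_ext {n : ℕ} (φ : Fml ZFSet.{0} (n + 1)) (hφ : φ.Over M) {v : Fin n → ZFSet.{0}}
    (hv : ∀ i, v i ∈ M) {X : ZFSet.{0}} (hX : X ∈ M) :
    ∃ σ ∈ M, σ ⊆ ZFSet.prod (dm X) P ∧ ∀ z, z ∈ ev G σ ↔ z ∈ ev G X ∧
      Sat (ext M G) (ev G) φ (Fin.cons z (ev G ∘ v)) := by
  have hPM := hP.mem
  have hLM := hP.le_mem
  have hB := hM.base
  have hd : Dfn M M fun w : Fin 1 → ZFSet.{0} => Qmem P Le (fs (w 0)) X (sn (w 0)) ∧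
      Frc P Le M φ (Fin.cons (fs (w 0)) v) (sn (w 0)) := by
    refine (dfn_qmem hM hPM hLM (hM.fs' (DfnF.proj 0)) (DfnF.const hX)
      (hM.sn' (DfnF.proj 0))).and ?_
    refine (dfn_frc hM hPM hLM φ hφ (m := 1) (Fin.cons (fun w => fs (w 0)) fun i _ => v i) (by
      intro i
      refine Fin.cases ?_ (fun i => ?_) i
      · exact hM.fs' (DfnF.proj 0)
      · exact DfnF.const (hv i)) (hM.sn' (DfnF.proj 0))).congr fun w _ => ?_
    have h3 : (fun i => (Fin.cons (fun w => fs (w 0)) (fun i _ => v i) :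
        Fin (n + 1) → (Fin 1 → ZFSet.{0}) → ZFSet.{0}) i w) = Fin.cons (fs (w 0)) v := by
      funext i
      refine Fin.cases ?_ (fun i => ?_) i
      · rfl
      · rfl
    rw [h3]
  have hdX := dm_mem hM hX
  refine ⟨ZFSet.sep (fun u => Qmem P Le (fs u) X (sn u) ∧
      Frc P Le M φ (Fin.cons (fs u) v) (sn u)) (ZFSet.prod (dm X) P),
    hM.sep_mem hd (hM.prod_mem hdX hPM), fun u hu => (ZFSet.mem_sep.1 hu).1, fun z => ?_⟩
  rw [mem_ev]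
  have key : ∀ y ∈ M, ((ev G y ∈ ev G X ∧ Sat (ext M G) (ev G) φ (Fin.cons (ev G y) (ev G ∘ v)))
      ↔ ∃ p ∈ G, Qmem P Le y X p ∧ Frc P Le M φ (Fin.cons y v) p) := by
    intro y hy
    rw [← comp_cons, truth hM hP hG φ hφ _ (cons_mem hy hv), ev_mem_iff hM hP hG hy hX]
    constructor
    · rintro ⟨⟨p, hp, h1⟩, ⟨q, hq, h2⟩⟩
      obtain ⟨r, hr, hrp, hrq⟩ := hG.dir p hp q hq
      exact ⟨r, hr, h1.mono hP (hG.sub hp) (hG.sub hr) hrp,
        h2.mono hP (hG.sub hq) (hG.sub hr) hrq⟩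
    · rintro ⟨p, hp, h1, h2⟩
      exact ⟨⟨p, hp, h1⟩, ⟨p, hp, h2⟩⟩
  constructor
  · rintro ⟨y, p, h1, h2, rfl⟩
    rw [ZFSet.mem_sep, ZFSet.pair_mem_prod, fs_pair, sn_pair] at h1
    have hy := hM.trans _ hdX _ h1.1.1
    exact (key y hy).2 ⟨p, h2, h1.2⟩
  · rintro ⟨hz, h⟩
    obtain ⟨y, p, h1, -, rfl⟩ := mem_ev.1 hz
    have hy := hM.trans _ hdX _ (mem_dm h1)
    obtain ⟨q, hq, h2⟩ := (key y hy).1 ⟨hz, h⟩
    refine ⟨y, q, ?_, hq, rfl⟩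
    rw [ZFSet.mem_sep, ZFSet.pair_mem_prod, fs_pair, sn_pair]
    exact ⟨⟨mem_dm h1, hG.sub hq⟩, h2⟩

omit hM hP hG in
/-- A choice of names. -/
theorem exists_nm (M : Set ZFSet.{0}) (G : ZFSet.{0}) : ∃ nm : ZFSet.{0} → ZFSet.{0},
    ∀ x ∈ ext M G, nm x ∈ M ∧ ev G (nm x) = x := by
  classical
  refine ⟨fun x => if h : x ∈ ext M G then h.choose else ∅, fun x hx => ?_⟩
  simp only [dif_pos hx]
  exact hx.choose_spec

omit hM hP hG in
theorem sat_nm {nm : ZFSet.{0} → ZFSet.{0}} (h : ∀ x ∈ ext M G, nm x ∈ M ∧ ev G (nm x) = x)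
    {n : ℕ} (φ : Fml ZFSet.{0} n) (hφ : φ.Over (ext M G)) (v : Fin n → ZFSet.{0}) :
    (Sat (ext M G) id φ v ↔ Sat (ext M G) (ev G) (φ.map nm) v) ∧ (φ.map nm).Over M := by
  constructor
  · rw [sat_map]
    exact sat_congr (ext M G) (S := ext M G) (fun a ha => (h a ha).2.symm) φ hφ v
  · rw [over_map]
    exact hφ.mono fun a ha => (h a ha).1

/-- Separation. -/
theorem ext_sep (φ : Fml ZFSet.{0} 1) (hφ : φ.Over (ext M G)) (x : ZFSet.{0})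
    (hx : x ∈ ext M G) : ∃ y ∈ ext M G, ∀ z, z ∈ y ↔ z ∈ x ∧ Sat (ext M G) id φ ![z] := by
  obtain ⟨nm, hnm⟩ := exists_nm M G
  obtain ⟨X, hX, rfl⟩ := hx
  obtain ⟨σ, h1, -, h2⟩ := sep_ext hM hP hG (φ.map nm) (sat_nm hnm φ hφ ![∅]).2
    (v := Fin.elim0) (fun i => i.elim0) hX
  refine ⟨_, ⟨σ, h1, rfl⟩, fun z => ?_⟩
  rw [h2, (sat_nm hnm φ hφ _).1]
  have h3 : (Fin.cons z (ev G ∘ Fin.elim0) : Fin 1 → ZFSet.{0}) = ![z] := by
    funext i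
    fin_cases i
    rfl
  rw [h3]

/-- A set in the extension that contains the values of the names in `X`. -/
theorem cover_mem {X : ZFSet.{0}} (hX : X ∈ M) :
    ∃ Y ∈ ext M G, ∀ z, z ∈ Y ↔ ∃ x ∈ X, z = ev G x := by
  obtain ⟨t, ht, -, htM, -⟩ := top_mem hM hP hG
  refine ⟨_, ⟨ZFSet.prod X {t}, hM.prod_mem hX (hM.single_mem htM), rfl⟩, fun z => ?_⟩
  rw [mem_ev]
  constructor
  · rintro ⟨y, p, h1, h2, rfl⟩
    exact ⟨y, (ZFSet.pair_mem_prod.1 h1).1, rfl⟩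
  · rintro ⟨y, hy, rfl⟩
    exact ⟨y, t, ZFSet.pair_mem_prod.2 ⟨hy, by simp⟩, ht, rfl⟩

theorem ext_pairing : ∀ x ∈ ext M G, ∀ y ∈ ext M G, ({x, y} : ZFSet.{0}) ∈ ext M G := by
  rintro _ ⟨x, hx, rfl⟩ _ ⟨y, hy, rfl⟩
  obtain ⟨Y, hY, h⟩ := cover_mem hM hP hG (hM.pairing _ hx _ hy)
  have h1 : Y = {ev G x, ev G y} := by
    ext z
    rw [h, ZFSet.mem_pair]
    constructor
    · rintro ⟨u, hu, rfl⟩
      rcases ZFSet.mem_pair.1 hu with rfl | rfl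
      · exact Or.inl rfl
      · exact Or.inr rfl
    · rintro (rfl | rfl)
      · exact ⟨x, by simp, rfl⟩
      · exact ⟨y, by simp, rfl⟩
  rwa [← h1]

/-- Separation for definable properties. -/
theorem ext_sepD {Q : ZFSet.{0} → Prop}
    (h : Dfn (ext M G) (ext M G) fun w : Fin 1 → ZFSet.{0} => Q (w 0)) {x : ZFSet.{0}}
    (hx : x ∈ ext M G) : ZFSet.sep Q x ∈ ext M G := by
  obtain ⟨φ, h1, h2⟩ := h
  obtain ⟨y, hy, h3⟩ := ext_sep hM hP hG φ h1 x hx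
  have h4 : y = ZFSet.sep Q x := by
    ext z
    rw [h3, ZFSet.mem_sep]
    refine and_congr_right fun hz => h2 ![z] fun i => ?_
    fin_cases i
    exact ext_trans hM _ hx z hz
  exact h4 ▸ hy

theorem ext_union : ∀ x ∈ ext M G, (ZFSet.sUnion x : ZFSet.{0}) ∈ ext M G := by
  intro x' hx'
  have hx'' := hx'
  obtain ⟨x, hx, rfl⟩ := hx'
  have hB := hM.base
  have h1 : ZFSet.sUnion (im dm (dm x)) ∈ M :=
    hM.union _ (hM.im_mem (dm_mem hM hx) (dm' hM (DfnF.proj 0)))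
  obtain ⟨Y, hY, h2⟩ := cover_mem hM hP hG h1
  -- the union is a definable subset of Y
  obtain ⟨y, hy, h3⟩ := ext_sep hM hP hG
    (.ex (.and (.mem (Sum.inl 0) (Sum.inr (ev G x))) (.mem (Sum.inl 1) (Sum.inl 0))))
    ⟨⟨TOver.inl _, tOver_inr.2 hx''⟩, TOver.inl _, TOver.inl _⟩ Y hY
  have h4 : y = ZFSet.sUnion (ev G x) := by
    ext z
    rw [h3, ZFSet.mem_sUnion]
    constructor
    · rintro ⟨-, a, -, h5, h6⟩
      exact ⟨a, h5, h6⟩
    · rintro ⟨a, h5, h6⟩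
      refine ⟨?_, a, ext_trans hM _ hx'' _ h5, h5, h6⟩
      obtain ⟨b, p, h7, h8, rfl⟩ := mem_ev.1 h5
      obtain ⟨c, q, h9, h10, rfl⟩ := mem_ev.1 h6
      rw [h2]
      exact ⟨c, ZFSet.mem_sUnion.2 ⟨_, mem_im.2 ⟨b, mem_dm h7, rfl⟩, mem_dm h9⟩, rfl⟩
  exact h4 ▸ hy

theorem ext_power : ∀ x ∈ ext M G, ∃ y ∈ ext M G, ∀ z, z ∈ y ↔ z ∈ ext M G ∧ z ⊆ x := by
  intro x' hx'
  have hx'' := hx'
  obtain ⟨x, hx, rfl⟩ := hx'
  have hB := hM.base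
  obtain ⟨W, hW, h1⟩ := hM.power _ (hM.prod_mem (dm_mem hM hx) hP.mem)
  obtain ⟨Y, hY, h2⟩ := cover_mem hM hP hG hW
  obtain ⟨y, hy, h3⟩ := ext_sep hM hP hG
    (.neg (.ex (.and (.mem (Sum.inl 0) (Sum.inl 1)) (.neg (.mem (Sum.inl 0)
      (Sum.inr (ev G x)))))))
    ⟨⟨TOver.inl _, TOver.inl _⟩, TOver.inl _, tOver_inr.2 hx''⟩ Y hY
  refine ⟨y, hy, fun z => ?_⟩
  rw [h3]
  have h4 : ∀ z ∈ ext M G, (Sat (ext M G) id (.neg (.ex (.and (.mem (Sum.inl 0) (Sum.inl 1))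
      (.neg (.mem (Sum.inl 0) (Sum.inr (ev G x))))))) ![z] ↔ z ⊆ ev G x) := by
    intro z hz
    constructor
    · intro h5 a ha
      by_contra h6
      exact h5 ⟨a, ext_trans hM _ hz _ ha, ha, h6⟩
    · rintro h5 ⟨a, -, h6, h7⟩
      exact h7 (h5 h6)
  constructor
  · rintro ⟨h5, h6⟩
    have hz := ext_trans hM _ hY _ h5
    exact ⟨hz, (h4 z hz).1 h6⟩
  · rintro ⟨hz, h5⟩
    refine ⟨?_, (h4 z hz).2 h5⟩
    obtain ⟨τ, hτ, rfl⟩ := hz
    obtain ⟨σ, hσ, h6, h7⟩ := sep_ext hM hP hG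
      (.mem (Sum.inl 0) (Sum.inr τ) : Fml ZFSet.{0} 1) ⟨TOver.inl _, tOver_inr.2 hτ⟩
      (v := Fin.elim0) (fun i => i.elim0) hx
    rw [h2]
    refine ⟨σ, (h1 σ).2 ⟨hσ, h6⟩, ?_⟩
    ext z
    rw [h7]
    exact ⟨fun hz => ⟨h5 hz, hz⟩, fun hz => hz.2⟩

/-- Replacement, from a definable well-ordering of the ground model. -/
theorem ext_replacement {e : ZFSet.{0} → ZFSet.{0}} (hg : GC M e) (φ : Fml ZFSet.{0} 2)
    (hφ : φ.Over (ext M G)) (x : ZFSet.{0}) (hx : x ∈ ext M G)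
    (h : ∀ z ∈ x, ∃! w, w ∈ ext M G ∧ Sat (ext M G) id φ ![z, w]) :
    ∃ y ∈ ext M G, ∀ w, w ∈ y ↔ w ∈ ext M G ∧ ∃ z ∈ x, Sat (ext M G) id φ ![z, w] := by
  obtain ⟨nm, hnm⟩ := exists_nm M G
  have hx' := hx
  obtain ⟨X, hX, rfl⟩ := hx
  have hB := hM.base
  have hPM := hP.mem
  have hLM := hP.le_mem
  obtain ⟨-, hO⟩ := sat_nm hnm φ hφ ![∅, ∅]
  -- the choice of the witnesses
  have hd : DfnF M M fun u : Fin 1 → ZFSet.{0} =>
      chs M e fun w => Frc P Le M (φ.map nm) ![fs (u 0), w] (sn (u 0)) := by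
    refine hM.chs' hg (Q := fun w u => Frc P Le M (φ.map nm) ![fs (u 0), w] (sn (u 0))) ?_
    refine (dfn_frc hM hPM hLM (φ.map nm) hO (m := 2)
      (Fin.cons (fun w => fs (w 1)) fun _ w => w 0) (by
        intro i
        refine Fin.cases ?_ (fun i => ?_) i
        · exact hM.fs' (DfnF.proj 1)
        · exact DfnF.proj 0) (H := fun w => sn (w 1)) (hM.sn' (DfnF.proj 1))).congr
        fun w _ => ?_
    have h3 : (fun i => (Fin.cons (fun w => fs (w 1)) (fun _ w => w 0) :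
        Fin 2 → (Fin 2 → ZFSet.{0}) → ZFSet.{0}) i w) = ![fs (w 1), w 0] := by
      funext i
      fin_cases i <;> rfl
    rw [h3]
    rfl
  have hY := hM.im_mem (h := fun u => chs M e fun w => Frc P Le M (φ.map nm) ![fs u, w] (sn u))
    (hM.prod_mem (dm_mem hM hX) hPM) hd
  obtain ⟨Y, hY', h2⟩ := cover_mem hM hP hG hY
  obtain ⟨y, hy, h3⟩ := ext_sep hM hP hG
    (.ex (.and (.mem (Sum.inl 0) (Sum.inr (ev G X)))
      (φ.subst ![Sum.inl 0, Sum.inl 1])))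
    ⟨⟨TOver.inl _, tOver_inr.2 hx'⟩, over_subst _ _ (fun k => by
      fin_cases k <;> exact TOver.inl _) hφ⟩ Y hY'
  have h4 : ∀ w, Sat (ext M G) id (.ex (.and (.mem (Sum.inl 0) (Sum.inr (ev G X)))
      (φ.subst ![Sum.inl 0, Sum.inl 1]))) ![w] ↔ ∃ z ∈ ev G X, Sat (ext M G) id φ ![z, w] := by
    intro w
    simp only [Sat, sat_subst]
    have h5 : ∀ a, (fun k => Sum.elim (Fin.cons a ![w] : Fin 2 → ZFSet.{0}) id
        ((![Sum.inl 0, Sum.inl 1] : Fin 2 → Fin 2 ⊕ ZFSet.{0}) k)) = ![a, w] := by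
      intro a
      funext k
      fin_cases k <;> rfl
    constructor
    · rintro ⟨a, -, h6, h7⟩
      rw [h5] at h7
      exact ⟨a, h6, h7⟩
    · rintro ⟨a, h6, h7⟩
      refine ⟨a, ext_trans hM _ hx' _ h6, h6, ?_⟩
      rw [h5]
      exact h7
  refine ⟨y, hy, fun w => ?_⟩
  rw [h3, h4]
  constructor
  · rintro ⟨h5, h6⟩
    exact ⟨ext_trans hM _ hY' _ h5, h6⟩
  · rintro ⟨hw, z, hz, h6⟩
    refine ⟨?_, z, hz, h6⟩
    have hzz := hz
    obtain ⟨a, p, h7, h8, rfl⟩ := mem_ev.1 hz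
    obtain ⟨τ, hτ, rfl⟩ := hw
    have haM : a ∈ M := hM.trans _ (dm_mem hM hX) _ (mem_dm h7)
    have h9 := (sat_nm hnm φ hφ ![ev G a, ev G τ]).1.1 h6
    have h10 : (![ev G a, ev G τ] : Fin 2 → ZFSet.{0}) = ev G ∘ ![a, τ] := by
      funext k
      fin_cases k <;> rfl
    rw [h10, truth hM hP hG (φ.map nm) hO ![a, τ] (by
      intro i
      fin_cases i
      · exact haM
      · exact hτ)] at h9
    obtain ⟨q, hq, h11⟩ := h9
    obtain ⟨h12, h13⟩ := chs_spec (C := M) (e := e)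
      (P := fun w => Frc P Le M (φ.map nm) ![a, w] q) ⟨τ, hτ, h11⟩
    have h14 := (truth hM hP hG (φ.map nm) hO
      ![a, chs M e fun w => Frc P Le M (φ.map nm) ![a, w] q] (by
      intro i
      fin_cases i
      · exact haM
      · exact h12)).2 ⟨q, hq, h13⟩
    have h15 : (ev G ∘ ![a, chs M e fun w => Frc P Le M (φ.map nm) ![a, w] q] :
        Fin 2 → ZFSet.{0}) =
        ![ev G a, ev G (chs M e fun w => Frc P Le M (φ.map nm) ![a, w] q)] := by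
      funext k
      fin_cases k <;> rfl
    rw [h15, ← (sat_nm hnm φ hφ _).1] at h14
    have h16 := (h _ hzz).unique ⟨⟨_, h12, rfl⟩, h14⟩ ⟨⟨_, hτ, rfl⟩, h6⟩
    rw [h2, ← h16]
    refine ⟨_, mem_im.2 ⟨pair a q, ZFSet.pair_mem_prod.2 ⟨mem_dm h7, hG.sub hq⟩, rfl⟩, ?_⟩
    rw [fs_pair, sn_pair]

/-- The generic extension is a model of ZF. -/
theorem isZF_ext {e : ZFSet.{0} → ZFSet.{0}} (hg : GC M e) : IsZF (ext M G) where
  trans := ext_trans hM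
  pairing := ext_pairing hM hP hG
  union := ext_union hM hP hG
  infinity := sub_ext hM hP hG hM.infinity
  power := ext_power hM hP hG
  separation := ext_sep hM hP hG
  replacement := ext_replacement hM hP hG hg

end

end Pool.Agent.Y588
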