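import Pool.Agent.Y588.Cl1

/-!
# The definable subsets of a structure with a predicate, computed in a model of set theory
-/

set_option autoImplicit false
set_option linter.unreachableTactic false
set_option linter.unusedTactic false
set_option linter.unusedSectionVars false

namespace Pool.Agent.Y588

open Pool.Agent.W868 Pool.Agent.W868.GM
open ZFSet (pair)

/-! ### Iterations with a parameter -/

/-- The predecessors for recursion on the second component of a pair. -/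
noncomputable def prq (z : ZFSet.{0}) : ZFSet.{0} := im (fun u => pair (fs z) u) (sn z)

theorem prq_wf : WellFounded fun u z : ZFSet.{0} => u ∈ prq z := by
  refine Subrelation.wf (r := InvImage (fun u z : ZFSet.{0} => u ∈ z) sn) ?_
    (InvImage.wf sn ZFSet.mem_wf)
  intro u z h
  obtain ⟨w, hw, rfl⟩ := mem_im.1 h
  change sn (pair (fs z) w) ∈ sn z
  rwa [sn_pair]

/-- Iteration of an operation with a parameter. -/
theorem dfn_itr2 {M : Set ZFSet.{0}} (hM : IsZF M) {T : ZFSet.{0} → ZFSet.{0} → ZFSet.{0}}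
    (hT : DfnF M M fun w : Fin 2 → ZFSet.{0} => T (w 0) (w 1)) :
    DfnF M M fun w : Fin 2 → ZFSet.{0} => itr (T (w 0)) ∅ (w 1) := by
  have hB := hM.base
  have h0 := hM.empty_mem
  have h1 : DfnF M M fun w : Fin 1 → ZFSet.{0} => (fun z => itr (T (fs z)) ∅ (sn z)) (w 0) := by
    refine hM.wfrec (pr := prq) (F := fun z => itr (T (fs z)) ∅ (sn z))
      (G := fun z g => ZFSet.sUnion (im (fun q => T (fs z) (sn q)) g)) prq_wf ?_ ?_ ?_
    · exact hM.im' (h := fun u w => pair (fs (w 0)) u) (hM.sn' (DfnF.proj 0))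
        (hB.pair' (hM.fs' (DfnF.proj 1)) (DfnF.proj 0))
    · refine hB.sUnion' (hM.im' (h := fun q w => T (fs (w 0)) (sn q)) (DfnF.proj 1) ?_)
      exact DfnF.comp2 (f := T) hT (hM.fs' (DfnF.proj 1)) (hM.sn' (DfnF.proj 0))
    · intro z
      ext y
      rw [mem_itr, ZFSet.mem_sUnion]
      constructor
      · rintro (h | ⟨u, hu, h⟩)
        · exact absurd h (ZFSet.notMem_empty _)
        · refine ⟨_, mem_im.2 ⟨_, mem_gr.2 ⟨pair (fs z) u, mem_im.2 ⟨u, hu, rfl⟩, rfl⟩, rfl⟩, ?_⟩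
          simpa only [sn_pair, fs_pair] using h
      · rintro ⟨w, hw, h⟩
        obtain ⟨q, hq, rfl⟩ := mem_im.1 hw
        obtain ⟨p, hp, rfl⟩ := mem_gr.1 hq
        obtain ⟨u, hu, rfl⟩ := mem_im.1 hp
        simp only [sn_pair, fs_pair] at h
        exact Or.inr ⟨u, hu, h⟩
  have h2 := DfnF.comp1 (f := fun z => itr (T (fs z)) ∅ (sn z))
    (F := fun w : Fin 2 → ZFSet.{0} => pair (w 0) (w 1)) h1
    (hB.pair' (DfnF.proj 0) (DfnF.proj 1))
  simpa only [fs_pair, sn_pair] using h2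

/-! ### Renaming of variables -/

/-- Renaming of the variables. -/
def PFml.ren : {n m : ℕ} → (Fin n → Fin m) → PFml n → PFml m
  | _, _, ρ, .mem i j => .mem (ρ i) (ρ j)
  | _, _, ρ, .eq i j => .eq (ρ i) (ρ j)
  | _, _, ρ, .prd i => .prd (ρ i)
  | _, _, ρ, .neg φ => .neg (φ.ren ρ)
  | _, _, ρ, .and φ ψ => .and (φ.ren ρ) (ψ.ren ρ)
  | _, _, ρ, .ex φ => .ex (φ.ren (Fin.cons 0 fun i => (ρ i).succ))

theorem psat_ren (A : Set ZFSet.{0}) (X : ZFSet.{0}) : {n m : ℕ} → (φ : PFml n) →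
    (ρ : Fin n → Fin m) → (v : Fin m → ZFSet.{0}) →
    (PSat A X (φ.ren ρ) v ↔ PSat A X φ fun i => v (ρ i))
  | _, _, .mem _ _, _, _ => Iff.rfl
  | _, _, .eq _ _, _, _ => Iff.rfl
  | _, _, .prd _, _, _ => Iff.rfl
  | _, _, .neg φ, ρ, v => not_congr (psat_ren A X φ ρ v)
  | _, _, .and φ ψ, ρ, v => and_congr (psat_ren A X φ ρ v) (psat_ren A X ψ ρ v)
  | n, m, .ex φ, ρ, v => by
    simp only [PFml.ren, PSat]
    refine exists_congr fun a => and_congr_right fun _ => ?_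
    rw [psat_ren A X φ]
    have h : (fun i : Fin (n + 1) => (Fin.cons a v : Fin (m + 1) → ZFSet.{0})
        ((Fin.cons 0 (fun i => (ρ i).succ) : Fin (n + 1) → Fin (m + 1)) i)) =
        Fin.cons a fun i => v (ρ i) := by
      funext i
      refine Fin.cases ?_ (fun i => ?_) i
      · rfl
      · rfl
    rw [h]

/-- The truth of a formula in `X` depends only on the elements of the predicate in `X`. -/
theorem psat_congr {A B : Set ZFSet.{0}} {X : ZFSet.{0}} (h : ∀ x ∈ X, (x ∈ A ↔ x ∈ B)) :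
    {n : ℕ} → (φ : PFml n) → (v : Fin n → ZFSet.{0}) → (∀ i, v i ∈ X) →
    (PSat A X φ v ↔ PSat B X φ v)
  | _, .mem _ _, _, _ => Iff.rfl
  | _, .eq _ _, _, _ => Iff.rfl
  | _, .prd i, v, hv => h _ (hv i)
  | _, .neg φ, v, hv => not_congr (psat_congr h φ v hv)
  | _, .and φ ψ, v, hv => and_congr (psat_congr h φ v hv) (psat_congr h ψ v hv)
  | n, .ex φ, v, hv => by
    simp only [PSat]
    refine exists_congr fun a => and_congr_right fun ha => psat_congr h φ _ fun i => ?_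
    refine Fin.cases ?_ (fun i => ?_) i
    · exact ha
    · exact hv i

/-! ### The relations given by formulas -/

section

variable (A M : Set ZFSet.{0})

/-- The set of the assignments that satisfy `φ` in `X`. -/
noncomputable def DP (X : ZFSet.{0}) {n : ℕ} (φ : PFml n) : ZFSet.{0} :=
  ZFSet.sep (fun s => PSat A X φ (vl s n)) (fnX M X)

noncomputable def oPr (X F i : ZFSet.{0}) : ZFSet.{0} :=
  ZFSet.sep (fun s => ∃ u ∈ X, pair i u ∈ s ∧ u ∈ A) F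

/-- The relations that are obtained from relations in `C`. -/
noncomputable def tp (X C : ZFSet.{0}) : ZFSet.{0} :=
  im (fun p => oMem X (fnX M X) (fs p) (sn p)) (ZFSet.prod ZFSet.omega ZFSet.omega) ∪
  (im (fun p => oEq X (fnX M X) (fs p) (sn p)) (ZFSet.prod ZFSet.omega ZFSet.omega) ∪
  (im (fun i => oPr A X (fnX M X) i) ZFSet.omega ∪
  (im (fun R => oNg (fnX M X) R) C ∪
  (im (fun p => oAn (fnX M X) (fs p) (sn p)) (ZFSet.prod C C) ∪
  im (fun R => oEx ZFSet.omega ∅ X (fnX M X) R) C))))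

end

variable {A M : Set ZFSet.{0}}

theorem mem_DP {X : ZFSet.{0}} {n : ℕ} {φ : PFml n} {s : ZFSet.{0}} :
    s ∈ DP A M X φ ↔ s ∈ fnX M X ∧ PSat A X φ (vl s n) := ZFSet.mem_sep

theorem mem_tp {X C R : ZFSet.{0}} : R ∈ tp A M X C ↔
    (∃ i j : ℕ, R = oMem X (fnX M X) (nat i) (nat j)) ∨
    (∃ i j : ℕ, R = oEq X (fnX M X) (nat i) (nat j)) ∨
    (∃ i : ℕ, R = oPr A X (fnX M X) (nat i)) ∨
    (∃ R₁ ∈ C, R = oNg (fnX M X) R₁) ∨
    (∃ R₁ ∈ C, ∃ R₂ ∈ C, R = oAn (fnX M X) R₁ R₂) ∨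
    ∃ R₁ ∈ C, R = oEx ZFSet.omega ∅ X (fnX M X) R₁ := by
  rw [tp, ZFSet.mem_union, ZFSet.mem_union, ZFSet.mem_union, ZFSet.mem_union, ZFSet.mem_union,
    mem_im, mem_im, mem_im, mem_im, mem_im, mem_im]
  refine or_congr ?_ (or_congr ?_ (or_congr ?_ (or_congr Iff.rfl (or_congr ?_ Iff.rfl))))
  · constructor
    · rintro ⟨p, hp, rfl⟩
      obtain ⟨a, ha, b, hb, rfl⟩ := ZFSet.mem_prod.1 hp
      obtain ⟨i, rfl⟩ := mem_omega_iff.1 ha
      obtain ⟨j, rfl⟩ := mem_omega_iff.1 hb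
      exact ⟨i, j, by rw [fs_pair, sn_pair]⟩
    · rintro ⟨i, j, rfl⟩
      exact ⟨_, ZFSet.pair_mem_prod.2 ⟨nat_mem_omega i, nat_mem_omega j⟩, by
        rw [fs_pair, sn_pair]⟩
  · constructor
    · rintro ⟨p, hp, rfl⟩
      obtain ⟨a, ha, b, hb, rfl⟩ := ZFSet.mem_prod.1 hp
      obtain ⟨i, rfl⟩ := mem_omega_iff.1 ha
      obtain ⟨j, rfl⟩ := mem_omega_iff.1 hb
      exact ⟨i, j, by rw [fs_pair, sn_pair]⟩
    · rintro ⟨i, j, rfl⟩
      exact ⟨_, ZFSet.pair_mem_prod.2 ⟨nat_mem_omega i, nat_mem_omega j⟩, by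
        rw [fs_pair, sn_pair]⟩
  · constructor
    · rintro ⟨p, hp, rfl⟩
      obtain ⟨i, rfl⟩ := mem_omega_iff.1 hp
      exact ⟨i, rfl⟩
    · rintro ⟨i, rfl⟩
      exact ⟨_, nat_mem_omega i, rfl⟩
  · constructor
    · rintro ⟨p, hp, rfl⟩
      obtain ⟨a, ha, b, hb, rfl⟩ := ZFSet.mem_prod.1 hp
      exact ⟨a, ha, b, hb, by rw [fs_pair, sn_pair]⟩
    · rintro ⟨a, ha, b, hb, rfl⟩
      exact ⟨_, ZFSet.pair_mem_prod.2 ⟨ha, hb⟩, by rw [fs_pair, sn_pair]⟩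

section ops

variable (hM : IsZF M) {X : ZFSet.{0}} (hX : X ∈ M)

include hM hX

theorem oMem_dp {n : ℕ} (i j : Fin n) :
    oMem X (fnX M X) (nat i) (nat j) = DP A M X (.mem i j) := by
  ext s
  rw [oMem, ZFSet.mem_sep, mem_DP]
  refine and_congr_right fun hs => ?_
  have hf := (mem_fnX.1 hs).2
  simp only [PSat, vl]
  constructor
  · rintro ⟨u, -, w, -, h1, h2, h3⟩
    rw [func_pair_iff hf] at h1 h2
    rwa [h1, h2] at h3
  · intro h
    exact ⟨_, (func_pair hf i).2, _, (func_pair hf j).2, (func_pair hf i).1,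
      (func_pair hf j).1, h⟩

theorem oEq_dp {n : ℕ} (i j : Fin n) :
    oEq X (fnX M X) (nat i) (nat j) = DP A M X (.eq i j) := by
  ext s
  rw [oEq, ZFSet.mem_sep, mem_DP]
  refine and_congr_right fun hs => ?_
  have hf := (mem_fnX.1 hs).2
  simp only [PSat, vl]
  constructor
  · rintro ⟨u, -, w, -, h1, h2, h3⟩
    rw [func_pair_iff hf] at h1 h2
    rwa [h1, h2] at h3
  · intro h
    exact ⟨_, (func_pair hf i).2, _, (func_pair hf j).2, (func_pair hf i).1,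
      (func_pair hf j).1, h⟩

theorem oPr_dp {n : ℕ} (i : Fin n) :
    oPr A X (fnX M X) (nat i) = DP A M X (.prd i) := by
  ext s
  rw [oPr, ZFSet.mem_sep, mem_DP]
  refine and_congr_right fun hs => ?_
  have hf := (mem_fnX.1 hs).2
  simp only [PSat, vl]
  constructor
  · rintro ⟨u, -, h1, h3⟩
    rw [func_pair_iff hf] at h1
    rwa [h1] at h3
  · intro h
    exact ⟨_, (func_pair hf i).2, (func_pair hf i).1, h⟩

theorem oNg_dp {n : ℕ} (φ : PFml n) :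
    oNg (fnX M X) (DP A M X φ) = DP A M X (.neg φ) := by
  ext s
  rw [oNg, ZFSet.mem_sep, mem_DP, mem_DP]
  refine and_congr_right fun hs => ?_
  simp only [PSat]
  exact ⟨fun h h' => h ⟨hs, h'⟩, fun h h' => h h'.2⟩

theorem oAn_dp {n : ℕ} (φ ψ : PFml n) :
    oAn (fnX M X) (DP A M X φ) (DP A M X ψ) = DP A M X (.and φ ψ) := by
  ext s
  rw [oAn, ZFSet.mem_sep, mem_DP, mem_DP, mem_DP]
  simp only [PSat]
  tauto

theorem oEx_dp {n : ℕ} (φ : PFml (n + 1)) :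
    oEx ZFSet.omega ∅ X (fnX M X) (DP A M X φ) = DP A M X (.ex φ) := by
  ext s
  rw [oEx, ZFSet.mem_sep, mem_DP]
  refine and_congr_right fun hs => ?_
  have hf := (mem_fnX.1 hs).2
  simp only [PSat]
  constructor
  · rintro ⟨x, hx, t, ht, h⟩
    obtain ⟨h1, h2⟩ := mem_DP.1 ht
    rw [isCns_iff hf hx (mem_fnX.1 h1).2] at h
    subst h
    rw [vl_cns hf hx] at h2
    exact ⟨x, hx, h2⟩
  · rintro ⟨x, hx, h⟩
    have h1 := cns_mem hM hx hs hX
    refine ⟨x, hx, cns x s, mem_DP.2 ⟨h1, ?_⟩, (isCns_iff hf hx (mem_fnX.1 h1).2).2 rfl⟩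
    rwa [vl_cns hf hx]

omit hM hX in
theorem exists_wkp {n m : ℕ} (h : n ≤ m) (φ : PFml n) :
    ∃ φ' : PFml m, DP A M X φ' = DP A M X φ := by
  refine ⟨φ.ren fun i => Fin.castLE h i, ?_⟩
  ext s
  rw [mem_DP, mem_DP, psat_ren]
  rfl

/-- The family of the relations that are given by formulas. -/
theorem mem_fam {R : ZFSet.{0}} : R ∈ itr (tp A M X) ∅ ZFSet.omega ↔
    ∃ (n : ℕ) (φ : PFml n), R = DP A M X φ := by
  constructor
  · intro h
    obtain ⟨m, hm⟩ := mem_itr_omega h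
    clear h
    revert R
    induction m using Nat.strong_induction_on with
    | _ m ih =>
      intro R hR
      rcases mem_itr.1 hR with h | ⟨u, hu, h⟩
      · exact absurd h (ZFSet.notMem_empty _)
      · rw [nat_eq, Ordinal.mem_toZFSet_iff] at hu
        obtain ⟨a, ha, rfl⟩ := hu
        obtain ⟨j, rfl⟩ := Ordinal.lt_omega0.1 (ha.trans (Ordinal.natCast_lt_omega0 m))
        rw [← nat_eq] at h
        have ih' := fun {R} => ih j (by exact_mod_cast ha) (R := R)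
        rcases mem_tp.1 h with ⟨i, k, rfl⟩ | ⟨i, k, rfl⟩ | ⟨i, rfl⟩ | ⟨R₁, h1, rfl⟩ |
          ⟨R₁, h1, R₂, h2, rfl⟩ | ⟨R₁, h1, rfl⟩
        · refine ⟨max i k + 1, .mem ⟨i, by omega⟩ ⟨k, by omega⟩, ?_⟩
          rw [← oMem_dp hM hX]
        · refine ⟨max i k + 1, .eq ⟨i, by omega⟩ ⟨k, by omega⟩, ?_⟩
          rw [← oEq_dp hM hX]
        · refine ⟨i + 1, .prd ⟨i, by omega⟩, ?_⟩
          rw [← oPr_dp hM hX]
        · obtain ⟨n, φ, rfl⟩ := ih' h1
          exact ⟨n, .neg φ, oNg_dp hM hX φ⟩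
        · obtain ⟨n, φ, rfl⟩ := ih' h1
          obtain ⟨n', ψ, rfl⟩ := ih' h2
          obtain ⟨φ', h5⟩ := exists_wkp (A := A) (M := M) (X := X) (le_max_left n n') φ
          obtain ⟨ψ', h6⟩ := exists_wkp (A := A) (M := M) (X := X) (le_max_right n n') ψ
          refine ⟨_, .and φ' ψ', ?_⟩
          rw [← oAn_dp hM hX, h5, h6]
        · obtain ⟨n, φ, rfl⟩ := ih' h1
          obtain ⟨φ', h5⟩ := exists_wkp (A := A) (M := M) (X := X) (Nat.le_succ n) φ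
          refine ⟨n, .ex φ', ?_⟩
          rw [← oEx_dp hM hX, h5]
  · rintro ⟨n, φ, rfl⟩
    have key : ∀ {R : ZFSet.{0}}, (∃ m : ℕ, R ∈ tp A M X (itr (tp A M X) ∅ (nat m))) →
        R ∈ itr (tp A M X) ∅ ZFSet.omega := by
      rintro R ⟨m, hm⟩
      exact itr_step (nat_mem_omega m) hm
    induction φ with
    | mem i j =>
      refine key ⟨0, mem_tp.2 (Or.inl ⟨i, j, ?_⟩)⟩
      rw [oMem_dp hM hX]
    | eq i j =>
      refine key ⟨0, mem_tp.2 (Or.inr (Or.inl ⟨i, j, ?_⟩))⟩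
      rw [oEq_dp hM hX]
    | prd i =>
      refine key ⟨0, mem_tp.2 (Or.inr (Or.inr (Or.inl ⟨i, ?_⟩)))⟩
      rw [oPr_dp hM hX]
    | neg φ ih =>
      obtain ⟨m, hm⟩ := mem_itr_omega ih
      refine key ⟨m, mem_tp.2 (Or.inr (Or.inr (Or.inr (Or.inl ⟨_, hm, ?_⟩))))⟩
      rw [oNg_dp hM hX]
    | and φ ψ ih ih' =>
      obtain ⟨m, hm⟩ := mem_itr_omega ih
      obtain ⟨m', hm'⟩ := mem_itr_omega ih'
      refine key ⟨max m m', mem_tp.2 (Or.inr (Or.inr (Or.inr (Or.inr (Or.inl ⟨_,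
        itr_mono (nat_subset (le_max_left _ _)) hm, _,
        itr_mono (nat_subset (le_max_right _ _)) hm', ?_⟩)))))⟩
      rw [oAn_dp hM hX]
    | ex φ ih =>
      obtain ⟨m, hm⟩ := mem_itr_omega ih
      refine key ⟨m, mem_tp.2 (Or.inr (Or.inr (Or.inr (Or.inr (Or.inr ⟨_, hm, ?_⟩)))))⟩
      rw [oEx_dp hM hX]

end ops

/-! ### Definability -/

theorem DfnF.comp3 {S M : Set ZFSet.{0}} {n : ℕ} {f : ZFSet.{0} → ZFSet.{0} → ZFSet.{0} → ZFSet.{0}}
    {F G H : (Fin n → ZFSet.{0}) → ZFSet.{0}}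
    (h : DfnF S M fun w : Fin 3 → ZFSet.{0} => f (w 0) (w 1) (w 2)) (hF : DfnF S M F)
    (hG : DfnF S M G) (hH : DfnF S M H) : DfnF S M fun v => f (F v) (G v) (H v) := by
  refine ⟨fun v hv => h.1 ![F v, G v, H v] ?_, ?_⟩
  · intro i
    fin_cases i
    · exact hF.1 v hv
    · exact hG.1 v hv
    · exact hH.1 v hv
  · exact Dfn.comp4 (Q := fun a b c d => a = f b c d) h.2 (DfnF.proj 0) hF.tail hG.tail hH.tail

section dfn

variable (hM : IsZF M) (hA : Dfn M M fun w : Fin 1 → ZFSet.{0} => w 0 ∈ A)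

include hM

theorem oMem' {n : ℕ} {F G H K : (Fin n → ZFSet.{0}) → ZFSet.{0}} (hF : DfnF M M F)
    (hG : DfnF M M G) (hH : DfnF M M H) (hK : DfnF M M K) :
    DfnF M M fun v => oMem (F v) (G v) (H v) (K v) := by
  have hB := hM.base
  have h1 := hF.tail
  have h2 := h1.tail
  have h3 := hH.tail.tail.tail
  have h4 := hK.tail.tail.tail
  refine hM.sep' (Q := fun s v => ∃ u ∈ F v, ∃ w ∈ F v, pair (H v) u ∈ s ∧ pair (K v) w ∈ s ∧
    u ∈ w) hG ?_
  (repeat' first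
      | assumption
      | exact DfnF.proj _
      | apply Dfn.not | apply Dfn.and | apply Dfn.or | apply Dfn.imp | apply Dfn.iff
      | apply hB.bex | apply hB.ball | apply Dfn.ex | apply Dfn.all
      | apply Dfn.eq | apply Dfn.mem | apply hB.pair')

theorem oEq' {n : ℕ} {F G H K : (Fin n → ZFSet.{0}) → ZFSet.{0}} (hF : DfnF M M F)
    (hG : DfnF M M G) (hH : DfnF M M H) (hK : DfnF M M K) :
    DfnF M M fun v => oEq (F v) (G v) (H v) (K v) := by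
  have hB := hM.base
  have h1 := hF.tail
  have h2 := h1.tail
  have h3 := hH.tail.tail.tail
  have h4 := hK.tail.tail.tail
  refine hM.sep' (Q := fun s v => ∃ u ∈ F v, ∃ w ∈ F v, pair (H v) u ∈ s ∧ pair (K v) w ∈ s ∧
    u = w) hG ?_
  (repeat' first
      | assumption
      | exact DfnF.proj _
      | apply Dfn.not | apply Dfn.and | apply Dfn.or | apply Dfn.imp | apply Dfn.iff
      | apply hB.bex | apply hB.ball | apply Dfn.ex | apply Dfn.all
      | apply Dfn.eq | apply Dfn.mem | apply hB.pair')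

theorem oNg' {n : ℕ} {F G : (Fin n → ZFSet.{0}) → ZFSet.{0}} (hF : DfnF M M F)
    (hG : DfnF M M G) : DfnF M M fun v => oNg (F v) (G v) :=
  hM.sep' (Q := fun s v => ¬ s ∈ G v) hF (Dfn.mem (DfnF.proj 0) hG.tail).not

theorem oAn' {n : ℕ} {F G H : (Fin n → ZFSet.{0}) → ZFSet.{0}} (hF : DfnF M M F)
    (hG : DfnF M M G) (hH : DfnF M M H) : DfnF M M fun v => oAn (F v) (G v) (H v) :=
  hM.sep' (Q := fun s v => s ∈ G v ∧ s ∈ H v) hF
    ((Dfn.mem (DfnF.proj 0) hG.tail).and (Dfn.mem (DfnF.proj 0) hH.tail))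

theorem dfn_oEx : DfnF M M fun w : Fin 3 → ZFSet.{0} =>
    oEx ZFSet.omega ∅ (w 0) (w 1) (w 2) := by
  have hB := hM.base
  have h0 := hM.empty_mem
  have hω := hM.infinity
  refine hM.sep' (Q := fun s w => ∃ x ∈ w 0, ∃ t ∈ w 2, IsCns ZFSet.omega ∅ (w 0) t x s)
    (DfnF.proj 1) ?_
  apply hB.bex (DfnF.proj _)
  apply hB.bex (DfnF.proj 4)
  exact Dfn.specN (m := 6) (d0_isCns.dfn hM.trans) ![Sum.inr ZFSet.omega, Sum.inr ∅,
    Sum.inl 3, Sum.inl 0, Sum.inl 1, Sum.inl 2] (by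
      intro i
      fin_cases i
      · exact tOver_inr.2 hω
      · exact tOver_inr.2 h0
      · exact TOver.inl _
      · exact TOver.inl _
      · exact TOver.inl _
      · exact TOver.inl _)

include hA

theorem oPr' {n : ℕ} {F G H : (Fin n → ZFSet.{0}) → ZFSet.{0}} (hF : DfnF M M F)
    (hG : DfnF M M G) (hH : DfnF M M H) : DfnF M M fun v => oPr A (F v) (G v) (H v) := by
  have hB := hM.base
  refine hM.sep' (Q := fun s v => ∃ u ∈ F v, pair (H v) u ∈ s ∧ u ∈ A) hG ?_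
  apply hB.bex hF.tail
  apply Dfn.and
  · exact Dfn.mem (hB.pair' hH.tail.tail (DfnF.proj 0)) (DfnF.proj 1)
  · exact Dfn.comp1 (Q := fun u => u ∈ A) hA (DfnF.proj 0)

theorem dfn_tp : DfnF M M fun w : Fin 2 → ZFSet.{0} => tp A M (w 0) (w 1) := by
  have hB := hM.base
  have hω := hM.infinity
  have h1 : ∀ {k : ℕ}, DfnF M M fun _ : Fin k → ZFSet.{0} =>
      ZFSet.prod ZFSet.omega ZFSet.omega := fun {k} => DfnF.const (hM.prod_mem hω hω)
  refine hB.union' ?_ (hB.union' ?_ (hB.union' ?_ (hB.union' ?_ (hB.union' ?_ ?_))))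
  · refine hM.im' (h := fun p w => oMem (w 0) (fnX M (w 0)) (fs p) (sn p)) h1 ?_
    exact oMem' hM (DfnF.proj 1) (fnX' hM (DfnF.proj 1)) (hM.fs' (DfnF.proj 0))
      (hM.sn' (DfnF.proj 0))
  · refine hM.im' (h := fun p w => oEq (w 0) (fnX M (w 0)) (fs p) (sn p)) h1 ?_
    exact oEq' hM (DfnF.proj 1) (fnX' hM (DfnF.proj 1)) (hM.fs' (DfnF.proj 0))
      (hM.sn' (DfnF.proj 0))
  · refine hM.im' (h := fun i w => oPr A (w 0) (fnX M (w 0)) i) (DfnF.const hω) ?_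
    exact oPr' hM hA (DfnF.proj 1) (fnX' hM (DfnF.proj 1)) (DfnF.proj 0)
  · refine hM.im' (h := fun R w => oNg (fnX M (w 0)) R) (DfnF.proj 1) ?_
    exact oNg' hM (fnX' hM (DfnF.proj 1)) (DfnF.proj 0)
  · refine hM.im' (h := fun p w => oAn (fnX M (w 0)) (fs p) (sn p))
      (hM.prod' (DfnF.proj 1) (DfnF.proj 1)) ?_
    exact oAn' hM (fnX' hM (DfnF.proj 1)) (hM.fs' (DfnF.proj 0)) (hM.sn' (DfnF.proj 0))
  · refine hM.im' (h := fun R w => oEx ZFSet.omega ∅ (w 0) (fnX M (w 0)) R) (DfnF.proj 1) ?_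
    exact DfnF.comp3 (f := fun a b c => oEx ZFSet.omega ∅ a b c) (dfn_oEx hM) (DfnF.proj 1)
      (fnX' hM (DfnF.proj 1)) (DfnF.proj 0)

/-- The family of the relations given by formulas is a definable function of the structure. -/
theorem dfn_fam : DfnF M M fun w : Fin 1 → ZFSet.{0} => itr (tp A M (w 0)) ∅ ZFSet.omega :=
  DfnF.comp2 (f := fun a b => itr (tp A M a) ∅ b) (dfn_itr2 hM (dfn_tp hM hA)) (DfnF.proj 0)
    (DfnF.const hM.infinity)

end dfn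

/-! ### The definable subsets -/

theorem mem_Defs {X y : ZFSet.{0}} : y ∈ Defs A X ↔ y ⊆ X ∧
    ∃ (n : ℕ) (φ : PFml (n + 1)) (v : Fin n → ZFSet.{0}), (∀ i, v i ∈ X) ∧
      ∀ z ∈ X, z ∈ y ↔ PSat A X φ (Fin.cons z v) := by
  rw [Defs, ZFSet.mem_sep, ZFSet.mem_powerset]

theorem empty_mem_Defs {X : ZFSet.{0}} : ∅ ∈ Defs A X := by
  refine mem_Defs.2 ⟨fun z hz => absurd hz (ZFSet.notMem_empty _), 0, .neg (.eq 0 0), Fin.elim0,
    fun i => i.elim0, fun z _ => ?_⟩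
  simp only [PSat, not_true, iff_false]
  exact ZFSet.notMem_empty _

section

variable (hM : IsZF M) (hA : Dfn M M fun w : Fin 1 → ZFSet.{0} => w 0 ∈ A)

include hM hA

theorem mem_Defs_iff {X y : ZFSet.{0}} (hX : X ∈ M) : y ∈ Defs A X ↔
    y ∈ pwM M X ∧ (y = ∅ ∨ ∃ R ∈ itr (tp A M X) ∅ ZFSet.omega, ∃ s ∈ fnX M X,
      ∀ z ∈ X, z ∈ y ↔ cns z s ∈ R) := by
  rw [mem_Defs, mem_pwM]
  constructor
  · rintro ⟨h1, n, φ, v, hv, h2⟩
    by_cases h3 : y = ∅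
    · subst h3
      exact ⟨⟨hM.empty_mem, h1⟩, Or.inl rfl⟩
    · obtain ⟨x₀, h₀⟩ : ∃ x₀, x₀ ∈ y := by
        by_contra h
        exact h3 ((ZFSet.eq_empty y).2 fun z hz => h ⟨z, hz⟩)
      obtain ⟨s, hs, rfl⟩ := exists_asg hM hX (h1 h₀) v hv
      have hf := (mem_fnX.1 hs).2
      have h4 : ∀ z ∈ X, z ∈ y ↔ cns z s ∈ DP A M X φ := by
        intro z hz
        rw [h2 z hz, mem_DP, vl_cns hf hz]
        exact ⟨fun h => ⟨cns_mem hM hz hs hX, h⟩, fun h => h.2⟩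
      refine ⟨⟨?_, h1⟩, Or.inr ⟨_, (mem_fam hM hX).2 ⟨_, φ, rfl⟩, s, hs, h4⟩⟩
      have h5 : DP A M X φ ∈ M := hM.trans _ ((dfn_fam hM hA).1 (fun _ => X) fun _ => hX) _
        ((mem_fam hM hX).2 ⟨_, φ, rfl⟩)
      have h6 := hM.sep_mem (Q := fun z => cns z s ∈ DP A M X φ)
        (Dfn.mem (cns' hM (DfnF.proj 0) (DfnF.const (hM.trans _ (fnX_mem hM hX) _ hs)))
          (DfnF.const h5)) hX
      have h7 : ZFSet.sep (fun z => cns z s ∈ DP A M X φ) X = y := by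
        ext z
        rw [ZFSet.mem_sep]
        exact ⟨fun h => (h4 z h.1).2 h.2, fun h => ⟨h1 h, (h4 z (h1 h)).1 h⟩⟩
      exact h7 ▸ h6
  · rintro ⟨⟨-, h1⟩, h2⟩
    refine ⟨h1, ?_⟩
    rcases h2 with rfl | ⟨R, hR, s, hs, h2⟩
    · exact (mem_Defs.1 empty_mem_Defs).2
    · obtain ⟨n, φ, rfl⟩ := (mem_fam hM hX).1 hR
      obtain ⟨φ', h3⟩ := exists_wkp (A := A) (M := M) (X := X) (Nat.le_succ n) φ
      have hf := (mem_fnX.1 hs).2
      refine ⟨n, φ', vl s n, vl_mem hf n, fun z hz => ?_⟩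
      rw [h2 z hz, ← h3, mem_DP, vl_cns hf hz]
      exact ⟨fun h => h.2, fun h => ⟨cns_mem hM hz hs hX, h⟩⟩

theorem dfn_Defs : DfnF M M fun w : Fin 1 → ZFSet.{0} => Defs A (w 0) := by
  have hB := hM.base
  have h0 := hM.empty_mem
  have h1 : DfnF M M fun w : Fin 1 → ZFSet.{0} => ZFSet.sep (fun y => y = ∅ ∨
      ∃ R ∈ itr (tp A M (w 0)) ∅ ZFSet.omega, ∃ s ∈ fnX M (w 0),
        ∀ z ∈ w 0, z ∈ y ↔ cns z s ∈ R) (pwM M (w 0)) := by
    refine hM.sep' (Q := fun y w => y = ∅ ∨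
      ∃ R ∈ itr (tp A M (w 0)) ∅ ZFSet.omega, ∃ s ∈ fnX M (w 0),
        ∀ z ∈ w 0, z ∈ y ↔ cns z s ∈ R) (pwM' hM (DfnF.proj 0)) ?_
    apply Dfn.or (Dfn.eq (DfnF.proj 0) (DfnF.const h0))
    apply hB.bex (DfnF.comp1 (f := fun x => itr (tp A M x) ∅ ZFSet.omega) (dfn_fam hM hA)
      (DfnF.proj 1))
    apply hB.bex (fnX' hM (DfnF.proj 2))
    apply hB.ball (DfnF.proj 3)
    apply Dfn.iff
    · exact Dfn.mem (DfnF.proj 0) (DfnF.proj 3)
    · exact Dfn.mem (cns' hM (DfnF.proj 0) (DfnF.proj 1)) (DfnF.proj 2)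
  refine h1.congr fun w hw => ?_
  ext y
  rw [ZFSet.mem_sep, mem_Defs_iff hM hA (hw 0)]

end

/-! ### The hierarchy -/

theorem Defs_congr {A B : Set ZFSet.{0}} {X : ZFSet.{0}} (h : ∀ x ∈ X, (x ∈ A ↔ x ∈ B)) :
    Defs A X = Defs B X := by
  ext y
  rw [mem_Defs, mem_Defs]
  refine and_congr_right fun _ => exists_congr fun n => exists_congr fun φ =>
    exists_congr fun v => and_congr_right fun hv => ?_
  refine forall_congr' fun z => forall_congr' fun hz => iff_congr Iff.rfl ?_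
  refine psat_congr h φ _ fun i => ?_
  refine Fin.cases ?_ (fun i => ?_) i
  · exact hz
  · exact hv i

/-- The hierarchy. -/
noncomputable def Lh (A : Set ZFSet.{0}) : ZFSet.{0} → ZFSet.{0} :=
  wfF (fun z => z) ZFSet.mem_wf fun _ g => ZFSet.sUnion (im (fun p => Defs A (sn p)) g)

theorem Lh_eq (A : Set ZFSet.{0}) (z : ZFSet.{0}) :
    Lh A z = ZFSet.sUnion (im (fun p => Defs A (sn p)) (gr (Lh A) z)) := by
  rw [Lh, wfF_eq]

theorem mem_Lh {z y : ZFSet.{0}} : y ∈ Lh A z ↔ ∃ u ∈ z, y ∈ Defs A (Lh A u) := by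
  rw [Lh_eq, ZFSet.mem_sUnion]
  constructor
  · rintro ⟨w, hw, h⟩
    obtain ⟨p, hp, rfl⟩ := mem_im.1 hw
    obtain ⟨u, hu, rfl⟩ := mem_gr.1 hp
    rw [sn_pair] at h
    exact ⟨u, hu, h⟩
  · rintro ⟨u, hu, h⟩
    exact ⟨_, mem_im.2 ⟨_, mem_gr.2 ⟨u, hu, rfl⟩, rfl⟩, by rwa [sn_pair]⟩

theorem dfn_Lh (hM : IsZF M) (hA : Dfn M M fun w : Fin 1 → ZFSet.{0} => w 0 ∈ A) :
    DfnF M M fun w : Fin 1 → ZFSet.{0} => Lh A (w 0) := by
  have hB := hM.base
  refine hM.memrec (G := fun _ g => ZFSet.sUnion (im (fun p => Defs A (sn p)) g)) ?_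
    fun z => Lh_eq A z
  refine hB.sUnion' (hM.im' (h := fun p _ => Defs A (sn p)) (DfnF.proj 1) ?_)
  exact DfnF.comp1 (f := Defs A) (dfn_Defs hM hA) (hM.sn' (DfnF.proj 0))

theorem LA_eq (A : Set ZFSet.{0}) (α : Ordinal.{0}) : LA A α = Lh A α.toZFSet := by
  induction α using WellFoundedLT.induction with
  | _ α ih =>
  ext x
  rw [mem_Lh, LA, ZFSet.mem_sUnion]
  constructor
  · rintro ⟨y, hy, hx⟩
    obtain ⟨β, rfl⟩ := ZFSet.mem_range.1 hy
    rw [ih _ β.2] at hx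
    exact ⟨_, Ordinal.mem_toZFSet_iff.2 ⟨_, β.2, rfl⟩, hx⟩
  · rintro ⟨u, hu, hx⟩
    obtain ⟨β, hβ, rfl⟩ := Ordinal.mem_toZFSet_iff.1 hu
    refine ⟨_, ZFSet.mem_range.2 ⟨⟨β, hβ⟩, rfl⟩, ?_⟩
    rw [ih _ hβ]
    exact hx

end Pool.Agent.Y588
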