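import Pool.Agent.Y588.Hdf

/-!
# The class `L[A]` of a model of ZF is a model of ZF
-/

set_option autoImplicit false
set_option linter.unreachableTactic false
set_option linter.unusedTactic false
set_option linter.unusedSectionVars false

namespace Pool.Agent.Y588

open Pool.Agent.W868 Pool.Agent.W868.GM
open ZFSet (pair)

variable {A : Set ZFSet.{0}}

/-! ### Relations definable with parameters -/

/-- The relation `R` on `X` is definable with parameters. -/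
def PD (A : Set ZFSet.{0}) (X : ZFSet.{0}) {n : ℕ} (R : (Fin n → ZFSet.{0}) → Prop) : Prop :=
  ∃ (m : ℕ) (ψ : PFml m) (σ : Fin m → Fin n ⊕ ZFSet.{0}), (∀ i, TOver {x | x ∈ X} (σ i)) ∧
    ∀ v, (∀ i, v i ∈ X) → (R v ↔ PSat A X ψ fun i => Sum.elim v id (σ i))

section PD

variable {X : ZFSet.{0}} {n : ℕ} {R T : (Fin n → ZFSet.{0}) → Prop}

theorem PD.congr (h : PD A X R) (h' : ∀ v, (∀ i, v i ∈ X) → (R v ↔ T v)) : PD A X T := by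
  obtain ⟨m, ψ, σ, h1, h2⟩ := h
  exact ⟨m, ψ, σ, h1, fun v hv => (h' v hv).symm.trans (h2 v hv)⟩

theorem PD.not (h : PD A X R) : PD A X fun v => ¬ R v := by
  obtain ⟨m, ψ, σ, h1, h2⟩ := h
  exact ⟨m, .neg ψ, σ, h1, fun v hv => not_congr (h2 v hv)⟩

theorem PD.and (h : PD A X R) (h' : PD A X T) : PD A X fun v => R v ∧ T v := by
  obtain ⟨m, ψ, σ, h1, h2⟩ := h
  obtain ⟨m', ψ', σ', h1', h2'⟩ := h'
  refine ⟨m + m', .and (ψ.ren (Fin.castAdd m')) (ψ'.ren (Fin.natAdd m)), Fin.append σ σ', ?_, ?_⟩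
  · intro i
    refine Fin.addCases (fun i => ?_) (fun i => ?_) i
    · rw [Fin.append_left]
      exact h1 i
    · rw [Fin.append_right]
      exact h1' i
  · intro v hv
    simp only [PSat, psat_ren, Fin.append_left, Fin.append_right]
    exact and_congr (h2 v hv) (h2' v hv)

theorem PD.mem (s t : Fin n ⊕ ZFSet.{0}) (hs : TOver {x | x ∈ X} s) (ht : TOver {x | x ∈ X} t) :
    PD A X fun v => Sum.elim v id s ∈ Sum.elim v id t := by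
  refine ⟨2, .mem 0 1, ![s, t], fun i => ?_, fun v _ => Iff.rfl⟩
  fin_cases i
  · exact hs
  · exact ht

theorem PD.eq (s t : Fin n ⊕ ZFSet.{0}) (hs : TOver {x | x ∈ X} s) (ht : TOver {x | x ∈ X} t) :
    PD A X fun v => Sum.elim v id s = Sum.elim v id t := by
  refine ⟨2, .eq 0 1, ![s, t], fun i => ?_, fun v _ => Iff.rfl⟩
  fin_cases i
  · exact hs
  · exact ht

theorem PD.prd (i : Fin n) : PD A X fun v => v i ∈ A :=
  ⟨1, .prd 0, ![Sum.inl i], fun _ => by simpa using TOver.inl i, fun v _ => Iff.rfl⟩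

/-- Separation of the variable number `0` in a substitution. -/
theorem exists_split {m : ℕ} {x₀ : ZFSet.{0}} (h₀ : x₀ ∈ X) (σ : Fin m → Fin (n + 1) ⊕ ZFSet.{0})
    (hσ : ∀ i, TOver {x | x ∈ X} (σ i)) :
    ∃ (ρ : Fin m → Fin (m + 1)) (σ' : Fin m → Fin n ⊕ ZFSet.{0}),
      (∀ i, TOver {x | x ∈ X} (σ' i)) ∧ ∀ (a : ZFSet.{0}) (v : Fin n → ZFSet.{0}),
        (fun i => Sum.elim (Fin.cons a v : Fin (n + 1) → ZFSet.{0}) id (σ i)) =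
          fun i => (Fin.cons a (fun i => Sum.elim v id (σ' i)) : Fin (m + 1) → ZFSet.{0}) (ρ i) := by
  have key : ∀ i, ∃ (r : Fin (m + 1)) (t : Fin n ⊕ ZFSet.{0}), TOver {x | x ∈ X} t ∧
      ((r = 0 ∧ ∀ (a : ZFSet.{0}) (v : Fin n → ZFSet.{0}),
        Sum.elim (Fin.cons a v : Fin (n + 1) → ZFSet.{0}) id (σ i) = a) ∨
      (r = i.succ ∧ ∀ (a : ZFSet.{0}) (v : Fin n → ZFSet.{0}),
        Sum.elim (Fin.cons a v : Fin (n + 1) → ZFSet.{0}) id (σ i) = Sum.elim v id t)) := by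
    intro i
    have h := hσ i
    cases h1 : σ i with
    | inl j =>
      refine Fin.cases ?_ (fun j => ?_) j
      · exact ⟨0, Sum.inr x₀, tOver_inr.2 h₀, Or.inl ⟨rfl, fun a v => rfl⟩⟩
      · exact ⟨i.succ, Sum.inl j, TOver.inl j, Or.inr ⟨rfl, fun a v => rfl⟩⟩
    | inr b =>
      rw [h1] at h
      exact ⟨i.succ, Sum.inr b, tOver_inr.2 (tOver_inr.1 h), Or.inr ⟨rfl, fun a v => rfl⟩⟩
  choose ρ σ' h1 h2 using key
  refine ⟨ρ, σ', h1, fun a v => funext fun i => ?_⟩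
  rcases h2 i with ⟨h3, h4⟩ | ⟨h3, h4⟩
  · rw [h3, h4, Fin.cons_zero]
  · rw [h3, h4, Fin.cons_succ]

theorem PD.ex {x₀ : ZFSet.{0}} (h₀ : x₀ ∈ X) {Q : ZFSet.{0} → (Fin n → ZFSet.{0}) → Prop}
    (h : PD A X fun w : Fin (n + 1) → ZFSet.{0} => Q (w 0) (Fin.tail w)) :
    PD A X fun v => ∃ a ∈ X, Q a v := by
  obtain ⟨m, ψ, σ, h1, h2⟩ := h
  obtain ⟨ρ, σ', h3, h4⟩ := exists_split h₀ σ h1
  refine ⟨m, .ex (ψ.ren ρ), σ', h3, fun v hv => ?_⟩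
  simp only [PSat, psat_ren]
  refine exists_congr fun a => and_congr_right fun ha => ?_
  have h5 := h2 (Fin.cons a v) fun i => by
    refine Fin.cases ?_ (fun i => ?_) i
    · exact ha
    · exact hv i
  rw [h4] at h5
  exact h5

theorem PD.fml {x₀ : ZFSet.{0}} (h₀ : x₀ ∈ X) : {n : ℕ} → (φ : Fml ZFSet.{0} n) →
    φ.Over {x | x ∈ X} → PD A X fun v => Sat {x | x ∈ X} id φ v
  | _, .mem s t, h => PD.mem s t h.1 h.2
  | _, .eq s t, h => PD.eq s t h.1 h.2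
  | _, .neg φ, h => (PD.fml h₀ φ h).not
  | _, .and φ ψ, h => (PD.fml h₀ φ h.1).and (PD.fml h₀ ψ h.2)
  | n, .ex φ, h => by
    have h1 := PD.fml h₀ φ h
    refine PD.ex (Q := fun a v => Sat {x | x ∈ X} id φ (Fin.cons a v)) h₀ (h1.congr fun v _ => ?_)
    rw [Fin.cons_self_tail]

theorem PD.dfn {x₀ : ZFSet.{0}} (h₀ : x₀ ∈ X) (h : Dfn {x | x ∈ X} {x | x ∈ X} R) :
    PD A X R := by
  obtain ⟨φ, h1, h2⟩ := h
  exact (PD.fml h₀ φ h1).congr h2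

end PD

/-- Definable subsets. -/
theorem sep_mem_Defs {X : ZFSet.{0}} {Q : ZFSet.{0} → Prop}
    (h : PD A X fun w : Fin 1 → ZFSet.{0} => Q (w 0)) : ZFSet.sep Q X ∈ Defs A X := by
  by_cases h0 : ∃ x₀, x₀ ∈ X
  · obtain ⟨x₀, h₀⟩ := h0
    obtain ⟨m, ψ, σ, h1, h2⟩ := h
    obtain ⟨ρ, σ', h3, h4⟩ := exists_split (n := 0) h₀ σ h1
    refine mem_Defs.2 ⟨fun z hz => (ZFSet.mem_sep.1 hz).1, m, ψ.ren ρ,
      fun i => Sum.elim Fin.elim0 id (σ' i), fun i => ?_, fun z hz => ?_⟩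
    · have h5 := h3 i
      cases h6 : σ' i with
      | inl j => exact j.elim0
      | inr a =>
        rw [h6] at h5
        beta_reduce
        rw [h6]
        exact tOver_inr.1 h5
    · rw [ZFSet.mem_sep, psat_ren]
      have h5 := h2 (Fin.cons z Fin.elim0) fun i => by
        refine Fin.cases ?_ (fun i => i.elim0) i
        exact hz
      rw [h4] at h5
      exact ⟨fun h => h5.1 h.2, fun h => ⟨hz, h5.2 h⟩⟩
  · have h1 : ZFSet.sep Q X = ∅ := by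
      rw [ZFSet.eq_empty]
      intro z hz
      exact h0 ⟨z, (ZFSet.mem_sep.1 hz).1⟩
    rw [h1]
    exact empty_mem_Defs

theorem sep_mem_Defs' {X : ZFSet.{0}} {Q : ZFSet.{0} → Prop}
    (h : Dfn {x | x ∈ X} {x | x ∈ X} fun w : Fin 1 → ZFSet.{0} => Q (w 0)) :
    ZFSet.sep Q X ∈ Defs A X := by
  by_cases h0 : ∃ x₀, x₀ ∈ X
  · obtain ⟨x₀, h₀⟩ := h0
    exact sep_mem_Defs (PD.dfn h₀ h)
  · have h1 : ZFSet.sep Q X = ∅ := by
      rw [ZFSet.eq_empty]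
      intro z hz
      exact h0 ⟨z, (ZFSet.mem_sep.1 hz).1⟩
    rw [h1]
    exact empty_mem_Defs

theorem self_mem_Defs {X : ZFSet.{0}} : X ∈ Defs A X := by
  have h := sep_mem_Defs' (A := A) (X := X) (Q := fun _ => True) Dfn.tt
  have h1 : ZFSet.sep (fun _ => True) X = X := by
    ext z
    rw [ZFSet.mem_sep]
    exact ⟨fun h => h.1, fun h => ⟨h, trivial⟩⟩
  rwa [h1] at h

theorem Defs_sub {X y : ZFSet.{0}} (h : y ∈ Defs A X) : y ⊆ X := (mem_Defs.1 h).1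

theorem sub_Defs {X : ZFSet.{0}} (hX : ∀ x ∈ X, ∀ y ∈ x, y ∈ X) : X ⊆ Defs A X := by
  intro x hx
  have h := sep_mem_Defs' (A := A) (X := X) (Q := fun z => z ∈ x)
    (Dfn.mem (DfnF.proj 0) (DfnF.const hx))
  have h1 : ZFSet.sep (fun z => z ∈ x) X = x := by
    ext z
    rw [ZFSet.mem_sep]
    exact ⟨fun h => h.2, fun h => ⟨hX x hx z h, h⟩⟩
  rwa [h1] at h

/-! ### Levels -/

theorem Lh_trans (z : ZFSet.{0}) : ∀ y ∈ Lh A z, ∀ w ∈ y, w ∈ Lh A z := by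
  induction z using ZFSet.inductionOn with
  | _ z ih =>
  intro y hy w hw
  obtain ⟨u, hu, h⟩ := mem_Lh.1 hy
  exact mem_Lh.2 ⟨u, hu, sub_Defs (ih u hu) (Defs_sub h hw)⟩

theorem Lh_subset {z u : ZFSet.{0}} (h : u ∈ z) : Lh A u ⊆ Lh A z :=
  fun _ hy => mem_Lh.2 ⟨u, h, sub_Defs (Lh_trans u) hy⟩

theorem Lh_mem {z u : ZFSet.{0}} (h : u ∈ z) : Lh A u ∈ Lh A z :=
  mem_Lh.2 ⟨u, h, self_mem_Defs⟩

theorem Lh_mono {z z' : ZFSet.{0}} (h : z ⊆ z') : Lh A z ⊆ Lh A z' := fun _ hy => by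
  obtain ⟨u, hu, h1⟩ := mem_Lh.1 hy
  exact mem_Lh.2 ⟨u, h hu, h1⟩

/-- The class `L[A]` of the model `M`. -/
def HC (M A : Set ZFSet.{0}) : Set ZFSet.{0} := {x | ∃ ξ ∈ M, ξ.IsOrdinal ∧ x ∈ Lh A ξ}

section HC

variable {M : Set ZFSet.{0}} (hM : IsZF M)

theorem HC_trans : ∀ x ∈ HC M A, ∀ y ∈ x, y ∈ HC M A := by
  rintro x ⟨ξ, h1, h2, h3⟩ y hy
  exact ⟨ξ, h1, h2, Lh_trans ξ x h3 y hy⟩

theorem max_levelH {ξ η : ZFSet.{0}} (h1 : ξ ∈ M) (h2 : ξ.IsOrdinal) (h3 : η ∈ M)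
    (h4 : η.IsOrdinal) : ∃ ζ ∈ M, ζ.IsOrdinal ∧ Lh A ξ ⊆ Lh A ζ ∧ Lh A η ⊆ Lh A ζ := by
  rcases h2.subset_total h4 with h5 | h5
  · exact ⟨η, h3, h4, Lh_mono h5, fun _ h => h⟩
  · exact ⟨ξ, h1, h2, fun _ h => h, Lh_mono h5⟩

include hM

theorem Lh_mem_HC {ξ : ZFSet.{0}} (hξ : ξ ∈ M) (hξo : ξ.IsOrdinal) : Lh A ξ ∈ HC M A :=
  ⟨sc ξ, hM.sc_mem hξ, isOrdinal_sc hξo, Lh_mem (ZFSet.mem_insert _ _)⟩

theorem Defs_sub_HC {ξ y : ZFSet.{0}} (hξ : ξ ∈ M) (hξo : ξ.IsOrdinal)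
    (h : y ∈ Defs A (Lh A ξ)) : y ∈ HC M A :=
  ⟨sc ξ, hM.sc_mem hξ, isOrdinal_sc hξo, mem_Lh.2 ⟨ξ, ZFSet.mem_insert _ _, h⟩⟩

theorem HC_sepD {ξ : ZFSet.{0}} (hξ : ξ ∈ M) (hξo : ξ.IsOrdinal) {Q : ZFSet.{0} → Prop}
    (hQ : Dfn {x | x ∈ Lh A ξ} {x | x ∈ Lh A ξ} fun w : Fin 1 → ZFSet.{0} => Q (w 0)) :
    ZFSet.sep Q (Lh A ξ) ∈ HC M A := Defs_sub_HC hM hξ hξo (sep_mem_Defs' hQ)

theorem HC_upair {x y : ZFSet.{0}} (hx : x ∈ HC M A) (hy : y ∈ HC M A) :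
    ({x, y} : ZFSet.{0}) ∈ HC M A := by
  obtain ⟨ξ, h1, h2, h3⟩ := hx
  obtain ⟨η, h4, h5, h6⟩ := hy
  obtain ⟨ζ, h7, h8, h9, h10⟩ := max_levelH (A := A) h1 h2 h4 h5
  have hx := h9 h3
  have hy := h10 h6
  have h := HC_sepD (A := A) hM h7 h8 (Q := fun z => z = x ∨ z = y)
    ((Dfn.eq (DfnF.proj 0) (DfnF.const hx)).or (Dfn.eq (DfnF.proj 0) (DfnF.const hy)))
  have h11 : ZFSet.sep (fun z => z = x ∨ z = y) (Lh A ζ) = {x, y} := by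
    ext z
    rw [ZFSet.mem_sep, ZFSet.mem_pair]
    refine ⟨fun h => h.2, fun h => ⟨?_, h⟩⟩
    rcases h with rfl | rfl
    · exact hx
    · exact hy
  rwa [h11] at h

theorem HC_sUnion {x : ZFSet.{0}} (hx : x ∈ HC M A) : (ZFSet.sUnion x : ZFSet.{0}) ∈ HC M A := by
  obtain ⟨ξ, h1, h2, h3⟩ := hx
  have h : ZFSet.sep (fun z => ∃ y ∈ x, z ∈ y) (Lh A ξ) ∈ HC M A := by
    refine HC_sepD (A := A) hM h1 h2 (Q := fun z => ∃ y ∈ x, z ∈ y) ?_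
    have h4 : Dfn {x | x ∈ Lh A ξ} {x | x ∈ Lh A ξ} fun w : Fin 1 → ZFSet.{0} =>
        ∃ y ∈ {x | x ∈ Lh A ξ}, y ∈ x ∧ w 0 ∈ y :=
      Dfn.ex (Q := fun y w => y ∈ x ∧ w 0 ∈ y)
        ((Dfn.mem (DfnF.proj 0) (DfnF.const h3)).and (Dfn.mem (DfnF.proj 1) (DfnF.proj 0)))
    refine h4.congr fun w _ => ?_
    constructor
    · rintro ⟨y, -, h5⟩
      exact ⟨y, h5⟩
    · rintro ⟨y, h5, h6⟩
      exact ⟨y, Lh_trans ξ x h3 y h5, h5, h6⟩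
  have h5 : ZFSet.sep (fun z => ∃ y ∈ x, z ∈ y) (Lh A ξ) = ZFSet.sUnion x := by
    ext z
    rw [ZFSet.mem_sep, ZFSet.mem_sUnion]
    refine ⟨fun h => h.2, fun h => ⟨?_, h⟩⟩
    obtain ⟨y, hy, hz⟩ := h
    exact Lh_trans ξ y (Lh_trans ξ x h3 y hy) z hz
  rwa [h5] at h

theorem HC_inter {x y : ZFSet.{0}} (hx : x ∈ HC M A) (hy : y ∈ HC M A) : x ∩ y ∈ HC M A := by
  obtain ⟨ξ, h1, h2, h3⟩ := hx
  obtain ⟨η, h4, h5, h6⟩ := hy
  obtain ⟨ζ, h7, h8, h9, h10⟩ := max_levelH (A := A) h1 h2 h4 h5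
  have hx := h9 h3
  have hy := h10 h6
  have h := HC_sepD (A := A) hM h7 h8 (Q := fun z => z ∈ x ∧ z ∈ y)
    ((Dfn.mem (DfnF.proj 0) (DfnF.const hx)).and (Dfn.mem (DfnF.proj 0) (DfnF.const hy)))
  have h11 : ZFSet.sep (fun z => z ∈ x ∧ z ∈ y) (Lh A ζ) = x ∩ y := by
    ext z
    rw [ZFSet.mem_sep, ZFSet.mem_inter]
    exact ⟨fun h => h.2, fun h => ⟨Lh_trans ζ x hx z h.1, h⟩⟩
  rwa [h11] at h

/-- The restrictions of the predicate. -/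
theorem HC_amen {x : ZFSet.{0}} (hx : x ∈ HC M A) : ZFSet.sep (fun z => z ∈ A) x ∈ HC M A := by
  obtain ⟨ξ, h1, h2, h3⟩ := hx
  have h4 := Defs_sub_HC (A := A) hM h1 h2 (y := ZFSet.sep (fun z => z ∈ A ∧ z ∈ x) (Lh A ξ))
    (sep_mem_Defs (Q := fun z => z ∈ A ∧ z ∈ x) ((PD.prd 0).and (PD.dfn h3
      (Dfn.mem (DfnF.proj 0) (DfnF.const h3)))))
  have h5 : ZFSet.sep (fun z => z ∈ A ∧ z ∈ x) (Lh A ξ) = ZFSet.sep (fun z => z ∈ A) x := by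
    ext z
    rw [ZFSet.mem_sep, ZFSet.mem_sep]
    exact ⟨fun h => ⟨h.2.2, h.2.1⟩, fun h => ⟨Lh_trans ξ x h3 z h.1, h.2, h.1⟩⟩
  rwa [h5] at h4

end HC

section ZF

variable {M : Set ZFSet.{0}} (hM : IsZF M)
  (hA : Dfn M M fun w : Fin 1 → ZFSet.{0} => w 0 ∈ A)

include hM hA

theorem Lh_mem_M {z : ZFSet.{0}} (hz : z ∈ M) : Lh A z ∈ M :=
  (dfn_Lh hM hA).1 (fun _ => z) fun _ => hz

theorem HC_subset : HC M A ⊆ M := by
  rintro x ⟨ξ, h1, -, h3⟩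
  exact hM.trans _ (Lh_mem_M hM hA h1) _ h3

theorem dfn_HC : Dfn M M fun w : Fin 1 → ZFSet.{0} => w 0 ∈ HC M A := by
  have hB := hM.base
  have h : Dfn M M fun w : Fin 1 → ZFSet.{0} => ∃ ξ ∈ M, ξ.IsOrdinal ∧ w 0 ∈ Lh A ξ := by
    apply Dfn.ex
    apply Dfn.and (hB.isOrdinal' (DfnF.proj _))
    exact Dfn.mem (DfnF.proj 1) (DfnF.comp1 (f := Lh A) (dfn_Lh hM hA) (DfnF.proj 0))
  exact h

/-- Levels that contain the values of a function. -/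
theorem exists_levelH {x : ZFSet.{0}} (hx : x ∈ M) {Q : ZFSet.{0} → ZFSet.{0} → Prop}
    (hQ : Dfn M M fun w : Fin 2 → ZFSet.{0} => Q (w 0) (w 1)) :
    ∃ δ ∈ M, δ.IsOrdinal ∧ ∀ z ∈ x, (∃ w ∈ HC M A, Q w z) → ∃ w ∈ Lh A δ, Q w z := by
  have hB := hM.base
  have h1 : Dfn M M fun w : Fin 2 → ZFSet.{0} => ∃ y ∈ Lh A (w 0), Q y (w 1) := by
    apply hB.bex (DfnF.comp1 (f := Lh A) (dfn_Lh hM hA) (DfnF.proj 0))
    exact Dfn.comp2 (Q := Q) hQ (DfnF.proj 0) (DfnF.proj 2)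
  have h2 : DfnF M M fun w : Fin 1 → ZFSet.{0} => lo M fun η => ∃ y ∈ Lh A η, Q y (w 0) :=
    hM.lo' (Q := fun η w => ∃ y ∈ Lh A η, Q y (w 0)) h1
  refine ⟨_, hM.union _ (hM.im_mem (h := fun z => lo M fun η => ∃ y ∈ Lh A η, Q y z) hx h2),
    isOrdinal_sUnion fun y hy => ?_, ?_⟩
  · obtain ⟨z, -, rfl⟩ := mem_im.1 hy
    exact lo_isOrdinal
  · rintro z hz ⟨w, ⟨ξ, h3, h4, h5⟩, h6⟩
    obtain ⟨-, -, w', h7, h8⟩ := lo_spec (M := M) (P := fun η => ∃ y ∈ Lh A η, Q y z)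
      ⟨ξ, h3, h4, w, h5, h6⟩
    exact ⟨w', Lh_mono (fun u hu => ZFSet.mem_sUnion.2 ⟨_, mem_im.2 ⟨z, hz, rfl⟩, hu⟩) h7, h8⟩

/-- All ordinals are constructible. -/
theorem ord_HC {β : ZFSet.{0}} (hβ : β ∈ M) (hβo : β.IsOrdinal) : β ∈ HC M A := by
  induction β using ZFSet.inductionOn with
  | _ β ih =>
  obtain ⟨δ, hδ, hδo, h1⟩ := exists_levelH hM hA hβ (Q := fun w z => w = z)
    (Dfn.eq (DfnF.proj 0) (DfnF.proj 1))
  have h2 : β ⊆ Lh A δ := by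
    intro z hz
    obtain ⟨w, hw, rfl⟩ := h1 z hz ⟨z, ih z hz (hM.trans _ hβ _ hz) (hβo.mem hz), rfl⟩
    exact hw
  by_cases h3 : β ∈ Lh A δ
  · exact ⟨δ, hδ, hδo, h3⟩
  · have h4 : ZFSet.sep (fun z => z.IsOrdinal) (Lh A δ) = β := by
      ext z
      rw [ZFSet.mem_sep]
      constructor
      · rintro ⟨h5, h6⟩
        rcases h6.mem_trichotomous hβo with h7 | rfl | h7
        · exact h7
        · exact absurd h5 h3
        · exact absurd (Lh_trans _ _ h5 _ h7) h3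
      · exact fun hz => ⟨h2 hz, hβo.mem hz⟩
    have h5 := HC_sepD hM hδ hδo (A := A) (Q := fun z => z.IsOrdinal)
      ((D0.isOrdinal (D0v.proj 0)).dfn (Lh_trans δ))
    rwa [h4] at h5

/-! ### Reflection -/

/-- A bound for the levels of witnesses. -/
noncomputable def bdH (M A : Set ZFSet.{0}) :
    {n : ℕ} → Fml ZFSet.{0} n → ZFSet.{0} → ZFSet.{0}
  | _, .mem _ _, _ => ∅
  | _, .eq _ _, _ => ∅
  | _, .neg φ, ξ => bdH M A φ ξ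
  | _, .and φ ψ, ξ => bdH M A φ ξ ∪ bdH M A ψ ξ
  | n, .ex φ, ξ => bdH M A φ ξ ∪ ZFSet.sUnion (im (fun p => lo M fun η => ∃ a ∈ Lh A η,
      Sat (HC M A) id φ (Fin.cons a (ut n p))) (pw (Lh A ξ) n))

theorem dfn_bdH : {n : ℕ} → (φ : Fml ZFSet.{0} n) → φ.Over M →
    DfnF M M fun w : Fin 1 → ZFSet.{0} => bdH M A φ (w 0)
  | _, .mem _ _, _ => DfnF.const hM.empty_mem
  | _, .eq _ _, _ => DfnF.const hM.empty_mem
  | _, .neg φ, h => dfn_bdH φ h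
  | _, .and φ ψ, h => hM.base.union' (dfn_bdH φ h.1) (dfn_bdH ψ h.2)
  | n, .ex φ, h => by
    have hB := hM.base
    refine hB.union' (dfn_bdH φ h) (hB.sUnion' ?_)
    refine hM.im' (h := fun p _ => lo M fun η => ∃ a ∈ Lh A η,
      Sat (HC M A) id φ (Fin.cons a (ut n p)))
      (dfn_pw hM n (DfnF.comp1 (f := Lh A) (dfn_Lh hM hA) (DfnF.proj 0))) ?_
    refine hM.lo' (Q := fun η w => ∃ a ∈ Lh A η,
      Sat (HC M A) id φ (Fin.cons a (ut n (w 0)))) ?_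
    refine hB.bex (Q := fun a w => Sat (HC M A) id φ (Fin.cons a (ut n (w 1))))
      (DfnF.comp1 (f := Lh A) (dfn_Lh hM hA) (DfnF.proj 0)) ?_
    have h2 := dfn_sat (dfn_HC hM hA) (HC_subset hM hA) φ h (m := 4)
      (Fin.cons (fun w => w 0) fun i w => ut n (w 2) i) (by
        intro i
        refine Fin.cases ?_ (fun i => ?_) i
        · exact DfnF.proj 0
        · exact dfn_ut hM (DfnF.proj 2) n i)
    refine h2.congr fun w _ => ?_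
    have h3 : (fun i => (Fin.cons (fun w => w 0) (fun i w => ut n (w 2) i) :
        Fin (n + 1) → (Fin 4 → ZFSet.{0}) → ZFSet.{0}) i w) = Fin.cons (w 0) (ut n (w 2)) := by
      funext i
      refine Fin.cases ?_ (fun i => ?_) i
      · rfl
      · rfl
    rw [h3]
    rfl

omit hM hA in
theorem isOrdinal_bdH (ξ : ZFSet.{0}) : {n : ℕ} → (φ : Fml ZFSet.{0} n) →
    (bdH M A φ ξ).IsOrdinal
  | _, .mem _ _ => ZFSet.isOrdinal_empty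
  | _, .eq _ _ => ZFSet.isOrdinal_empty
  | _, .neg φ => isOrdinal_bdH ξ φ
  | _, .and φ ψ => isOrdinal_union (isOrdinal_bdH ξ φ) (isOrdinal_bdH ξ ψ)
  | n, .ex φ => isOrdinal_union (isOrdinal_bdH ξ φ) (isOrdinal_sUnion fun y hy => by
      obtain ⟨p, -, rfl⟩ := mem_im.1 hy
      exact lo_isOrdinal)

omit hM hA in
theorem CL_of_bdH {Y : ℕ → ZFSet.{0}} {δ : ZFSet.{0}} (hY : ∀ k, Y k ⊆ δ)
    (hmono : ∀ k l, k ≤ l → Y k ⊆ Y l)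
    (hδ : ∀ y ∈ Lh A δ, ∃ k, y ∈ Lh A (Y k)) : {n : ℕ} → (φ : Fml ZFSet.{0} n) →
    (∀ k, bdH M A φ (Y k) ⊆ δ) → CL (HC M A) {x | x ∈ Lh A δ} φ
  | _, .mem _ _, _ => trivial
  | _, .eq _ _, _ => trivial
  | _, .neg φ, h => CL_of_bdH hY hmono hδ φ h
  | _, .and φ ψ, h =>
    ⟨CL_of_bdH hY hmono hδ φ fun k x hx => h k (ZFSet.mem_union.2 (Or.inl hx)),
      CL_of_bdH hY hmono hδ ψ fun k x hx => h k (ZFSet.mem_union.2 (Or.inr hx))⟩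
  | n, .ex φ, h => by
    refine ⟨CL_of_bdH hY hmono hδ φ fun k x hx => h k (ZFSet.mem_union.2 (Or.inl hx)), ?_⟩
    rintro v hv ⟨a, ⟨ξ, h1, h2, h3⟩, h4⟩
    obtain ⟨k, hk⟩ := exists_common (P := fun k y => y ∈ Lh A (Y k))
      (fun x k l hkl hx => Lh_mono (hmono k l hkl) hx) v fun i => hδ _ (hv i)
    have h5 : tup v ∈ pw (Lh A (Y k)) n := mem_pw.2 ⟨v, hk, rfl⟩
    obtain ⟨-, -, b, h6, h7⟩ := lo_spec (M := M) (P := fun η => ∃ a ∈ Lh A η,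
      Sat (HC M A) id φ (Fin.cons a (ut n (tup v))))
      ⟨ξ, h1, h2, a, h3, by rwa [ut_tup]⟩
    rw [ut_tup] at h7
    refine ⟨b, Lh_mono (fun u hu => h k (ZFSet.mem_union.2 (Or.inr (ZFSet.mem_sUnion.2
      ⟨_, mem_im.2 ⟨_, h5, rfl⟩, hu⟩)))) h6, h7⟩

/-- The reflection principle. -/
theorem reflectionH {n : ℕ} (φ : Fml ZFSet.{0} n) (hφ : φ.Over M) {ξ : ZFSet.{0}} (hξ : ξ ∈ M)
    (hξo : ξ.IsOrdinal) :
    ∃ δ ∈ M, δ.IsOrdinal ∧ ξ ⊆ δ ∧ CL (HC M A) {x | x ∈ Lh A δ} φ := by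
  have hB := hM.base
  set T : ZFSet.{0} → ZFSet.{0} := fun η => sc (η ∪ bdH M A φ η) with hT
  have hTd : DfnF M M fun w : Fin 1 → ZFSet.{0} => T (w 0) := by
    have h1 : DfnF M M fun w : Fin 1 → ZFSet.{0} => w 0 ∪ bdH M A φ (w 0) :=
      hB.union' (DfnF.proj 0) (dfn_bdH hM hA φ hφ)
    exact hB.insert' h1 h1
  have hTo : ∀ x : ZFSet.{0}, x.IsOrdinal → (T x).IsOrdinal := fun x hx =>
    isOrdinal_sc (isOrdinal_union hx (isOrdinal_bdH x φ))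
  have hTsub : ∀ x : ZFSet.{0}, x.IsOrdinal → x ∪ bdH M A φ x ⊆ T x := fun x hx z hz =>
    ZFSet.mem_insert_of_mem _ hz
  have hno : ∀ z, (itr T ξ z).IsOrdinal := isOrdinal_itr hξo hTo
  refine ⟨itr T ξ ZFSet.omega, itr_mem_M hM hξ hM.infinity hTd, hno _, itr_base, ?_⟩
  refine CL_of_bdH (Y := fun k => itr T ξ (nat k)) (fun k => itr_mono nat_subset_omega)
    (fun k l hkl => itr_mono (nat_subset hkl)) ?_ φ ?_
  · intro y hy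
    obtain ⟨u, hu, h1⟩ := mem_Lh.1 hy
    obtain ⟨k, hk⟩ := mem_itr_omega hu
    exact ⟨k, mem_Lh.2 ⟨u, hk, h1⟩⟩
  · intro k x hx
    exact itr_step (nat_mem_omega k) (hTsub _ (hno _) (ZFSet.mem_union.2 (Or.inr hx)))

omit hM hA in
theorem over_levelH_aux {n : ℕ} {s : Fin n ⊕ ZFSet.{0}} (hne : ∃ ξ ∈ M, ξ.IsOrdinal)
    (h : TOver (HC M A) s) : ∃ ξ ∈ M, ξ.IsOrdinal ∧ TOver {x | x ∈ Lh A ξ} s := by
  cases s with
  | inl i =>
    obtain ⟨ξ, h1, h2⟩ := hne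
    exact ⟨ξ, h1, h2, TOver.inl i⟩
  | inr a =>
    obtain ⟨ξ, h1, h2, h3⟩ := h a rfl
    exact ⟨ξ, h1, h2, tOver_inr.2 h3⟩

omit hM hA in
theorem over_levelH (hne : ∃ ξ ∈ M, ξ.IsOrdinal) : {n : ℕ} → (φ : Fml ZFSet.{0} n) →
    φ.Over (HC M A) → ∃ ξ ∈ M, ξ.IsOrdinal ∧ φ.Over {x | x ∈ Lh A ξ}
  | _, .mem s t, h => by
    obtain ⟨ξ, h1, h2, h3⟩ := over_levelH_aux hne h.1
    obtain ⟨η, h4, h5, h6⟩ := over_levelH_aux hne h.2
    obtain ⟨ζ, h7, h8, h9, h10⟩ := max_levelH (A := A) h1 h2 h4 h5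
    exact ⟨ζ, h7, h8, h3.mono h9, h6.mono h10⟩
  | _, .eq s t, h => by
    obtain ⟨ξ, h1, h2, h3⟩ := over_levelH_aux hne h.1
    obtain ⟨η, h4, h5, h6⟩ := over_levelH_aux hne h.2
    obtain ⟨ζ, h7, h8, h9, h10⟩ := max_levelH (A := A) h1 h2 h4 h5
    exact ⟨ζ, h7, h8, h3.mono h9, h6.mono h10⟩
  | _, .neg φ, h => over_levelH hne φ h
  | _, .and φ ψ, h => by
    obtain ⟨ξ, h1, h2, h3⟩ := over_levelH hne φ h.1
    obtain ⟨η, h4, h5, h6⟩ := over_levelH hne ψ h.2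
    obtain ⟨ζ, h7, h8, h9, h10⟩ := max_levelH (A := A) h1 h2 h4 h5
    exact ⟨ζ, h7, h8, Fml.Over.mono (φ := φ) h9 h3, Fml.Over.mono (φ := ψ) h10 h6⟩
  | _, .ex φ, h => over_levelH hne φ h

theorem separation_HC (φ : Fml ZFSet.{0} 1) (hφ : φ.Over (HC M A)) (x : ZFSet.{0})
    (hx : x ∈ HC M A) : ∃ y ∈ HC M A, ∀ z, z ∈ y ↔ z ∈ x ∧ Sat (HC M A) id φ ![z] := by
  have hsub := HC_subset hM hA
  obtain ⟨ξ, h1, h2, h3⟩ := over_levelH ⟨∅, hM.empty_mem, ZFSet.isOrdinal_empty⟩ φ hφ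
  have hx0 := hx
  obtain ⟨η, h4, h5, h6⟩ := hx
  obtain ⟨ζ, h7, h8, h9, h10⟩ := max_levelH (A := A) h1 h2 h4 h5
  obtain ⟨δ, h11, h12, h13, h14⟩ := reflectionH hM hA φ (Fml.Over.mono (φ := φ) hsub hφ) h7 h8
  have hX := Lh_mem_HC hM (A := A) h11 h12
  have hy := HC_sepD hM h11 h12 (A := A) (Q := fun z => Sat {x | x ∈ Lh A δ} id φ ![z])
    ⟨φ, Fml.Over.mono (φ := φ) (fun u hu => Lh_mono h13 (h9 hu)) h3, fun v _ => by
      have h : v = ![v 0] := by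
        funext i
        fin_cases i
        rfl
      beta_reduce
      rw [← h]⟩
  have hxX : x ∈ Lh A δ := Lh_mono h13 (h10 h6)
  refine ⟨_, HC_inter hM hx0 hy, fun z => ?_⟩
  rw [ZFSet.mem_inter, ZFSet.mem_sep]
  have h16 : z ∈ x → z ∈ Lh A δ := fun hz => Lh_trans _ _ hxX _ hz
  have h17 : z ∈ Lh A δ → (Sat {x | x ∈ Lh A δ} id φ ![z] ↔ Sat (HC M A) id φ ![z]) := by
    intro hz
    refine CL_sat (fun u hu => HC_trans _ hX _ hu) φ h14 _ fun i => ?_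
    fin_cases i
    exact hz
  constructor
  · rintro ⟨hz, hz', h18⟩
    exact ⟨hz, (h17 hz').1 h18⟩
  · rintro ⟨hz, h18⟩
    exact ⟨hz, h16 hz, (h17 (h16 hz)).2 h18⟩

/-- The class `L[A]` of a model of ZF is a model of ZF. -/
theorem isZF_HC : IsZF (HC M A) := by
  have hB := hM.base
  have hsub := HC_subset hM hA
  refine ⟨HC_trans, fun x hx y hy => HC_upair hM hx hy, fun x hx => HC_sUnion hM hx,
    ord_HC hM hA hM.infinity isOrdinal_omega, ?_, separation_HC hM hA, ?_⟩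
  · intro x hx
    obtain ⟨p, hp, h1⟩ := hM.power x (hsub hx)
    obtain ⟨δ, hδ, hδo, h2⟩ := exists_levelH hM hA hp (Q := fun w z => w = z)
      (Dfn.eq (DfnF.proj 0) (DfnF.proj 1))
    obtain ⟨y, hy, h3⟩ := separation_HC hM hA
      (.neg (.ex (.and (.mem (Sum.inl 0) (Sum.inl 1)) (.neg (.mem (Sum.inl 0) (Sum.inr x))))))
      ⟨⟨TOver.inl _, TOver.inl _⟩, TOver.inl _, tOver_inr.2 hx⟩ _ (Lh_mem_HC hM hδ hδo)
    refine ⟨y, hy, fun z => ?_⟩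
    rw [h3]
    constructor
    · rintro ⟨h4, h5⟩
      have hzC := HC_trans _ (Lh_mem_HC hM (A := A) hδ hδo) _ h4
      refine ⟨hzC, fun u hu => ?_⟩
      by_contra h6
      exact h5 ⟨u, HC_trans _ hzC _ hu, hu, h6⟩
    · rintro ⟨h4, h5⟩
      obtain ⟨w, hw, rfl⟩ := h2 z ((h1 z).2 ⟨hsub h4, h5⟩) ⟨z, h4, rfl⟩
      refine ⟨hw, ?_⟩
      rintro ⟨u, -, hu, hu'⟩
      exact hu' (h5 hu)
  · intro φ hφ x hx h
    have hQ : Dfn M M fun w : Fin 2 → ZFSet.{0} => Sat (HC M A) id φ ![w 1, w 0] := by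
      refine (dfn_sat (dfn_HC hM hA) hsub φ (Fml.Over.mono (φ := φ) hsub hφ)
        ![fun w => w 1, fun w => w 0] ?_).congr fun w _ => ?_
      · intro i
        fin_cases i
        · exact DfnF.proj 1
        · exact DfnF.proj 0
      · have h1 : (fun i => (![fun w => w 1, fun w => w 0] :
            Fin 2 → (Fin 2 → ZFSet.{0}) → ZFSet.{0}) i w) = ![w 1, w 0] := by
          funext i
          fin_cases i <;> rfl
        rw [h1]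
    obtain ⟨δ, hδ, hδo, h2⟩ := exists_levelH hM hA (hsub hx)
      (Q := fun w z => Sat (HC M A) id φ ![z, w]) hQ
    obtain ⟨y, hy, h3⟩ := separation_HC hM hA
      (.ex (.and (.mem (Sum.inl 0) (Sum.inr x)) φ)) ⟨⟨TOver.inl _, tOver_inr.2 hx⟩, hφ⟩ _
      (Lh_mem_HC hM hδ hδo)
    have hv : ∀ z w : ZFSet.{0}, (Fin.cons z ![w] : Fin 2 → ZFSet.{0}) = ![z, w] := by
      intro z w
      funext i
      fin_cases i <;> rfl
    refine ⟨y, hy, fun w => ?_⟩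
    rw [h3]
    constructor
    · rintro ⟨h4, z, hz, hzx, h5⟩
      rw [hv] at h5
      exact ⟨HC_trans _ (Lh_mem_HC hM (A := A) hδ hδo) _ h4, z, hzx, h5⟩
    · rintro ⟨hw, z, hz, h4⟩
      obtain ⟨w', -, hw'⟩ := h z hz
      obtain ⟨w'', h5, h6⟩ := h2 z hz ⟨w, hw, h4⟩
      have h7 := HC_trans _ (Lh_mem_HC hM (A := A) hδ hδo) _ h5
      have h8 : w'' = w := (hw' w'' ⟨h7, h6⟩).trans (hw' w ⟨hw, h4⟩).symm
      refine ⟨h8 ▸ h5, z, HC_trans _ hx _ hz, hz, ?_⟩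
      rw [hv]
      exact h4

end ZF

end Pool.Agent.Y588
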