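import Pool.Agent.Y588.Gen

/-!
# Uniform definability and homogeneous notions of forcing
-/

set_option autoImplicit false
set_option linter.unreachableTactic false
set_option linter.unusedTactic false
set_option linter.unusedSectionVars false

namespace Pool.Agent.Y588

open Pool.Agent.W868 Pool.Agent.W868.GM
open ZFSet (pair)

/-! ### Relations that are uniformly definable over all transitive models of ZF -/

/-- The relation `R` on the elements of transitive models of ZF is definable by one formula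
without parameters. -/
def UR {n : ℕ} (R : Set ZFSet.{0} → (Fin n → ZFSet.{0}) → Prop) : Prop :=
  ∃ φ : Fml Empty n, ∀ M : Set ZFSet.{0}, IsZF M → ∀ v, (∀ i, v i ∈ M) →
    (Sat M Empty.elim φ v ↔ R M v)

section

variable {n : ℕ} {R T : Set ZFSet.{0} → (Fin n → ZFSet.{0}) → Prop}

theorem UR.congr (h : UR R) (h' : ∀ M, IsZF M → ∀ v, (∀ i, v i ∈ M) → (R M v ↔ T M v)) :
    UR T := by
  obtain ⟨φ, h1⟩ := h
  exact ⟨φ, fun M hM v hv => (h1 M hM v hv).trans (h' M hM v hv)⟩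

theorem UR.of_d0 {R : (Fin n → ZFSet.{0}) → Prop} (h : D0 R) : UR fun _ => R := by
  obtain ⟨φ, h1⟩ := h
  exact ⟨φ, fun M hM v hv => h1 M hM.trans v hv⟩

theorem UR.not (h : UR R) : UR fun M v => ¬ R M v := by
  obtain ⟨φ, h1⟩ := h
  exact ⟨.neg φ, fun M hM v hv => not_congr (h1 M hM v hv)⟩

theorem UR.and (h : UR R) (h' : UR T) : UR fun M v => R M v ∧ T M v := by
  obtain ⟨φ, h1⟩ := h
  obtain ⟨ψ, h2⟩ := h'
  exact ⟨.and φ ψ, fun M hM v hv => and_congr (h1 M hM v hv) (h2 M hM v hv)⟩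

theorem UR.or (h : UR R) (h' : UR T) : UR fun M v => R M v ∨ T M v :=
  (h.not.and h'.not).not.congr fun M _ v _ => by tauto

theorem UR.imp (h : UR R) (h' : UR T) : UR fun M v => R M v → T M v :=
  (h.and h'.not).not.congr fun M _ v _ => by tauto

theorem UR.iff (h : UR R) (h' : UR T) : UR fun M v => (R M v ↔ T M v) :=
  ((h.imp h').and (h'.imp h)).congr fun M _ v _ => by tauto

theorem UR.ex {Q : Set ZFSet.{0} → ZFSet.{0} → (Fin n → ZFSet.{0}) → Prop}
    (h : UR fun M (w : Fin (n + 1) → ZFSet.{0}) => Q M (w 0) (Fin.tail w)) :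
    UR fun M v => ∃ a ∈ M, Q M a v := by
  obtain ⟨φ, h1⟩ := h
  refine ⟨.ex φ, fun M hM v hv => ?_⟩
  simp only [Sat]
  constructor
  · rintro ⟨a, ha, h3⟩
    exact ⟨a, ha, (h1 M hM _ (cons_mem ha hv)).1 h3⟩
  · rintro ⟨a, ha, h3⟩
    exact ⟨a, ha, (h1 M hM _ (cons_mem ha hv)).2 h3⟩

theorem UR.all {Q : Set ZFSet.{0} → ZFSet.{0} → (Fin n → ZFSet.{0}) → Prop}
    (h : UR fun M (w : Fin (n + 1) → ZFSet.{0}) => Q M (w 0) (Fin.tail w)) :
    UR fun M v => ∀ a ∈ M, Q M a v :=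
  (UR.ex (Q := fun M a v => ¬ Q M a v) h.not).not.congr fun M _ v _ => by
    constructor
    · intro h2 a ha
      by_contra h3
      exact h2 ⟨a, ha, h3⟩
    · rintro h2 ⟨a, ha, h3⟩
      exact h3 (h2 a ha)

theorem UR.comp (h : UR R) {m : ℕ} (ρ : Fin n → Fin m) :
    UR fun M (v : Fin m → ZFSet.{0}) => R M fun i => v (ρ i) := by
  obtain ⟨φ, h1⟩ := h
  refine ⟨φ.subst fun i => Sum.inl (ρ i), fun M hM v hv => ?_⟩
  rw [sat_subst]
  exact h1 M hM _ fun i => hv _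

theorem UR.tail (h : UR R) : UR fun M (w : Fin (n + 1) → ZFSet.{0}) => R M (Fin.tail w) :=
  h.comp Fin.succ

theorem UR.bex {Q : Set ZFSet.{0} → ZFSet.{0} → (Fin n → ZFSet.{0}) → Prop} (i : Fin n)
    (h : UR fun M (w : Fin (n + 1) → ZFSet.{0}) => Q M (w 0) (Fin.tail w)) :
    UR fun M v => ∃ a ∈ v i, Q M a v := by
  have h1 : UR fun M (v : Fin n → ZFSet.{0}) => ∃ a ∈ M, a ∈ v i ∧ Q M a v :=
    UR.ex (Q := fun M a v => a ∈ v i ∧ Q M a v)
      ((UR.of_d0 (D0.mem (D0v.proj 0) (D0v.proj i.succ))).and h)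
  exact h1.congr fun M hM v hv => by
    constructor
    · rintro ⟨a, _, h2⟩
      exact ⟨a, h2⟩
    · rintro ⟨a, h2, h3⟩
      exact ⟨a, hM.trans _ (hv i) a h2, h2, h3⟩

theorem UR.ball {Q : Set ZFSet.{0} → ZFSet.{0} → (Fin n → ZFSet.{0}) → Prop} (i : Fin n)
    (h : UR fun M (w : Fin (n + 1) → ZFSet.{0}) => Q M (w 0) (Fin.tail w)) :
    UR fun M v => ∀ a ∈ v i, Q M a v :=
  (UR.bex (Q := fun M a v => ¬ Q M a v) i h.not).not.congr fun M _ v _ => by
    constructor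
    · intro h2 a ha
      by_contra h3
      exact h2 ⟨a, ha, h3⟩
    · rintro h2 ⟨a, ha, h3⟩
      exact h3 (h2 a ha)

theorem UR.dfn (h : UR R) {S M : Set ZFSet.{0}} (hM : IsZF M) : Dfn S M (R M) := by
  obtain ⟨φ, h1⟩ := h
  refine ⟨φ.map Empty.elim, ?_, fun v hv => ?_⟩
  · rw [over_map]
    exact Fml.Over.mono (S := Set.univ) (fun a => a.elim) (by
      have : ∀ {k : ℕ} (ψ : Fml Empty k), ψ.Over Set.univ := by
        intro k ψ
        induction ψ with
        | mem s t => exact ⟨fun a _ => trivial, fun a _ => trivial⟩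
        | eq s t => exact ⟨fun a _ => trivial, fun a _ => trivial⟩
        | neg ψ ih => exact ih
        | and ψ χ ih ih' => exact ⟨ih, ih'⟩
        | ex ψ ih => exact ih
      exact this φ)
  · rw [sat_map, show (id ∘ Empty.elim : Empty → ZFSet.{0}) = Empty.elim from
      funext fun a => a.elim]
    exact h1 M hM v hv

end

theorem over_empty {S : Set ZFSet.{0}} {n : ℕ} (φ : Fml Empty n) :
    (φ.map (Empty.elim : Empty → ZFSet.{0})).Over S := by
  rw [over_map]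
  induction φ with
  | mem s t => exact ⟨fun a _ => a.elim, fun a _ => a.elim⟩
  | eq s t => exact ⟨fun a _ => a.elim, fun a _ => a.elim⟩
  | neg ψ ih => exact ih
  | and ψ χ ih ih' => exact ⟨ih, ih'⟩
  | ex ψ ih => exact ih

theorem sat_empty (W : Set ZFSet.{0}) (i : ZFSet.{0} → ZFSet.{0}) {n : ℕ} (φ : Fml Empty n)
    (v : Fin n → ZFSet.{0}) :
    Sat W i (φ.map Empty.elim) v ↔ Sat W Empty.elim φ v := by
  rw [sat_map, show (i ∘ Empty.elim : Empty → ZFSet.{0}) = Empty.elim from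
      funext fun a => a.elim]

/-! ### Images of generic filters under involutions of the notion of forcing -/

/-- `e` is an order preserving involution of `P`. -/
structure IsInvo (P Le e : ZFSet.{0}) : Prop where
  maps : ∀ p ∈ P, ap e p ∈ P
  invo : ∀ p ∈ P, ap e (ap e p) = p
  mono : ∀ p ∈ P, ∀ q ∈ P, pair p q ∈ Le → pair (ap e p) (ap e q) ∈ Le

/-- `P` is homogeneous in `M`. -/
def IsHom (M : Set ZFSet.{0}) (P Le : ZFSet.{0}) : Prop :=
  ∀ p ∈ P, ∀ q ∈ P, ∃ e ∈ M, IsInvo P Le e ∧ ∃ r ∈ P, pair r (ap e p) ∈ Le ∧ pair r q ∈ Le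

theorem im_invo {P Le e G : ZFSet.{0}} (he : IsInvo P Le e) (hG : G ⊆ P) :
    im (ap e) (im (ap e) G) = G := by
  ext z
  rw [mem_im]
  constructor
  · rintro ⟨y, hy, rfl⟩
    obtain ⟨x, hx, rfl⟩ := mem_im.1 hy
    rwa [he.invo x (hG hx)]
  · intro hz
    exact ⟨_, mem_im.2 ⟨z, hz, rfl⟩, (he.invo z (hG hz)).symm⟩

theorem gen_image {M : Set ZFSet.{0}} (hM : IsZF M) {P Le : ZFSet.{0}}
    (hP : IsForcing M P Le) {G : ZFSet.{0}} (hG : IsGeneric M P Le G) {e : ZFSet.{0}}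
    (heM : e ∈ M) (he : IsInvo P Le e) : IsGeneric M P Le (im (ap e) G) := by
  have hsub : im (ap e) G ⊆ P := by
    intro z hz
    obtain ⟨y, hy, rfl⟩ := mem_im.1 hz
    exact he.maps y (hG.sub hy)
  have hPM := hP.mem
  refine ⟨hsub, ?_, ?_, ?_, ?_⟩
  · obtain ⟨p, hp⟩ := hG.nonempty
    exact ⟨_, mem_im.2 ⟨p, hp, rfl⟩⟩
  · intro q' hq' p hp h
    obtain ⟨q, hq, rfl⟩ := mem_im.1 hq'
    have h1 := he.mono _ (he.maps q (hG.sub hq)) _ hp h
    rw [he.invo q (hG.sub hq)] at h1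
    exact mem_im.2 ⟨ap e p, hG.up q hq _ (he.maps p hp) h1, (he.invo p hp).symm⟩
  · intro p' hp' q' hq'
    obtain ⟨p, hp, rfl⟩ := mem_im.1 hp'
    obtain ⟨q, hq, rfl⟩ := mem_im.1 hq'
    obtain ⟨r, hr, h1, h2⟩ := hG.dir p hp q hq
    exact ⟨_, mem_im.2 ⟨r, hr, rfl⟩, he.mono _ (hG.sub hr) _ (hG.sub hp) h1,
      he.mono _ (hG.sub hr) _ (hG.sub hq) h2⟩
  · intro D hD hDP hd
    have h1 : Dfn M M fun w : Fin 1 → ZFSet.{0} => ap e (w 0) ∈ D :=
      Dfn.mem (hM.ap' (DfnF.const heM) (DfnF.proj 0)) (DfnF.const hD)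
    obtain ⟨q, hq, hqG⟩ := hG.meet _ (hM.sep_mem (Q := fun w => ap e w ∈ D) h1 hPM)
      (fun z hz => (ZFSet.mem_sep.1 hz).1) (by
        intro p hp
        obtain ⟨q, hq, hqp⟩ := hd _ (he.maps p hp)
        have h2 := he.mono _ (hDP hq) _ (he.maps p hp) hqp
        rw [he.invo p hp] at h2
        refine ⟨ap e q, ZFSet.mem_sep.2 ⟨he.maps q (hDP hq), ?_⟩, h2⟩
        rwa [he.invo q (hDP hq)])
    exact ⟨_, (ZFSet.mem_sep.1 hq).2, mem_im.2 ⟨q, hqG, rfl⟩⟩

theorem im_ap_mem {M : Set ZFSet.{0}} (hM : IsZF M) {e G : ZFSet.{0}} (he : e ∈ M)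
    (hG : G ∈ M) : im (ap e) G ∈ M :=
  hM.im_mem hG (hM.ap' (DfnF.const he) (DfnF.proj 0))

section

variable {M : Set ZFSet.{0}} {A : ZFSet.{0}} (hL : IsLA A M) {P Le : ZFSet.{0}}
  (hP : IsForcing M P Le)

include hL hP

theorem ext_image {G : ZFSet.{0}} (hG : IsGeneric M P Le G) {e : ZFSet.{0}}
    (heM : e ∈ M) (he : IsInvo P Le e) : ext M (im (ap e) G) = ext M G := by
  have hG' := gen_image hL.zf hP hG heM he
  have hZ := zf_ext hL hP hG
  have hZ' := zf_ext hL hP hG'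
  apply Set.Subset.antisymm
  · exact ext_sub hZ (sub_ext hL.zf hP hG) (im_ap_mem hZ (sub_ext hL.zf hP hG heM)
      (gen_mem_ext hL.zf hP hG))
  · refine ext_sub hZ' (sub_ext hL.zf hP hG') ?_
    have h := im_ap_mem hZ' (sub_ext hL.zf hP hG' heM) (gen_mem_ext hL.zf hP hG')
    rwa [im_invo he hG.sub] at h

/-- The truth lemma for uniformly definable relations and elements of the ground model. -/
theorem truth_ur {t : ZFSet.{0}} (htM : t ∈ M) {n : ℕ} (φ : Fml Empty n) {v : Fin n → ZFSet.{0}}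
    (hv : ∀ i, v i ∈ M) {G : ZFSet.{0}} (hG : IsGeneric M P Le G) (ht : t ∈ G) :
    Sat (ext M G) Empty.elim φ v ↔
      ∃ p ∈ G, Frc P Le M (φ.map Empty.elim) (fun i => chk t (v i)) p := by
  rw [← truth hL.zf hP hG (φ.map Empty.elim) (over_empty φ) (fun i => chk t (v i))
    (fun i => chk_mem hL.zf htM (hv i)), sat_empty]
  have h : (ev G ∘ fun i => chk t (v i)) = v := by
    funext i
    exact ev_chk ht (v i)
  rw [h]

theorem hom_iff (hc : M.Countable) (hh : IsHom M P Le) {n : ℕ}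
    {R : Set ZFSet.{0} → (Fin n → ZFSet.{0}) → Prop} (hR : UR R) {v : Fin n → ZFSet.{0}}
    (hv : ∀ i, v i ∈ M) {G G' : ZFSet.{0}} (hG : IsGeneric M P Le G)
    (hG' : IsGeneric M P Le G') (h : R (ext M G) v) : R (ext M G') v := by
  obtain ⟨φ, hφ⟩ := hR
  obtain ⟨t, ht, htP⟩ := hP.top
  have htM := hL.zf.trans _ hP.mem _ ht
  have htG : ∀ {K : ZFSet.{0}}, IsGeneric M P Le K → t ∈ K := by
    intro K hK
    obtain ⟨p, hp⟩ := hK.nonempty
    exact hK.up p hp t ht (htP p (hK.sub hp))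
  have key : ∀ {K : ZFSet.{0}}, IsGeneric M P Le K → (R (ext M K) v ↔
      ∃ p ∈ K, Frc P Le M (φ.map Empty.elim) (fun i => chk t (v i)) p) := by
    intro K hK
    rw [← hφ _ (zf_ext hL hP hK) v fun i => sub_ext hL.zf hP hK (hv i)]
    exact truth_ur hL hP htM φ hv hK (htG hK)
  have key' : ∀ {K : ZFSet.{0}}, IsGeneric M P Le K → (¬ R (ext M K) v ↔
      ∃ p ∈ K, Frc P Le M ((Fml.neg φ).map Empty.elim) (fun i => chk t (v i)) p) := by
    intro K hK
    rw [← hφ _ (zf_ext hL hP hK) v fun i => sub_ext hL.zf hP hK (hv i)]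
    exact truth_ur hL hP htM (.neg φ) hv hK (htG hK)
  by_contra hcon
  obtain ⟨p, hp, h1⟩ := (key hG).1 h
  obtain ⟨q, hq, h2⟩ := (key' hG').1 hcon
  obtain ⟨e, he, hinv, r, hr, hrp, hrq⟩ := hh p (hG.sub hp) q (hG'.sub hq)
  obtain ⟨K, hK, hrK⟩ := exists_gen hc hP hr
  have h3 : ¬ R (ext M K) v := (key' hK).2 ⟨q, hK.up r hrK q (hG'.sub hq) hrq, h2⟩
  apply h3
  rw [← ext_image hL hP hK he hinv]
  refine (key (gen_image hL.zf hP hK he hinv)).2 ⟨p, mem_im.2 ⟨ap e p, ?_, ?_⟩, h1⟩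
  · exact hK.up r hrK _ (hinv.maps p (hG.sub hp)) hrp
  · exact (hinv.invo p (hG.sub hp)).symm

/-- In a homogeneous extension, the restrictions of the uniformly definable relations to the
ground model are definable in the ground model. -/
theorem hom_dfn (hc : M.Countable) (hh : IsHom M P Le) {n : ℕ}
    {R : Set ZFSet.{0} → (Fin n → ZFSet.{0}) → Prop} (hR : UR R) {G : ZFSet.{0}}
    (hG : IsGeneric M P Le G) : Dfn M M fun v => R (ext M G) v := by
  have hR' := hR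
  obtain ⟨φ, hφ⟩ := hR
  have hM := hL.zf
  have hB := hM.base
  have hPM := hP.mem
  have hLM := hP.le_mem
  obtain ⟨t, ht, htP⟩ := hP.top
  have htM := hL.zf.trans _ hP.mem _ ht
  have htG : ∀ {K : ZFSet.{0}}, IsGeneric M P Le K → t ∈ K := by
    intro K hK
    obtain ⟨p, hp⟩ := hK.nonempty
    exact hK.up p hp t ht (htP p (hK.sub hp))
  have h1 : Dfn M M fun v : Fin n → ZFSet.{0} => ∃ p ∈ P,
      Frc P Le M (φ.map Empty.elim) (fun i => chk t (v i)) p := by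
    refine hB.bex (Q := fun p v => Frc P Le M (φ.map Empty.elim) (fun i => chk t (v i)) p)
      (DfnF.const hPM) ?_
    exact dfn_frc hM hPM hLM (φ.map Empty.elim) (over_empty φ) (m := n + 1)
      (fun i w => chk t (Fin.tail w i))
      (fun i => DfnF.comp1 (f := chk t) (dfn_chk hM htM) (DfnF.proj i).tail)
      (H := fun w => w 0) (DfnF.proj 0)
  refine h1.congr fun v hv => ?_
  have key : ∀ {K : ZFSet.{0}}, IsGeneric M P Le K → (R (ext M K) v ↔
      ∃ p ∈ K, Frc P Le M (φ.map Empty.elim) (fun i => chk t (v i)) p) := by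
    intro K hK
    rw [← hφ _ (zf_ext hL hP hK) v fun i => sub_ext hL.zf hP hK (hv i)]
    exact truth_ur hL hP htM φ hv hK (htG hK)
  constructor
  · rintro ⟨p, hp, h2⟩
    obtain ⟨K, hK, hpK⟩ := exists_gen hc hP hp
    exact hom_iff hL hP hc hh hR' hv hK hG ((key hK).2 ⟨p, hpK, h2⟩)
  · intro h2
    obtain ⟨p, hp, h3⟩ := (key hG).1 h2
    exact ⟨p, hG.sub hp, h3⟩

end

end Pool.Agent.Y588
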