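import Pool.Agent.Y588.Sem
import Pool.Agent.W868.Gch

/-!
# The sets `H_α` of a model
-/

set_option autoImplicit false
set_option linter.unreachableTactic false
set_option linter.unusedTactic false
set_option linter.unusedSectionVars false

namespace Pool.Agent.Y588

open Pool.Agent.W868 Pool.Agent.W868.GM
open ZFSet (pair)

/-! ### The cumulative hierarchy of a model -/

noncomputable def Vh (M : Set ZFSet.{0}) : ZFSet.{0} → ZFSet.{0} :=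
  wfF (fun z => z) ZFSet.mem_wf fun _ g => ZFSet.sUnion (im (fun p => pwM M (sn p)) g)

theorem Vh_eq (M : Set ZFSet.{0}) (z : ZFSet.{0}) :
    Vh M z = ZFSet.sUnion (im (fun p => pwM M (sn p)) (gr (Vh M) z)) := wfF_eq _ _ _ _

theorem mem_Vh {M : Set ZFSet.{0}} {z x : ZFSet.{0}} :
    x ∈ Vh M z ↔ ∃ u ∈ z, x ∈ M ∧ x ⊆ Vh M u := by
  rw [Vh_eq, ZFSet.mem_sUnion]
  constructor
  · rintro ⟨w, hw, h⟩
    obtain ⟨p, hp, rfl⟩ := mem_im.1 hw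
    obtain ⟨u, hu, rfl⟩ := mem_gr.1 hp
    rw [sn_pair, mem_pwM] at h
    exact ⟨u, hu, h⟩
  · rintro ⟨u, hu, h⟩
    refine ⟨_, mem_im.2 ⟨_, mem_gr.2 ⟨u, hu, rfl⟩, rfl⟩, ?_⟩
    rw [sn_pair, mem_pwM]
    exact h

theorem dfn_Vh {M : Set ZFSet.{0}} (hM : IsZF M) :
    DfnF M M fun w : Fin 1 → ZFSet.{0} => Vh M (w 0) := by
  have hB := hM.base
  refine hM.memrec (G := fun _ g => ZFSet.sUnion (im (fun p => pwM M (sn p)) g)) ?_ (Vh_eq M)
  refine hB.sUnion' (hM.im' (h := fun p _ => pwM M (sn p)) (DfnF.proj 1) ?_)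
  exact pwM' hM (hM.sn' (DfnF.proj 0))

theorem Vh_mem {M : Set ZFSet.{0}} (hM : IsZF M) {z : ZFSet.{0}} (hz : z ∈ M) : Vh M z ∈ M :=
  (dfn_Vh hM).1 (fun _ => z) fun _ => hz

theorem mem_Vh_of_rk {M : Set ZFSet.{0}} (hM : IsZF M) {x : ZFSet.{0}} :
    ∀ z, x ∈ M → rk x ∈ z → x ∈ Vh M z := by
  induction x using ZFSet.inductionOn with
  | _ x ih =>
    intro z hx h
    exact mem_Vh.2 ⟨_, h, hx, fun y hy => ih y hy _ (hM.trans _ hx _ hy) (rk_mem_rk hy)⟩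

theorem rk_surj {T : ZFSet.{0}} (hT : ∀ y ∈ T, ∀ z ∈ y, z ∈ T) {ξ : ZFSet.{0}}
    (h : ξ ∈ rk T) : ∃ y ∈ T, rk y = ξ := by
  obtain ⟨u, hu, h1⟩ := mem_rk.1 h
  clear h
  induction u using ZFSet.inductionOn with
  | _ u ih =>
    rcases ZFSet.mem_insert_iff.1 h1 with rfl | h2
    · exact ⟨u, hu, rfl⟩
    · obtain ⟨w, hw, h3⟩ := mem_rk.1 h2
      exact ih w hw (hT u hu w hw) h3

/-! ### Bounded formulas for injections -/

theorem d0_isFunc : D0 fun v : Fin 3 → ZFSet.{0} => ZFSet.IsFunc (v 0) (v 1) (v 2) := by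
  have h : D0 fun w : Fin 3 → ZFSet.{0} =>
      (∀ p ∈ w 2, ∃ a ∈ w 0, ∃ b ∈ w 1, p = pair a b) ∧
      ∀ a ∈ w 0, ∃ b ∈ w 1, pair a b ∈ w 2 ∧ ∀ c ∈ w 1, pair a c ∈ w 2 → c = b := by
    (repeat' first
      | assumption
      | exact D0v.proj _
      | apply D0.not | apply D0.and | apply D0.expair | apply D0.or | apply D0.isPair | apply D0.pairMem
      | apply D0.bex | apply D0.ball | apply D0.imp | apply D0.iff | apply D0.subset
      | apply D0.eq | apply D0.mem | apply D0.isOrdinal)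
  refine h.congr fun v => ?_
  constructor
  · rintro ⟨h1, h2⟩
    have h3 : v 2 ⊆ ZFSet.prod (v 0) (v 1) := by
      intro p hp
      obtain ⟨a, ha, b, hb, rfl⟩ := h1 p hp
      exact ZFSet.mem_prod.2 ⟨a, ha, b, hb, rfl⟩
    refine ⟨h3, fun z hz => ?_⟩
    obtain ⟨b, hb, h4, h5⟩ := h2 z hz
    exact ⟨b, h4, fun c hc => h5 c (ZFSet.pair_mem_prod.1 (h3 hc)).2 hc⟩
  · rintro ⟨h1, h2⟩
    refine ⟨fun p hp => ZFSet.mem_prod.1 (h1 hp), fun a ha => ?_⟩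
    obtain ⟨b, hb, h3⟩ := h2 a ha
    exact ⟨b, (ZFSet.pair_mem_prod.1 (h1 hb)).2, hb, fun c _ hc => h3 c hc⟩

theorem d0_isInj : D0 fun v : Fin 3 → ZFSet.{0} => IsInj (v 0) (v 1) (v 2) := by
  have h : D0 fun w : Fin 3 → ZFSet.{0} => ZFSet.IsFunc (w 0) (w 1) (w 2) ∧
      ∀ a ∈ w 0, ∀ b ∈ w 0, ∀ c ∈ w 1, pair a c ∈ w 2 → pair b c ∈ w 2 → a = b := by
    refine d0_isFunc.and ?_
    (repeat' first
      | assumption
      | exact D0v.proj _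
      | apply D0.not | apply D0.and | apply D0.expair | apply D0.or | apply D0.isPair | apply D0.pairMem
      | apply D0.bex | apply D0.ball | apply D0.imp | apply D0.iff | apply D0.subset
      | apply D0.eq | apply D0.mem | apply D0.isOrdinal)
  refine h.congr fun v => ?_
  constructor
  · rintro ⟨h1, h2⟩
    refine ⟨h1, fun a b c ha hb => ?_⟩
    have h3 := ZFSet.pair_mem_prod.1 (h1.1 ha)
    have h4 := ZFSet.pair_mem_prod.1 (h1.1 hb)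
    exact h2 a h3.1 b h4.1 c h3.2 ha hb
  · rintro ⟨h1, h2⟩
    exact ⟨h1, fun a _ b _ c _ h3 h4 => h2 a b c h3 h4⟩

/-! ### Hereditary sizes -/

theorem ur_HM : UR fun M (v : Fin 2 → ZFSet.{0}) => v 0 ∈ HM M (v 1) := by
  have h : UR fun M (v : Fin 2 → ZFSet.{0}) => ∃ T ∈ M, ((∀ y ∈ T, ∀ z ∈ y, z ∈ T) ∧
      v 0 ⊆ T) ∧ ∃ f ∈ M, ∃ β ∈ v 1, IsInj T β f := by
    apply UR.ex
    apply UR.and
    · apply UR.of_d0
      (repeat' first
      | assumption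
      | exact D0v.proj _
      | apply D0.not | apply D0.and | apply D0.expair | apply D0.or | apply D0.isPair | apply D0.pairMem
      | apply D0.bex | apply D0.ball | apply D0.imp | apply D0.iff | apply D0.subset
      | apply D0.eq | apply D0.mem | apply D0.isOrdinal)
    · apply UR.ex
      apply UR.of_d0
      apply D0.bex (D0v.proj _)
      exact d0_isInj.comp ![2, 0, 1]
  refine h.congr fun M hM v hv => ?_
  constructor
  · rintro ⟨T, h1, ⟨h2, h3⟩, f, h4, β, h5, h6⟩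
    exact ⟨hv 0, T, h1, h2, h3, β, h5, f, h4, h6⟩
  · rintro ⟨-, T, h1, h2, h3, β, h5, f, h4, h6⟩
    exact ⟨T, h1, ⟨h2, h3⟩, f, h4, β, h5, h6⟩

section

variable {M : Set ZFSet.{0}} (hM : IsZF M) {α : ZFSet.{0}} (hα : α ∈ M) (hαo : α.IsOrdinal)

theorem HM_sub : HM M α ⊆ M := fun _ h => h.1

include hM

theorem HM_trans : ∀ x ∈ HM M α, ∀ y ∈ x, y ∈ HM M α := by
  rintro x ⟨hx, T, h1, h2, h3, h4⟩ y hy
  exact ⟨hM.trans _ hx _ hy, T, h1, h2, fun z hz => h2 y (h3 hy) z hz, h4⟩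

include hα

theorem dfn_HM : Dfn M M fun w : Fin 1 → ZFSet.{0} => w 0 ∈ HM M α :=
  (Dfn.specN (m := 1) (ur_HM.dfn hM (S := M)) ![Sum.inl 0, Sum.inr α] (by
    intro i
    fin_cases i
    · exact TOver.inl _
    · exact tOver_inr.2 hα)).congr fun w _ => Iff.rfl

include hαo

/-- The rank function of a small transitive set. -/
theorem inj_rk {T f β : ZFSet.{0}} (hT : T ∈ M) (hTt : ∀ y ∈ T, ∀ z ∈ y, z ∈ T)
    (hβ : β ∈ α) (hf : f ∈ M) (hi : IsInj T β f) : Inj M (rk T) α := by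
  have hB := hM.base
  have hd : DfnF M M fun w : Fin 1 → ZFSet.{0} =>
      lo M fun ζ => ∃ y ∈ T, rk y = w 0 ∧ pair y ζ ∈ f := by
    refine hM.lo' (Q := fun ζ w => ∃ y ∈ T, rk y = w 0 ∧ pair y ζ ∈ f) ?_
    apply hB.bex (DfnF.const hT)
    apply Dfn.and
    · exact Dfn.eq (DfnF.comp1 (f := rk) (dfn_rk hM) (DfnF.proj 0)) (DfnF.proj 2)
    · exact Dfn.mem (hB.pair' (DfnF.proj 0) (DfnF.proj 1)) (DfnF.const hf)
  have hs : ∀ ξ ∈ rk T, lo M (fun ζ => ∃ y ∈ T, rk y = ξ ∧ pair y ζ ∈ f) ∈ M ∧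
      (lo M (fun ζ => ∃ y ∈ T, rk y = ξ ∧ pair y ζ ∈ f)).IsOrdinal ∧
      ∃ y ∈ T, rk y = ξ ∧ pair y (lo M (fun ζ => ∃ y ∈ T, rk y = ξ ∧ pair y ζ ∈ f)) ∈ f := by
    intro ξ hξ
    obtain ⟨y, hy, h1⟩ := rk_surj hTt hξ
    obtain ⟨b, hb, h2⟩ := fun_exists hi.1 hy
    have hbM := hM.trans _ (hM.trans _ hα _ hβ) _ hb
    exact lo_spec ⟨b, hbM, (hαo.mem hβ).mem hb, y, hy, h1, h2⟩
  refine Inj.of_fun hM (rk_mem hM hT) hα
    (h := fun ξ => lo M fun ζ => ∃ y ∈ T, rk y = ξ ∧ pair y ζ ∈ f) hd ?_ ?_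
  · intro ξ hξ
    obtain ⟨-, -, y, -, -, h⟩ := hs ξ hξ
    exact hαo.mem_trans (ZFSet.pair_mem_prod.1 (hi.1.1 h)).2 hβ
  · intro ξ hξ ξ' hξ' h
    obtain ⟨-, -, y, -, h1, h2⟩ := hs ξ hξ
    obtain ⟨-, -, y', -, h3, h4⟩ := hs ξ' hξ'
    rw [← h] at h4
    rw [← h1, ← h3, hi.2 _ _ _ h2 h4]

theorem exists_HM : ∃ X ∈ M, ∀ z, z ∈ X ↔ z ∈ HM M α := by
  obtain ⟨S, hS, hSo, hSi⟩ := hartogs hM hα
  refine ⟨_, hM.sep_mem (Q := fun z => z ∈ HM M α) (dfn_HM hM hα) (Vh_mem hM hS), fun z => ?_⟩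
  rw [ZFSet.mem_sep]
  refine ⟨fun h => h.2, fun h => ⟨?_, h⟩⟩
  obtain ⟨hz, T, h1, h2, h3, β, h4, f, h5, h6⟩ := h
  have h7 := inj_rk hM hα hαo h1 h2 h4 h5 h6
  apply mem_Vh_of_rk hM _ hz
  have h8 : rk T ∈ S := by
    rcases (isOrdinal_rk T).mem_or_subset hSo with h | h
    · exact h
    · exact absurd (inj_mono hM hS (rk_mem hM h1) hα h h7) hSi
  refine (isOrdinal_rk z).mem_of_subset_of_mem hSo ?_ h8
  exact Ordinal.toZFSet_subset_toZFSet_iff.2 (ZFSet.rank_mono h3)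

end

end Pool.Agent.Y588
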