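import Pool.Agent.Y588.Hom

/-!
# Notions of forcing that consist of partial functions
-/

set_option autoImplicit false
set_option linter.unreachableTactic false
set_option linter.unusedTactic false
set_option linter.unusedSectionVars false

namespace Pool.Agent.Y588

open Pool.Agent.W868 Pool.Agent.W868.GM
open ZFSet (pair)

/-- The power set in `M`. -/
noncomputable def pwM (M : Set ZFSet.{0}) (x : ZFSet.{0}) : ZFSet.{0} :=
  ZFSet.sep (fun z => z ∈ M) (ZFSet.powerset x)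

theorem mem_pwM {M : Set ZFSet.{0}} {x z : ZFSet.{0}} : z ∈ pwM M x ↔ z ∈ M ∧ z ⊆ x := by
  rw [pwM, ZFSet.mem_sep, ZFSet.mem_powerset]
  exact and_comm

theorem pwM' {M : Set ZFSet.{0}} (hM : IsZF M) {n : ℕ}
    {F : (Fin n → ZFSet.{0}) → ZFSet.{0}} (hF : DfnF M M F) :
    DfnF M M fun v => pwM M (F v) := by
  have hB := hM.base
  refine DfnF.comp1 (f := pwM M) ?_ hF
  refine DfnF.of_unique (R := fun y w => ∀ z ∈ M, z ∈ y ↔ z ⊆ w 0) ?_ ?_
  · apply Dfn.all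
    exact (Dfn.mem (DfnF.proj 0) (DfnF.proj 1)).iff (hB.subset' (DfnF.proj 0) (DfnF.proj 2))
  · intro v hv
    obtain ⟨y, hy, h⟩ := hM.power _ (hv 0)
    have h1 : y = pwM M (v 0) := by
      ext z
      rw [h, mem_pwM]
    refine ⟨h1 ▸ hy, fun y' hy' => ?_⟩
    constructor
    · intro h2
      ext z
      rw [mem_pwM]
      constructor
      · exact fun hz => ⟨hM.trans _ hy' _ hz, (h2 z (hM.trans _ hy' _ hz)).1 hz⟩
      · exact fun hz => (h2 z hz.1).2 hz.2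
    · rintro rfl z hz
      rw [mem_pwM]
      exact ⟨fun h => h.2, fun h => ⟨hz, h⟩⟩

theorem pwM_mem {M : Set ZFSet.{0}} (hM : IsZF M) {x : ZFSet.{0}} (hx : x ∈ M) :
    pwM M x ∈ M := (pwM' hM (DfnF.const hx)).1 Fin.elim0 fun i => i.elim0

/-- The set of pairs `p` is a function. -/
def Fu (p : ZFSet.{0}) : Prop := ∀ a b c, pair a b ∈ p → pair a c ∈ p → b = c

theorem dfn_fu {M : Set ZFSet.{0}} (hM : IsZF M) {n : ℕ}
    {F : (Fin n → ZFSet.{0}) → ZFSet.{0}} (hF : DfnF M M F) : Dfn M M fun v => Fu (F v) := by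
  have hB := hM.base
  have h : Dfn M M fun w : Fin 1 → ZFSet.{0} => ∀ a ∈ M, ∀ b ∈ M, ∀ c ∈ M,
      pair a b ∈ w 0 → pair a c ∈ w 0 → b = c := by
    (repeat' first
      | assumption
      | exact DfnF.proj _
      | exact DfnF.const (by assumption)
      | exact Dfn.prop _
      | apply Dfn.not | apply Dfn.and | apply Dfn.or | apply Dfn.imp | apply Dfn.iff
      | apply hB.bex | apply hB.ball | apply Dfn.ex | apply Dfn.all
      | apply Dfn.eq | apply Dfn.mem | apply hB.pair')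
  refine Dfn.comp1 (Q := Fu) (h.congr fun v hv => ?_) hF
  constructor
  · intro h1 a b c hb hc
    have h2 := hM.of_pair_mem (hM.trans _ (hv 0) _ hb)
    have h3 := hM.of_pair_mem (hM.trans _ (hv 0) _ hc)
    exact h1 a h2.1 b h2.2 c h3.2 hb hc
  · exact fun h1 a _ b _ c _ => h1 a b c

/-- The poset of the partial functions `p ⊆ B` in `M` with domain in the ideal `I`. -/
noncomputable def Pf (M : Set ZFSet.{0}) (B : ZFSet.{0}) (I : ZFSet.{0} → Prop) : ZFSet.{0} :=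
  ZFSet.sep (fun p => Fu p ∧ I (dm p)) (pwM M B)

theorem mem_Pf {M : Set ZFSet.{0}} {B p : ZFSet.{0}} {I : ZFSet.{0} → Prop} :
    p ∈ Pf M B I ↔ p ∈ M ∧ p ⊆ B ∧ Fu p ∧ I (dm p) := by
  rw [Pf, ZFSet.mem_sep, mem_pwM, and_assoc]

/-- The reverse inclusion on `P`. -/
noncomputable def Lf (P : ZFSet.{0}) : ZFSet.{0} :=
  ZFSet.sep (fun u => sn u ⊆ fs u) (ZFSet.prod P P)

theorem mem_Lf {P p q : ZFSet.{0}} : pair p q ∈ Lf P ↔ p ∈ P ∧ q ∈ P ∧ q ⊆ p := by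
  rw [Lf, ZFSet.mem_sep, ZFSet.pair_mem_prod, fs_pair, sn_pair, and_assoc]

theorem dm_im {g : ZFSet.{0} → ZFSet.{0}} {r : ZFSet.{0}} (h : ∀ u ∈ r, fs (g u) = fs u) :
    dm (im g r) = dm r := by
  ext x
  rw [dm, dm, mem_im, mem_im]
  constructor
  · rintro ⟨u, hu, rfl⟩
    obtain ⟨v, hv, rfl⟩ := mem_im.1 hu
    exact ⟨v, hv, h v hv⟩
  · rintro ⟨u, hu, rfl⟩
    exact ⟨_, mem_im.2 ⟨u, hu, rfl⟩, (h u hu).symm⟩

theorem dm_union {p q : ZFSet.{0}} : dm (p ∪ q) = dm p ∪ dm q := by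
  ext x
  rw [dm, dm, dm, ZFSet.mem_union, mem_im, mem_im, mem_im]
  constructor
  · rintro ⟨u, hu, rfl⟩
    rcases ZFSet.mem_union.1 hu with h | h
    · exact Or.inl ⟨u, h, rfl⟩
    · exact Or.inr ⟨u, h, rfl⟩
  · rintro (⟨u, hu, rfl⟩ | ⟨u, hu, rfl⟩)
    · exact ⟨u, ZFSet.mem_union.2 (Or.inl hu), rfl⟩
    · exact ⟨u, ZFSet.mem_union.2 (Or.inr hu), rfl⟩

theorem dm_empty : dm ∅ = ∅ := by
  rw [ZFSet.eq_empty]
  intro x hx
  obtain ⟨u, hu, -⟩ := mem_im.1 hx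
  exact ZFSet.notMem_empty _ hu

theorem mem_dm_iff {p D E x : ZFSet.{0}} (hp : p ⊆ ZFSet.prod D E) :
    x ∈ dm p ↔ ∃ y, pair x y ∈ p := by
  constructor
  · intro h
    obtain ⟨u, hu, rfl⟩ := mem_im.1 h
    obtain ⟨a, -, b, -, rfl⟩ := ZFSet.mem_prod.1 (hp hu)
    rw [fs_pair]
    exact ⟨b, hu⟩
  · rintro ⟨y, hy⟩
    exact mem_dm hy

theorem ap_fu {p D E x y : ZFSet.{0}} (hp : p ⊆ ZFSet.prod D E) (hf : Fu p)
    (h : pair x y ∈ p) : ap p x = y := by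
  have h1 : im sn (ZFSet.sep (fun q => fs q = x) p) = {y} := by
    ext z
    rw [mem_im, ZFSet.mem_singleton]
    constructor
    · rintro ⟨q, hq, rfl⟩
      rw [ZFSet.mem_sep] at hq
      obtain ⟨h2, h3⟩ := hq
      obtain ⟨u, -, w, -, rfl⟩ := ZFSet.mem_prod.1 (hp h2)
      rw [fs_pair] at h3
      rw [sn_pair]
      subst h3
      exact hf _ _ _ h2 h
    · rintro rfl
      refine ⟨pair x z, ZFSet.mem_sep.2 ⟨h, ?_⟩, ?_⟩
      · rw [fs_pair]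
      · rw [sn_pair]
  rw [ap, h1, ZFSet.sUnion_singleton]

/-- The pair `u` is in `p`, and `q` has a value at its first component. -/
def SwA (p q u : ZFSet.{0}) : Prop := u ∈ p ∧ fs u ∈ dm q

/-- The interchange of the values of `p` and `q`. -/
noncomputable def swp (p q u : ZFSet.{0}) : ZFSet.{0} :=
  open Classical in
  if SwA p q u then pair (fs u) (ap q (fs u))
  else if SwA q p u then pair (fs u) (ap p (fs u)) else u

section swp

variable {D E p q : ZFSet.{0}} (hp : p ⊆ ZFSet.prod D E) (hq : q ⊆ ZFSet.prod D E)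
  (hpf : Fu p) (hqf : Fu q)

theorem fs_swp (u : ZFSet.{0}) : fs (swp p q u) = fs u := by
  unfold swp
  split_ifs
  · rw [fs_pair]
  · rw [fs_pair]
  · rfl

include hp hq hpf hqf

theorem swp_pair (x y : ZFSet.{0}) :
    (pair x y ∈ p ∧ (∃ z, pair x z ∈ q ∧ swp p q (pair x y) = pair x z)) ∨
    (¬ (pair x y ∈ p ∧ x ∈ dm q) ∧ pair x y ∈ q ∧
      (∃ z, pair x z ∈ p ∧ swp p q (pair x y) = pair x z)) ∨
    (¬ (pair x y ∈ p ∧ x ∈ dm q) ∧ ¬ (pair x y ∈ q ∧ x ∈ dm p) ∧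
      swp p q (pair x y) = pair x y) := by
  unfold swp SwA
  rw [fs_pair]
  split_ifs with h1 h2
  · obtain ⟨z, hz⟩ := (mem_dm_iff hq).1 h1.2
    refine Or.inl ⟨h1.1, z, hz, ?_⟩
    rw [ap_fu hq hqf hz]
  · obtain ⟨z, hz⟩ := (mem_dm_iff hp).1 h2.2
    refine Or.inr (Or.inl ⟨h1, h2.1, z, hz, ?_⟩)
    rw [ap_fu hp hpf hz]
  · exact Or.inr (Or.inr ⟨h1, h2, rfl⟩)

theorem swp_mem {B : ZFSet.{0}} (hpB : p ⊆ B) (hqB : q ⊆ B) {x y : ZFSet.{0}}
    (h : pair x y ∈ B) : swp p q (pair x y) ∈ B := by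
  rcases swp_pair hp hq hpf hqf x y with ⟨-, z, h1, h2⟩ | ⟨-, -, z, h1, h2⟩ | ⟨-, -, h2⟩
  · rw [h2]
    exact hqB h1
  · rw [h2]
    exact hpB h1
  · rwa [h2]

theorem swp_swp (x y : ZFSet.{0}) : swp p q (swp p q (pair x y)) = pair x y := by
  rcases swp_pair hp hq hpf hqf x y with ⟨h0, z, h1, h2⟩ | ⟨h0, h0', z, h1, h2⟩ | ⟨h0, h1, h2⟩
  · rw [h2]
    rcases swp_pair hp hq hpf hqf x z with ⟨h3, z', h4, h5⟩ | ⟨h3, h3', z', h4, h5⟩ |
      ⟨h3, h4, h5⟩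
    · rw [h5, hqf _ _ _ h4 h1, hpf _ _ _ h3 h0]
    · rw [h5, hpf _ _ _ h4 h0]
    · exact absurd ⟨h1, mem_dm h0⟩ h4
  · rw [h2]
    rcases swp_pair hp hq hpf hqf x z with ⟨h3, z', h4, h5⟩ | ⟨h3, h3', z', h4, h5⟩ |
      ⟨h3, h4, h5⟩
    · rw [h5, hqf _ _ _ h4 h0']
    · exact absurd ⟨h1, mem_dm h0'⟩ h3
    · exact absurd ⟨h1, mem_dm h0'⟩ h3
  · rw [h2, h2]

end swp

section

variable {M : Set ZFSet.{0}} (hM : IsZF M) {D E B : ZFSet.{0}} (hB' : B ∈ M)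
  (hBs : B ⊆ ZFSet.prod D E) {I : ZFSet.{0} → Prop}
  (hI : Dfn M M fun w : Fin 1 → ZFSet.{0} => I (w 0)) (hI0 : I ∅)
  (hIu : ∀ a ∈ M, ∀ b ∈ M, I a → I b → I (a ∪ b))

include hM hB' hI

theorem Pf_mem : Pf M B I ∈ M := by
  refine hM.sep_mem (Q := fun p => Fu p ∧ I (dm p)) ?_ (pwM_mem hM hB')
  exact (dfn_fu hM (DfnF.proj 0)).and (Dfn.comp1 (Q := I) hI (dm' hM (DfnF.proj 0)))

theorem Lf_mem : Lf (Pf M B I) ∈ M := by
  have hB := hM.base
  have h := Pf_mem hM hB' hI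
  refine hM.sep_mem (Q := fun u => sn u ⊆ fs u) ?_ (hM.prod_mem h h)
  exact hB.subset' (hM.sn' (DfnF.proj 0)) (hM.fs' (DfnF.proj 0))

include hI0

theorem isForcing_Pf : IsForcing M (Pf M B I) (Lf (Pf M B I)) where
  mem := Pf_mem hM hB' hI
  le_mem := Lf_mem hM hB' hI
  refl := fun p hp => mem_Lf.2 ⟨hp, hp, fun _ h => h⟩
  trans := fun p hp q hq r hr h1 h2 => mem_Lf.2 ⟨hr, hp, fun _ h =>
    (mem_Lf.1 h1).2.2 ((mem_Lf.1 h2).2.2 h)⟩
  top := by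
    have h : (∅ : ZFSet.{0}) ∈ Pf M B I := mem_Pf.2 ⟨hM.empty_mem, ZFSet.empty_subset _,
      fun a b c h => absurd h (ZFSet.notMem_empty _), by rwa [dm_empty]⟩
    exact ⟨∅, h, fun p hp => mem_Lf.2 ⟨hp, h, ZFSet.empty_subset _⟩⟩

omit hB' hI hI0 in
/-- A map of the pairs that preserves the first components and its own inverse. -/
theorem invo_of {g : ZFSet.{0} → ZFSet.{0}} (hB' : B ∈ M)
    (hI : Dfn M M fun w : Fin 1 → ZFSet.{0} => I (w 0))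
    (hBs : B ⊆ ZFSet.prod D E)
    (hg : DfnF M M fun w : Fin 1 → ZFSet.{0} => g (w 0))
    (h1 : ∀ u ∈ B, g u ∈ B) (h2 : ∀ u ∈ B, g (g u) = u) (h3 : ∀ u ∈ B, fs (g u) = fs u) :
    gr (im g) (Pf M B I) ∈ M ∧ IsInvo (Pf M B I) (Lf (Pf M B I)) (gr (im g) (Pf M B I)) := by
  have hB := hM.base
  have hPM := Pf_mem hM hB' hI
  have hd : DfnF M M fun w : Fin 1 → ZFSet.{0} => im g (w 0) :=
    hM.im' (h := fun u _ => g u) (DfnF.proj 0) (DfnF.comp1 (f := g) hg (DfnF.proj 0))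
  have hmaps : ∀ p ∈ Pf M B I, im g p ∈ Pf M B I := by
    intro p hp
    rw [mem_Pf] at hp ⊢
    obtain ⟨h4, h5, h6, h7⟩ := hp
    refine ⟨hM.im_mem h4 hg, ?_, ?_, ?_⟩
    · intro z hz
      obtain ⟨u, hu, rfl⟩ := mem_im.1 hz
      exact h1 u (h5 hu)
    · intro a b c hb hc
      obtain ⟨u, hu, h8⟩ := mem_im.1 hb
      obtain ⟨v, hv, h9⟩ := mem_im.1 hc
      have h10 := h3 u (h5 hu)
      have h11 := h3 v (h5 hv)
      rw [← h8, fs_pair] at h10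
      rw [← h9, fs_pair] at h11
      obtain ⟨x, -, y, -, rfl⟩ := ZFSet.mem_prod.1 (hBs (h5 hu))
      obtain ⟨x', -, y', -, rfl⟩ := ZFSet.mem_prod.1 (hBs (h5 hv))
      rw [fs_pair] at h10 h11
      subst h10
      subst h11
      rw [h6 _ _ _ hu hv] at h8
      exact (ZFSet.pair_inj.1 (h8.trans h9.symm)).2
    · rwa [dm_im fun u hu => h3 u (h5 hu)]
  have hap : ∀ p ∈ Pf M B I, ap (gr (im g) (Pf M B I)) p = im g p := fun p hp => ap_gr hp
  refine ⟨?_, ?_, ?_, ?_⟩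
  · have h4 := hM.im_mem (h := fun p => pair p (im g p)) hPM
      (hB.pair' (DfnF.proj (0 : Fin 1)) hd)
    exact h4
  · intro p hp
    rw [hap p hp]
    exact hmaps p hp
  · intro p hp
    rw [hap p hp, hap _ (hmaps p hp)]
    have hpB := (mem_Pf.1 hp).2.1
    ext z
    rw [mem_im]
    constructor
    · rintro ⟨y, hy, rfl⟩
      obtain ⟨x, hx, rfl⟩ := mem_im.1 hy
      rwa [h2 x (hpB hx)]
    · intro hz
      exact ⟨g z, mem_im.2 ⟨z, hz, rfl⟩, (h2 z (hpB hz)).symm⟩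
  · intro p hp q hq h
    rw [hap p hp, hap q hq, mem_Lf]
    refine ⟨hmaps p hp, hmaps q hq, fun z hz => ?_⟩
    obtain ⟨u, hu, rfl⟩ := mem_im.1 hz
    exact mem_im.2 ⟨u, (mem_Lf.1 h).2.2 hu, rfl⟩

omit hI0 in
include hBs hIu in
/-- The poset is homogeneous. -/
theorem isHom_Pf : IsHom M (Pf M B I) (Lf (Pf M B I)) := by
  intro p hp q hq
  have hB := hM.base
  obtain ⟨hpM, hpB, hpf, hpI⟩ := mem_Pf.1 hp
  obtain ⟨hqM, hqB, hqf, hqI⟩ := mem_Pf.1 hq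
  have hps : p ⊆ ZFSet.prod D E := fun _ h => hBs (hpB h)
  have hqs : q ⊆ ZFSet.prod D E := fun _ h => hBs (hqB h)
  have hg : DfnF M M fun w : Fin 1 → ZFSet.{0} => swp p q (w 0) := by
    unfold swp
    refine DfnF.ite ?_ ?_ (DfnF.ite ?_ ?_ (DfnF.proj 0))
    · exact (Dfn.mem (DfnF.proj 0) (DfnF.const hpM)).and
        (Dfn.mem (hM.fs' (DfnF.proj 0)) (dm' hM (DfnF.const hqM)))
    · exact hB.pair' (hM.fs' (DfnF.proj 0)) (hM.ap' (DfnF.const hqM) (hM.fs' (DfnF.proj 0)))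
    · exact (Dfn.mem (DfnF.proj 0) (DfnF.const hqM)).and
        (Dfn.mem (hM.fs' (DfnF.proj 0)) (dm' hM (DfnF.const hpM)))
    · exact hB.pair' (hM.fs' (DfnF.proj 0)) (hM.ap' (DfnF.const hpM) (hM.fs' (DfnF.proj 0)))
  obtain ⟨h1, h2⟩ := invo_of hM hB' hI hBs hg (by
    intro u hu
    obtain ⟨x, -, y, -, rfl⟩ := ZFSet.mem_prod.1 (hBs hu)
    exact swp_mem hps hqs hpf hqf hpB hqB hu) (by
    intro u hu
    obtain ⟨x, -, y, -, rfl⟩ := ZFSet.mem_prod.1 (hBs hu)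
    exact swp_swp hps hqs hpf hqf x y) fun u _ => fs_swp u
  have hap : ap (gr (im (swp p q)) (Pf M B I)) p = im (swp p q) p := ap_gr hp
  have h3 := h2.maps p hp
  rw [hap] at h3
  obtain ⟨h4, h5, h6, h7⟩ := mem_Pf.1 h3
  refine ⟨_, h1, h2, im (swp p q) p ∪ q, ?_⟩
  have h8 : im (swp p q) p ∪ q ∈ Pf M B I := by
    refine mem_Pf.2 ⟨hM.union_mem h4 hqM, ?_, ?_, ?_⟩
    · intro z hz
      rcases ZFSet.mem_union.1 hz with h | h
      · exact h5 h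
      · exact hqB h
    · have key : ∀ a b c, pair a b ∈ im (swp p q) p → pair a c ∈ q → b = c := by
        intro a b c hb hc
        obtain ⟨u, hu, h8⟩ := mem_im.1 hb
        obtain ⟨x, -, y, -, rfl⟩ := ZFSet.mem_prod.1 (hps hu)
        have h9 := fs_swp (p := p) (q := q) (pair x y)
        rw [← h8, fs_pair, fs_pair] at h9
        subst h9
        rcases swp_pair hps hqs hpf hqf a y with ⟨-, z, h10, h11⟩ | ⟨h10, -⟩ | ⟨h10, -⟩
        · rw [← h8] at h11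
          obtain ⟨-, rfl⟩ := ZFSet.pair_inj.1 h11
          exact hqf _ _ _ h10 hc
        · exact absurd ⟨hu, mem_dm hc⟩ h10
        · exact absurd ⟨hu, mem_dm hc⟩ h10
      intro a b c hb hc
      rcases ZFSet.mem_union.1 hb with hb | hb
      · rcases ZFSet.mem_union.1 hc with hc | hc
        · exact h6 a b c hb hc
        · exact key a b c hb hc
      · rcases ZFSet.mem_union.1 hc with hc | hc
        · exact (key a c b hc hb).symm
        · exact hqf a b c hb hc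
    · rw [dm_union]
      exact hIu _ (dm_mem hM h4) _ (dm_mem hM hqM) h7 hqI
  rw [hap]
  exact ⟨h8, mem_Lf.2 ⟨h8, h3, fun z hz => ZFSet.mem_union.2 (Or.inl hz)⟩,
    mem_Lf.2 ⟨h8, hq, fun z hz => ZFSet.mem_union.2 (Or.inr hz)⟩⟩

end

end Pool.Agent.Y588
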