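import Pool.Agent.Y588.Cod

/-!
# The coding forcing preserves strong limit cardinals
-/

set_option autoImplicit false
set_option linter.unreachableTactic false
set_option linter.unusedTactic false
set_option linter.unusedSectionVars false

namespace Pool.Agent.Y588

open Pool.Agent.W868 Pool.Agent.W868.GM
open ZFSet (pair)

/-- Power sets of sets of the same size. -/
theorem Inj.pow {M : Set ZFSet.{0}} (hM : IsZF M) {x y : ZFSet.{0}} (hx : x ∈ M) (hy : y ∈ M)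
    (h : Inj M x y) : Inj M (pwM M x) (pwM M y) := by
  obtain ⟨f, hf, hi⟩ := h
  have hB := hM.base
  have hd : DfnF M M fun w : Fin 1 → ZFSet.{0} => im (ap f) (w 0) :=
    hM.im' (h := fun u _ => ap f u) (DfnF.proj 0) (hM.ap' (DfnF.const hf) (DfnF.proj 0))
  have hap : ∀ a ∈ x, ap f a ∈ y ∧ pair a (ap f a) ∈ f := by
    intro a ha
    obtain ⟨b, hb, h⟩ := fun_exists hi.1 ha
    rw [ap_func hi.1 h]
    exact ⟨hb, h⟩
  refine Inj.of_fun hM (pwM_mem hM hx) (pwM_mem hM hy) (h := im (ap f)) hd ?_ ?_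
  · intro z hz
    rw [mem_pwM] at hz ⊢
    refine ⟨hd.1 (fun _ => z) fun _ => hz.1, fun u hu => ?_⟩
    obtain ⟨a, ha, rfl⟩ := mem_im.1 hu
    exact (hap a (hz.2 ha)).1
  · intro z hz z' hz' h
    rw [mem_pwM] at hz hz'
    have key : ∀ {z z' : ZFSet.{0}}, z ⊆ x → z' ⊆ x → im (ap f) z = im (ap f) z' → z ⊆ z' := by
      intro z z' hz hz' h a ha
      have h1 : ap f a ∈ im (ap f) z' := h ▸ mem_im.2 ⟨a, ha, rfl⟩
      obtain ⟨a', ha', h2⟩ := mem_im.1 h1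
      have h3 := (hap a (hz ha)).2
      rw [h2] at h3
      rwa [hi.2 _ _ _ h3 (hap a' (hz' ha')).2]
    exact ZFSet.ext fun u => ⟨fun hu => key hz.2 hz'.2 h hu, fun hu => key hz'.2 hz.2 h.symm hu⟩

/-- The small part of a condition. -/
noncomputable def Sm (n₀ : ℕ) (p : ZFSet.{0}) : ZFSet.{0} :=
  ZFSet.sep (fun u => fs (fs u) ∈ nat n₀) p

/-- The large part of a condition. -/
noncomputable def Bg (n₀ : ℕ) (p : ZFSet.{0}) : ZFSet.{0} :=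
  ZFSet.sep (fun u => ¬ fs (fs u) ∈ nat n₀) p

theorem mem_Sm {n₀ : ℕ} {p u : ZFSet.{0}} : u ∈ Sm n₀ p ↔ u ∈ p ∧ fs (fs u) ∈ nat n₀ :=
  ZFSet.mem_sep

theorem mem_Bg {n₀ : ℕ} {p u : ZFSet.{0}} : u ∈ Bg n₀ p ↔ u ∈ p ∧ ¬ fs (fs u) ∈ nat n₀ :=
  ZFSet.mem_sep

theorem Sm_union_Bg (n₀ : ℕ) (p : ZFSet.{0}) : Sm n₀ p ∪ Bg n₀ p = p := by
  ext u
  rw [ZFSet.mem_union, mem_Sm, mem_Bg]
  tauto

theorem Bg_mono {n₀ : ℕ} {p q : ZFSet.{0}} (h : p ⊆ q) : Bg n₀ p ⊆ Bg n₀ q := by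
  intro u hu
  rw [mem_Bg] at hu ⊢
  exact ⟨h hu.1, hu.2⟩

theorem Sm_mono {n₀ : ℕ} {p q : ZFSet.{0}} (h : p ⊆ q) : Sm n₀ p ⊆ Sm n₀ q := by
  intro u hu
  rw [mem_Sm] at hu ⊢
  exact ⟨h hu.1, hu.2⟩

theorem mem_nat_iff {n k : ℕ} : nat k ∈ nat n ↔ k < n := by
  rw [nat_eq, nat_eq, Ordinal.toZFSet_mem_toZFSet_iff]
  exact_mod_cast Iff.rfl

namespace Seq

variable {M : Set ZFSet.{0}} {kk b : ZFSet.{0}} (hS : Seq M kk b) (n₀ : ℕ)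

/-- The small conditions. -/
noncomputable def Qs (M : Set ZFSet.{0}) (kk b : ZFSet.{0}) (n₀ : ℕ) : ZFSet.{0} :=
  ZFSet.sep (fun p => ∀ u ∈ p, fs (fs u) ∈ nat n₀) (cQ M kk b)

/-- The large conditions. -/
noncomputable def Qb (M : Set ZFSet.{0}) (kk b : ZFSet.{0}) (n₀ : ℕ) : ZFSet.{0} :=
  ZFSet.sep (fun p => ∀ u ∈ p, ¬ fs (fs u) ∈ nat n₀) (cQ M kk b)

theorem mem_Qs {p : ZFSet.{0}} : p ∈ Qs M kk b n₀ ↔ p ∈ cQ M kk b ∧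
    ∀ u ∈ p, fs (fs u) ∈ nat n₀ := ZFSet.mem_sep

theorem mem_Qb {p : ZFSet.{0}} : p ∈ Qb M kk b n₀ ↔ p ∈ cQ M kk b ∧
    ∀ u ∈ p, ¬ fs (fs u) ∈ nat n₀ := ZFSet.mem_sep

include hS

theorem dfn_small {m : ℕ} {F : (Fin m → ZFSet.{0}) → ZFSet.{0}} (hF : DfnF M M F) :
    Dfn M M fun v => fs (fs (F v)) ∈ nat n₀ :=
  Dfn.mem (hS.zf.fs' (hS.zf.fs' hF)) (DfnF.const (hS.zf.nat_mem n₀))

theorem Sm' {m : ℕ} {F : (Fin m → ZFSet.{0}) → ZFSet.{0}} (hF : DfnF M M F) :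
    DfnF M M fun v => Sm n₀ (F v) :=
  hS.zf.sep' (Q := fun u _ => fs (fs u) ∈ nat n₀) hF (hS.dfn_small n₀ (DfnF.proj 0))

theorem Bg' {m : ℕ} {F : (Fin m → ZFSet.{0}) → ZFSet.{0}} (hF : DfnF M M F) :
    DfnF M M fun v => Bg n₀ (F v) :=
  hS.zf.sep' (Q := fun u _ => ¬ fs (fs u) ∈ nat n₀) hF (hS.dfn_small n₀ (DfnF.proj 0)).not

theorem Qs_mem : Qs M kk b n₀ ∈ M := by
  have hB := hS.zf.base
  refine hS.zf.sep_mem (Q := fun p => ∀ u ∈ p, fs (fs u) ∈ nat n₀) ?_ hS.cQ_mem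
  apply hB.ball (DfnF.proj 0)
  exact hS.dfn_small n₀ (DfnF.proj 0)

theorem Qb_mem : Qb M kk b n₀ ∈ M := by
  have hB := hS.zf.base
  refine hS.zf.sep_mem (Q := fun p => ∀ u ∈ p, ¬ fs (fs u) ∈ nat n₀) ?_ hS.cQ_mem
  apply hB.ball (DfnF.proj 0)
  exact (hS.dfn_small n₀ (DfnF.proj 0)).not

/-- Subsets of conditions in the model are conditions. -/
theorem sub_mem_cQ {p q : ZFSet.{0}} (hp : p ∈ cQ M kk b) (hq : q ∈ M) (h : q ⊆ p) :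
    q ∈ cQ M kk b := by
  obtain ⟨h1, h2, h3, h4⟩ := mem_Pf.1 hp
  refine mem_Pf.2 ⟨hq, fun u hu => h2 (h hu), fun a c d hc hd => h3 a c d (h hc) (h hd), ?_⟩
  refine hS.cI_sub (dm_mem hS.zf h1) (dm_mem hS.zf hq) ?_ h4
  intro x hx
  obtain ⟨u, hu, rfl⟩ := mem_im.1 hx
  exact mem_im.2 ⟨u, h hu, rfl⟩

theorem Sm_mem {p : ZFSet.{0}} (hp : p ∈ cQ M kk b) : Sm n₀ p ∈ Qs M kk b n₀ := by
  have h1 := hS.zf.trans _ hS.cQ_mem _ hp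
  refine (mem_Qs n₀).2 ⟨hS.sub_mem_cQ hp ?_ fun u hu => (mem_Sm.1 hu).1,
    fun u hu => (mem_Sm.1 hu).2⟩
  exact (hS.Sm' n₀ (DfnF.const h1)).1 Fin.elim0 fun i => i.elim0

theorem Bg_mem {p : ZFSet.{0}} (hp : p ∈ cQ M kk b) : Bg n₀ p ∈ Qb M kk b n₀ := by
  have h1 := hS.zf.trans _ hS.cQ_mem _ hp
  refine (mem_Qb n₀).2 ⟨hS.sub_mem_cQ hp ?_ fun u hu => (mem_Bg.1 hu).1,
    fun u hu => (mem_Bg.1 hu).2⟩
  exact (hS.Bg' n₀ (DfnF.const h1)).1 Fin.elim0 fun i => i.elim0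

variable {e : ZFSet.{0} → ZFSet.{0}} (hg : GC M e)

include hg

theorem union_mem_cQ {p q : ZFSet.{0}} (hp : p ∈ Qs M kk b n₀) (hq : q ∈ Qb M kk b n₀) :
    p ∪ q ∈ cQ M kk b := by
  have hM := hS.zf
  obtain ⟨hp, hp'⟩ := (mem_Qs n₀).1 hp
  obtain ⟨hq, hq'⟩ := (mem_Qb n₀).1 hq
  obtain ⟨h1, h2, h3, h4⟩ := mem_Pf.1 hp
  obtain ⟨h5, h6, h7, h8⟩ := mem_Pf.1 hq
  refine mem_Pf.2 ⟨hM.union_mem h1 h5, ?_, ?_, ?_⟩
  · intro u hu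
    rcases ZFSet.mem_union.1 hu with hu | hu
    · exact h2 hu
    · exact h6 hu
  · intro a c d hc hd
    rcases ZFSet.mem_union.1 hc with hc' | hc' <;> rcases ZFSet.mem_union.1 hd with hd' | hd'
    · exact h3 a c d hc' hd'
    · have h9 := hp' _ hc'
      have h10 := hq' _ hd'
      rw [fs_pair] at h9 h10
      exact absurd h9 h10
    · have h9 := hp' _ hd'
      have h10 := hq' _ hc'
      rw [fs_pair] at h9 h10
      exact absurd h9 h10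
    · exact h7 a c d hc' hd'
  · rw [dm_union]
    exact hS.cI_union hg _ (dm_mem hM h1) _ (dm_mem hM h5) h4 h8

/-! ### The number of small conditions -/

omit hg in
theorem inj_prod {κ x y : ZFSet.{0}} (hκ : κ ∈ M) (hκo : κ.IsOrdinal) (hω : ZFSet.omega ⊆ κ)
    (hx : x ∈ M) (hy : y ∈ M) (h1 : Inj M x κ) (h2 : Inj M y κ) :
    Inj M (ZFSet.prod x y) κ :=
  Inj.trans hS.zf (hS.zf.prod_mem hx hy) hκ (Inj.prod hS.zf hx hy hκ hκ h1 h2)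
    (sq_inj hS.zf hκ hκo hω)

omit hg in
/-- The number of the small conditions. -/
theorem Qs_small : ∃ γ ∈ ap kk (nat (n₀ + 1)), Inj M (Qs M kk b n₀) γ := by
  have hM := hS.zf
  obtain ⟨γ, hγ, h1⟩ := (hS.lim (n₀ + 1)).pw (hS.lt n₀)
  have hγM := hM.trans _ (hS.kmem (n₀ + 1)) _ hγ
  have hκ := hS.kmem n₀
  have hκo := hS.kord n₀
  have hω := hS.komega n₀
  set X : ZFSet.{0} := ZFSet.prod (ZFSet.prod ZFSet.omega (ap kk (nat n₀))) (ap kk (nat n₀))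
    with hX
  have hω' : Inj M ZFSet.omega (ap kk (nat n₀)) := Inj.of_subset hM hM.infinity hκ hω
  have h2 : ZFSet.prod ZFSet.omega (ap kk (nat n₀)) ∈ M := hM.prod_mem hM.infinity hκ
  have h3 : Inj M X (ap kk (nat n₀)) :=
    hS.inj_prod hκ hκo hω h2 hκ (hS.inj_prod hκ hκo hω hM.infinity hκ hω' (Inj.refl hM hκ))
      (Inj.refl hM hκ)
  have hXM : X ∈ M := hM.prod_mem h2 hκ
  have h4 : Qs M kk b n₀ ⊆ pwM M X := by
    intro p hp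
    obtain ⟨hp, hp'⟩ := (mem_Qs n₀).1 hp
    obtain ⟨h5, h6, -⟩ := mem_Pf.1 hp
    refine mem_pwM.2 ⟨h5, fun u hu => ?_⟩
    obtain ⟨n, hn, ν, hν, ξ, hξ, rfl⟩ := hS.mem_cB.1 (h6 hu)
    have h7 := hp' _ hu
    rw [fs_pair, fs_pair, mem_nat_iff] at h7
    have h8 : ap kk (nat (n + 1)) ⊆ ap kk (nat n₀) := hS.le' h7
    exact ZFSet.pair_mem_prod.2 ⟨ZFSet.pair_mem_prod.2 ⟨nat_mem_omega n,
      h8 ((hS.kord (n + 1)).mem_trans hν (hS.nxmem n))⟩, h8 hξ⟩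
  exact ⟨γ, hγ, Inj.trans hM (hS.Qs_mem n₀) hγM (Inj.trans hM (hS.Qs_mem n₀)
    (pwM_mem hM hκ) (Inj.of_subset hM (hS.Qs_mem n₀) (pwM_mem hM hXM) h4)
    (Inj.pow hM hXM hκ h3)) h1⟩

omit hg in
/-- The number of the tasks. -/
theorem tasks_small {β : ZFSet.{0}} (hβ : β ∈ ap kk (nat (n₀ + 1))) :
    ∃ γ ∈ ap kk (nat (n₀ + 1)), Inj M (ZFSet.prod β (Qs M kk b n₀)) γ := by
  have hM := hS.zf
  obtain ⟨γ, hγ, h1⟩ := hS.Qs_small n₀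
  have ho := hS.kord (n₀ + 1)
  have hKM := hS.kmem (n₀ + 1)
  have hmax : ∀ {x y : ZFSet.{0}}, x ∈ ap kk (nat (n₀ + 1)) → y ∈ ap kk (nat (n₀ + 1)) →
      ∃ z ∈ ap kk (nat (n₀ + 1)), x ⊆ z ∧ y ⊆ z := by
    intro x y hx hy
    rcases (ho.mem hx).subset_total (ho.mem hy) with h | h
    · exact ⟨y, hy, h, fun _ h => h⟩
    · exact ⟨x, hx, fun _ h => h, h⟩
  have hω : ap kk (nat n₀) ∈ ap kk (nat (n₀ + 1)) := hS.lt n₀
  obtain ⟨z, hz, h2, h3⟩ := hmax hβ hγ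
  obtain ⟨δ, hδ, h4, h5⟩ := hmax hz hω
  have hδM := hM.trans _ hKM _ hδ
  have hβM := hM.trans _ hKM _ hβ
  have hγM := hM.trans _ hKM _ hγ
  refine ⟨δ, hδ, hS.inj_prod hδM (ho.mem hδ) (fun x hx => h5 (hS.komega n₀ hx)) hβM
    (hS.Qs_mem n₀) (Inj.of_subset hM hβM hδM fun x hx => h4 (h2 hx)) ?_⟩
  exact Inj.trans hM (hS.Qs_mem n₀) hδM h1 (Inj.of_subset hM hγM hδM fun x hx => h4 (h3 hx))

/-! ### Increasing sequences of large conditions -/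

/-- Increasing unions of large conditions. -/
theorem chain {n₀ : ℕ} (hn : nat n₀ ∉ b) {lam : ZFSet.{0}} (hlM : lam ∈ M)
    (hlo : lam.IsOrdinal) (hl : lam ⊆ ap kk (nat (n₀ + 1))) {F : ZFSet.{0} → ZFSet.{0}}
    (hF : DfnF M M fun w : Fin 1 → ZFSet.{0} => F (w 0)) {q : ZFSet.{0}}
    (hq : q ∈ Qb M kk b n₀) (h1 : ∀ w ∈ lam, F w ∈ Qb M kk b n₀) (h2 : ∀ w ∈ lam, q ⊆ F w)
    (h3 : ∀ w' ∈ lam, ∀ w ∈ w', F w ⊆ F w') :
    q ∪ ZFSet.sUnion (im F lam) ∈ Qb M kk b n₀ := by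
  have hM := hS.zf
  have hB := hM.base
  have hqM := hM.trans _ (hS.Qb_mem n₀) _ hq
  have hUM := hM.union _ (hM.im_mem hlM hF)
  have hZM := hM.union_mem hqM hUM
  have hmem : ∀ u, u ∈ q ∪ ZFSet.sUnion (im F lam) ↔ u ∈ q ∨ ∃ w ∈ lam, u ∈ F w := by
    intro u
    rw [ZFSet.mem_union, ZFSet.mem_sUnion]
    refine or_congr Iff.rfl ?_
    constructor
    · rintro ⟨y, hy, hu⟩
      obtain ⟨w, hw, rfl⟩ := mem_im.1 hy
      exact ⟨w, hw, hu⟩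
    · rintro ⟨w, hw, hu⟩
      exact ⟨_, mem_im.2 ⟨w, hw, rfl⟩, hu⟩
  have hform : ∀ u ∈ q ∪ ZFSet.sUnion (im F lam), u ∈ cB M kk b ∧ ¬ fs (fs u) ∈ nat n₀ := by
    intro u hu
    rcases (hmem u).1 hu with hu | ⟨w, hw, hu⟩
    · have h4 := (mem_Qb n₀).1 hq
      exact ⟨(mem_Pf.1 h4.1).2.1 hu, h4.2 u hu⟩
    · have h4 := (mem_Qb n₀).1 (h1 w hw)
      exact ⟨(mem_Pf.1 h4.1).2.1 hu, h4.2 u hu⟩
  refine (mem_Qb n₀).2 ⟨mem_Pf.2 ⟨hZM, fun u hu => (hform u hu).1, ?_, ?_⟩,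
    fun u hu => (hform u hu).2⟩
  · -- a function
    intro a c d hc hd
    have key : ∀ {c d : ZFSet.{0}}, pair a c ∈ q → pair a d ∈ q ∪ ZFSet.sUnion (im F lam) →
        c = d := by
      intro c d hc hd
      rcases (hmem _).1 hd with hd | ⟨w, hw, hd⟩
      · exact (mem_Pf.1 ((mem_Qb n₀).1 hq).1).2.2.1 a c d hc hd
      · exact (mem_Pf.1 ((mem_Qb n₀).1 (h1 w hw)).1).2.2.1 a c d (h2 w hw hc) hd
    rcases (hmem _).1 hc with hc' | ⟨w, hw, hc'⟩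
    · exact key hc' hd
    · rcases (hmem _).1 hd with hd' | ⟨w', hw', hd'⟩
      · exact (key hd' hc).symm
      · rcases (hlo.mem hw).mem_trichotomous (hlo.mem hw') with h4 | h4 | h4
        · exact (mem_Pf.1 ((mem_Qb n₀).1 (h1 w' hw')).1).2.2.1 a c d (h3 w' hw' w h4 hc') hd'
        · subst h4
          exact (mem_Pf.1 ((mem_Qb n₀).1 (h1 w hw)).1).2.2.1 a c d hc' hd'
        · exact (mem_Pf.1 ((mem_Qb n₀).1 (h1 w hw)).1).2.2.1 a c d hc' (h3 w hw w' h4 hd')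
  · -- smallness
    rw [hS.cI_iff]
    intro n
    have hnM := hM.nat_mem n
    have hdq := dm_mem hM hqM
    have hdm := dm_mem hM hZM
    by_cases hnn : n ≤ n₀
    · refine Inj.of_subset hM (sl_mem hM hnM hdm) (hS.kmem n) fun x hx => ?_
      exfalso
      obtain ⟨h4, h5⟩ := mem_sl.1 hx
      obtain ⟨u, hu, rfl⟩ := mem_im.1 h4
      obtain ⟨h6, h7⟩ := hform u hu
      obtain ⟨k, hk, ν, hν, ξ, hξ, rfl⟩ := hS.mem_cB.1 h6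
      rw [fs_pair, fs_pair] at h5 h7
      obtain rfl := nat_injective h5
      rw [mem_nat_iff] at h7
      have h8 : k = n₀ := by omega
      subst h8
      exact hn hk
    · have hln : lam ⊆ ap kk (nat n) := fun x hx => hS.le' (show n₀ + 1 ≤ n by omega) (hl hx)
      have hFn : DfnF M M fun w : Fin 1 → ZFSet.{0} => sl (nat n) (dm (F (w 0))) :=
        sl' hM (DfnF.const hnM) (dm' hM (DfnF.comp1 (f := F) hF (DfnF.proj 0)))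
      have h4 : Inj M (ZFSet.sUnion (im (fun w => sl (nat n) (dm (F w))) lam)) (ap kk (nat n)) := by
        refine Inj.iUnion hM hg (hS.kmem n) (hS.kord n) (hS.komega n) hlM
          (Inj.of_subset hM hlM (hS.kmem n) hln) (F := fun w => sl (nat n) (dm (F w))) hFn
          fun w hw => ?_
        exact hS.cI_iff.1 (mem_Pf.1 ((mem_Qb n₀).1 (h1 w hw)).1).2.2.2 n
      have h5 : Inj M (sl (nat n) (dm q)) (ap kk (nat n)) :=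
        hS.cI_iff.1 (mem_Pf.1 ((mem_Qb n₀).1 hq).1).2.2.2 n
      have h6 := hM.union _ (hM.im_mem (h := fun w => sl (nat n) (dm (F w))) hlM hFn)
      refine inj_mono hM (sl_mem hM hnM hdm) (hM.union_mem (sl_mem hM hnM hdq) h6) (hS.kmem n) ?_
        (Inj.union hM hg (hS.kmem n) (hS.kord n) (hS.komega n) (sl_mem hM hnM hdq) h6 h5 h4)
      intro x hx
      obtain ⟨h7, h8⟩ := mem_sl.1 hx
      obtain ⟨u, hu, rfl⟩ := mem_im.1 h7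
      rw [ZFSet.mem_union]
      rcases (hmem u).1 hu with hu | ⟨w, hw, hu⟩
      · exact Or.inl (mem_sl.2 ⟨mem_im.2 ⟨u, hu, rfl⟩, h8⟩)
      · exact Or.inr (ZFSet.mem_sUnion.2 ⟨_, mem_im.2 ⟨w, hw, rfl⟩,
          mem_sl.2 ⟨mem_im.2 ⟨u, hu, rfl⟩, h8⟩⟩)

/-! ### Fusion -/

/-- All the questions with numbers in `β` are decided by a small condition and one large
condition. -/
theorem fusion {n₀ : ℕ} (hn : nat n₀ ∉ b) {β : ZFSet.{0}} (hβ : β ∈ ap kk (nat (n₀ + 1)))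
    {D : ZFSet.{0} → ZFSet.{0} → Prop}
    (hD : Dfn M M fun w : Fin 2 → ZFSet.{0} => D (w 0) (w 1))
    (hDd : ∀ ξ ∈ β, ∀ s ∈ cQ M kk b, ∃ s' ∈ cQ M kk b, s ⊆ s' ∧ D ξ s')
    (hDm : ∀ ξ ∈ β, ∀ s ∈ cQ M kk b, ∀ s' ∈ cQ M kk b, s ⊆ s' → D ξ s → D ξ s')
    {q : ZFSet.{0}} (hq : q ∈ cQ M kk b) :
    ∃ q' ∈ cQ M kk b, q ⊆ q' ∧ ∀ ξ ∈ β, ∀ p ∈ Qs M kk b n₀, ∃ p' ∈ Qs M kk b n₀, p ⊆ p' ∧
      D ξ (p' ∪ Bg n₀ q') := by
  have hM := hS.zf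
  have hB := hM.base
  have hKo := hS.kord (n₀ + 1)
  have hKM := hS.kmem (n₀ + 1)
  have hβM := hM.trans _ hKM _ hβ
  have hQs := hS.Qs_mem n₀
  have hQb := hS.Qb_mem n₀
  obtain ⟨lam, hlam, j, hj, hji⟩ := hS.tasks_small n₀ hβ
  have hlM := hM.trans _ hKM _ hlam
  have hlo := hKo.mem hlam
  have hlK : lam ⊆ ap kk (nat (n₀ + 1)) := hKo.subset_of_mem hlam
  -- the choice of the extensions
  set Nx : ZFSet.{0} → ZFSet.{0} → ZFSet.{0} := fun w z => chs M e fun r =>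
    r ∈ Qb M kk b n₀ ∧ z ⊆ r ∧ ∀ ξ ∈ β, ∀ p ∈ Qs M kk b n₀, pair (pair ξ p) w ∈ j →
      ∃ p' ∈ Qs M kk b n₀, p ⊆ p' ∧ D ξ (p' ∪ r) with hNx
  have hNxd : DfnF M M fun w : Fin 2 → ZFSet.{0} => Nx (w 0) (w 1) := by
    refine hM.chs' hg (Q := fun r w => r ∈ Qb M kk b n₀ ∧ w 1 ⊆ r ∧ ∀ ξ ∈ β,
      ∀ p ∈ Qs M kk b n₀, pair (pair ξ p) (w 0) ∈ j →
        ∃ p' ∈ Qs M kk b n₀, p ⊆ p' ∧ D ξ (p' ∪ r)) ?_
    apply Dfn.and
    · exact Dfn.mem (DfnF.proj 0) (DfnF.const hQb)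
    apply Dfn.and
    · exact hB.subset' (DfnF.proj 2) (DfnF.proj 0)
    apply hB.ball (DfnF.const hβM)
    apply hB.ball (DfnF.const hQs)
    apply Dfn.imp
    · exact Dfn.mem (hB.pair' (hB.pair' (DfnF.proj 1) (DfnF.proj 0)) (DfnF.proj 3))
        (DfnF.const hj)
    apply hB.bex (DfnF.const hQs)
    apply Dfn.and
    · exact hB.subset' (DfnF.proj 1) (DfnF.proj 0)
    · exact Dfn.comp2 (Q := D) hD (DfnF.proj 2) (hB.union' (DfnF.proj 0) (DfnF.proj 3))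
  have hNxs : ∀ w, ∀ z ∈ Qb M kk b n₀, Nx w z ∈ Qb M kk b n₀ ∧ z ⊆ Nx w z ∧ ∀ ξ ∈ β,
      ∀ p ∈ Qs M kk b n₀, pair (pair ξ p) w ∈ j → ∃ p' ∈ Qs M kk b n₀, p ⊆ p' ∧
        D ξ (p' ∪ Nx w z) := by
    intro w z hz
    refine (chs_spec (C := M) (e := e) (P := fun r => r ∈ Qb M kk b n₀ ∧ z ⊆ r ∧ ∀ ξ ∈ β,
      ∀ p ∈ Qs M kk b n₀, pair (pair ξ p) w ∈ j → ∃ p' ∈ Qs M kk b n₀, p ⊆ p' ∧
        D ξ (p' ∪ r)) ?_).2
    by_cases h : ∃ ξ ∈ β, ∃ p ∈ Qs M kk b n₀, pair (pair ξ p) w ∈ j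
    · obtain ⟨ξ, hξ, p, hp, h1⟩ := h
      obtain ⟨s', hs', h2, h3⟩ := hDd ξ hξ _ (hS.union_mem_cQ n₀ hg hp hz)
      have h4 := hS.Bg_mem n₀ hs'
      refine ⟨Bg n₀ s', hM.trans _ hQb _ h4, h4, ?_, ?_⟩
      · intro u hu
        exact mem_Bg.2 ⟨h2 (ZFSet.mem_union.2 (Or.inr hu)), ((mem_Qb n₀).1 hz).2 u hu⟩
      · intro ξ' hξ' p' hp' h5
        have h6 := hji.2 _ _ _ h1 h5
        obtain ⟨rfl, rfl⟩ := ZFSet.pair_inj.1 h6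
        refine ⟨Sm n₀ s', hS.Sm_mem n₀ hs', ?_, ?_⟩
        · intro u hu
          exact mem_Sm.2 ⟨h2 (ZFSet.mem_union.2 (Or.inl hu)), ((mem_Qs n₀).1 hp).2 u hu⟩
        · rwa [Sm_union_Bg]
    · refine ⟨z, hM.trans _ hQb _ hz, hz, fun _ h => h, fun ξ hξ p hp h1 => ?_⟩
      exact absurd ⟨ξ, hξ, p, hp, h1⟩ h
  -- the recursion
  set q₀ : ZFSet.{0} := Bg n₀ q with hq₀
  have hq₀Q : q₀ ∈ Qb M kk b n₀ := hS.Bg_mem n₀ hq
  have hq₀M := hM.trans _ hQb _ hq₀Q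
  set Z : ZFSet.{0} → ZFSet.{0} := wfF (fun z => z) ZFSet.mem_wf fun _ g =>
    q₀ ∪ ZFSet.sUnion (im (fun p => Nx (fs p) (sn p)) g) with hZ
  have hZeq : ∀ u, Z u = q₀ ∪ ZFSet.sUnion (im (fun p => Nx (fs p) (sn p)) (gr Z u)) :=
    fun u => wfF_eq _ _ _ _
  have hZd : DfnF M M fun w : Fin 1 → ZFSet.{0} => Z (w 0) := by
    refine hM.memrec (G := fun _ g => q₀ ∪ ZFSet.sUnion (im (fun p => Nx (fs p) (sn p)) g)) ?_
      hZeq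
    refine hB.union' (DfnF.const hq₀M) (hB.sUnion' (hM.im' (h := fun p _ => Nx (fs p) (sn p))
      (DfnF.proj 1) ?_))
    exact DfnF.comp2 (f := Nx) hNxd (hM.fs' (DfnF.proj 0)) (hM.sn' (DfnF.proj 0))
  have hFd : DfnF M M fun w : Fin 1 → ZFSet.{0} => Nx (w 0) (Z (w 0)) :=
    DfnF.comp2 (f := Nx) hNxd (DfnF.proj 0) (DfnF.comp1 (f := Z) hZd (DfnF.proj 0))
  have hZim : ∀ u, Z u = q₀ ∪ ZFSet.sUnion (im (fun w => Nx w (Z w)) u) := by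
    intro u
    rw [hZeq]
    congr 2
    ext y
    rw [mem_im, mem_im]
    constructor
    · rintro ⟨p, hp, rfl⟩
      obtain ⟨w, hw, rfl⟩ := mem_gr.1 hp
      rw [fs_pair, sn_pair]
      exact ⟨w, hw, rfl⟩
    · rintro ⟨w, hw, rfl⟩
      refine ⟨_, mem_gr.2 ⟨w, hw, rfl⟩, ?_⟩
      rw [fs_pair, sn_pair]
  have hZstep : ∀ u, ∀ w ∈ u, Nx w (Z w) ⊆ Z u := by
    intro u w hw y hy
    rw [hZim, ZFSet.mem_union, ZFSet.mem_sUnion]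
    exact Or.inr ⟨_, mem_im.2 ⟨w, hw, rfl⟩, hy⟩
  have hZbase : ∀ u, q₀ ⊆ Z u := by
    intro u y hy
    rw [hZim, ZFSet.mem_union]
    exact Or.inl hy
  have hZQ : ∀ u : ZFSet.{0}, u.IsOrdinal → u ⊆ lam → u ∈ M → Z u ∈ Qb M kk b n₀ := by
    intro u
    induction u using ZFSet.inductionOn with
    | _ u ih =>
      intro huo hul huM
      have ih' : ∀ w ∈ u, Z w ∈ Qb M kk b n₀ := fun w hw =>
        ih w hw (huo.mem hw) (fun x hx => hul (huo.mem_trans hx hw)) (hM.trans _ huM _ hw)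
      rw [hZim]
      refine hS.chain hg hn huM huo (fun x hx => hlK (hul hx)) hFd hq₀Q ?_ ?_ ?_
      · exact fun w hw => (hNxs w _ (ih' w hw)).1
      · exact fun w hw y hy => (hNxs w _ (ih' w hw)).2.1 (hZbase w hy)
      · intro w' hw' w hw y hy
        exact (hNxs w' _ (ih' w' hw')).2.1 (hZstep w' w hw hy)
  have hZl : Z lam ∈ Qb M kk b n₀ := hZQ lam hlo (fun _ h => h) hlM
  have hSq := hS.Sm_mem n₀ hq
  have hfin := hS.union_mem_cQ n₀ hg hSq hZl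
  refine ⟨_, hfin, ?_, ?_⟩
  · intro u hu
    rw [← Sm_union_Bg n₀ q, ZFSet.mem_union] at hu
    rw [ZFSet.mem_union]
    rcases hu with hu | hu
    · exact Or.inl hu
    · exact Or.inr (hZbase lam hu)
  · have hBgeq : Bg n₀ (Sm n₀ q ∪ Z lam) = Z lam := by
      ext u
      rw [mem_Bg, ZFSet.mem_union]
      constructor
      · rintro ⟨hu | hu, h⟩
        · exact absurd (mem_Sm.1 hu).2 h
        · exact hu
      · intro hu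
        exact ⟨Or.inr hu, ((mem_Qb n₀).1 hZl).2 u hu⟩
    rw [hBgeq]
    intro ξ hξ p hp
    obtain ⟨w, hw, h1⟩ := fun_exists hji.1 (ZFSet.pair_mem_prod.2 ⟨hξ, hp⟩)
    have hZw : Z w ∈ Qb M kk b n₀ := hZQ w (hlo.mem hw) (hlo.subset_of_mem hw)
      (hM.trans _ hlM _ hw)
    obtain ⟨h2, h3, h4⟩ := hNxs w _ hZw
    obtain ⟨p', hp', h5, h6⟩ := h4 ξ hξ p hp h1
    refine ⟨p', hp', h5, hDm ξ hξ _ (hS.union_mem_cQ n₀ hg hp' h2) _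
      (hS.union_mem_cQ n₀ hg hp' hZl) ?_ h6⟩
    intro u hu
    rw [ZFSet.mem_union] at hu ⊢
    rcases hu with hu | hu
    · exact Or.inl hu
    · exact Or.inr (hZstep lam w hw hu)

end Seq

end Pool.Agent.Y588
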