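import Pool.Agent.Y588.Prs

/-!
# Preservation of the strong limit cardinals that are not coded
-/

set_option autoImplicit false
set_option linter.unreachableTactic false
set_option linter.unusedTactic false
set_option linter.unusedSectionVars false

namespace Pool.Agent.Y588

open Pool.Agent.W868 Pool.Agent.W868.GM
open ZFSet (pair)

namespace Seq

variable {M : Set ZFSet.{0}} {kk b : ZFSet.{0}} (hS : Seq M kk b)
  {e : ZFSet.{0} → ZFSet.{0}} (hg : GC M e)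
  {H : ZFSet.{0}} (hH : IsGeneric M (cQ M kk b) (Lf (cQ M kk b)) H)

include hS hg hH

/-- The subsets of `β` in the extension are determined by sets in the ground model. -/
theorem subsets {n₀ : ℕ} (hn : nat n₀ ∉ b) {β : ZFSet.{0}} (hβ : β ∈ ap kk (nat (n₀ + 1)))
    {x : ZFSet.{0}} (hx : x ∈ ext M H) (hxβ : x ⊆ β) :
    ∃ E ∈ pwM M (ZFSet.prod β (Qs M kk b n₀)),
      x = ZFSet.sep (fun ξ => ∃ p ∈ H, pair ξ p ∈ E) β := by
  have hM := hS.zf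
  have hB := hM.base
  have hP := hS.forcing
  have hPM := hP.mem
  have hLM := hP.le_mem
  have hKM := hS.kmem (n₀ + 1)
  have hβM := hM.trans _ hKM _ hβ
  have hQs := hS.Qs_mem n₀
  obtain ⟨t, ht, htP, htM, htop⟩ := top_mem hM hP hH
  obtain ⟨τ, hτ, rfl⟩ := hx
  have hchk : ∀ ξ ∈ M, chk t ξ ∈ M := fun ξ hξ => chk_mem hM htM hξ
  -- the decisions
  set D : ZFSet.{0} → ZFSet.{0} → Prop := fun ξ s =>
    Qmem (cQ M kk b) (Lf (cQ M kk b)) (chk t ξ) τ s ∨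
      ∀ r ∈ cQ M kk b, pair r s ∈ Lf (cQ M kk b) →
        ¬ Qmem (cQ M kk b) (Lf (cQ M kk b)) (chk t ξ) τ r with hD
  have hchk' : ∀ {m : ℕ} (i : Fin m), DfnF M M fun w : Fin m → ZFSet.{0} => chk t (w i) :=
    fun i => DfnF.comp1 (f := chk t) (dfn_chk hM htM) (DfnF.proj i)
  have hDd : Dfn M M fun w : Fin 2 → ZFSet.{0} => D (w 0) (w 1) := by
    apply Dfn.or
    · exact dfn_qmem hM hPM hLM (hchk' 0) (DfnF.const hτ) (DfnF.proj 1)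
    · apply hB.ball (DfnF.const hPM)
      apply Dfn.imp
      · exact Dfn.mem (hB.pair' (DfnF.proj 0) (DfnF.proj 2)) (DfnF.const hLM)
      · exact (dfn_qmem hM hPM hLM (hchk' 1) (DfnF.const hτ) (DfnF.proj 0)).not
  have hdense : ∀ ξ ∈ β, ∀ s ∈ cQ M kk b, ∃ s' ∈ cQ M kk b, s ⊆ s' ∧ D ξ s' := by
    intro ξ _ s hs
    by_cases h : ∃ r ∈ cQ M kk b, pair r s ∈ Lf (cQ M kk b) ∧
        Qmem (cQ M kk b) (Lf (cQ M kk b)) (chk t ξ) τ r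
    · obtain ⟨r, hr, h1, h2⟩ := h
      exact ⟨r, hr, (mem_Lf.1 h1).2.2, Or.inl h2⟩
    · exact ⟨s, hs, fun _ h => h, Or.inr fun r hr h1 h2 => h ⟨r, hr, h1, h2⟩⟩
  have hmono : ∀ ξ ∈ β, ∀ s ∈ cQ M kk b, ∀ s' ∈ cQ M kk b, s ⊆ s' → D ξ s → D ξ s' := by
    intro ξ _ s hs s' hs' hss h
    rcases h with h | h
    · exact Or.inl (h.mono hP hs hs' (mem_Lf.2 ⟨hs', hs, hss⟩))
    · exact Or.inr fun r hr h1 => h r hr (mem_Lf.2 ⟨hr, hs, fun z hz =>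
        (mem_Lf.1 h1).2.2 (hss hz)⟩)
  -- a good condition in the filter
  have hgd : Dfn M M fun w : Fin 1 → ZFSet.{0} => ∀ ξ ∈ β, ∀ p ∈ Qs M kk b n₀,
      ∃ p' ∈ Qs M kk b n₀, p ⊆ p' ∧ D ξ (p' ∪ Bg n₀ (w 0)) := by
    apply hB.ball (DfnF.const hβM)
    apply hB.ball (DfnF.const hQs)
    apply hB.bex (DfnF.const hQs)
    apply Dfn.and
    · exact hB.subset' (DfnF.proj 1) (DfnF.proj 0)
    · exact Dfn.comp2 (Q := D) hDd (DfnF.proj 2)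
        (hB.union' (DfnF.proj 0) (hS.Bg' n₀ (DfnF.proj 3)))
  obtain ⟨q, hq, hqg⟩ := gen_dense hM hP hH (Q := fun q => ∀ ξ ∈ β, ∀ p ∈ Qs M kk b n₀,
      ∃ p' ∈ Qs M kk b n₀, p ⊆ p' ∧ D ξ (p' ∪ Bg n₀ q)) hgd (by
    intro q hq
    obtain ⟨q', hq', h1, h2⟩ := hS.fusion hg hn hβ hDd hdense hmono hq
    exact ⟨q', hq', mem_Lf.2 ⟨hq', hq, h1⟩, h2⟩)
  have hqQ := hH.sub hq
  have hqM := hM.trans _ hPM _ hqQ
  have hBgM : Bg n₀ q ∈ M := (hS.Bg' n₀ (DfnF.const hqM)).1 Fin.elim0 fun i => i.elim0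
  have hBgQ := hS.Bg_mem n₀ hqQ
  -- the set E
  have hEd : Dfn M M fun w : Fin 1 → ZFSet.{0} =>
      Qmem (cQ M kk b) (Lf (cQ M kk b)) (chk t (fs (w 0))) τ (sn (w 0) ∪ Bg n₀ q) := by
    refine dfn_qmem hM hPM hLM (DfnF.comp1 (f := chk t) (dfn_chk hM htM)
      (hM.fs' (DfnF.proj 0))) (DfnF.const hτ) (hB.union' (hM.sn' (DfnF.proj 0))
        (DfnF.const hBgM))
  refine ⟨ZFSet.sep (fun u => Qmem (cQ M kk b) (Lf (cQ M kk b)) (chk t (fs u)) τ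
    (sn u ∪ Bg n₀ q)) (ZFSet.prod β (Qs M kk b n₀)), mem_pwM.2 ⟨hM.sep_mem hEd
      (hM.prod_mem hβM hQs), fun u hu => (ZFSet.mem_sep.1 hu).1⟩, ?_⟩
  have hEmem : ∀ ξ p, pair ξ p ∈ ZFSet.sep (fun u => Qmem (cQ M kk b) (Lf (cQ M kk b))
      (chk t (fs u)) τ (sn u ∪ Bg n₀ q)) (ZFSet.prod β (Qs M kk b n₀)) ↔
      (ξ ∈ β ∧ p ∈ Qs M kk b n₀) ∧
        Qmem (cQ M kk b) (Lf (cQ M kk b)) (chk t ξ) τ (p ∪ Bg n₀ q) := by
    intro ξ p
    rw [ZFSet.mem_sep, ZFSet.pair_mem_prod, fs_pair, sn_pair]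
  -- conditions in the filter
  have hup : ∀ p s, s ∈ H → p ∈ cQ M kk b → p ⊆ s → p ∈ H := fun p s hs hp h =>
    hH.up s hs p hp (mem_Lf.2 ⟨hH.sub hs, hp, h⟩)
  ext ξ
  rw [ZFSet.mem_sep]
  constructor
  · intro hξ
    have hξβ := hxβ hξ
    have hξM := hM.trans _ hβM _ hξβ
    refine ⟨hξβ, ?_⟩
    -- the density argument below q
    have hd : Dfn M M fun w : Fin 1 → ZFSet.{0} => ∃ p' ∈ Qs M kk b n₀, (p' ⊆ w 0 ∧
        Bg n₀ q ⊆ w 0) ∧ D ξ (p' ∪ Bg n₀ q) := by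
      apply hB.bex (DfnF.const hQs)
      apply Dfn.and
      · exact (hB.subset' (DfnF.proj 0) (DfnF.proj 1)).and
          (hB.subset' (DfnF.const hBgM) (DfnF.proj 1))
      · exact Dfn.comp2 (Q := D) hDd (DfnF.const hξM)
          (hB.union' (DfnF.proj 0) (DfnF.const hBgM))
    obtain ⟨s, hs, -, p', hp', ⟨h1, h2⟩, h3⟩ := gen_below hM hP hH
        (Q := fun s => ∃ p' ∈ Qs M kk b n₀, (p' ⊆ s ∧ Bg n₀ q ⊆ s) ∧ D ξ (p' ∪ Bg n₀ q))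
        hd hq (by
      intro s hs hsq
      have hqs := (mem_Lf.1 hsq).2.2
      obtain ⟨p', hp', h4, h5⟩ := hqg ξ hξβ _ (hS.Sm_mem n₀ hs)
      have h6 := hS.union_mem_cQ n₀ hg hp' (hS.Bg_mem n₀ hs)
      refine ⟨_, h6, mem_Lf.2 ⟨h6, hs, ?_⟩, p', hp', ⟨?_, ?_⟩, h5⟩
      · intro u hu
        rw [← Sm_union_Bg n₀ s, ZFSet.mem_union] at hu
        rw [ZFSet.mem_union]
        rcases hu with hu | hu
        · exact Or.inl (h4 hu)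
        · exact Or.inr hu
      · exact fun u hu => ZFSet.mem_union.2 (Or.inl hu)
      · exact fun u hu => ZFSet.mem_union.2 (Or.inr (Bg_mono hqs hu)))
    have hpQ := ((mem_Qs n₀).1 hp').1
    have hpB := hS.union_mem_cQ n₀ hg hp' hBgQ
    have hpH : p' ∈ H := hup _ s hs hpQ h1
    have hpBH : p' ∪ Bg n₀ q ∈ H := hup _ s hs hpB fun u hu => by
      rcases ZFSet.mem_union.1 hu with hu | hu
      · exact h1 hu
      · exact h2 hu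
    refine ⟨p', hpH, (hEmem ξ p').2 ⟨⟨hξβ, hp'⟩, ?_⟩⟩
    rcases h3 with h3 | h3
    · exact h3
    · exfalso
      have h4 : ev H (chk t ξ) ∈ ev H τ := by
        rw [ev_chk ht]
        exact hξ
      obtain ⟨r, hr, h5⟩ := (ev_mem_iff hM hP hH (hchk ξ hξM) hτ).1 h4
      obtain ⟨r', hr', h6, h7⟩ := hH.dir r hr _ hpBH
      exact h3 r' (hH.sub hr') h7 (h5.mono hP (hH.sub hr) (hH.sub hr') h6)
  · rintro ⟨hξβ, p, hp, h1⟩
    have hξM := hM.trans _ hβM _ hξβ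
    obtain ⟨⟨-, hpQ⟩, h2⟩ := (hEmem ξ p).1 h1
    obtain ⟨s, hs, h3, h4⟩ := hH.dir p hp q hq
    have h5 : p ∪ Bg n₀ q ∈ H := hup _ s hs (hS.union_mem_cQ n₀ hg hpQ hBgQ) fun u hu => by
      rcases ZFSet.mem_union.1 hu with hu | hu
      · exact (mem_Lf.1 h3).2.2 hu
      · exact (mem_Lf.1 h4).2.2 (mem_Bg.1 hu).1
    have h6 := (ev_mem_iff hM hP hH (hchk ξ hξM) hτ).2 ⟨_, h5, h2⟩
    rwa [ev_chk ht] at h6

omit hS hg hH in
theorem inj_up {M W : Set ZFSet.{0}} (h : M ⊆ W) {x y : ZFSet.{0}} (h1 : Inj M x y) :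
    Inj W x y := by
  obtain ⟨f, hf, hi⟩ := h1
  exact ⟨f, h hf, hi⟩

/-- The strong limit cardinals that are not coded are preserved. -/
theorem preserve {n₀ : ℕ} (hn : nat n₀ ∉ b) (hV : IsZF (ext M H))
    {e' : ZFSet.{0} → ZFSet.{0}} (hg' : GC (ext M H) e') :
    IsStrongLimit (ext M H) (ap kk (nat (n₀ + 1))) := by
  have hM := hS.zf
  have hP := hS.forcing
  have hHV := gen_mem_ext hM hP hH
  have hsub := sub_ext hM hP hH
  have hKM := hS.kmem (n₀ + 1)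
  have hKo := hS.kord (n₀ + 1)
  have hQs := hS.Qs_mem n₀
  have hBV := hV.base
  refine sl_of hV (hsub hKM) hKo (hS.komega (n₀ + 1)) fun β hβ => ?_
  have hβM := hM.trans _ hKM _ hβ
  have hβV := hsub hβM
  have hPrM := hM.prod_mem hβM hQs
  have hPwM := pwM_mem hM hPrM
  obtain ⟨γ, hγ, h1⟩ := hS.tasks_small n₀ hβ
  have hγM := hM.trans _ hKM _ hγ
  obtain ⟨δ, hδ, h2⟩ := (hS.lim (n₀ + 1)).pw hγ
  have hδM := hM.trans _ hKM _ hδ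
  refine ⟨δ, hδ, ?_⟩
  have h3 : Inj M (pwM M (ZFSet.prod β (Qs M kk b n₀))) δ :=
    Inj.trans hM hPwM hδM (Inj.pow hM hPrM hγM h1) h2
  refine Inj.trans hV (pwM_mem hV hβV) (hsub hδM) ?_ (inj_up hsub h3)
  -- the choice of the codes
  have hd : DfnF (ext M H) (ext M H) fun w : Fin 1 → ZFSet.{0} => chs (ext M H) e' fun E =>
      E ∈ pwM M (ZFSet.prod β (Qs M kk b n₀)) ∧
        w 0 = ZFSet.sep (fun ξ => ∃ p ∈ H, pair ξ p ∈ E) β := by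
    refine hV.chs' hg' (Q := fun E w => E ∈ pwM M (ZFSet.prod β (Qs M kk b n₀)) ∧
        w 0 = ZFSet.sep (fun ξ => ∃ p ∈ H, pair ξ p ∈ E) β) ?_
    apply Dfn.and
    · exact Dfn.mem (DfnF.proj 0) (DfnF.const (hsub hPwM))
    · refine Dfn.eq (DfnF.proj 1) (hV.sep' (Q := fun ξ w => ∃ p ∈ H, pair ξ p ∈ w 0)
        (DfnF.const hβV) ?_)
      apply hBV.bex (DfnF.const hHV)
      exact Dfn.mem (hBV.pair' (DfnF.proj 1) (DfnF.proj 0)) (DfnF.proj 2)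
  have hs : ∀ x ∈ pwM (ext M H) β, (chs (ext M H) e' fun E =>
      E ∈ pwM M (ZFSet.prod β (Qs M kk b n₀)) ∧
        x = ZFSet.sep (fun ξ => ∃ p ∈ H, pair ξ p ∈ E) β) ∈
          pwM M (ZFSet.prod β (Qs M kk b n₀)) ∧
      x = ZFSet.sep (fun ξ => ∃ p ∈ H, pair ξ p ∈ chs (ext M H) e' fun E =>
      E ∈ pwM M (ZFSet.prod β (Qs M kk b n₀)) ∧
        x = ZFSet.sep (fun ξ => ∃ p ∈ H, pair ξ p ∈ E) β) β := by
    intro x hx
    obtain ⟨hxV, hxβ⟩ := mem_pwM.1 hx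
    obtain ⟨E, hE, h4⟩ := hS.subsets hg hH hn hβ hxV hxβ
    exact (chs_spec (C := ext M H) (e := e') (P := fun E =>
      E ∈ pwM M (ZFSet.prod β (Qs M kk b n₀)) ∧
        x = ZFSet.sep (fun ξ => ∃ p ∈ H, pair ξ p ∈ E) β)
      ⟨E, hsub (mem_pwM.1 hE).1, hE, h4⟩).2
  refine Inj.of_fun hV (pwM_mem hV hβV) (hsub hPwM) (h := fun x => chs (ext M H) e' fun E =>
      E ∈ pwM M (ZFSet.prod β (Qs M kk b n₀)) ∧
        x = ZFSet.sep (fun ξ => ∃ p ∈ H, pair ξ p ∈ E) β) hd (fun x hx => (hs x hx).1) ?_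
  intro x hx x' hx' h
  have h4 := (hs x hx).2
  have h5 := (hs x' hx').2
  rw [h4, h5, h]

end Seq

end Pool.Agent.Y588
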