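import Pool.Agent.Y588.Asg

/-!
# Rules that generate the pairs of relations defined by the formulas of the Levy hierarchy
-/

set_option autoImplicit false
set_option linter.unreachableTactic false
set_option linter.unusedTactic false
set_option linter.unusedSectionVars false

namespace Pool.Agent.Y588

open Pool.Agent.W868 Pool.Agent.W868.GM
open ZFSet (pair)

/-! ### Operations on sets of assignments -/

noncomputable def oMem (X F i j : ZFSet.{0}) : ZFSet.{0} :=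
  ZFSet.sep (fun s => ∃ u ∈ X, ∃ w ∈ X, pair i u ∈ s ∧ pair j w ∈ s ∧ u ∈ w) F

noncomputable def oEq (X F i j : ZFSet.{0}) : ZFSet.{0} :=
  ZFSet.sep (fun s => ∃ u ∈ X, ∃ w ∈ X, pair i u ∈ s ∧ pair j w ∈ s ∧ u = w) F

noncomputable def oNg (F R : ZFSet.{0}) : ZFSet.{0} := ZFSet.sep (fun s => ¬ s ∈ R) F

noncomputable def oAn (F R R' : ZFSet.{0}) : ZFSet.{0} := ZFSet.sep (fun s => s ∈ R ∧ s ∈ R') F

noncomputable def oBx (o e X F i R : ZFSet.{0}) : ZFSet.{0} :=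
  ZFSet.sep (fun s => ∃ u ∈ X, pair i u ∈ s ∧ ∃ x ∈ X, x ∈ u ∧ ∃ t ∈ R, IsCns o e X t x s) F

noncomputable def oEx (o e X F R : ZFSet.{0}) : ZFSet.{0} :=
  ZFSet.sep (fun s => ∃ x ∈ X, ∃ t ∈ R, IsCns o e X t x s) F

/-! ### Definability by bounded formulas -/

section d0

variable {n : ℕ}

theorem D0.eqSep {F G : (Fin n → ZFSet.{0}) → ZFSet.{0}}
    {Q : ZFSet.{0} → (Fin n → ZFSet.{0}) → Prop} (hF : D0v F) (hG : D0v G)
    (hQ : D0 fun w : Fin (n + 1) → ZFSet.{0} => Q (w 0) (Fin.tail w)) :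
    D0 fun v => F v = ZFSet.sep (fun s => Q s v) (G v) := by
  have h : D0 fun v => (∀ s ∈ F v, s ∈ G v ∧ Q s v) ∧ ∀ s ∈ G v, Q s v → s ∈ F v := by
    apply D0.and
    · apply D0.ball hF
      exact (D0.mem (D0v.proj 0) hG.tail).and hQ
    · apply D0.ball hG
      exact hQ.imp (D0.mem (D0v.proj 0) hF.tail)
  refine h.congr fun v => ?_
  constructor
  · rintro ⟨h1, h2⟩
    ext s
    rw [ZFSet.mem_sep]
    exact ⟨fun hs => h1 s hs, fun hs => h2 s hs.1 hs.2⟩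
  · intro h1
    rw [h1]
    exact ⟨fun s hs => ZFSet.mem_sep.1 hs, fun s h2 h3 => ZFSet.mem_sep.2 ⟨h2, h3⟩⟩

theorem d0_isCns : D0 fun v : Fin 6 → ZFSet.{0} =>
    IsCns (v 0) (v 1) (v 2) (v 3) (v 4) (v 5) := by
  unfold IsCns
  (repeat' first
      | assumption
      | exact D0v.proj _
      | apply D0.not | apply D0.and | apply D0.expair | apply D0.or | apply D0.isPair | apply D0.pairMem
      | apply D0.bex | apply D0.ball | apply D0.imp | apply D0.iff | apply D0.subset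
      | apply D0.eq | apply D0.mem | apply D0.isOrdinal)

theorem d0_oMem : D0 fun v : Fin 5 → ZFSet.{0} => v 0 = oMem (v 1) (v 2) (v 3) (v 4) := by
  refine D0.eqSep (Q := fun s v => ∃ u ∈ v 1, ∃ w ∈ v 1, pair (v 3) u ∈ s ∧ pair (v 4) w ∈ s ∧
    u ∈ w) (D0v.proj 0) (D0v.proj 2) ?_
  (repeat' first
      | assumption
      | exact D0v.proj _
      | apply D0.not | apply D0.and | apply D0.expair | apply D0.or | apply D0.isPair | apply D0.pairMem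
      | apply D0.bex | apply D0.ball | apply D0.imp | apply D0.iff | apply D0.subset
      | apply D0.eq | apply D0.mem | apply D0.isOrdinal)

theorem d0_oEq : D0 fun v : Fin 5 → ZFSet.{0} => v 0 = oEq (v 1) (v 2) (v 3) (v 4) := by
  refine D0.eqSep (Q := fun s v => ∃ u ∈ v 1, ∃ w ∈ v 1, pair (v 3) u ∈ s ∧ pair (v 4) w ∈ s ∧
    u = w) (D0v.proj 0) (D0v.proj 2) ?_
  (repeat' first
      | assumption
      | exact D0v.proj _
      | apply D0.not | apply D0.and | apply D0.expair | apply D0.or | apply D0.isPair | apply D0.pairMem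
      | apply D0.bex | apply D0.ball | apply D0.imp | apply D0.iff | apply D0.subset
      | apply D0.eq | apply D0.mem | apply D0.isOrdinal)

theorem d0_oNg : D0 fun v : Fin 3 → ZFSet.{0} => v 0 = oNg (v 1) (v 2) := by
  refine D0.eqSep (Q := fun s v => ¬ s ∈ v 2) (D0v.proj 0) (D0v.proj 1) ?_
  exact (D0.mem (D0v.proj 0) (D0v.proj 3)).not

theorem d0_oAn : D0 fun v : Fin 4 → ZFSet.{0} => v 0 = oAn (v 1) (v 2) (v 3) := by
  refine D0.eqSep (Q := fun s v => s ∈ v 2 ∧ s ∈ v 3) (D0v.proj 0) (D0v.proj 1) ?_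
  exact (D0.mem (D0v.proj 0) (D0v.proj 3)).and (D0.mem (D0v.proj 0) (D0v.proj 4))

theorem d0_oBx : D0 fun v : Fin 7 → ZFSet.{0} =>
    v 0 = oBx (v 1) (v 2) (v 3) (v 4) (v 5) (v 6) := by
  refine D0.eqSep (Q := fun s v => ∃ u ∈ v 3, pair (v 5) u ∈ s ∧ ∃ x ∈ v 3, x ∈ u ∧
    ∃ t ∈ v 6, IsCns (v 1) (v 2) (v 3) t x s) (D0v.proj 0) (D0v.proj 4) ?_
  have h : D0 fun v : Fin 11 → ZFSet.{0} => IsCns (v 5) (v 6) (v 7) (v 0) (v 1) (v 3) :=
    d0_isCns.comp ![5, 6, 7, 0, 1, 3]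
  (repeat' first
      | exact h
      | exact D0v.proj _
      | apply D0.not | apply D0.and | apply D0.expair | apply D0.or | apply D0.isPair | apply D0.pairMem
      | apply D0.bex | apply D0.ball | apply D0.imp | apply D0.iff | apply D0.subset
      | apply D0.eq | apply D0.mem | apply D0.isOrdinal)

theorem d0_oEx : D0 fun v : Fin 6 → ZFSet.{0} =>
    v 0 = oEx (v 1) (v 2) (v 3) (v 4) (v 5) := by
  refine D0.eqSep (Q := fun s v => ∃ x ∈ v 3,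
    ∃ t ∈ v 5, IsCns (v 1) (v 2) (v 3) t x s) (D0v.proj 0) (D0v.proj 4) ?_
  have h : D0 fun v : Fin 9 → ZFSet.{0} => IsCns (v 4) (v 5) (v 6) (v 0) (v 1) (v 2) :=
    d0_isCns.comp ![4, 5, 6, 0, 1, 2]
  (repeat' first
      | exact h
      | exact D0v.proj _
      | apply D0.not | apply D0.and | apply D0.expair | apply D0.or | apply D0.isPair | apply D0.pairMem
      | apply D0.bex | apply D0.ball | apply D0.imp | apply D0.iff | apply D0.subset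
      | apply D0.eq | apply D0.mem | apply D0.isOrdinal)

end d0

/-! ### The rules -/

/-- The elements of the families are triples `(l, (R, R'))`. -/
def Rl1 (o e X Y F F' l R R' : ZFSet.{0}) : Prop :=
  l = e ∧ ∃ i ∈ o, ∃ j ∈ o, R = oMem X F i j ∧ R' = oMem Y F' i j

def Rl2 (o e X Y F F' l R R' : ZFSet.{0}) : Prop :=
  l = e ∧ ∃ i ∈ o, ∃ j ∈ o, R = oEq X F i j ∧ R' = oEq Y F' i j

def Rl3 (e F F' C l R R' : ZFSet.{0}) : Prop :=
  l = e ∧ ∃ q₁ ∈ C, ∃ l₁ r₁, q₁ = pair l₁ r₁ ∧ ∃ R₁ R₁', r₁ = pair R₁ R₁' ∧ l₁ = e ∧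
    R = oNg F R₁ ∧ R' = oNg F' R₁'

def Rl4 (e F F' C l R R' : ZFSet.{0}) : Prop :=
  l = e ∧ ∃ q₁ ∈ C, ∃ l₁ r₁, q₁ = pair l₁ r₁ ∧ ∃ R₁ R₁', r₁ = pair R₁ R₁' ∧ l₁ = e ∧
    ∃ q₂ ∈ C, ∃ l₂ r₂, q₂ = pair l₂ r₂ ∧ ∃ R₂ R₂', r₂ = pair R₂ R₂' ∧ l₂ = e ∧
    R = oAn F R₁ R₂ ∧ R' = oAn F' R₁' R₂'

def Rl5 (o e X Y F F' C l R R' : ZFSet.{0}) : Prop :=
  l = e ∧ ∃ i ∈ o, ∃ q₁ ∈ C, ∃ l₁ r₁, q₁ = pair l₁ r₁ ∧ ∃ R₁ R₁', r₁ = pair R₁ R₁' ∧ l₁ = e ∧
    R = oBx o e X F i R₁ ∧ R' = oBx o e Y F' i R₁'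

def Rl6 (F F' K C l R R' : ZFSet.{0}) : Prop :=
  ∃ q₁ ∈ C, ∃ l₁ r₁, q₁ = pair l₁ r₁ ∧ ∃ R₁ R₁', r₁ = pair R₁ R₁' ∧ l₁ ∈ K ∧
    (l₁ ∈ l ∧ (∀ z ∈ l, z ∈ l₁ ∨ z = l₁) ∧ ∀ z ∈ l₁, z ∈ l) ∧
    R = oNg F R₁ ∧ R' = oNg F' R₁'

def Rl7 (o e X Y F F' C l R R' : ZFSet.{0}) : Prop :=
  ¬ l = e ∧ ∃ q₁ ∈ C, ∃ l₁ r₁, q₁ = pair l₁ r₁ ∧ ∃ R₁ R₁', r₁ = pair R₁ R₁' ∧ l₁ = l ∧
    R = oEx o e X F R₁ ∧ R' = oEx o e Y F' R₁'

/-- The element `q` is obtained from elements of `C` by a rule. -/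
def Rule (o e X Y F F' K C q : ZFSet.{0}) : Prop :=
  ∃ l r, q = pair l r ∧ ∃ R R', r = pair R R' ∧
    (Rl1 o e X Y F F' l R R' ∨ Rl2 o e X Y F F' l R R' ∨ Rl3 e F F' C l R R' ∨
      Rl4 e F F' C l R R' ∨ Rl5 o e X Y F F' C l R R' ∨ Rl6 F F' K C l R R' ∨
      Rl7 o e X Y F F' C l R R')

section d0

theorem d0_Rl1 : D0 fun v : Fin 9 → ZFSet.{0} =>
    Rl1 (v 0) (v 1) (v 2) (v 3) (v 4) (v 5) (v 6) (v 7) (v 8) := by
  unfold Rl1
  have h1 : D0 fun v : Fin 11 → ZFSet.{0} => v 9 = oMem (v 4) (v 6) (v 1) (v 0) :=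
    d0_oMem.comp ![9, 4, 6, 1, 0]
  have h2 : D0 fun v : Fin 11 → ZFSet.{0} => v 10 = oMem (v 5) (v 7) (v 1) (v 0) :=
    d0_oMem.comp ![10, 5, 7, 1, 0]
  (repeat' first
      | exact h1
      | exact h2
      | exact D0v.proj _
      | apply D0.not | apply D0.and | apply D0.expair | apply D0.or | apply D0.isPair | apply D0.pairMem
      | apply D0.bex | apply D0.ball | apply D0.imp | apply D0.iff | apply D0.subset
      | apply D0.eq | apply D0.mem | apply D0.isOrdinal)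

theorem d0_Rl2 : D0 fun v : Fin 9 → ZFSet.{0} =>
    Rl2 (v 0) (v 1) (v 2) (v 3) (v 4) (v 5) (v 6) (v 7) (v 8) := by
  unfold Rl2
  have h1 : D0 fun v : Fin 11 → ZFSet.{0} => v 9 = oEq (v 4) (v 6) (v 1) (v 0) :=
    d0_oEq.comp ![9, 4, 6, 1, 0]
  have h2 : D0 fun v : Fin 11 → ZFSet.{0} => v 10 = oEq (v 5) (v 7) (v 1) (v 0) :=
    d0_oEq.comp ![10, 5, 7, 1, 0]
  (repeat' first
      | exact h1
      | exact h2
      | exact D0v.proj _
      | apply D0.not | apply D0.and | apply D0.expair | apply D0.or | apply D0.isPair | apply D0.pairMem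
      | apply D0.bex | apply D0.ball | apply D0.imp | apply D0.iff | apply D0.subset
      | apply D0.eq | apply D0.mem | apply D0.isOrdinal)

-- variables: e F F' C l R R'; after the quantifiers: R₁' R₁ r₁ l₁ q₁ e F F' C l R R'
theorem d0_Rl3 : D0 fun v : Fin 7 → ZFSet.{0} =>
    Rl3 (v 0) (v 1) (v 2) (v 3) (v 4) (v 5) (v 6) := by
  unfold Rl3
  have h1 : D0 fun v : Fin 12 → ZFSet.{0} => v 10 = oNg (v 6) (v 1) :=
    d0_oNg.comp ![10, 6, 1]
  have h2 : D0 fun v : Fin 12 → ZFSet.{0} => v 11 = oNg (v 7) (v 0) :=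
    d0_oNg.comp ![11, 7, 0]
  (repeat' first
      | exact h1
      | exact h2
      | exact D0v.proj _
      | apply D0.not | apply D0.and | apply D0.expair | apply D0.or | apply D0.isPair | apply D0.pairMem
      | apply D0.bex | apply D0.ball | apply D0.imp | apply D0.iff | apply D0.subset
      | apply D0.eq | apply D0.mem | apply D0.isOrdinal)

theorem d0_Rl4 : D0 fun v : Fin 7 → ZFSet.{0} =>
    Rl4 (v 0) (v 1) (v 2) (v 3) (v 4) (v 5) (v 6) := by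
  unfold Rl4
  have h1 : D0 fun v : Fin 17 → ZFSet.{0} => v 15 = oAn (v 11) (v 6) (v 1) :=
    d0_oAn.comp ![15, 11, 6, 1]
  have h2 : D0 fun v : Fin 17 → ZFSet.{0} => v 16 = oAn (v 12) (v 5) (v 0) :=
    d0_oAn.comp ![16, 12, 5, 0]
  (repeat' first
      | exact h1
      | exact h2
      | exact D0v.proj _
      | apply D0.not | apply D0.and | apply D0.expair | apply D0.or | apply D0.isPair | apply D0.pairMem
      | apply D0.bex | apply D0.ball | apply D0.imp | apply D0.iff | apply D0.subset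
      | apply D0.eq | apply D0.mem | apply D0.isOrdinal)

-- o e X Y F F' C l R R'; after: R₁' R₁ r₁ l₁ q₁ i o e X Y F F' C l R R'
theorem d0_Rl5 : D0 fun v : Fin 10 → ZFSet.{0} =>
    Rl5 (v 0) (v 1) (v 2) (v 3) (v 4) (v 5) (v 6) (v 7) (v 8) (v 9) := by
  unfold Rl5
  have h1 : D0 fun v : Fin 16 → ZFSet.{0} =>
      v 14 = oBx (v 6) (v 7) (v 8) (v 10) (v 5) (v 1) :=
    d0_oBx.comp ![14, 6, 7, 8, 10, 5, 1]
  have h2 : D0 fun v : Fin 16 → ZFSet.{0} =>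
      v 15 = oBx (v 6) (v 7) (v 9) (v 11) (v 5) (v 0) :=
    d0_oBx.comp ![15, 6, 7, 9, 11, 5, 0]
  (repeat' first
      | exact h1
      | exact h2
      | exact D0v.proj _
      | apply D0.not | apply D0.and | apply D0.expair | apply D0.or | apply D0.isPair | apply D0.pairMem
      | apply D0.bex | apply D0.ball | apply D0.imp | apply D0.iff | apply D0.subset
      | apply D0.eq | apply D0.mem | apply D0.isOrdinal)

-- F F' K C l R R'; after: R₁' R₁ r₁ l₁ q₁ F F' K C l R R'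
theorem d0_Rl6 : D0 fun v : Fin 7 → ZFSet.{0} =>
    Rl6 (v 0) (v 1) (v 2) (v 3) (v 4) (v 5) (v 6) := by
  unfold Rl6
  have h1 : D0 fun v : Fin 12 → ZFSet.{0} => v 10 = oNg (v 5) (v 1) :=
    d0_oNg.comp ![10, 5, 1]
  have h2 : D0 fun v : Fin 12 → ZFSet.{0} => v 11 = oNg (v 6) (v 0) :=
    d0_oNg.comp ![11, 6, 0]
  (repeat' first
      | exact h1
      | exact h2
      | exact D0v.proj _
      | apply D0.not | apply D0.and | apply D0.expair | apply D0.or | apply D0.isPair | apply D0.pairMem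
      | apply D0.bex | apply D0.ball | apply D0.imp | apply D0.iff | apply D0.subset
      | apply D0.eq | apply D0.mem | apply D0.isOrdinal)

-- o e X Y F F' C l R R'; after: R₁' R₁ r₁ l₁ q₁ o e X Y F F' C l R R'
theorem d0_Rl7 : D0 fun v : Fin 10 → ZFSet.{0} =>
    Rl7 (v 0) (v 1) (v 2) (v 3) (v 4) (v 5) (v 6) (v 7) (v 8) (v 9) := by
  unfold Rl7
  have h1 : D0 fun v : Fin 15 → ZFSet.{0} =>
      v 13 = oEx (v 5) (v 6) (v 7) (v 9) (v 1) :=
    d0_oEx.comp ![13, 5, 6, 7, 9, 1]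
  have h2 : D0 fun v : Fin 15 → ZFSet.{0} =>
      v 14 = oEx (v 5) (v 6) (v 8) (v 10) (v 0) :=
    d0_oEx.comp ![14, 5, 6, 8, 10, 0]
  (repeat' first
      | exact h1
      | exact h2
      | exact D0v.proj _
      | apply D0.not | apply D0.and | apply D0.expair | apply D0.or | apply D0.isPair | apply D0.pairMem
      | apply D0.bex | apply D0.ball | apply D0.imp | apply D0.iff | apply D0.subset
      | apply D0.eq | apply D0.mem | apply D0.isOrdinal)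

-- o e X Y F F' K C q; after: R' R r l o e X Y F F' K C q
theorem d0_Rule : D0 fun v : Fin 9 → ZFSet.{0} =>
    Rule (v 0) (v 1) (v 2) (v 3) (v 4) (v 5) (v 6) (v 7) (v 8) := by
  unfold Rule
  apply D0.expair (D0v.proj _)
  apply D0.expair (D0v.proj _)
  have h1 : D0 fun v : Fin 13 → ZFSet.{0} =>
      Rl1 (v 4) (v 5) (v 6) (v 7) (v 8) (v 9) (v 3) (v 1) (v 0) :=
    d0_Rl1.comp ![4, 5, 6, 7, 8, 9, 3, 1, 0]
  have h2 : D0 fun v : Fin 13 → ZFSet.{0} =>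
      Rl2 (v 4) (v 5) (v 6) (v 7) (v 8) (v 9) (v 3) (v 1) (v 0) :=
    d0_Rl2.comp ![4, 5, 6, 7, 8, 9, 3, 1, 0]
  have h3 : D0 fun v : Fin 13 → ZFSet.{0} =>
      Rl3 (v 5) (v 8) (v 9) (v 11) (v 3) (v 1) (v 0) := d0_Rl3.comp ![5, 8, 9, 11, 3, 1, 0]
  have h4 : D0 fun v : Fin 13 → ZFSet.{0} =>
      Rl4 (v 5) (v 8) (v 9) (v 11) (v 3) (v 1) (v 0) := d0_Rl4.comp ![5, 8, 9, 11, 3, 1, 0]
  have h5 : D0 fun v : Fin 13 → ZFSet.{0} =>
      Rl5 (v 4) (v 5) (v 6) (v 7) (v 8) (v 9) (v 11) (v 3) (v 1) (v 0) :=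
    d0_Rl5.comp ![4, 5, 6, 7, 8, 9, 11, 3, 1, 0]
  have h6 : D0 fun v : Fin 13 → ZFSet.{0} =>
      Rl6 (v 8) (v 9) (v 10) (v 11) (v 3) (v 1) (v 0) := d0_Rl6.comp ![8, 9, 10, 11, 3, 1, 0]
  have h7 : D0 fun v : Fin 13 → ZFSet.{0} =>
      Rl7 (v 4) (v 5) (v 6) (v 7) (v 8) (v 9) (v 11) (v 3) (v 1) (v 0) :=
    d0_Rl7.comp ![4, 5, 6, 7, 8, 9, 11, 3, 1, 0]
  exact h1.or (h2.or (h3.or (h4.or (h5.or (h6.or h7)))))

end d0

end Pool.Agent.Y588
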