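import Pool.Agent.Y588.Rul

/-!
# The meaning of the rules
-/

set_option autoImplicit false
set_option linter.unreachableTactic false
set_option linter.unusedTactic false
set_option linter.unusedSectionVars false

namespace Pool.Agent.Y588

open Pool.Agent.W868 Pool.Agent.W868.GM
open ZFSet (pair)

/-- The set of the assignments that satisfy `φ` in `X`. -/
noncomputable def DD (M : Set ZFSet.{0}) (X : ZFSet.{0}) {n : ℕ} (φ : Fml Empty n) :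
    ZFSet.{0} :=
  ZFSet.sep (fun s => Sat {x | x ∈ X} Empty.elim φ (vl s n)) (fnX M X)

theorem mem_DD {M : Set ZFSet.{0}} {X : ZFSet.{0}} {n : ℕ} {φ : Fml Empty n} {s : ZFSet.{0}} :
    s ∈ DD M X φ ↔ s ∈ fnX M X ∧ Sat {x | x ∈ X} Empty.elim φ (vl s n) := ZFSet.mem_sep

theorem DD_mem {M : Set ZFSet.{0}} (hM : IsZF M) {X : ZFSet.{0}} (hX : X ∈ M) {n : ℕ}
    (φ : Fml Empty n) : DD M X φ ∈ M := by
  have h1 : Dfn M M fun w : Fin 1 → ZFSet.{0} => w 0 ∈ {x | x ∈ X} :=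
    Dfn.mem (DfnF.proj 0) (DfnF.const hX)
  have h2 := dfn_sat h1 (fun x hx => hM.trans _ hX _ hx) (φ.map Empty.elim) (over_empty φ)
    (m := 1) (fun i w => ap (w 0) (nat i)) fun i =>
      hM.ap' (DfnF.proj 0) (DfnF.const (hM.nat_mem i))
  refine hM.sep_mem (Q := fun s => Sat {x | x ∈ X} Empty.elim φ (vl s n)) ?_ (fnX_mem hM hX)
  exact h2.congr fun w _ => by
    rw [sat_empty]
    rfl

section ops

variable {M : Set ZFSet.{0}} (hM : IsZF M) {X : ZFSet.{0}} (hX : X ∈ M)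

include hM hX

theorem oMem_eq {n : ℕ} (i j : Fin n) :
    oMem X (fnX M X) (nat i) (nat j) = DD M X (.mem (Sum.inl i) (Sum.inl j)) := by
  ext s
  rw [oMem, ZFSet.mem_sep, mem_DD]
  refine and_congr_right fun hs => ?_
  have hf := (mem_fnX.1 hs).2
  simp only [Sat, Sum.elim_inl, vl]
  constructor
  · rintro ⟨u, -, w, -, h1, h2, h3⟩
    rw [func_pair_iff hf] at h1 h2
    rwa [h1, h2] at h3
  · intro h
    exact ⟨_, (func_pair hf i).2, _, (func_pair hf j).2, (func_pair hf i).1,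
      (func_pair hf j).1, h⟩

theorem oEq_eq {n : ℕ} (i j : Fin n) :
    oEq X (fnX M X) (nat i) (nat j) = DD M X (.eq (Sum.inl i) (Sum.inl j)) := by
  ext s
  rw [oEq, ZFSet.mem_sep, mem_DD]
  refine and_congr_right fun hs => ?_
  have hf := (mem_fnX.1 hs).2
  simp only [Sat, Sum.elim_inl, vl]
  constructor
  · rintro ⟨u, -, w, -, h1, h2, h3⟩
    rw [func_pair_iff hf] at h1 h2
    rwa [h1, h2] at h3
  · intro h
    exact ⟨_, (func_pair hf i).2, _, (func_pair hf j).2, (func_pair hf i).1,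
      (func_pair hf j).1, h⟩

theorem oNg_eq {n : ℕ} (φ : Fml Empty n) :
    oNg (fnX M X) (DD M X φ) = DD M X (.neg φ) := by
  ext s
  rw [oNg, ZFSet.mem_sep, mem_DD, mem_DD]
  refine and_congr_right fun hs => ?_
  simp only [Sat]
  exact ⟨fun h h' => h ⟨hs, h'⟩, fun h h' => h h'.2⟩

theorem oAn_eq {n : ℕ} (φ ψ : Fml Empty n) :
    oAn (fnX M X) (DD M X φ) (DD M X ψ) = DD M X (.and φ ψ) := by
  ext s
  rw [oAn, ZFSet.mem_sep, mem_DD, mem_DD, mem_DD]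
  simp only [Sat]
  tauto

theorem oEx_eq {n : ℕ} (φ : Fml Empty (n + 1)) :
    oEx ZFSet.omega ∅ X (fnX M X) (DD M X φ) = DD M X (.ex φ) := by
  ext s
  rw [oEx, ZFSet.mem_sep, mem_DD]
  refine and_congr_right fun hs => ?_
  have hf := (mem_fnX.1 hs).2
  simp only [Sat]
  constructor
  · rintro ⟨x, hx, t, ht, h⟩
    obtain ⟨h1, h2⟩ := mem_DD.1 ht
    rw [isCns_iff hf hx (mem_fnX.1 h1).2] at h
    subst h
    rw [vl_cns hf hx] at h2
    exact ⟨x, hx, h2⟩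
  · rintro ⟨x, hx, h⟩
    have h1 := cns_mem hM hx hs hX
    refine ⟨x, hx, cns x s, mem_DD.2 ⟨h1, ?_⟩, (isCns_iff hf hx (mem_fnX.1 h1).2).2 rfl⟩
    rwa [vl_cns hf hx]

theorem oBx_eq {n : ℕ} (i : Fin n) (φ : Fml Empty (n + 1)) :
    oBx ZFSet.omega ∅ X (fnX M X) (nat i) (DD M X φ) =
      DD M X (.ex (.and (.mem (Sum.inl 0) (Sum.inl i.succ)) φ)) := by
  ext s
  rw [oBx, ZFSet.mem_sep, mem_DD]
  refine and_congr_right fun hs => ?_
  have hf := (mem_fnX.1 hs).2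
  simp only [Sat, Sum.elim_inl, Fin.cons_zero, Fin.cons_succ]
  constructor
  · rintro ⟨u, -, h0, x, hx, hxu, t, ht, h⟩
    obtain ⟨h1, h2⟩ := mem_DD.1 ht
    rw [isCns_iff hf hx (mem_fnX.1 h1).2] at h
    subst h
    rw [vl_cns hf hx] at h2
    rw [func_pair_iff hf] at h0
    refine ⟨x, hx, ?_, h2⟩
    rw [vl, ← h0]
    exact hxu
  · rintro ⟨x, hx, h0, h⟩
    have h1 := cns_mem hM hx hs hX
    refine ⟨_, (func_pair hf i).2, (func_pair hf i).1, x, hx, h0, cns x s,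
      mem_DD.2 ⟨h1, ?_⟩, (isCns_iff hf hx (mem_fnX.1 h1).2).2 rfl⟩
    rwa [vl_cns hf hx]

end ops

/-! ### Renaming of the variables -/

section ren

theorem lift_ren {n m : ℕ} (ρ : Fin n → Fin m) :
    lift (A := Empty) (fun i => Sum.inl (ρ i)) =
      fun i => Sum.inl ((Fin.cons 0 (fun i => (ρ i).succ) : Fin (n + 1) → Fin (m + 1)) i) := by
  funext i
  refine Fin.cases ?_ (fun i => ?_) i
  · rfl
  · rfl

theorem isSigma0_ren {n : ℕ} {φ : Fml Empty n} (h : IsSigma0 φ) : ∀ {m : ℕ} (ρ : Fin n → Fin m),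
    IsSigma0 (φ.subst fun i => Sum.inl (ρ i)) := by
  induction h with
  | mem s t => exact fun ρ => IsSigma0.mem _ _
  | eq s t => exact fun ρ => IsSigma0.eq _ _
  | neg _ ih => exact fun ρ => (ih ρ).neg
  | and _ _ ih ih' => exact fun ρ => (ih ρ).and (ih' ρ)
  | bex i _ ih =>
    intro m ρ
    simp only [Fml.subst]
    rw [lift_ren]
    exact (ih _).bex (ρ i)

theorem isSigma_ren {k n : ℕ} {φ : Fml Empty n} (h : IsSigma k φ) :
    ∀ {m : ℕ} (ρ : Fin n → Fin m), IsSigma k (φ.subst fun i => Sum.inl (ρ i)) := by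
  induction h with
  | zero h => exact fun ρ => IsSigma.zero (isSigma0_ren h ρ)
  | neg _ ih => exact fun ρ => (ih ρ).neg
  | ex _ ih =>
    intro m ρ
    simp only [Fml.subst]
    rw [lift_ren]
    exact (ih _).ex

theorem exists_wk {k n m : ℕ} (h : n ≤ m) {φ : Fml Empty n} (hφ : IsSigma k φ) :
    ∃ φ' : Fml Empty m, IsSigma k φ' ∧ ∀ M X, DD M X φ' = DD M X φ := by
  refine ⟨φ.subst fun i => Sum.inl (Fin.castLE h i), isSigma_ren hφ _, fun M X => ?_⟩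
  ext s
  rw [mem_DD, mem_DD, sat_subst]
  rfl

theorem IsSigma.sigma0 {n : ℕ} {φ : Fml Empty n} (h : IsSigma 0 φ) : IsSigma0 φ := by
  cases h with
  | zero h => exact h

end ren

/-! ### Closed families -/

section closed

variable (M : Set ZFSet.{0}) (k : ℕ) (X Y : ZFSet.{0})

/-- `C` is closed under the rules. -/
def Closed (C : ZFSet.{0}) : Prop :=
  ∀ q ∈ M, Rule ZFSet.omega ∅ X Y (fnX M X) (fnX M Y) (nat k) C q → q ∈ C

/-- `q` is a triple that is given by a formula. -/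
def IsD (q : ZFSet.{0}) : Prop :=
  ∃ j ≤ k, ∃ (n : ℕ) (φ : Fml Empty n), IsSigma j φ ∧
    q = pair (nat j) (pair (DD M X φ) (DD M Y φ))

variable {M k X Y} (hM : IsZF M) (hX : X ∈ M) (hY : Y ∈ M)

include hM hX hY

theorem isD_mem {q : ZFSet.{0}} (h : IsD M k X Y q) : q ∈ M := by
  obtain ⟨j, -, n, φ, -, rfl⟩ := h
  exact hM.pair_mem (hM.nat_mem j) (hM.pair_mem (DD_mem hM hX φ) (DD_mem hM hY φ))

theorem closed_mem {C : ZFSet.{0}} (hC : Closed M k X Y C) {j n : ℕ} {φ : Fml Empty n}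
    (h : IsSigma j φ) (hj : j ≤ k) : pair (nat j) (pair (DD M X φ) (DD M Y φ)) ∈ C := by
  have hmem : ∀ {j n : ℕ} (φ : Fml Empty n),
      pair (nat j) (pair (DD M X φ) (DD M Y φ)) ∈ M := fun φ =>
    hM.pair_mem (hM.nat_mem _) (hM.pair_mem (DD_mem hM hX φ) (DD_mem hM hY φ))
  induction h with
  | zero h =>
    induction h with
    | mem s t =>
      rcases s with i | i
      · rcases t with j | j
        · refine hC _ (hmem _) ⟨_, _, rfl, _, _, rfl, Or.inl ⟨rfl, nat i, nat_mem_omega i, nat j,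
            nat_mem_omega j, ?_, ?_⟩⟩
          · rw [oMem_eq hM hX]
          · rw [oMem_eq hM hY]
        · exact j.elim
      · exact i.elim
    | eq s t =>
      rcases s with i | i
      · rcases t with j | j
        · refine hC _ (hmem _) ⟨_, _, rfl, _, _, rfl, Or.inr (Or.inl ⟨rfl, nat i,
            nat_mem_omega i, nat j, nat_mem_omega j, ?_, ?_⟩)⟩
          · rw [oEq_eq hM hX]
          · rw [oEq_eq hM hY]
        · exact j.elim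
      · exact i.elim
    | neg _ ih =>
      refine hC _ (hmem _) ⟨_, _, rfl, _, _, rfl, Or.inr (Or.inr (Or.inl ⟨rfl, _, ih, _, _, rfl,
        _, _, rfl, rfl, ?_, ?_⟩))⟩
      · rw [oNg_eq hM hX]
      · rw [oNg_eq hM hY]
    | and _ _ ih ih' =>
      refine hC _ (hmem _) ⟨_, _, rfl, _, _, rfl, Or.inr (Or.inr (Or.inr (Or.inl ⟨rfl, _, ih, _,
        _, rfl, _, _, rfl, rfl, _, ih', _, _, rfl, _, _, rfl, rfl, ?_, ?_⟩)))⟩
      · rw [oAn_eq hM hX]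
      · rw [oAn_eq hM hY]
    | bex i _ ih =>
      refine hC _ (hmem _) ⟨_, _, rfl, _, _, rfl, Or.inr (Or.inr (Or.inr (Or.inr (Or.inl ⟨rfl,
        nat i, nat_mem_omega i, _, ih, _, _, rfl, _, _, rfl, rfl, ?_, ?_⟩))))⟩
      · rw [oBx_eq hM hX]
      · rw [oBx_eq hM hY]
  | @neg j n φ _ ih =>
    have h1 : nat j ∈ nat k := by
      rw [nat_eq, nat_eq, Ordinal.toZFSet_mem_toZFSet_iff]
      exact_mod_cast hj
    refine hC _ (hmem _) ⟨_, _, rfl, _, _, rfl, Or.inr (Or.inr (Or.inr (Or.inr (Or.inr (Or.inl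
      ⟨_, ih (by omega), _, _, rfl, _, _, rfl, h1, isSc_iff.2 rfl, ?_, ?_⟩)))))⟩
    · rw [oNg_eq hM hX]
    · rw [oNg_eq hM hY]
  | @ex j n φ _ ih =>
    refine hC _ (hmem _) ⟨_, _, rfl, _, _, rfl, Or.inr (Or.inr (Or.inr (Or.inr (Or.inr (Or.inr
      ⟨?_, _, ih hj, _, _, rfl, _, _, rfl, rfl, ?_, ?_⟩)))))⟩
    · intro h
      have h1 : nat j ∈ nat (j + 1) := ZFSet.mem_insert _ _
      rw [h] at h1
      exact ZFSet.notMem_empty _ h1
    · rw [oEx_eq hM hX]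
    · rw [oEx_eq hM hY]

theorem rule_isD {C q : ZFSet.{0}} (hC : ∀ q ∈ C, IsD M k X Y q)
    (h : Rule ZFSet.omega ∅ X Y (fnX M X) (fnX M Y) (nat k) C q) : IsD M k X Y q := by
  obtain ⟨l, r, rfl, R, R', rfl, h⟩ := h
  have h0 : ∀ {j : ℕ}, nat j = ∅ → j = 0 := fun {j} h => nat_injective (h.trans rfl)
  rcases h with h | h | h | h | h | h | h
  · obtain ⟨rfl, i, hi, j, hj, rfl, rfl⟩ := h
    obtain ⟨a, rfl⟩ := mem_omega_iff.1 hi
    obtain ⟨b, rfl⟩ := mem_omega_iff.1 hj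
    refine ⟨0, Nat.zero_le _, max a b + 1, .mem (Sum.inl ⟨a, by omega⟩) (Sum.inl ⟨b, by omega⟩),
      IsSigma.zero (IsSigma0.mem _ _), ?_⟩
    rw [← oMem_eq hM hX, ← oMem_eq hM hY]
    rfl
  · obtain ⟨rfl, i, hi, j, hj, rfl, rfl⟩ := h
    obtain ⟨a, rfl⟩ := mem_omega_iff.1 hi
    obtain ⟨b, rfl⟩ := mem_omega_iff.1 hj
    refine ⟨0, Nat.zero_le _, max a b + 1, .eq (Sum.inl ⟨a, by omega⟩) (Sum.inl ⟨b, by omega⟩),
      IsSigma.zero (IsSigma0.eq _ _), ?_⟩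
    rw [← oEq_eq hM hX, ← oEq_eq hM hY]
    rfl
  · obtain ⟨rfl, q₁, hq₁, l₁, r₁, rfl, R₁, R₁', rfl, rfl, rfl, rfl⟩ := h
    obtain ⟨j, -, n, φ, h1, h2⟩ := hC _ hq₁
    obtain ⟨h3, h4⟩ := ZFSet.pair_inj.1 h2
    obtain ⟨rfl, rfl⟩ := ZFSet.pair_inj.1 h4
    obtain rfl := h0 h3.symm
    refine ⟨0, Nat.zero_le _, n, .neg φ, IsSigma.zero h1.sigma0.neg, ?_⟩
    rw [← oNg_eq hM hX, ← oNg_eq hM hY]
    rfl
  · obtain ⟨rfl, q₁, hq₁, l₁, r₁, rfl, R₁, R₁', rfl, rfl, q₂, hq₂, l₂, r₂, rfl, R₂, R₂', rfl,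
      rfl, rfl, rfl⟩ := h
    obtain ⟨j, -, n, φ, h1, h2⟩ := hC _ hq₁
    obtain ⟨h3, h4⟩ := ZFSet.pair_inj.1 h2
    obtain ⟨rfl, rfl⟩ := ZFSet.pair_inj.1 h4
    obtain rfl := h0 h3.symm
    obtain ⟨j', -, n', ψ, h1', h2'⟩ := hC _ hq₂
    obtain ⟨h3', h4'⟩ := ZFSet.pair_inj.1 h2'
    obtain ⟨rfl, rfl⟩ := ZFSet.pair_inj.1 h4'
    obtain rfl := h0 h3'.symm
    obtain ⟨φ', h5, h6⟩ := exists_wk (le_max_left n n') h1
    obtain ⟨ψ', h7, h8⟩ := exists_wk (le_max_right n n') h1'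
    refine ⟨0, Nat.zero_le _, _, .and φ' ψ', IsSigma.zero (h5.sigma0.and h7.sigma0), ?_⟩
    rw [← oAn_eq hM hX, ← oAn_eq hM hY, h6, h6, h8, h8]
    rfl
  · obtain ⟨rfl, i, hi, q₁, hq₁, l₁, r₁, rfl, R₁, R₁', rfl, rfl, rfl, rfl⟩ := h
    obtain ⟨a, rfl⟩ := mem_omega_iff.1 hi
    obtain ⟨j, -, n, φ, h1, h2⟩ := hC _ hq₁
    obtain ⟨h3, h4⟩ := ZFSet.pair_inj.1 h2
    obtain ⟨rfl, rfl⟩ := ZFSet.pair_inj.1 h4
    obtain rfl := h0 h3.symm
    obtain ⟨φ', h5, h6⟩ := exists_wk (show n ≤ (max (a + 1) n) + 1 by omega) h1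
    refine ⟨0, Nat.zero_le _, max (a + 1) n,
      .ex (.and (.mem (Sum.inl 0) (Sum.inl (Fin.succ ⟨a, by omega⟩))) φ'),
      IsSigma.zero (h5.sigma0.bex ⟨a, by omega⟩), ?_⟩
    rw [← oBx_eq hM hX, ← oBx_eq hM hY, h6, h6]
    rfl
  · obtain ⟨q₁, hq₁, l₁, r₁, rfl, R₁, R₁', rfl, h7, h8, rfl, rfl⟩ := h
    obtain ⟨j, -, n, φ, h1, h2⟩ := hC _ hq₁
    obtain ⟨rfl, h4⟩ := ZFSet.pair_inj.1 h2
    obtain ⟨rfl, rfl⟩ := ZFSet.pair_inj.1 h4
    rw [isSc_iff] at h8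
    subst h8
    have h9 : j < k := by
      rw [nat_eq, nat_eq, Ordinal.toZFSet_mem_toZFSet_iff] at h7
      exact_mod_cast h7
    refine ⟨j + 1, h9, n, .neg φ, h1.neg, ?_⟩
    rw [← oNg_eq hM hX, ← oNg_eq hM hY]
    rfl
  · obtain ⟨hne, q₁, hq₁, l₁, r₁, rfl, R₁, R₁', rfl, rfl, rfl, rfl⟩ := h
    obtain ⟨j, hjk, n, φ, h1, h2⟩ := hC _ hq₁
    obtain ⟨rfl, h4⟩ := ZFSet.pair_inj.1 h2
    obtain ⟨rfl, rfl⟩ := ZFSet.pair_inj.1 h4
    cases j with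
    | zero => exact absurd rfl hne
    | succ j =>
      obtain ⟨φ', h5, h6⟩ := exists_wk (Nat.le_succ n) h1
      refine ⟨j + 1, hjk, n, .ex φ', h5.ex, ?_⟩
      rw [← oEx_eq hM hX, ← oEx_eq hM hY, h6, h6]

omit hM hX hY in
theorem rule_mono {o e F F' K C C' q : ZFSet.{0}} (hC : C ⊆ C')
    (h : Rule o e X Y F F' K C q) : Rule o e X Y F F' K C' q := by
  obtain ⟨l, r, rfl, R, R', rfl, h⟩ := h
  refine ⟨l, _, rfl, R, R', rfl, ?_⟩
  rcases h with h | h | h | h | h | h | h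
  · exact Or.inl h
  · exact Or.inr (Or.inl h)
  · obtain ⟨h1, q₁, hq₁, h2⟩ := h
    exact Or.inr (Or.inr (Or.inl ⟨h1, q₁, hC hq₁, h2⟩))
  · obtain ⟨h1, q₁, hq₁, l₁, r₁, h2, R₁, R₁', h3, h4, q₂, hq₂, h5⟩ := h
    exact Or.inr (Or.inr (Or.inr (Or.inl ⟨h1, q₁, hC hq₁, l₁, r₁, h2, R₁, R₁', h3, h4, q₂,
      hC hq₂, h5⟩)))
  · obtain ⟨h1, i, hi, q₁, hq₁, h2⟩ := h
    exact Or.inr (Or.inr (Or.inr (Or.inr (Or.inl ⟨h1, i, hi, q₁, hC hq₁, h2⟩))))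
  · obtain ⟨q₁, hq₁, h2⟩ := h
    exact Or.inr (Or.inr (Or.inr (Or.inr (Or.inr (Or.inl ⟨q₁, hC hq₁, h2⟩)))))
  · obtain ⟨h1, q₁, hq₁, h2⟩ := h
    exact Or.inr (Or.inr (Or.inr (Or.inr (Or.inr (Or.inr ⟨h1, q₁, hC hq₁, h2⟩)))))

omit hM hX hY in
theorem rule_fin {o e F F' K q : ZFSet.{0}} {T : ZFSet.{0} → ZFSet.{0}}
    (h : Rule o e X Y F F' K (itr T ∅ ZFSet.omega) q) :
    ∃ m : ℕ, Rule o e X Y F F' K (itr T ∅ (nat m)) q := by
  obtain ⟨l, r, rfl, R, R', rfl, h⟩ := h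
  have key : ∀ q₁ ∈ itr T ∅ ZFSet.omega, ∃ m : ℕ, q₁ ∈ itr T ∅ (nat m) := fun q₁ h =>
    mem_itr_omega h
  rcases h with h | h | h | h | h | h | h
  · exact ⟨0, l, _, rfl, R, R', rfl, Or.inl h⟩
  · exact ⟨0, l, _, rfl, R, R', rfl, Or.inr (Or.inl h)⟩
  · obtain ⟨h1, q₁, hq₁, h2⟩ := h
    obtain ⟨m, hm⟩ := key _ hq₁
    exact ⟨m, l, _, rfl, R, R', rfl, Or.inr (Or.inr (Or.inl ⟨h1, q₁, hm, h2⟩))⟩
  · obtain ⟨h1, q₁, hq₁, l₁, r₁, h2, R₁, R₁', h3, h4, q₂, hq₂, h5⟩ := h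
    obtain ⟨m, hm⟩ := key _ hq₁
    obtain ⟨m', hm'⟩ := key _ hq₂
    exact ⟨max m m', l, _, rfl, R, R', rfl, Or.inr (Or.inr (Or.inr (Or.inl ⟨h1, q₁,
      itr_mono (nat_subset (le_max_left _ _)) hm, l₁, r₁, h2, R₁, R₁', h3, h4, q₂,
      itr_mono (nat_subset (le_max_right _ _)) hm', h5⟩)))⟩
  · obtain ⟨h1, i, hi, q₁, hq₁, h2⟩ := h
    obtain ⟨m, hm⟩ := key _ hq₁
    exact ⟨m, l, _, rfl, R, R', rfl, Or.inr (Or.inr (Or.inr (Or.inr (Or.inl ⟨h1, i, hi, q₁, hm,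
      h2⟩))))⟩
  · obtain ⟨q₁, hq₁, h2⟩ := h
    obtain ⟨m, hm⟩ := key _ hq₁
    exact ⟨m, l, _, rfl, R, R', rfl, Or.inr (Or.inr (Or.inr (Or.inr (Or.inr (Or.inl ⟨q₁, hm,
      h2⟩)))))⟩
  · obtain ⟨h1, q₁, hq₁, h2⟩ := h
    obtain ⟨m, hm⟩ := key _ hq₁
    exact ⟨m, l, _, rfl, R, R', rfl, Or.inr (Or.inr (Or.inr (Or.inr (Or.inr (Or.inr ⟨h1, q₁, hm,
      h2⟩)))))⟩

/-- The family of all the triples that are given by formulas is a closed set in `M`. -/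
theorem exists_closed : ∃ C ∈ M, Closed M k X Y C ∧ ∀ q ∈ C, IsD M k X Y q := by
  have hB := hM.base
  have h0 := hM.empty_mem
  have hω := hM.infinity
  have hF := fnX_mem hM hX
  have hF' := fnX_mem hM hY
  have hK := hM.nat_mem k
  set Big : ZFSet.{0} := ZFSet.prod (sc (nat k)) (ZFSet.prod (pwM M (fnX M X))
    (pwM M (fnX M Y))) with hBig
  have hBigM : Big ∈ M := hM.prod_mem (hM.sc_mem hK) (hM.prod_mem (pwM_mem hM hF)
    (pwM_mem hM hF'))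
  set T : ZFSet.{0} → ZFSet.{0} := fun C => ZFSet.sep (fun q =>
    Rule ZFSet.omega ∅ X Y (fnX M X) (fnX M Y) (nat k) C q) Big with hT
  have hTd : DfnF M M fun w : Fin 1 → ZFSet.{0} => T (w 0) := by
    refine hM.sep' (Q := fun q w => Rule ZFSet.omega ∅ X Y (fnX M X) (fnX M Y) (nat k) (w 0) q)
      (DfnF.const hBigM) ?_
    have h1 : Dfn M M fun v : Fin 9 → ZFSet.{0} =>
      Rule (v 0) (v 1) (v 2) (v 3) (v 4) (v 5) (v 6) (v 7) (v 8) := d0_Rule.dfn hM.trans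
    refine (Dfn.specN (m := 2) h1 ![Sum.inr ZFSet.omega, Sum.inr ∅, Sum.inr X, Sum.inr Y,
      Sum.inr (fnX M X), Sum.inr (fnX M Y), Sum.inr (nat k), Sum.inl 1, Sum.inl 0] ?_).congr
      fun w _ => Iff.rfl
    intro i
    fin_cases i
    · exact tOver_inr.2 hω
    · exact tOver_inr.2 h0
    · exact tOver_inr.2 hX
    · exact tOver_inr.2 hY
    · exact tOver_inr.2 hF
    · exact tOver_inr.2 hF'
    · exact tOver_inr.2 hK
    · exact TOver.inl _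
    · exact TOver.inl _
  have hform : ∀ m : ℕ, ∀ q ∈ itr T ∅ (nat m), IsD M k X Y q := by
    intro m
    induction m using Nat.strong_induction_on with
    | _ m ih =>
      intro q hq
      rcases mem_itr.1 hq with h | ⟨u, hu, h⟩
      · exact absurd h (ZFSet.notMem_empty _)
      · rw [nat_eq, Ordinal.mem_toZFSet_iff] at hu
        obtain ⟨a, ha, rfl⟩ := hu
        obtain ⟨j, rfl⟩ := Ordinal.lt_omega0.1 (ha.trans (Ordinal.natCast_lt_omega0 m))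
        rw [← nat_eq] at h
        exact rule_isD hM hX hY (ih j (by exact_mod_cast ha)) (ZFSet.mem_sep.1 h).2
  have hform' : ∀ q ∈ itr T ∅ ZFSet.omega, IsD M k X Y q := by
    intro q hq
    obtain ⟨m, hm⟩ := mem_itr_omega hq
    exact hform m q hm
  refine ⟨itr T ∅ ZFSet.omega, itr_mem_M hM h0 hω hTd, ?_, hform'⟩
  intro q hq h
  have h1 : q ∈ Big := by
    obtain ⟨j, hj, n, φ, -, rfl⟩ := rule_isD hM hX hY hform' h
    refine ZFSet.pair_mem_prod.2 ⟨?_, ZFSet.pair_mem_prod.2 ⟨mem_pwM.2 ⟨DD_mem hM hX φ,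
      fun s hs => (mem_DD.1 hs).1⟩, mem_pwM.2 ⟨DD_mem hM hY φ, fun s hs => (mem_DD.1 hs).1⟩⟩⟩
    rw [sc_nat, nat_eq, nat_eq, Ordinal.toZFSet_mem_toZFSet_iff]
    exact_mod_cast Nat.lt_succ_of_le hj
  obtain ⟨m, hm⟩ := rule_fin h
  exact itr_step (nat_mem_omega m) (ZFSet.mem_sep.2 ⟨h1, hm⟩)

end closed

end Pool.Agent.Y588
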