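import Pool.Agent.Y588.Ust

/-!
# Strong limit cardinals in a model with a definable well-ordering
-/

set_option autoImplicit false
set_option linter.unreachableTactic false
set_option linter.unusedTactic false
set_option linter.unusedSectionVars false

namespace Pool.Agent.Y588

open Pool.Agent.W868 Pool.Agent.W868.GM
open ZFSet (pair)

theorem Inj.refl {M : Set ZFSet.{0}} (hM : IsZF M) {x : ZFSet.{0}} (hx : x ∈ M) : Inj M x x :=
  Inj.of_subset hM hx hx fun _ h => h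

theorem dfn_inj {M : Set ZFSet.{0}} (hM : IsZF M) {n : ℕ}
    {F G : (Fin n → ZFSet.{0}) → ZFSet.{0}} (hF : DfnF M M F) (hG : DfnF M M G) :
    Dfn M M fun v => Inj M (F v) (G v) := by
  have hB := hM.base
  apply Dfn.ex
  exact hB.isInj' hF.tail hG.tail (DfnF.proj 0)

/-- A criterion for strong limit cardinals. -/
theorem sl_of {M : Set ZFSet.{0}} (hM : IsZF M) {σ : ZFSet.{0}} (hσ : σ ∈ M)
    (hσo : σ.IsOrdinal) (hω : ZFSet.omega ⊆ σ)
    (h : ∀ β ∈ σ, ∃ γ ∈ σ, Inj M (pwM M β) γ) : IsStrongLimit M σ := by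
  refine ⟨hσ, hσo, hω, ?_, ?_⟩
  · intro β hβ hi
    obtain ⟨γ, hγ, h1⟩ := h β hβ
    have hβM := hM.trans _ hσ _ hβ
    have hγM := hM.trans _ hσ _ hγ
    have h2 : Inj M (pwM M β) σ := Inj.trans hM (pwM_mem hM hβM) hσ h1
      (Inj.of_subset hM hγM hσ (hσo.subset_of_mem hγ))
    exact cantor hM hβM (pwM_mem hM hβM) (fun z => mem_pwM)
      (Inj.trans hM (pwM_mem hM hβM) hβM h2 hi)
  · intro β hβ
    obtain ⟨γ, hγ, f, hf, h1⟩ := h β hβ
    exact ⟨pwM M β, pwM_mem hM (hM.trans _ hσ _ hβ), fun z => mem_pwM, γ, hγ, f, hf, h1⟩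

theorem IsStrongLimit.pw {M : Set ZFSet.{0}} {σ : ZFSet.{0}} (h : IsStrongLimit M σ)
    {β : ZFSet.{0}} (hβ : β ∈ σ) : ∃ γ ∈ σ, Inj M (pwM M β) γ := by
  obtain ⟨P, -, h1, γ, hγ, f, hf, h2⟩ := h.2.2.2.2 β hβ
  have h3 : P = pwM M β := ZFSet.ext fun z => by rw [h1, mem_pwM]
  exact ⟨γ, hγ, f, hf, h3 ▸ h2⟩

/-- Every set has an injection into an ordinal. -/
theorem exists_ord_inj {M : Set ZFSet.{0}} (hM : IsZF M) {e : ZFSet.{0} → ZFSet.{0}}
    (hg : GC M e) {x : ZFSet.{0}} (hx : x ∈ M) : ∃ ζ ∈ M, ζ.IsOrdinal ∧ Inj M x ζ := by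
  have hB := hM.base
  have h1 : ∀ y ∈ im e x, y.IsOrdinal := by
    intro y hy
    obtain ⟨u, -, rfl⟩ := mem_im.1 hy
    exact hg.ord u
  have h2 := hM.union _ (hM.im_mem hx hg.dfn)
  refine ⟨sc (ZFSet.sUnion (im e x)), hM.sc_mem h2, isOrdinal_sc (isOrdinal_sUnion h1), ?_⟩
  refine Inj.of_fun hM hx (hM.sc_mem h2) (h := e) hg.dfn ?_ ?_
  · intro a ha
    have h3 : e a ∈ im e x := mem_im.2 ⟨a, ha, rfl⟩
    have h4 : e a ⊆ ZFSet.sUnion (im e x) := fun z hz => ZFSet.mem_sUnion.2 ⟨_, h3, hz⟩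
    rcases (ZFSet.IsOrdinal.subset_iff_eq_or_mem (hg.ord a) (isOrdinal_sUnion h1)).1 h4 with
      h5 | h5
    · rw [h5]
      exact ZFSet.mem_insert _ _
    · exact ZFSet.mem_insert_of_mem _ h5
  · intro a ha a' ha' h
    exact hg.inj a (hM.trans _ hx _ ha) a' (hM.trans _ hx _ ha') h

theorem pw_mono_inj {M : Set ZFSet.{0}} (hM : IsZF M) {x y : ZFSet.{0}} (hx : x ∈ M) (hy : y ∈ M)
    (h : x ⊆ y) : Inj M (pwM M x) (pwM M y) :=
  Inj.of_subset hM (pwM_mem hM hx) (pwM_mem hM hy) fun z hz => by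
    rw [mem_pwM] at hz ⊢
    exact ⟨hz.1, fun u hu => h (hz.2 hu)⟩

/-- There are arbitrarily large strong limit cardinals. -/
theorem exists_sl {M : Set ZFSet.{0}} (hM : IsZF M) {e : ZFSet.{0} → ZFSet.{0}} (hg : GC M e)
    {ξ : ZFSet.{0}} (hξ : ξ ∈ M) (hξo : ξ.IsOrdinal) : ∃ σ, IsStrongLimit M σ ∧ ξ ∈ σ := by
  have hB := hM.base
  set T : ZFSet.{0} → ZFSet.{0} := fun x => sc (x ∪ lo M fun ζ => Inj M (pwM M x) ζ) with hT
  have hTd : DfnF M M fun w : Fin 1 → ZFSet.{0} => T (w 0) := by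
    have h1 : DfnF M M fun w : Fin 1 → ZFSet.{0} => lo M fun ζ => Inj M (pwM M (w 0)) ζ := by
      refine hM.lo' (Q := fun ζ w => Inj M (pwM M (w 0)) ζ) ?_
      exact dfn_inj hM (pwM' hM (DfnF.proj 1)) (DfnF.proj 0)
    have h2 := hB.union' (DfnF.proj (0 : Fin 1)) h1
    exact hB.insert' h2 h2
  have hTo : ∀ x : ZFSet.{0}, x.IsOrdinal → (T x).IsOrdinal := fun x hx =>
    isOrdinal_sc (isOrdinal_union hx lo_isOrdinal)
  set a : ZFSet.{0} := sc ξ ∪ ZFSet.omega with ha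
  have haM : a ∈ M := hM.union_mem (hM.sc_mem hξ) hM.infinity
  have hao : a.IsOrdinal := isOrdinal_union (isOrdinal_sc hξo) isOrdinal_omega
  have hno : ∀ z, (itr T a z).IsOrdinal := isOrdinal_itr hao hTo
  have hitr : ∀ z ∈ M, itr T a z ∈ M := fun z hz => itr_mem_M hM haM hz hTd
  refine ⟨itr T a ZFSet.omega, sl_of hM (hitr _ hM.infinity) (hno _)
    (fun z hz => itr_base (ZFSet.mem_union.2 (Or.inr hz))) ?_,
    itr_base (ZFSet.mem_union.2 (Or.inl (ZFSet.mem_insert _ _)))⟩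
  intro β hβ
  obtain ⟨k, hk⟩ := mem_itr_omega hβ
  have hy := hitr _ (hM.nat_mem k)
  obtain ⟨ζ, h1, h2, h3⟩ := exists_ord_inj hM hg (pwM_mem hM hy)
  obtain ⟨h4, h5, h6⟩ := lo_spec (M := M) (P := fun ζ => Inj M (pwM M (itr T a (nat k))) ζ)
    ⟨ζ, h1, h2, h3⟩
  refine ⟨_, itr_step (nat_mem_omega k) ?_, Inj.trans hM (pwM_mem hM (hM.trans _ hy _ hk)) h4
    (pw_mono_inj hM (hM.trans _ hy _ hk) hy ((hno _).subset_of_mem hk)) h6⟩
  have h7 : (lo M fun ζ => Inj M (pwM M (itr T a (nat k))) ζ) ⊆ itr T a (nat k) ∪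
      lo M fun ζ => Inj M (pwM M (itr T a (nat k))) ζ := fun z hz =>
    ZFSet.mem_union.2 (Or.inr hz)
  rcases (ZFSet.IsOrdinal.subset_iff_eq_or_mem h5 (isOrdinal_union (hno _) h5)).1 h7 with
    h8 | h8
  · rw [hT]
    simp only
    rw [← h8]
    exact ZFSet.mem_insert _ _
  · exact ZFSet.mem_insert_of_mem _ h8

/-! ### The least ordinal that has no injection into a set -/

noncomputable def nx (M : Set ZFSet.{0}) (κ : ZFSet.{0}) : ZFSet.{0} :=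
  lo M fun ζ => ¬ Inj M ζ κ

section

variable {M : Set ZFSet.{0}} (hM : IsZF M)

include hM

theorem nx' {n : ℕ} {F : (Fin n → ZFSet.{0}) → ZFSet.{0}} (hF : DfnF M M F) :
    DfnF M M fun v => nx M (F v) := by
  refine hM.lo' (Q := fun ζ v => ¬ Inj M ζ (F v)) ?_
  exact (dfn_inj hM (DfnF.proj 0) hF.tail).not

theorem nx_spec {κ : ZFSet.{0}} (hκ : κ ∈ M) : nx M κ ∈ M ∧ (nx M κ).IsOrdinal ∧
    ¬ Inj M (nx M κ) κ ∧ ∀ ν ∈ nx M κ, Inj M ν κ := by
  obtain ⟨S, hS, hSo, hSn⟩ := hartogs hM hκ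
  obtain ⟨h1, h2, h3⟩ := lo_spec (M := M) (P := fun ν => ¬ Inj M ν κ) ⟨S, hS, hSo, hSn⟩
  refine ⟨h1, h2, h3, fun ξ hξ => ?_⟩
  by_contra h
  exact lo_min (hM.trans _ h1 _ hξ) (h2.mem hξ) h hξ

theorem nx_mem_sl {κ σ : ZFSet.{0}} (hσ : IsStrongLimit M σ) (hκ : κ ∈ σ) : nx M κ ∈ σ := by
  have hσM := hσ.1
  have hκM := hM.trans _ hσM _ hκ
  obtain ⟨h1, h2, h3, h4⟩ := nx_spec hM hκM
  rcases h2.mem_or_subset hσ.2.1 with h5 | h5
  · exact h5
  · exfalso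
    obtain ⟨γ, hγ, h6⟩ := hσ.pw hκ
    exact cantor hM hκM (pwM_mem hM hκM) (fun z => mem_pwM)
      (Inj.trans hM (pwM_mem hM hκM) hκM h6 (h4 γ (h5 hγ)))

end

/-- A strong limit cardinal is closed under successors. -/
theorem sc_mem_sl {M : Set ZFSet.{0}} (hM : IsZF M) {σ β : ZFSet.{0}} (hσ : IsStrongLimit M σ)
    (hβ : β ∈ σ) : sc β ∈ σ := by
  have hσM := hσ.1
  have hβM := hM.trans _ hσM _ hβ
  have hβo := hσ.2.1.mem hβ
  rcases (isOrdinal_sc hβo).mem_or_subset hσ.2.1 with h | h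
  · exact h
  · exfalso
    -- then sc β = σ, and the singletons give an injection of σ into P(β) ∪ ...
    have h1 : σ = sc β := by
      apply ZFSet.ext
      intro z
      constructor
      · exact fun hz => h hz
      · intro hz
        rcases ZFSet.mem_insert_iff.1 hz with rfl | hz
        · exact hβ
        · exact hσ.2.1.mem_trans hz hβ
    by_cases h2 : ZFSet.omega ⊆ β
    · exact hσ.2.2.2.1 β hβ (h1 ▸ Inj.sc hM hβM hβo h2)
    · have h3 : β ∈ ZFSet.omega := by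
        rcases hβo.mem_or_subset isOrdinal_omega with h4 | h4
        · exact h4
        · exact absurd h4 h2
      have h4 : sc β ∈ ZFSet.omega := ZFSet.omega_succ h3
      have h5 : sc β ∈ σ := hσ.2.2.1 h4
      rw [← h1] at h5
      exact ZFSet.mem_irrefl _ h5

end Pool.Agent.Y588
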