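import Pool.Agent.Y588.Frc

/-!
# Generic filters, values of names, and the truth lemma
-/

set_option autoImplicit false
set_option linter.unreachableTactic false
set_option linter.unusedTactic false
set_option linter.unusedSectionVars false

namespace Pool.Agent.Y588

open Pool.Agent.W868 Pool.Agent.W868.GM
open ZFSet (pair)

section

variable {M : Set ZFSet.{0}} (hM : IsZF M) {P Le : ZFSet.{0}} (hP : IsForcing M P Le)
  {G : ZFSet.{0}} (hG : IsGeneric M P Le G)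

include hM hP hG

/-- Genericity for definable sets that are dense below an element of the filter. -/
theorem gen_below {Q : ZFSet.{0} → Prop} (hQ : Dfn M M fun w : Fin 1 → ZFSet.{0} => Q (w 0))
    {p : ZFSet.{0}} (hp : p ∈ G)
    (h : ∀ q ∈ P, pair q p ∈ Le → ∃ r ∈ P, pair r q ∈ Le ∧ Q r) :
    ∃ r ∈ G, pair r p ∈ Le ∧ Q r := by
  have hB := hM.base
  have hpP := hG.sub hp
  have hPM := hP.mem
  have hLM := hP.le_mem
  have hpM := hM.trans _ hPM _ hpP
  -- the dense set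
  have hd : Dfn M M fun w : Fin 1 → ZFSet.{0} => (pair (w 0) p ∈ Le ∧ Q (w 0)) ∨
      ∀ s ∈ P, pair s (w 0) ∈ Le → ¬ pair s p ∈ Le := by
    apply Dfn.or
    · apply Dfn.and
      · exact Dfn.mem (hB.pair' (DfnF.proj 0) (DfnF.const hpM)) (DfnF.const hLM)
      · exact hQ
    · (repeat' first
      | assumption
      | exact DfnF.proj _
      | exact DfnF.const (by assumption)
      | apply Dfn.not | apply Dfn.and | apply Dfn.imp
      | apply hB.bex | apply hB.ball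
      | apply Dfn.mem | apply hB.pair')
  obtain ⟨q, hq, hqG⟩ := hG.meet _ (hM.sep_mem (Q := fun r => (pair r p ∈ Le ∧ Q r) ∨
    ∀ s ∈ P, pair s r ∈ Le → ¬ pair s p ∈ Le) hd hPM) (fun z hz => (ZFSet.mem_sep.1 hz).1) (by
    intro q hq
    by_cases hc : ∃ s ∈ P, pair s q ∈ Le ∧ pair s p ∈ Le
    · obtain ⟨s, hs, hsq, hsp⟩ := hc
      obtain ⟨r, hr, hrs, hQr⟩ := h s hs hsp
      exact ⟨r, ZFSet.mem_sep.2 ⟨hr, Or.inl ⟨hP.trans _ hpP _ hs _ hr hrs hsp, hQr⟩⟩,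
        hP.trans _ hq _ hs _ hr hrs hsq⟩
    · refine ⟨q, ZFSet.mem_sep.2 ⟨hq, Or.inr fun s hs hsq hsp => hc ⟨s, hs, hsq, hsp⟩⟩,
        hP.refl q hq⟩)
  rcases (ZFSet.mem_sep.1 hq).2 with h1 | h1
  · exact ⟨q, hqG, h1⟩
  · exfalso
    obtain ⟨s, hs, hsq, hsp⟩ := hG.dir q hqG p hp
    exact h1 s (hG.sub hs) hsq hsp

/-- Genericity for definable dense sets. -/
theorem gen_dense {Q : ZFSet.{0} → Prop} (hQ : Dfn M M fun w : Fin 1 → ZFSet.{0} => Q (w 0))
    (h : ∀ q ∈ P, ∃ r ∈ P, pair r q ∈ Le ∧ Q r) : ∃ r ∈ G, Q r := by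
  obtain ⟨p, hp⟩ := hG.nonempty
  obtain ⟨r, hr, -, h1⟩ := gen_below hM hP hG hQ hp fun q hq _ => h q hq
  exact ⟨r, hr, h1⟩

omit hM in
theorem gen_common3 {p q r : ZFSet.{0}} (hp : p ∈ G) (hq : q ∈ G) (hr : r ∈ G) :
    ∃ s ∈ G, pair s p ∈ Le ∧ pair s q ∈ Le ∧ pair s r ∈ Le := by
  obtain ⟨t, ht, h1, h2⟩ := hG.dir p hp q hq
  obtain ⟨s, hs, h3, h4⟩ := hG.dir t ht r hr
  exact ⟨s, hs, hP.trans _ (hG.sub hp) _ (hG.sub ht) _ (hG.sub hs) h3 h1,
    hP.trans _ (hG.sub hq) _ (hG.sub ht) _ (hG.sub hs) h3 h2, h4⟩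

/-- The value of names and forced equality. -/
theorem ev_eq_iff {x y : ZFSet.{0}} (hx : x ∈ M) (hy : y ∈ M) :
    ev G x = ev G y ↔ ∃ p ∈ G, Qeq P Le x y p := by
  induction x using dm_ind generalizing y with
  | _ x ih =>
    have hPM := hP.mem
    have hLM := hP.le_mem
    have hB := hM.base
    constructor
    · intro h
      -- the dense set
      have hd : Dfn M M fun w : Fin 1 → ZFSet.{0} => Qeq P Le x y (w 0) ∨
          ((∃ a ∈ dm x, ∃ c ∈ P, pair a c ∈ x ∧ pair (w 0) c ∈ Le ∧ ∀ r ∈ P,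
            pair r (w 0) ∈ Le → ∀ b ∈ dm y, ∀ d ∈ P, pair b d ∈ y → pair r d ∈ Le →
              ¬ Qeq P Le a b r) ∨
          (∃ b ∈ dm y, ∃ d ∈ P, pair b d ∈ y ∧ pair (w 0) d ∈ Le ∧ ∀ r ∈ P,
            pair r (w 0) ∈ Le → ∀ a ∈ dm x, ∀ c ∈ P, pair a c ∈ x → pair r c ∈ Le →
              ¬ Qeq P Le a b r)) := by
        have h1 := dm_mem hM hx
        have h2 := dm_mem hM hy
        (repeat' first
      | assumption
      | exact DfnF.proj _
      | exact DfnF.const (by assumption)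
      | exact Dfn.prop _
      | apply Dfn.not | apply Dfn.and | apply Dfn.or | apply Dfn.imp | apply Dfn.iff
      | apply hB.bex | apply hB.ball | apply Dfn.ex | apply Dfn.all
      | apply dfn_qeq hM hPM hLM
      | apply Dfn.eq | apply Dfn.mem | apply hB.pair')
      obtain ⟨r, hr, h1 | ⟨a, ha, c, hc, hac, hrc, h2⟩ | ⟨b, hb, d, hd', hbd, hrd, h2⟩⟩ :=
        gen_dense hM hP hG (Q := fun p => Qeq P Le x y p ∨
          ((∃ a ∈ dm x, ∃ c ∈ P, pair a c ∈ x ∧ pair p c ∈ Le ∧ ∀ r ∈ P,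
            pair r p ∈ Le → ∀ b ∈ dm y, ∀ d ∈ P, pair b d ∈ y → pair r d ∈ Le →
              ¬ Qeq P Le a b r) ∨
          (∃ b ∈ dm y, ∃ d ∈ P, pair b d ∈ y ∧ pair p d ∈ Le ∧ ∀ r ∈ P,
            pair r p ∈ Le → ∀ a ∈ dm x, ∀ c ∈ P, pair a c ∈ x → pair r c ∈ Le →
              ¬ Qeq P Le a b r))) hd (by
          intro q hq
          by_cases h1 : Qeq P Le x y q
          · exact ⟨q, hq, hP.refl q hq, Or.inl h1⟩
          · obtain ⟨r, hr, hrq, ⟨a, c, hac, hc, hrc, h2⟩ | ⟨b, d, hbd, hd', hrd, h2⟩⟩ :=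
              exists_wit hP hq h1
            · exact ⟨r, hr, hrq, Or.inr (Or.inl ⟨a, mem_dm hac, c, hc, hac, hrc,
                fun s hs hsr b _ d hd' hbd hsd => h2 s hs hsr b d hbd hd' hsd⟩)⟩
            · exact ⟨r, hr, hrq, Or.inr (Or.inr ⟨b, mem_dm hbd, d, hd', hbd, hrd,
                fun s hs hsr a _ c hc hac hsc => h2 s hs hsr a c hac hc hsc⟩)⟩)
      · exact ⟨r, hr, h1⟩
      · exfalso
        have hcG : c ∈ G := hG.up r hr c hc hrc
        have h3 : ev G a ∈ ev G x := mem_ev.2 ⟨a, c, hac, hcG, rfl⟩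
        rw [h] at h3
        obtain ⟨b, d, hbd, hdG, h4⟩ := mem_ev.1 h3
        have haM : a ∈ M := hM.trans _ (dm_mem hM hx) _ ha
        have hbM : b ∈ M := hM.trans _ (dm_mem hM hy) _ (mem_dm hbd)
        obtain ⟨p, hp, h5⟩ := (ih a ha haM hbM).1 h4.symm
        obtain ⟨s, hs, hsr, hsd, hsp⟩ := gen_common3 hP hG hr hdG hp
        exact h2 s (hG.sub hs) hsr b (mem_dm hbd) d (hG.sub hdG) hbd hsd
          (h5.mono hP (hG.sub hs) hsp)
      · exfalso
        have hdG : d ∈ G := hG.up r hr d hd' hrd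
        have h3 : ev G b ∈ ev G y := mem_ev.2 ⟨b, d, hbd, hdG, rfl⟩
        rw [← h] at h3
        obtain ⟨a, c, hac, hcG, h4⟩ := mem_ev.1 h3
        have haM : a ∈ M := hM.trans _ (dm_mem hM hx) _ (mem_dm hac)
        have hbM : b ∈ M := hM.trans _ (dm_mem hM hy) _ hb
        obtain ⟨p, hp, h5⟩ := (ih a (mem_dm hac) haM hbM).1 h4
        obtain ⟨s, hs, hsr, hsc, hsp⟩ := gen_common3 hP hG hr hcG hp
        exact h2 s (hG.sub hs) hsr a (mem_dm hac) c (hG.sub hcG) hac hsc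
          (h5.mono hP (hG.sub hs) hsp)
    · rintro ⟨p, hp, h⟩
      have h' := qeq_iff.1 h
      ext z
      constructor
      · intro hz
        obtain ⟨a, c, hac, hcG, rfl⟩ := mem_ev.1 hz
        obtain ⟨q, hq, hqp, hqc⟩ := hG.dir p hp c hcG
        have haM : a ∈ M := hM.trans _ (dm_mem hM hx) _ (mem_dm hac)
        have hd : Dfn M M fun w : Fin 1 → ZFSet.{0} => ∃ b ∈ dm y, ∃ d ∈ P, pair b d ∈ y ∧
            pair (w 0) d ∈ Le ∧ Qeq P Le a b (w 0) := by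
          have h2 := dm_mem hM hy
          (repeat' first
      | assumption
      | exact DfnF.proj _
      | exact DfnF.const (by assumption)
      | apply Dfn.not | apply Dfn.and | apply Dfn.or | apply Dfn.imp | apply Dfn.iff
      | apply hB.bex | apply hB.ball | apply Dfn.ex | apply Dfn.all
      | apply dfn_qeq hM hPM hLM
      | apply Dfn.eq | apply Dfn.mem | apply hB.pair')
        obtain ⟨r, hr, -, b, hb, d, hd', hbd, hrd, h3⟩ := gen_below hM hP hG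
          (Q := fun p => ∃ b ∈ dm y, ∃ d ∈ P, pair b d ∈ y ∧ pair p d ∈ Le ∧
            Qeq P Le a b p) hd hq (by
          intro s hs hsq
          obtain ⟨r, hr, hrs, b, d, hbd, hd', hrd, h3⟩ := h'.2.1 a c hac (hG.sub hcG) s hs
            (hP.trans _ (hG.sub hp) _ (hG.sub hq) _ hs hsq hqp)
            (hP.trans _ (hG.sub hcG) _ (hG.sub hq) _ hs hsq hqc)
          exact ⟨r, hr, hrs, b, mem_dm hbd, d, hd', hbd, hrd, h3⟩)
        have hbM : b ∈ M := hM.trans _ (dm_mem hM hy) _ hb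
        rw [(ih a (mem_dm hac) haM hbM).2 ⟨r, hr, h3⟩]
        exact mem_ev.2 ⟨b, d, hbd, hG.up r hr d hd' hrd, rfl⟩
      · intro hz
        obtain ⟨b, d, hbd, hdG, rfl⟩ := mem_ev.1 hz
        obtain ⟨q, hq, hqp, hqd⟩ := hG.dir p hp d hdG
        have hbM : b ∈ M := hM.trans _ (dm_mem hM hy) _ (mem_dm hbd)
        have hd : Dfn M M fun w : Fin 1 → ZFSet.{0} => ∃ a ∈ dm x, ∃ c ∈ P, pair a c ∈ x ∧
            pair (w 0) c ∈ Le ∧ Qeq P Le a b (w 0) := by
          have h2 := dm_mem hM hx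
          (repeat' first
      | assumption
      | exact DfnF.proj _
      | exact DfnF.const (by assumption)
      | apply Dfn.not | apply Dfn.and | apply Dfn.or | apply Dfn.imp | apply Dfn.iff
      | apply hB.bex | apply hB.ball | apply Dfn.ex | apply Dfn.all
      | apply dfn_qeq hM hPM hLM
      | apply Dfn.eq | apply Dfn.mem | apply hB.pair')
        obtain ⟨r, hr, -, a, ha, c, hc', hac, hrc, h3⟩ := gen_below hM hP hG
          (Q := fun p => ∃ a ∈ dm x, ∃ c ∈ P, pair a c ∈ x ∧ pair p c ∈ Le ∧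
            Qeq P Le a b p) hd hq (by
          intro s hs hsq
          obtain ⟨r, hr, hrs, a, c, hac, hc', hrc, h3⟩ := h'.2.2 b d hbd (hG.sub hdG) s hs
            (hP.trans _ (hG.sub hp) _ (hG.sub hq) _ hs hsq hqp)
            (hP.trans _ (hG.sub hdG) _ (hG.sub hq) _ hs hsq hqd)
          exact ⟨r, hr, hrs, a, mem_dm hac, c, hc', hac, hrc, h3⟩)
        have haM : a ∈ M := hM.trans _ (dm_mem hM hx) _ ha
        rw [← (ih a ha haM hbM).2 ⟨r, hr, h3⟩]
        exact mem_ev.2 ⟨a, c, hac, hG.up r hr c hc' hrc, rfl⟩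

/-- The value of names and forced membership. -/
theorem ev_mem_iff {x y : ZFSet.{0}} (hx : x ∈ M) (hy : y ∈ M) :
    ev G x ∈ ev G y ↔ ∃ p ∈ G, Qmem P Le x y p := by
  have hPM := hP.mem
  have hLM := hP.le_mem
  have hB := hM.base
  constructor
  · intro h
    obtain ⟨b, d, hbd, hdG, h4⟩ := mem_ev.1 h
    have hbM : b ∈ M := hM.trans _ (dm_mem hM hy) _ (mem_dm hbd)
    obtain ⟨p, hp, h5⟩ := (ev_eq_iff hM hP hG hx hbM).1 h4.symm
    obtain ⟨s, hs, hsp, hsd⟩ := hG.dir p hp d hdG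
    refine ⟨s, hs, qmem_iff.2 fun q hq hqs => ⟨q, hq, hP.refl q hq, b, d, hbd, hG.sub hdG, ?_,
      ?_⟩⟩
    · exact hP.trans _ (hG.sub hdG) _ (hG.sub hs) _ hq hqs hsd
    · exact h5.mono hP hq (hP.trans _ (hG.sub hp) _ (hG.sub hs) _ hq hqs hsp)
  · rintro ⟨p, hp, h⟩
    have hd : Dfn M M fun w : Fin 1 → ZFSet.{0} => ∃ b ∈ dm y, ∃ d ∈ P, pair b d ∈ y ∧
        pair (w 0) d ∈ Le ∧ Qeq P Le x b (w 0) := by
      have h2 := dm_mem hM hy
      (repeat' first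
      | assumption
      | exact DfnF.proj _
      | exact DfnF.const (by assumption)
      | apply Dfn.not | apply Dfn.and | apply Dfn.or | apply Dfn.imp | apply Dfn.iff
      | apply hB.bex | apply hB.ball | apply Dfn.ex | apply Dfn.all
      | apply dfn_qeq hM hPM hLM
      | apply Dfn.eq | apply Dfn.mem | apply hB.pair')
    obtain ⟨r, hr, -, b, hb, d, hd', hbd, hrd, h3⟩ := gen_below hM hP hG
      (Q := fun p => ∃ b ∈ dm y, ∃ d ∈ P, pair b d ∈ y ∧ pair p d ∈ Le ∧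
        Qeq P Le x b p) hd hp (by
      intro s hs hsp
      obtain ⟨r, hr, hrs, b, d, hbd, hd', hrd, h3⟩ := qmem_iff.1 h s hs hsp
      exact ⟨r, hr, hrs, b, mem_dm hbd, d, hd', hbd, hrd, h3⟩)
    have hbM : b ∈ M := hM.trans _ (dm_mem hM hy) _ hb
    rw [(ev_eq_iff hM hP hG hx hbM).2 ⟨r, hr, h3⟩]
    exact mem_ev.2 ⟨b, d, hbd, hG.up r hr d hd' hrd, rfl⟩

omit hM hP hG in
theorem elim_ev {n : ℕ} (v : Fin n → ZFSet.{0}) (s : Fin n ⊕ ZFSet.{0}) :
    Sum.elim (ev G ∘ v) (ev G) s = ev G (Sum.elim v id s) := by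
  cases s <;> rfl

omit hM hP hG in
theorem tm_mem {n : ℕ} {v : Fin n → ZFSet.{0}} (hv : ∀ i, v i ∈ M) {s : Fin n ⊕ ZFSet.{0}}
    (hs : TOver M s) : Sum.elim v id s ∈ M := by
  cases s with
  | inl i => exact hv i
  | inr a => exact hs a rfl

omit hM hP hG in
theorem comp_cons {n : ℕ} (f : ZFSet.{0} → ZFSet.{0}) (v : Fin n → ZFSet.{0}) (x : ZFSet.{0}) :
    f ∘ (Fin.cons x v : Fin (n + 1) → ZFSet.{0}) = Fin.cons (f x) (f ∘ v) := by
  funext i
  refine Fin.cases ?_ (fun i => ?_) i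
  · rfl
  · rfl

omit hM hP hG in
theorem cons_mem {α : Type*} {S : Set α} {n : ℕ} {v : Fin n → α} {x : α} (hx : x ∈ S)
    (hv : ∀ i, v i ∈ S) : ∀ i, (Fin.cons x v : Fin (n + 1) → α) i ∈ S := by
  intro i
  refine Fin.cases ?_ (fun i => ?_) i
  · exact hx
  · exact hv i

/-- The truth lemma. -/
theorem truth : {n : ℕ} → (φ : Fml ZFSet.{0} n) → φ.Over M → (v : Fin n → ZFSet.{0}) →
    (∀ i, v i ∈ M) → (Sat (ext M G) (ev G) φ (ev G ∘ v) ↔ ∃ p ∈ G, Frc P Le M φ v p)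
  | _, .mem s t, hφ, v, hv => by
    simp only [Sat, elim_ev, Frc]
    exact ev_mem_iff hM hP hG (tm_mem hv hφ.1) (tm_mem hv hφ.2)
  | _, .eq s t, hφ, v, hv => by
    simp only [Sat, elim_ev, Frc]
    exact ev_eq_iff hM hP hG (tm_mem hv hφ.1) (tm_mem hv hφ.2)
  | n, .neg φ, hφ, v, hv => by
    simp only [Sat, Frc]
    rw [truth φ hφ v hv]
    have hB := hM.base
    have hPM := hP.mem
    have hLM := hP.le_mem
    have h1 := dfn_frc1 hM hPM hLM φ hφ hv
    constructor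
    · intro h
      have hd : Dfn M M fun w : Fin 1 → ZFSet.{0} => Frc P Le M φ v (w 0) ∨
          ∀ q ∈ P, pair q (w 0) ∈ Le → ¬ Frc P Le M φ v q := by
        refine h1.or (hB.ball (DfnF.const hPM) ?_)
        refine (Dfn.mem (hB.pair' (DfnF.proj 0) (DfnF.proj 1)) (DfnF.const hLM)).imp ?_
        exact (Dfn.comp1 (Q := fun p => Frc P Le M φ v p) h1 (DfnF.proj 0)).not
      obtain ⟨p, hp, h2 | h2⟩ := gen_dense hM hP hG (Q := fun p => Frc P Le M φ v p ∨
          ∀ q ∈ P, pair q p ∈ Le → ¬ Frc P Le M φ v q) hd (by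
        intro q hq
        by_cases h2 : ∃ r ∈ P, pair r q ∈ Le ∧ Frc P Le M φ v r
        · obtain ⟨r, hr, hrq, h3⟩ := h2
          exact ⟨r, hr, hrq, Or.inl h3⟩
        · exact ⟨q, hq, hP.refl q hq, Or.inr fun r hr hrq h3 => h2 ⟨r, hr, hrq, h3⟩⟩)
      · exact absurd ⟨p, hp, h2⟩ h
      · exact ⟨p, hp, h2⟩
    · rintro ⟨p, hp, h2⟩ ⟨q, hq, h3⟩
      obtain ⟨r, hr, hrp, hrq⟩ := hG.dir p hp q hq
      exact h2 r (hG.sub hr) hrp (h3.mono hP (hG.sub hq) (hG.sub hr) hrq)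
  | _, .and φ ψ, hφ, v, hv => by
    simp only [Sat, Frc]
    rw [truth φ hφ.1 v hv, truth ψ hφ.2 v hv]
    constructor
    · rintro ⟨⟨p, hp, h1⟩, ⟨q, hq, h2⟩⟩
      obtain ⟨r, hr, hrp, hrq⟩ := hG.dir p hp q hq
      exact ⟨r, hr, h1.mono hP (hG.sub hp) (hG.sub hr) hrp,
        h2.mono hP (hG.sub hq) (hG.sub hr) hrq⟩
    · rintro ⟨p, hp, h1, h2⟩
      exact ⟨⟨p, hp, h1⟩, ⟨p, hp, h2⟩⟩
  | n, .ex φ, hφ, v, hv => by
    have ih := fun x (hx : x ∈ M) => truth φ hφ (Fin.cons x v) (cons_mem hx hv)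
    simp only [comp_cons] at ih
    simp only [Sat]
    have hB := hM.base
    have hPM := hP.mem
    have hLM := hP.le_mem
    constructor
    · rintro ⟨_, ⟨x, hx, rfl⟩, hs⟩
      obtain ⟨p, hp, h1⟩ := (ih x hx).1 hs
      exact ⟨p, hp, fun q hq hqp => ⟨q, hq, hP.refl q hq, x, hx,
        h1.mono hP (hG.sub hp) hq hqp⟩⟩
    · rintro ⟨p, hp, h1⟩
      have hd : Dfn M M fun w : Fin 1 → ZFSet.{0} =>
          ∃ x ∈ M, Frc P Le M φ (Fin.cons x v) (w 0) := by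
        refine Dfn.ex (Q := fun x w => Frc P Le M φ (Fin.cons x v) (w 0)) ?_
        refine (dfn_frc hM hPM hLM φ hφ (m := 2) (Fin.cons (fun w => w 0) fun i _ => v i) (by
          intro i
          refine Fin.cases ?_ (fun i => ?_) i
          · exact DfnF.proj 0
          · exact DfnF.const (hv i)) (H := fun w => w 1) (DfnF.proj 1)).congr fun w _ => ?_
        have h3 : (fun i => (Fin.cons (fun w => w 0) (fun i _ => v i) :
            Fin (n + 1) → (Fin 2 → ZFSet.{0}) → ZFSet.{0}) i w) = Fin.cons (w 0) v := by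
          funext i
          refine Fin.cases ?_ (fun i => ?_) i
          · rfl
          · rfl
        rw [h3]
        rfl
      obtain ⟨r, hr, -, x, hx, h2⟩ := gen_below hM hP hG
        (Q := fun p => ∃ x ∈ M, Frc P Le M φ (Fin.cons x v) p) hd hp (by
        intro q hq hqp
        obtain ⟨r, hr, hrq, x, hx, h2⟩ := h1 q hq hqp
        exact ⟨r, hr, hrq, x, hx, h2⟩)
      exact ⟨_, ⟨x, hx, rfl⟩, (ih x hx).2 ⟨r, hr, h2⟩⟩

end

end Pool.Agent.Y588
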