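import Pool.Agent.Y588.Hst

/-!
# The stability predicate is uniformly definable
-/

set_option autoImplicit false
set_option linter.unreachableTactic false
set_option linter.unusedTactic false
set_option linter.unusedSectionVars false

namespace Pool.Agent.Y588

open Pool.Agent.W868 Pool.Agent.W868.GM
open ZFSet (pair)

/-! ### Strong limit cardinals -/

theorem ur_strongLimit : UR fun M (v : Fin 1 → ZFSet.{0}) => IsStrongLimit M (v 0) := by
  have h : UR fun M (v : Fin 1 → ZFSet.{0}) => (v 0).IsOrdinal ∧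
      (∀ n ∈ M, n ∈ ZFSet.omega → n ∈ v 0) ∧ (∀ f ∈ M, ∀ β ∈ v 0, ¬ IsInj (v 0) β f) ∧
      ∀ β ∈ v 0, ∃ P ∈ M, (∀ z ∈ M, z ∈ P ↔ z ⊆ β) ∧ ∃ f ∈ M, ∃ γ ∈ v 0, IsInj P γ f := by
    apply UR.and
    · exact UR.of_d0 (D0.isOrdinal (D0v.proj 0))
    apply UR.and
    · apply UR.all
      apply UR.imp
      · -- the natural numbers
        have h1 : D0 fun w : Fin 2 → ZFSet.{0} => (w 0).IsOrdinal ∧
            (∀ z ∈ w 0, z = z) ∧ ∀ z ∈ w 0, z = z := by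
          (repeat' first
      | assumption
      | exact D0v.proj _
      | apply D0.not | apply D0.and | apply D0.expair | apply D0.or | apply D0.isPair | apply D0.pairMem
      | apply D0.bex | apply D0.ball | apply D0.imp | apply D0.iff | apply D0.subset
      | apply D0.eq | apply D0.mem | apply D0.isOrdinal)
        have h2 : UR fun M (w : Fin 2 → ZFSet.{0}) => ∃ o ∈ M, w 0 ∈ o ∧
            (∃ e ∈ o, ∀ z ∈ e, ¬ z = z) ∧ (∀ x ∈ o, ∃ y ∈ o,
              x ∈ y ∧ (∀ z ∈ y, z ∈ x ∨ z = x) ∧ ∀ z ∈ x, z ∈ y) ∧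
            (∀ x ∈ o, (∀ z ∈ x, ¬ z = z) ∨ ∃ y ∈ o,
              y ∈ x ∧ (∀ z ∈ x, z ∈ y ∨ z = y) ∧ ∀ z ∈ y, z ∈ x) := by
          apply UR.ex
          apply UR.of_d0
          (repeat' first
      | assumption
      | exact D0v.proj _
      | apply D0.not | apply D0.and | apply D0.expair | apply D0.or | apply D0.isPair | apply D0.pairMem
      | apply D0.bex | apply D0.ball | apply D0.imp | apply D0.iff | apply D0.subset
      | apply D0.eq | apply D0.mem | apply D0.isOrdinal)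
        refine h2.congr fun M hM v hv => ?_
        constructor
        · rintro ⟨o, ho, h3, -, -, h4⟩
          -- all elements of o are natural numbers
          have h5 : ∀ x : ZFSet.{0}, x ∈ o → x ∈ ZFSet.omega := by
            intro x
            induction x using ZFSet.inductionOn with
            | _ x ih =>
              intro hx
              rcases h4 x hx with h6 | ⟨y, hy, h6⟩
              · have h7 : x = ∅ := by
                  rw [ZFSet.eq_empty]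
                  exact fun z hz => h6 z hz rfl
                rw [h7]
                exact ZFSet.omega_zero
              · rw [isSc_iff] at h6
                have h7 := ih y (h6 ▸ ZFSet.mem_insert _ _) hy
                rw [h6]
                exact ZFSet.omega_succ h7
          exact h5 _ h3
        · intro h3
          refine ⟨ZFSet.omega, hM.infinity, h3, ⟨∅, ZFSet.omega_zero, fun z hz =>
            absurd hz (ZFSet.notMem_empty _)⟩, fun x hx => ⟨sc x, ZFSet.omega_succ hx,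
              isSc_iff.2 rfl⟩, fun x hx => ?_⟩
          obtain ⟨n, rfl⟩ := mem_omega_iff.1 hx
          cases n with
          | zero => exact Or.inl fun z hz => absurd hz (ZFSet.notMem_empty _)
          | succ n => exact Or.inr ⟨nat n, nat_mem_omega n, isSc_iff.2 rfl⟩
      · exact UR.of_d0 (D0.mem (D0v.proj 0) (D0v.proj 1))
    apply UR.and
    · apply UR.all
      apply UR.of_d0
      apply D0.ball (D0v.proj 1)
      exact (d0_isInj.comp ![2, 0, 1]).not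
    · apply UR.ball
      apply UR.ex
      apply UR.and
      · apply UR.all
        apply UR.of_d0
        exact (D0.mem (D0v.proj 0) (D0v.proj 1)).iff (D0.subset (D0v.proj 0) (D0v.proj 2))
      · apply UR.ex
        apply UR.of_d0
        apply D0.bex (D0v.proj 3)
        exact d0_isInj.comp ![2, 0, 1]
  refine h.congr fun M hM v hv => ?_
  constructor
  · rintro ⟨h1, h2, h3, h4⟩
    refine ⟨hv 0, h1, fun n hn => h2 n (hM.trans _ hM.infinity _ hn) hn,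
      fun β hβ ⟨f, hf, h5⟩ => h3 f hf β hβ h5, fun β hβ => ?_⟩
    obtain ⟨P, hP, h5, f, hf, γ, hγ, h6⟩ := h4 β hβ
    exact ⟨P, hP, fun z => ⟨fun hz => ⟨hM.trans _ hP _ hz, (h5 z (hM.trans _ hP _ hz)).1 hz⟩,
      fun hz => (h5 z hz.1).2 hz.2⟩, γ, hγ, f, hf, h6⟩
  · rintro ⟨h0, h1, h2, h3, h4⟩
    refine ⟨h1, fun n _ hn => h2 hn, fun f hf β hβ h5 => h3 β hβ ⟨f, hf, h5⟩, fun β hβ => ?_⟩
    obtain ⟨P, hP, h5, γ, hγ, f, hf, h6⟩ := h4 β hβ
    exact ⟨P, hP, fun z hz => ⟨fun h => ((h5 z).1 h).2, fun h => (h5 z).2 ⟨hz, h⟩⟩, f, hf, γ,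
      hγ, h6⟩

/-! ### Elementarity and collection, with families of relations -/

def ElG (F K C : ZFSet.{0}) : Prop :=
  ∀ q ∈ C, ¬ ∃ l r, q = pair l r ∧ ∃ R R', r = pair R R' ∧ l = K ∧ ∃ s ∈ F, ¬ (s ∈ R ↔ s ∈ R')

def CoG (o e X F K C : ZFSet.{0}) : Prop :=
  ∀ q ∈ C, ¬ ∃ l r, q = pair l r ∧ ∃ R R', r = pair R R' ∧ l = K ∧ ∃ s ∈ F, ∃ a ∈ X,
    (∀ x ∈ a, ∃ y ∈ X, ∃ t ∈ F, IsCns o e X t x s ∧ ∃ t' ∈ R, IsCns o e X t' y t) ∧
    ∀ b ∈ X, ∃ x ∈ a, ∀ y ∈ b, ¬ ∃ t ∈ F, IsCns o e X t x s ∧ ∃ t' ∈ R, IsCns o e X t' y t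

theorem d0_ElG : D0 fun v : Fin 3 → ZFSet.{0} => ElG (v 0) (v 1) (v 2) := by
  unfold ElG
  (repeat' first
      | assumption
      | exact D0v.proj _
      | apply D0.not | apply D0.and | apply D0.expair | apply D0.or | apply D0.isPair | apply D0.pairMem
      | apply D0.bex | apply D0.ball | apply D0.imp | apply D0.iff | apply D0.subset
      | apply D0.eq | apply D0.mem | apply D0.isOrdinal)

theorem d0_CoG : D0 fun v : Fin 6 → ZFSet.{0} =>
    CoG (v 0) (v 1) (v 2) (v 3) (v 4) (v 5) := by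
  unfold CoG
  -- t y x a s R' R r l q | o e X F K C
  have h1 : D0 fun v : Fin 16 → ZFSet.{0} => IsCns (v 10) (v 11) (v 12) (v 0) (v 2) (v 4) :=
    d0_isCns.comp ![10, 11, 12, 0, 2, 4]
  have h2 : D0 fun v : Fin 17 → ZFSet.{0} => IsCns (v 11) (v 12) (v 13) (v 0) (v 2) (v 1) :=
    d0_isCns.comp ![11, 12, 13, 0, 2, 1]
  -- t y x b a s R' R r l q | o e X F K C
  have h3 : D0 fun v : Fin 17 → ZFSet.{0} => IsCns (v 11) (v 12) (v 13) (v 0) (v 2) (v 5) :=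
    d0_isCns.comp ![11, 12, 13, 0, 2, 5]
  have h4 : D0 fun v : Fin 18 → ZFSet.{0} => IsCns (v 12) (v 13) (v 14) (v 0) (v 2) (v 1) :=
    d0_isCns.comp ![12, 13, 14, 0, 2, 1]
  (repeat' first
      | exact h1
      | exact h2
      | exact h3
      | exact h4
      | exact D0v.proj _
      | apply D0.not | apply D0.and | apply D0.expair | apply D0.or | apply D0.isPair | apply D0.pairMem
      | apply D0.bex | apply D0.ball | apply D0.imp | apply D0.iff | apply D0.subset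
      | apply D0.eq | apply D0.mem | apply D0.isOrdinal)

/-- Elementarity. -/
def ElI (M : Set ZFSet.{0}) (o e X Y F F' K : ZFSet.{0}) : Prop :=
  X ⊆ Y ∧ ∃ C ∈ M, (∀ q ∈ M, Rule o e X Y F F' K C q → q ∈ C) ∧ ElG F K C

/-- Collection. -/
def CoI (M : Set ZFSet.{0}) (o e X F K : ZFSet.{0}) : Prop :=
  ∃ C ∈ M, (∀ q ∈ M, Rule o e X X F F K C q → q ∈ C) ∧ CoG o e X F K C

theorem ur_ElI : UR fun M (v : Fin 7 → ZFSet.{0}) =>
    ElI M (v 0) (v 1) (v 2) (v 3) (v 4) (v 5) (v 6) := by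
  apply UR.and
  · exact UR.of_d0 (D0.subset (D0v.proj 2) (D0v.proj 3))
  · apply UR.ex
    apply UR.and
    · apply UR.all
      apply UR.imp
      · exact UR.of_d0 (d0_Rule.comp ![2, 3, 4, 5, 6, 7, 8, 1, 0])
      · exact UR.of_d0 (D0.mem (D0v.proj 0) (D0v.proj 1))
    · exact UR.of_d0 (d0_ElG.comp ![5, 7, 0])

theorem ur_CoI : UR fun M (v : Fin 5 → ZFSet.{0}) =>
    CoI M (v 0) (v 1) (v 2) (v 3) (v 4) := by
  apply UR.ex
  apply UR.and
  · apply UR.all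
    apply UR.imp
    · exact UR.of_d0 (d0_Rule.comp ![2, 3, 4, 4, 5, 5, 6, 1, 0])
    · exact UR.of_d0 (D0.mem (D0v.proj 0) (D0v.proj 1))
  · exact UR.of_d0 (d0_CoG.comp ![1, 2, 3, 4, 5, 0])

section sem

variable {M : Set ZFSet.{0}} (hM : IsZF M) {X Y : ZFSet.{0}} (hX : X ∈ M) (hY : Y ∈ M)
  (k : ℕ)

include hM hX hY

theorem elI_iff (hne : ∃ x, x ∈ X) :
    ElI M ZFSet.omega ∅ X Y (fnX M X) (fnX M Y) (nat k) ↔
      Elem k {x | x ∈ X} {x | x ∈ Y} := by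
  have hsub : X ⊆ Y → ∀ s ∈ fnX M X, s ∈ fnX M Y := by
    intro h s hs
    obtain ⟨h1, h2⟩ := mem_fnX.1 hs
    refine mem_fnX.2 ⟨h1, fun p hp => ?_, h2.2⟩
    obtain ⟨a, ha, b, hb, rfl⟩ := ZFSet.mem_prod.1 (h2.1 hp)
    exact ZFSet.pair_mem_prod.2 ⟨ha, h hb⟩
  constructor
  · rintro ⟨h1, C, hC, h2, h3⟩
    refine ⟨h1, fun m φ hφ v hv => ?_⟩
    obtain ⟨x₀, hx₀⟩ := hne
    obtain ⟨s, hs, rfl⟩ := exists_asg hM hX hx₀ v hv
    have h4 := closed_mem hM hX hY h2 hφ le_rfl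
    by_contra hcon
    refine h3 _ h4 ⟨_, _, rfl, _, _, rfl, rfl, s, hs, fun h5 => hcon ?_⟩
    rw [mem_DD, mem_DD] at h5
    constructor
    · exact fun h6 => (h5.1 ⟨hs, h6⟩).2
    · exact fun h6 => (h5.2 ⟨hsub h1 s hs, h6⟩).2
  · rintro ⟨h1, h2⟩
    obtain ⟨C, hC, h3, h4⟩ := exists_closed (k := k) hM hX hY
    refine ⟨h1, C, hC, h3, ?_⟩
    rintro q hq ⟨l, r, rfl, R, R', rfl, rfl, s, hs, h5⟩
    obtain ⟨j, hj, n, φ, hφ, h6⟩ := h4 _ hq
    obtain ⟨h7, h8⟩ := ZFSet.pair_inj.1 h6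
    obtain ⟨rfl, rfl⟩ := ZFSet.pair_inj.1 h8
    obtain rfl := nat_injective h7
    apply h5
    rw [mem_DD, mem_DD]
    have h9 := h2 n φ hφ (vl s n) (vl_mem (mem_fnX.1 hs).2 n)
    constructor
    · exact fun h => ⟨hsub h1 s hs, h9.1 h.2⟩
    · exact fun h => ⟨hs, h9.2 h.2⟩

omit hY in
theorem cc_iff {m : ℕ} {φ : Fml Empty (m + 2)} {s x y : ZFSet.{0}} (hs : s ∈ fnX M X)
    (hx : x ∈ X) (hy : y ∈ X) : (∃ t ∈ fnX M X, IsCns ZFSet.omega ∅ X t x s ∧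
      ∃ t' ∈ DD M X φ, IsCns ZFSet.omega ∅ X t' y t) ↔
      Sat {x | x ∈ X} Empty.elim φ (Fin.cons y (Fin.cons x (vl s m))) := by
  have hf := (mem_fnX.1 hs).2
  have h1 := cns_mem hM hx hs hX
  have hf1 := (mem_fnX.1 h1).2
  have h2 := cns_mem hM hy h1 hX
  have hf2 := (mem_fnX.1 h2).2
  constructor
  · rintro ⟨t, ht, h3, t', ht', h4⟩
    rw [isCns_iff hf hx (mem_fnX.1 ht).2] at h3
    subst h3
    rw [mem_DD] at ht'
    rw [isCns_iff hf1 hy (mem_fnX.1 ht'.1).2] at h4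
    subst h4
    have h5 := ht'.2
    rwa [vl_cns hf1 hy, vl_cns hf hx] at h5
  · intro h
    refine ⟨_, h1, (isCns_iff hf hx hf1).2 rfl, _, mem_DD.2 ⟨h2, ?_⟩,
      (isCns_iff hf1 hy hf2).2 rfl⟩
    rwa [vl_cns hf1 hy, vl_cns hf hx]

omit hY in
theorem coI_iff (hXt : ∀ x ∈ X, ∀ y ∈ x, y ∈ X) :
    CoI M ZFSet.omega ∅ X (fnX M X) (nat k) ↔ Collection k {x | x ∈ X} := by
  constructor
  · rintro ⟨C, hC, h2, h3⟩
    intro m φ hφ p hp a ha h
    obtain ⟨s, hs, rfl⟩ := exists_asg hM hX ha p hp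
    have h4 := closed_mem hM hX hX h2 hφ le_rfl
    by_contra hcon
    refine h3 _ h4 ⟨_, _, rfl, _, _, rfl, rfl, s, hs, a, ha, fun x hx => ?_, fun b hb => ?_⟩
    · obtain ⟨y, hy, h5⟩ := h x hx
      exact ⟨y, hy, (cc_iff hM hX hs (hXt a ha x hx) hy).2 h5⟩
    · by_contra h5
      apply hcon
      refine ⟨b, hb, fun x hx => ?_⟩
      by_contra h6
      apply h5
      refine ⟨x, hx, fun y hy h7 => h6 ⟨y, hy, ?_⟩⟩
      exact (cc_iff hM hX hs (hXt a ha x hx) (hXt b hb y hy)).1 h7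
  · intro h2
    obtain ⟨C, hC, h3, h4⟩ := exists_closed (k := k) hM hX hX
    refine ⟨C, hC, h3, ?_⟩
    rintro q hq ⟨l, r, rfl, R, R', rfl, rfl, s, hs, a, ha, h5, h5'⟩
    obtain ⟨j, hj, n, φ, hφ, h6⟩ := h4 _ hq
    obtain ⟨h7, h8⟩ := ZFSet.pair_inj.1 h6
    obtain ⟨rfl, rfl⟩ := ZFSet.pair_inj.1 h8
    obtain rfl := nat_injective h7
    obtain ⟨φ', hφ', h9⟩ := exists_wk (show n ≤ n + 2 by omega) hφ
    rw [← h9] at h5 h5'
    obtain ⟨b, hb, h10⟩ := h2 n φ' hφ' (vl s n) (vl_mem (mem_fnX.1 hs).2 n) a ha (by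
      intro x hx
      obtain ⟨y, hy, h11⟩ := h5 x hx
      exact ⟨y, hy, (cc_iff hM hX hs (hXt a ha x hx) hy).1 h11⟩)
    obtain ⟨x, hx, h11⟩ := h5' b hb
    obtain ⟨y, hy, h12⟩ := h10 x hx
    exact h11 y hy ((cc_iff hM hX hs (hXt a ha x hx) (hXt b hb y hy)).2 h12)

end sem

/-! ### The stability predicate -/

/-- The set of natural numbers. -/
theorem d0_omega : D0 fun v : Fin 1 → ZFSet.{0} => v 0 = ZFSet.omega := by
  have h : D0 fun w : Fin 1 → ZFSet.{0} =>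
      (∃ e ∈ w 0, ∀ z ∈ e, ¬ z = z) ∧ (∀ x ∈ w 0, ∃ y ∈ w 0,
        x ∈ y ∧ (∀ z ∈ y, z ∈ x ∨ z = x) ∧ ∀ z ∈ x, z ∈ y) ∧
      (∀ x ∈ w 0, (∀ z ∈ x, ¬ z = z) ∨ ∃ y ∈ w 0,
        y ∈ x ∧ (∀ z ∈ x, z ∈ y ∨ z = y) ∧ ∀ z ∈ y, z ∈ x) := by
    (repeat' first
      | assumption
      | exact D0v.proj _
      | apply D0.not | apply D0.and | apply D0.expair | apply D0.or | apply D0.isPair | apply D0.pairMem
      | apply D0.bex | apply D0.ball | apply D0.imp | apply D0.iff | apply D0.subset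
      | apply D0.eq | apply D0.mem | apply D0.isOrdinal)
  refine h.congr fun v => ?_
  have hempty : ∀ x : ZFSet.{0}, (∀ z ∈ x, ¬ z = z) → x = ∅ := by
    intro x hx
    rw [ZFSet.eq_empty]
    exact fun z hz => hx z hz rfl
  constructor
  · rintro ⟨⟨e, he, h1⟩, h2, h3⟩
    have h5 : ∀ x : ZFSet.{0}, x ∈ v 0 → x ∈ ZFSet.omega := by
      intro x
      induction x using ZFSet.inductionOn with
      | _ x ih =>
        intro hx
        rcases h3 x hx with h6 | ⟨y, hy, h6⟩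
        · rw [hempty x h6]
          exact ZFSet.omega_zero
        · rw [isSc_iff] at h6
          have h7 := ih y (h6 ▸ ZFSet.mem_insert _ _) hy
          rw [h6]
          exact ZFSet.omega_succ h7
    have h6 : ∀ n : ℕ, nat n ∈ v 0 := by
      intro n
      induction n with
      | zero =>
        rw [hempty e h1] at he
        exact he
      | succ n ih =>
        obtain ⟨y, hy, h7⟩ := h2 _ ih
        rw [isSc_iff] at h7
        rw [← sc_nat, ← h7]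
        exact hy
    ext z
    refine ⟨h5 z, fun hz => ?_⟩
    obtain ⟨n, rfl⟩ := mem_omega_iff.1 hz
    exact h6 n
  · intro h0
    rw [h0]
    refine ⟨⟨∅, ZFSet.omega_zero, fun z hz => absurd hz (ZFSet.notMem_empty _)⟩, fun x hx =>
      ⟨sc x, ZFSet.omega_succ hx, isSc_iff.2 rfl⟩, fun x hx => ?_⟩
    obtain ⟨n, rfl⟩ := mem_omega_iff.1 hx
    cases n with
    | zero => exact Or.inl fun z hz => absurd hz (ZFSet.notMem_empty _)
    | succ n => exact Or.inr ⟨nat n, nat_mem_omega n, isSc_iff.2 rfl⟩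

theorem d0_empty : D0 fun v : Fin 1 → ZFSet.{0} => v 0 = ∅ := by
  have h : D0 fun v : Fin 1 → ZFSet.{0} => ∀ z ∈ v 0, ¬ z = z := by
    apply D0.ball (D0v.proj 0)
    exact (D0.eq (D0v.proj 0) (D0v.proj 0)).not
  refine h.congr fun v => ?_
  rw [ZFSet.eq_empty]
  exact ⟨fun h z hz => h z hz rfl, fun h z hz => absurd hz (h z)⟩

/-- The internal definition of the stability predicate. -/
def StI (M : Set ZFSet.{0}) (x : ZFSet.{0}) : Prop :=
  ∃ o ∈ M, o = ZFSet.omega ∧ ∃ e ∈ M, e = ∅ ∧ ∃ K ∈ M, K ∈ o ∧ ¬ K = e ∧ ∃ α ∈ M, ∃ β ∈ M,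
    ∃ y ∈ M, y = pair α β ∧ x = pair K y ∧ IsStrongLimit M α ∧ IsStrongLimit M β ∧
    ∃ X ∈ M, (∀ z ∈ M, z ∈ X ↔ z ∈ HM M α) ∧ ∃ Y ∈ M, (∀ z ∈ M, z ∈ Y ↔ z ∈ HM M β) ∧
    ∃ F ∈ M, (∀ s ∈ M, s ∈ F ↔ ZFSet.IsFunc o X s) ∧
    ∃ F' ∈ M, (∀ s ∈ M, s ∈ F' ↔ ZFSet.IsFunc o Y s) ∧
    CoI M o e X F K ∧ CoI M o e Y F' K ∧ ElI M o e X Y F F' K

theorem ur_StI : UR fun M (v : Fin 1 → ZFSet.{0}) => StI M (v 0) := by
  unfold StI
  apply UR.ex
  apply UR.and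
  · exact UR.of_d0 (d0_omega.comp ![0])
  apply UR.ex
  apply UR.and
  · exact UR.of_d0 (d0_empty.comp ![0])
  apply UR.ex
  -- v = K e o x
  apply UR.and
  · exact UR.of_d0 (D0.mem (D0v.proj 0) (D0v.proj 2))
  apply UR.and
  · exact UR.of_d0 (D0.eq (D0v.proj 0) (D0v.proj 1)).not
  apply UR.ex
  apply UR.ex
  apply UR.ex
  -- v = y β α K e o x
  apply UR.and
  · exact UR.of_d0 (D0.isPair (D0v.proj 0) (D0v.proj 2) (D0v.proj 1))
  apply UR.and
  · exact UR.of_d0 (D0.isPair (D0v.proj 6) (D0v.proj 3) (D0v.proj 0))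
  apply UR.and
  · exact ur_strongLimit.comp ![2]
  apply UR.and
  · exact ur_strongLimit.comp ![1]
  apply UR.ex
  apply UR.and
  -- v = X y β α K e o x
  · apply UR.all
    apply UR.iff
    · exact UR.of_d0 (D0.mem (D0v.proj 0) (D0v.proj 1))
    · exact ur_HM.comp ![0, 4]
  apply UR.ex
  apply UR.and
  -- v = Y X y β α K e o x
  · apply UR.all
    apply UR.iff
    · exact UR.of_d0 (D0.mem (D0v.proj 0) (D0v.proj 1))
    · exact ur_HM.comp ![0, 4]
  apply UR.ex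
  apply UR.and
  -- v = F Y X y β α K e o x
  · apply UR.all
    apply UR.iff
    · exact UR.of_d0 (D0.mem (D0v.proj 0) (D0v.proj 1))
    · exact UR.of_d0 (d0_isFunc.comp ![9, 3, 0])
  apply UR.ex
  apply UR.and
  -- v = F' F Y X y β α K e o x
  · apply UR.all
    apply UR.iff
    · exact UR.of_d0 (D0.mem (D0v.proj 0) (D0v.proj 1))
    · exact UR.of_d0 (d0_isFunc.comp ![10, 3, 0])
  apply UR.and
  · exact ur_CoI.comp ![9, 8, 3, 1, 7]
  apply UR.and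
  · exact ur_CoI.comp ![9, 8, 2, 0, 7]
  · exact ur_ElI.comp ![9, 8, 3, 2, 1, 0, 7]

theorem empty_HM {M : Set ZFSet.{0}} (hM : IsZF M) {α : ZFSet.{0}} (h : ZFSet.omega ⊆ α) :
    ∅ ∈ HM M α := by
  refine ⟨hM.empty_mem, ∅, hM.empty_mem, fun y hy => absurd hy (ZFSet.notMem_empty _),
    fun y hy => hy, ∅, h ZFSet.omega_zero, ∅, hM.empty_mem, ⟨fun y hy =>
      absurd hy (ZFSet.notMem_empty _), fun z hz => absurd hz (ZFSet.notMem_empty _)⟩,
      fun a b c h => absurd h (ZFSet.notMem_empty _)⟩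

theorem stI_iff {M : Set ZFSet.{0}} (hM : IsZF M) (x : ZFSet.{0}) : StI M x ↔ x ∈ Stab M := by
  have hHM : ∀ {α X : ZFSet.{0}}, X ∈ M → (∀ z ∈ M, z ∈ X ↔ z ∈ HM M α) →
      {x | x ∈ X} = HM M α := by
    intro α X hX h
    ext z
    exact ⟨fun hz => (h z (hM.trans _ hX _ hz)).1 hz, fun hz => (h z hz.1).2 hz⟩
  have hF : ∀ {X F : ZFSet.{0}}, X ∈ M → F ∈ M →
      (∀ s ∈ M, s ∈ F ↔ ZFSet.IsFunc ZFSet.omega X s) → F = fnX M X := by
    intro X F hX hF h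
    ext z
    rw [mem_fnX]
    exact ⟨fun hz => ⟨hM.trans _ hF _ hz, (h z (hM.trans _ hF _ hz)).1 hz⟩,
      fun hz => (h z hz.1).2 hz.2⟩
  constructor
  · rintro ⟨o, -, rfl, e, -, rfl, K, -, hK, hK0, α, hα, β, hβ, y, hy, rfl, rfl, h1, h2, X, hX,
      h3, Y, hY, h4, F, hF1, h5, F', hF1', h6, h7, h8, h9⟩
    obtain ⟨k, rfl⟩ := mem_omega_iff.1 hK
    obtain rfl := hF hX hF1 h5
    obtain rfl := hF hY hF1' h6
    have h10 := hHM hX h3
    have h11 := hHM hY h4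
    have hXt : ∀ x ∈ X, ∀ y ∈ x, y ∈ X := by
      intro x hx y hy
      have hx' : x ∈ HM M α := h10 ▸ hx
      have h12 : y ∈ HM M α := HM_trans hM x hx' y hy
      exact (h3 y h12.1).2 h12
    have hYt : ∀ x ∈ Y, ∀ y ∈ x, y ∈ Y := by
      intro x hx y hy
      have hx' : x ∈ HM M β := h11 ▸ hx
      have h12 : y ∈ HM M β := HM_trans hM x hx' y hy
      exact (h4 y h12.1).2 h12
    have hne : ∃ x, x ∈ X := ⟨∅, (h3 ∅ hM.empty_mem).2 (empty_HM hM h1.2.2.1)⟩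
    refine ⟨k, α, β, ?_, rfl, ⟨h1, ?_⟩, ⟨h2, ?_⟩, ?_⟩
    · rcases Nat.eq_zero_or_pos k with rfl | h
      · exact absurd rfl hK0
      · exact h
    · rw [← h10]
      exact (coI_iff hM hX k hXt).1 h7
    · rw [← h11]
      exact (coI_iff hM hY k hYt).1 h8
    · rw [← h10, ← h11]
      exact (elI_iff hM hX hY k hne).1 h9
  · rintro ⟨k, α, β, hk, rfl, ⟨h1, h2⟩, ⟨h3, h4⟩, h5⟩
    have hα := h1.1
    have hβ := h3.1
    obtain ⟨X, hX, h6⟩ := exists_HM hM hα h1.2.1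
    obtain ⟨Y, hY, h7⟩ := exists_HM hM hβ h3.2.1
    have h10 : {x | x ∈ X} = HM M α := Set.ext h6
    have h11 : {x | x ∈ Y} = HM M β := Set.ext h7
    have hXt : ∀ x ∈ X, ∀ y ∈ x, y ∈ X := fun x hx y hy =>
      (h6 y).2 (HM_trans hM x ((h6 x).1 hx) y hy)
    have hYt : ∀ x ∈ Y, ∀ y ∈ x, y ∈ Y := fun x hx y hy =>
      (h7 y).2 (HM_trans hM x ((h7 x).1 hx) y hy)
    have hne : ∃ x, x ∈ X := ⟨∅, (h6 ∅).2 (empty_HM hM h1.2.2.1)⟩
    rw [← h10] at h2 h5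
    rw [← h11] at h4 h5
    refine ⟨ZFSet.omega, hM.infinity, rfl, ∅, hM.empty_mem, rfl, nat k, hM.nat_mem k,
      nat_mem_omega k, ?_, α, hα, β, hβ, _, hM.pair_mem hα hβ, rfl, rfl, h1, h3, X, hX,
      fun z _ => h6 z, Y, hY, fun z _ => h7 z, fnX M X, fnX_mem hM hX,
      fun s hs => by rw [mem_fnX]; exact ⟨fun h => h.2, fun h => ⟨hs, h⟩⟩,
      fnX M Y, fnX_mem hM hY, fun s hs => by rw [mem_fnX]; exact ⟨fun h => h.2, fun h => ⟨hs, h⟩⟩,
      (coI_iff hM hX k hXt).2 h2, (coI_iff hM hY k hYt).2 h4, (elI_iff hM hX hY k hne).2 h5⟩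
    intro h
    obtain rfl : k = 0 := nat_injective (h.trans rfl)
    omega

/-- The stability predicate is uniformly definable. -/
theorem ur_stab : UR fun M (v : Fin 1 → ZFSet.{0}) => v 0 ∈ Stab M :=
  ur_StI.congr fun M hM v _ => stI_iff hM (v 0)

end Pool.Agent.Y588
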